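import Pool.Agent.Helper68X.Stm5

/-!
# Piece AE of project JET: almost every point has density zero for the set where the density differs
-/

set_option autoImplicit false

namespace Pool.Agent.Helper68X

open MeasureTheory Set Filter Topology Metric Pool.Agent.TH337.VF Pool.Agent.Helper68V
open scoped ENNReal RealInnerProductSpace ContDiff

namespace AEx

variable {N m : ℕ} {U : Set (E N)} {μ : Measure (E N)} {P : E N → E N →L[ℝ] E N}

/-- upper semicontinuity of the density -/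
lemma usc (hS : Stat m U μ P) (hU : IsOpen U) {x₀ : E N} (hx₀ : x₀ ∈ U) {q : ℝ≥0∞} (hq : q ≠ ⊤)
    (hx : ∀ δ : ℝ, 0 < δ → ∃ x ∈ ball x₀ δ, q ≤ density m μ x) : q ≤ density m μ x₀ := by
  obtain ⟨ε, hε, hsub⟩ := Metric.isOpen_iff.1 hU x₀ hx₀
  unfold density
  apply le_limsup_of_frequently_le
  · apply Eventually.frequently
    filter_upwards [Ioc_mem_nhdsGT hε] with r hr
    have h1 := lower hS hq hx ((ball_subset_ball hr.2).trans hsub) hr.1
    have hω := omega_pos m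
    have hr' : ENNReal.ofReal r ≠ 0 := (ENNReal.ofReal_pos.2 hr.1).ne'
    have hrm : volume (ball (0 : EuclideanSpace ℝ (Fin m)) 1) * ENNReal.ofReal r ^ m ≠ 0 :=
      mul_ne_zero hω (pow_ne_zero _ hr')
    have hrm' : volume (ball (0 : EuclideanSpace ℝ (Fin m)) 1) * ENNReal.ofReal r ^ m ≠ ⊤ :=
      ENNReal.mul_ne_top (omega_lt m) (ENNReal.pow_ne_top ENNReal.ofReal_ne_top)
    rw [ENNReal.le_div_iff_mul_le (Or.inl hrm) (Or.inl hrm')]
    exact h1
  · isBoundedDefault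

/-- the set of the points of density at least `q` is measurable -/
lemma meas (hS : Stat m U μ P) (hU : IsOpen U) {q : ℝ≥0∞} (hq : q ≠ ⊤) :
    MeasurableSet {x | x ∈ U ∧ q ≤ density m μ x} := by
  have h : {x | x ∈ U ∧ q ≤ density m μ x} = U ∩ closure {x | x ∈ U ∧ q ≤ density m μ x} := by
    apply Set.Subset.antisymm
    · intro x hx
      exact ⟨hx.1, subset_closure hx⟩
    · rintro x ⟨hxU, hx⟩
      refine ⟨hxU, usc hS hU hxU hq fun δ hδ => ?_⟩
      obtain ⟨y, hy, hyd⟩ := Metric.mem_closure_iff.1 hx δ hδ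
      exact ⟨y, by rw [mem_ball, dist_comm]; exact hyd, hy.2⟩
  rw [h]
  exact hU.measurableSet.inter isClosed_closure.measurableSet

lemma upperDens_mono {S S' : Set (E N)} (h : S ⊆ S') (z : E N) :
    upperDens m μ S z ≤ upperDens m μ S' z := by
  unfold upperDens
  apply limsup_le_limsup
  · filter_upwards with r
    exact ENNReal.div_le_div_right (measure_mono (inter_subset_inter_right _ h)) _
  · isBoundedDefault
  · isBoundedDefault

end AEx

open AEx in
theorem t_AE : S_AE := by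
  intro N m U μ T hm hU hV hk
  have hS := Pub.toStat hV
  let M : ℕ → Set (E N) := fun k => {x | x ∈ U ∧ (k : ℝ≥0∞) ≤ density m μ x} \
    ⋃ j : ℕ, {x | x ∈ U ∧ (k : ℝ≥0∞) + ((j : ℝ≥0∞) + 1)⁻¹ ≤ density m μ x}
  have hM : ∀ k, MeasurableSet (M k) := by
    intro k
    refine (meas hS hU (ENNReal.natCast_ne_top k)).diff (MeasurableSet.iUnion fun j => ?_)
    refine meas hS hU (ENNReal.add_ne_top.2 ⟨ENNReal.natCast_ne_top k, ?_⟩)
    rw [Ne, ENNReal.inv_eq_top]
    simp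
  have hMd : ∀ k x, x ∈ M k → density m μ x = k := by
    rintro k x ⟨⟨hxU, hx1⟩, hx2⟩
    apply le_antisymm _ hx1
    by_contra hlt
    rw [not_le] at hlt
    apply hx2
    rw [Set.mem_iUnion]
    -- some `1 / (j + 1)` is small
    have h1 : (0 : ℝ≥0∞) < density m μ x - k := tsub_pos_of_lt hlt
    obtain ⟨j, hj⟩ := ENNReal.exists_inv_nat_lt h1.ne'
    refine ⟨j, hxU, ?_⟩
    have h2 : ((j : ℝ≥0∞) + 1)⁻¹ ≤ density m μ x - k :=
      (ENNReal.inv_le_inv.2 le_self_add).trans hj.le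
    calc (k : ℝ≥0∞) + ((j : ℝ≥0∞) + 1)⁻¹ ≤ k + (density m μ x - k) := by gcongr
      _ = density m μ x := add_tsub_cancel_of_le hlt.le
  have hdM : ∀ (k : ℕ) x, x ∈ U → density m μ x = k → x ∈ M k := by
    intro k x hxU hx
    refine ⟨⟨hxU, hx.ge⟩, ?_⟩
    rw [Set.mem_iUnion]
    rintro ⟨j, -, hj⟩
    rw [hx] at hj
    have h1 : (0 : ℝ≥0∞) < ((j : ℝ≥0∞) + 1)⁻¹ := by
      rw [ENNReal.inv_pos]
      exact ENNReal.add_ne_top.2 ⟨ENNReal.natCast_ne_top j, ENNReal.one_ne_top⟩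
    have h2 : (k : ℝ≥0∞) < k + ((j : ℝ≥0∞) + 1)⁻¹ :=
      ENNReal.lt_add_right (ENNReal.natCast_ne_top k) h1.ne'
    exact absurd hj (not_le.2 h2)
  have h1 : ∀ᵐ x ∂(μ.restrict U), ∀ k, x ∈ M k → upperDens m μ (M k)ᶜ x = 0 := by
    rw [ae_all_iff]
    intro k
    exact Helper68V.ae_upperDens_zero hS hU (hM k)
  filter_upwards [h1, hk, ae_restrict_mem hU.measurableSet] with x hx1 hx2 hxU
  obtain ⟨k, -, hxk⟩ := hx2
  have h2 := hx1 k (hdM k x hxU hxk)
  apply le_antisymm _ zero_le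
  rw [← h2]
  apply upperDens_mono
  intro z hz hzM
  apply hz
  rw [hMd k z hzM, hxk]

end Pool.Agent.Helper68X
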