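import Pool.Agent.Helper68X.Stm

/-!
# Project JET, piece DEN: smooth mass ratios (layer cake formula)
-/

set_option autoImplicit false

namespace Pool.Agent.Helper68X

open MeasureTheory Set Filter Topology Metric Pool.Agent.TH337.VF
open scoped ENNReal RealInnerProductSpace ContDiff

namespace Den

theorem ex : ∃ f : ℝ → ℝ, Ker f := by
  refine ⟨fun u => expNegInvGlue (1 - u), ?_, ?_, ?_, ?_⟩
  · exact expNegInvGlue.contDiff.comp (contDiff_const.sub contDiff_id)
  · intro u
    have h : Antitone fun u : ℝ => expNegInvGlue (1 - u) :=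
      fun a b hab => expNegInvGlue.monotone (by linarith)
    exact h.deriv_nonpos
  · intro u hu
    exact expNegInvGlue.zero_of_nonpos (by linarith)
  · have : (0 : ℝ) < 1 - 0 := by norm_num
    exact expNegInvGlue.pos_of_pos this

variable {f : ℝ → ℝ}

theorem diff (hf : Ker f) : Differentiable ℝ f := hf.smooth.differentiable (by simp)

theorem dcont (hf : Ker f) : Continuous (deriv f) := hf.smooth.continuous_deriv (by simp)

theorem nonneg (hf : Ker f) (u : ℝ) : 0 ≤ f u := by
  have h : Antitone f := antitone_of_deriv_nonpos (diff hf) hf.anti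
  have h1 : f (max u 1) ≤ f u := h (le_max_left _ _)
  rwa [hf.zero _ (le_max_right _ _)] at h1

theorem cpos (m : ℕ) (hm : 1 ≤ m) (hf : Ker f) : 0 < cf m f := by
  obtain ⟨c, hc, hc'⟩ := exists_deriv_eq_slope f (zero_lt_one' ℝ) (diff hf).continuous.continuousOn
    (diff hf).differentiableOn
  have h1 : deriv f c = - f 0 := by rw [hc', hf.zero 1 le_rfl]; simp
  have hmm : (0 : ℝ) < (m : ℝ) / 2 := by positivity
  unfold cf
  refine intervalIntegral.integral_pos zero_lt_one ?_ ?_ ?_
  · refine ((dcont hf).neg.mul (Real.continuous_rpow_const hmm.le)).continuousOn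
  · intro x hx
    exact mul_nonneg (by linarith [hf.anti x]) (Real.rpow_nonneg hx.1.le _)
  · refine ⟨c, Ioo_subset_Icc_self hc, ?_⟩
    rw [h1]
    exact mul_pos (by linarith [hf.pos]) (Real.rpow_pos_of_pos hc.1 _)

theorem layer {N : ℕ} (ν : Measure (E N)) (a : E N) (t : ℝ) [IsFiniteMeasure ν] (hf : Ker f) (ht : 0 < t) :
    IntegrableOn (fun v => -deriv f v * ν.real (ball a (t * √v))) (Ioc 0 1) ∧
    ∫ y, f (‖y - a‖ ^ 2 / t ^ 2) ∂ν = ∫ v in Ioc (0:ℝ) 1, -deriv f v * ν.real (ball a (t * √v)) := by
  set F : E N → ℝ → ℝ := fun y v => (Ioi (‖y - a‖ ^ 2 / t ^ 2)).indicator (fun v => -deriv f v) v with hF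
  have hint : Integrable (Function.uncurry F) (ν.prod (volume.restrict (Ioc (0:ℝ) 1))) := by
    have h1 : Integrable (fun v => -deriv f v) (volume.restrict (Ioc (0:ℝ) 1)) :=
      ((dcont hf).neg.integrableOn_Icc (a := 0) (b := 1)).mono_set Ioc_subset_Icc_self
    have h2 := h1.comp_snd ν
    have hS : MeasurableSet {p : E N × ℝ | ‖p.1 - a‖ ^ 2 / t ^ 2 < p.2} := by
      apply measurableSet_lt
      · fun_prop
      · exact measurable_snd
    have h3 := h2.indicator hS
    refine h3.congr (Eventually.of_forall fun p => ?_)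
    simp only [Function.uncurry, hF, indicator, mem_ofPred_eq, mem_Ioi]
  have hv : ∀ v ∈ Ioc (0:ℝ) 1, ∫ y, F y v ∂ν = -deriv f v * ν.real (ball a (t * √v)) := by
    intro v hv
    have h1 : (fun y => F y v) = (ball a (t * √v)).indicator (fun _ => -deriv f v) := by
      funext y
      simp only [hF, indicator, mem_Ioi]
      congr 1
      rw [mem_ball, dist_eq_norm, div_lt_iff₀ (by positivity), eq_iff_iff]
      have h2 : v * t ^ 2 = (t * √v) ^ 2 := by rw [mul_pow, Real.sq_sqrt hv.1.le]; ring
      rw [h2]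
      exact sq_lt_sq₀ (norm_nonneg _) (by positivity)
    rw [h1, integral_indicator_const _ measurableSet_ball, smul_eq_mul, mul_comm]
  have hy : ∀ y, ∫ v in Ioc (0:ℝ) 1, F y v = f (‖y - a‖ ^ 2 / t ^ 2) := by
    intro y
    have hu : 0 ≤ ‖y - a‖ ^ 2 / t ^ 2 := by positivity
    simp only [hF]
    rw [setIntegral_indicator measurableSet_Ioi, Ioc_inter_Ioi, sup_eq_right.2 hu]
    rcases le_or_gt 1 (‖y - a‖ ^ 2 / t ^ 2) with h | h
    · rw [Ioc_eq_empty (not_lt.2 h), hf.zero _ h]; simp
    · rw [← intervalIntegral.integral_of_le h.le, intervalIntegral.integral_neg,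
        intervalIntegral.integral_deriv_eq_sub (fun x _ => (diff hf) x)
          ((dcont hf).intervalIntegrable _ _), hf.zero 1 le_rfl]
      ring
  constructor
  · have h := hint.integral_prod_right
    refine (integrableOn_congr_fun (fun v hv' => ?_) measurableSet_Ioc).1 h
    exact hv v hv'
  · rw [← setIntegral_congr_fun measurableSet_Ioc hv]
    rw [← integral_integral_swap hint]
    exact (integral_congr_ae (Eventually.of_forall fun y => hy y)).symm

theorem rint (m : ℕ) (hf : Ker f) (t B : ℝ) :
    IntegrableOn (fun v => -deriv f v * (B * (t * √v) ^ m)) (Ioc 0 1) ∧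
    ∫ v in Ioc (0:ℝ) 1, -deriv f v * (B * (t * √v) ^ m) = cf m f * B * t ^ m := by
  constructor
  · have : Continuous fun v => -deriv f v * (B * (t * √v) ^ m) := by
      have := dcont hf
      fun_prop
    exact (this.integrableOn_Icc (a := 0) (b := 1)).mono_set Ioc_subset_Icc_self
  · unfold cf
    rw [intervalIntegral.integral_of_le zero_le_one, mul_assoc, ← integral_mul_const]
    refine setIntegral_congr_fun measurableSet_Ioc fun v hv => ?_
    have h2 : (√v) ^ m = v ^ ((m : ℝ) / 2) := by
      rw [Real.sqrt_eq_rpow, ← Real.rpow_natCast, ← Real.rpow_mul hv.1.le]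
      congr 1
      ring
    simp only [mul_pow, h2]
    ring

end Den

theorem den : S_DEN where
  ex := Den.ex
  nonneg := fun f hf u => Den.nonneg hf u
  pos := fun m f hm hf => Den.cpos m hm hf
  lower := by
    intro N m f ν a t B hm hf hν ht h
    obtain ⟨h1, h2⟩ := Den.layer ν a t hf ht
    obtain ⟨h3, h4⟩ := Den.rint m hf t B
    rw [h2, ← h4]
    refine setIntegral_mono_on h3 h1 measurableSet_Ioc fun v hv => ?_
    refine mul_le_mul_of_nonneg_left (h _ ?_ ?_) (by linarith [hf.anti v])
    · have := Real.sqrt_pos.2 hv.1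
      positivity
    · have : √v ≤ 1 := Real.sqrt_le_one.2 hv.2
      nlinarith
  upper := by
    intro N m f ν a t B hm hf hν ht h
    obtain ⟨h1, h2⟩ := Den.layer ν a t hf ht
    obtain ⟨h3, h4⟩ := Den.rint m hf t B
    rw [h2, ← h4]
    refine setIntegral_mono_on h1 h3 measurableSet_Ioc fun v hv => ?_
    refine mul_le_mul_of_nonneg_left (h _ ?_ ?_) (by linarith [hf.anti v])
    · have := Real.sqrt_pos.2 hv.1
      positivity
    · have : √v ≤ 1 := Real.sqrt_le_one.2 hv.2
      nlinarith

end Pool.Agent.Helper68X
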