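import Pool.Agent.Helper68X.Stm

/-!
# Piece FP of project JET (helper52 for helper68): improving a polynomial graph that is minimal up to an order

With the adjugate matrix everything is polynomial algebra modulo powers of the ideal of the origin:
`det (1 + g) * Fc P α = tr (adj (1 + g) * hess P_α)`.
-/

set_option autoImplicit false

namespace Pool.Agent.Helper68X

namespace Fp

open MvPolynomial Filter Topology

variable {m n : ℕ}

/-- the ideal of the origin -/
noncomputable abbrev I (m : ℕ) : Ideal (Pol m) := idealOfVars (Fin m) ℝ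

/-- the matrix `g` as a matrix of polynomials -/
noncomputable def gM (P : Fin n → Pol m) : Matrix (Fin m) (Fin m) (Pol m) :=
  fun i j => ∑ α, pderiv i (P α) * pderiv j (P α)

/-- the Hessian as a matrix of polynomials -/
noncomputable def hM (P : Pol m) : Matrix (Fin m) (Fin m) (Pol m) :=
  fun i j => pderiv i (pderiv j P)

/-- `tr (adj (1 + g) * hess P_α)` -/
noncomputable def G (P : Fin n → Pol m) (α : Fin n) : Pol m := ((1 + gM P).adjugate * hM (P α)).trace

/-- `det (1 + g)` -/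
noncomputable def D (P : Fin n → Pol m) : Pol m := (1 + gM P).det

theorem map_gM (P : Fin n → Pol m) (x : Fin m → ℝ) :
    (eval x).mapMatrix (1 + gM P) = 1 + gmat P x := by
  rw [map_add, map_one]
  congr 1
  ext i j
  simp [gM, gmat]

theorem map_hM (P : Pol m) (x : Fin m → ℝ) :
    (eval x).mapMatrix (hM P) = hmat P x := by
  ext i j
  simp [hM, hmat]

theorem eval_D (P : Fin n → Pol m) (x : Fin m → ℝ) : eval x (D P) = (1 + gmat P x).det := by
  rw [D, RingHom.map_det, map_gM]

theorem eval_trace (M : Matrix (Fin m) (Fin m) (Pol m)) (x : Fin m → ℝ) :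
    eval x M.trace = ((eval x).mapMatrix M).trace := by
  simp [Matrix.trace]

theorem eval_G (P : Fin n → Pol m) (α : Fin n) (x : Fin m → ℝ) :
    eval x (G P α) = ((1 + gmat P x).adjugate * hmat (P α) x).trace := by
  rw [G, eval_trace, map_mul, RingHom.map_adjugate, map_gM, map_hM]

theorem gmat_psd (P : Fin n → Pol m) (x : Fin m → ℝ) : (gmat P x).PosSemidef := by
  let A : Matrix (Fin n) (Fin m) ℝ := Matrix.of fun α i => eval x (pderiv i (P α))
  have h : gmat P x = A.conjTranspose * A := by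
    ext i j
    rw [Matrix.mul_apply]
    simp [gmat, A]
  rw [h]
  exact Matrix.posSemidef_conjTranspose_mul_self A

theorem D_pos (P : Fin n → Pol m) (x : Fin m → ℝ) : 0 < eval x (D P) := by
  rw [eval_D]
  exact (Matrix.PosDef.one.add_posSemidef (gmat_psd P x)).det_pos

theorem G_eq (P : Fin n → Pol m) (α : Fin n) (x : Fin m → ℝ) :
    eval x (G P α) = eval x (D P) * Fc P α x := by
  have h := (D_pos P x).ne'
  rw [Fc, Matrix.inv_def, Matrix.smul_mul, Matrix.trace_smul, Ring.inverse_eq_inv', ← eval_D, smul_eq_mul,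
    mul_inv_cancel_left₀ h, eval_G]

/-! ### powers of the ideal of the origin -/

theorem pd_mem {k : ℕ} {p : Pol m} (hp : p ∈ I m ^ (k + 1)) (i : Fin m) : pderiv i p ∈ I m ^ k := by
  rw [mem_pow_idealOfVars_iff'] at hp ⊢
  intro s hs
  rw [coeff_pderiv, hp, zero_mul]
  rw [map_add]
  simp
  omega

theorem hom_mem {k : ℕ} {p : Pol m} (hp : p.IsHomogeneous k) : p ∈ I m ^ k := by
  rw [mem_pow_idealOfVars_iff']
  intro s hs
  exact hp.coeff_eq_zero hs.ne

theorem upper {k : ℕ} {p : Pol m} (hp : p ∈ I m ^ k) :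
    ∃ C : ℝ, 0 ≤ C ∧ ∀ x : Fin m → ℝ, ‖x‖ ≤ 1 → |eval x p| ≤ C * ‖x‖ ^ k := by
  rw [mem_pow_idealOfVars_iff] at hp
  refine ⟨∑ s ∈ p.support, |p.coeff s|, Finset.sum_nonneg fun s _ => abs_nonneg _, fun x hx => ?_⟩
  rw [eval_eq', Finset.sum_mul]
  refine (Finset.abs_sum_le_sum_abs _ _).trans (Finset.sum_le_sum fun s hs => ?_)
  rw [abs_mul]
  refine mul_le_mul_of_nonneg_left ?_ (abs_nonneg _)
  rw [Finset.abs_prod]
  calc ∏ i, |x i ^ s i| ≤ ∏ i, ‖x‖ ^ s i := by
        refine Finset.prod_le_prod (fun i _ => abs_nonneg _) fun i _ => ?_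
        rw [abs_pow]
        exact pow_le_pow_left₀ (abs_nonneg _) (norm_le_pi_norm x i) _
    _ = ‖x‖ ^ s.degree := by
        rw [Finset.prod_pow_eq_pow_sum, Finsupp.degree_eq_sum]
    _ ≤ ‖x‖ ^ k := pow_le_pow_of_le_one (norm_nonneg _) hx (hp s hs)

/-- the polynomial `t ↦ p (t x)` -/
noncomputable def ray (p : Pol m) (x : Fin m → ℝ) : Polynomial ℝ :=
  ∑ s ∈ p.support, Polynomial.monomial s.degree (p.coeff s * ∏ i, x i ^ s i)

theorem ray_eval (p : Pol m) (x : Fin m → ℝ) (t : ℝ) : (ray p x).eval t = eval (t • x) p := by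
  rw [ray, Polynomial.eval_finsetSum, eval_eq']
  refine Finset.sum_congr rfl fun s _ => ?_
  rw [Polynomial.eval_monomial]
  simp only [Pi.smul_apply, smul_eq_mul, mul_pow, Finset.prod_mul_distrib, Finset.prod_pow_eq_pow_sum,
    Finsupp.degree_eq_sum]
  ring

theorem ray_coeff (p : Pol m) (x : Fin m → ℝ) (d : ℕ) :
    (ray p x).coeff d = eval x (homogeneousComponent d p) := by
  rw [ray, Polynomial.finsetSum_coeff, homogeneousComponent_apply, map_sum, Finset.sum_filter]
  refine Finset.sum_congr rfl fun s _ => ?_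
  rw [Polynomial.coeff_monomial]
  split_ifs with h
  · rw [eval_monomial, Finsupp.prod_fintype _ _ (fun i => pow_zero _)]
  · rfl

theorem uni (n : ℕ) : ∀ (q : Polynomial ℝ) (C δ : ℝ), 0 < δ →
    (∀ t : ℝ, 0 < t → t ≤ δ → |q.eval t| ≤ C * t ^ n) → ∀ d < n, q.coeff d = 0 := by
  induction n with
  | zero => intro q C δ _ _ d hd; omega
  | succ n ih =>
    intro q C δ hδ h d hd
    have h0 : q.eval 0 = 0 := by
      have ht : Tendsto (fun t : ℝ => C * t ^ (n + 1)) (𝓝[>] 0) (𝓝 (C * 0 ^ (n + 1))) :=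
        tendsto_nhdsWithin_of_tendsto_nhds (by fun_prop : Continuous fun t : ℝ => C * t ^ (n + 1)).continuousAt
      have hq : Tendsto (fun t : ℝ => |q.eval t|) (𝓝[>] 0) (𝓝 |q.eval 0|) :=
        tendsto_nhdsWithin_of_tendsto_nhds (q.continuous.abs).continuousAt
      have hle : |q.eval 0| ≤ C * 0 ^ (n + 1) := by
        refine le_of_tendsto_of_tendsto hq ht ?_
        filter_upwards [Ioc_mem_nhdsGT hδ] with t ht
        exact h t ht.1 ht.2
      simpa using hle
    obtain ⟨q', hq'⟩ : Polynomial.X ∣ q := by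
      rw [Polynomial.X_dvd_iff, Polynomial.coeff_zero_eq_eval_zero, h0]
    have h' : ∀ t : ℝ, 0 < t → t ≤ δ → |q'.eval t| ≤ C * t ^ n := by
      intro t ht htδ
      have h1 := h t ht htδ
      rw [hq', Polynomial.eval_mul, Polynomial.eval_X, abs_mul, abs_of_pos ht, pow_succ] at h1
      nlinarith
    cases d with
    | zero => rw [Polynomial.coeff_zero_eq_eval_zero, h0]
    | succ d =>
      rw [hq', Polynomial.coeff_X_mul]
      exact ih q' C δ hδ h' d (by omega)

theorem lower {k : ℕ} {p : Pol m} {C : ℝ} (h : ∀ x : Fin m → ℝ, ‖x‖ ≤ 1 → |eval x p| ≤ C * ‖x‖ ^ k) :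
    p ∈ I m ^ k := by
  rw [mem_pow_idealOfVars_iff']
  intro s hs
  have hz : homogeneousComponent s.degree p = 0 := by
    apply MvPolynomial.funext
    intro x
    rw [map_zero, ← ray_coeff]
    refine uni k (ray p x) (C * ‖x‖ ^ k) (1 / (‖x‖ + 1)) (by positivity) ?_ _ hs
    intro t ht htd
    rw [ray_eval]
    have hn : ‖t • x‖ = t * ‖x‖ := by rw [norm_smul, Real.norm_of_nonneg ht.le]
    have hle : ‖t • x‖ ≤ 1 := by
      rw [hn]
      calc t * ‖x‖ ≤ (1 / (‖x‖ + 1)) * (‖x‖ + 1) := by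
            apply mul_le_mul htd (by linarith) (norm_nonneg _) (by positivity)
        _ = 1 := by field_simp
    refine (h _ hle).trans (le_of_eq ?_)
    rw [hn, mul_pow]; ring
  have := coeff_homogeneousComponent s.degree p s
  rw [hz, coeff_zero, if_pos rfl] at this
  exact this.symm

/-! ### the congruences -/

theorem map_trace {R S : Type*} [CommRing R] [CommRing S] (f : R →+* S) (M : Matrix (Fin m) (Fin m) R) :
    f M.trace = (f.mapMatrix M).trace := by
  simp [Matrix.trace]

theorem map_tr {R S : Type*} [CommRing R] [CommRing S] (f : R →+* S) (M N : Matrix (Fin m) (Fin m) R) :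
    f (M.adjugate * N).trace = ((f.mapMatrix M).adjugate * f.mapMatrix N).trace := by
  rw [map_trace, map_mul, RingHom.map_adjugate]

theorem cong_map {S : Type*} [CommRing S] (φ : Pol m →+* S) (P R : Fin n → Pol m)
    (hR1 : ∀ β i, φ (pderiv i (R β)) = 0) (α : Fin n) :
    φ (G (fun β => P β + R β) α) = φ (G P α) + φ ((1 + gM P).adjugate * hM (R α)).trace := by
  have h1 : φ.mapMatrix (1 + gM (fun β => P β + R β)) = φ.mapMatrix (1 + gM P) := by
    rw [map_add, map_add]
    congr 1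
    ext i j
    simp [gM, hR1]
  have h2 : φ.mapMatrix (hM (P α + R α)) = φ.mapMatrix (hM (P α)) + φ.mapMatrix (hM (R α)) := by
    ext i j
    simp [hM]
  rw [G, G, map_tr, map_tr, map_tr, h1, h2, Matrix.mul_add, Matrix.trace_add]

theorem cong {k : ℕ} (P R : Fin n → Pol m) (hP : ∀ α, P α ∈ I m ^ 2) (hR : ∀ α, R α ∈ I m ^ (k + 1 + 1))
    (α : Fin n) :
    G (fun β => P β + R β) α - (G P α + Lap (R α)) ∈ I m ^ (k + 1) := by
  have hR1 : ∀ β i, Ideal.Quotient.mk (I m ^ (k + 1)) (pderiv i (R β)) = 0 :=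
    fun β i => Ideal.Quotient.eq_zero_iff_mem.mpr (pd_mem (hR β) i)
  have h3 := cong_map (Ideal.Quotient.mk (I m ^ (k + 1))) P R hR1 α
  rw [← map_add, Ideal.Quotient.eq] at h3
  have h0 : ((1 + gM P).adjugate * hM (R α)).trace - Lap (R α) ∈ I m ^ (k + 1) → 
      G (fun β => P β + R β) α - (G P α + Lap (R α)) ∈ I m ^ (k + 1) := by
    intro h
    have h' := Ideal.add_mem _ h3 h
    have e : G (fun β => P β + R β) α - (G P α + ((1 + gM P).adjugate * hM (R α)).trace) +
        (((1 + gM P).adjugate * hM (R α)).trace - Lap (R α)) =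
        G (fun β => P β + R β) α - (G P α + Lap (R α)) := by ring
    rwa [e] at h'
  apply h0
  have hL : Lap (R α) = (hM (R α)).trace := rfl
  rw [hL, ← Matrix.trace_sub]
  have h4 : (1 + gM P).adjugate * hM (R α) - hM (R α) = ((1 + gM P).adjugate - 1) * hM (R α) := by
    rw [sub_mul, one_mul]
  rw [h4]
  have h5 : ∀ i j, ((1 + gM P).adjugate - 1) i j ∈ I m := by
    intro i j
    rw [Matrix.sub_apply, ← Ideal.Quotient.eq]
    have h6 : (Ideal.Quotient.mk (I m)).mapMatrix (1 + gM P) = 1 := by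
      rw [map_add, map_one]
      have : (Ideal.Quotient.mk (I m)).mapMatrix (gM P) = 0 := by
        ext i j
        rw [RingHom.mapMatrix_apply, Matrix.map_apply, Matrix.zero_apply, Ideal.Quotient.eq_zero_iff_mem]
        refine Ideal.sum_mem _ fun β _ => Ideal.mul_mem_right _ _ ?_
        have := pd_mem (k := 1) (hP β) i
        rwa [pow_one] at this
      rw [this, add_zero]
    have h7 := congrFun (congrFun (congrArg Matrix.adjugate h6) i) j
    rw [← RingHom.map_adjugate, Matrix.adjugate_one, RingHom.mapMatrix_apply, Matrix.map_apply] at h7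
    rw [h7]
    have h8 : ((Ideal.Quotient.mk (I m)).mapMatrix (1 : Matrix (Fin m) (Fin m) (Pol m))) = 1 := map_one _
    have h9 := congrFun (congrFun h8 i) j
    rw [RingHom.mapMatrix_apply, Matrix.map_apply] at h9
    exact h9.symm
  refine Ideal.sum_mem _ fun i _ => ?_
  rw [Matrix.diag_apply, Matrix.mul_apply]
  refine Ideal.sum_mem _ fun j _ => ?_
  rw [pow_succ']
  refine Ideal.mul_mem_mul (h5 i j) ?_
  exact pd_mem (pd_mem (hR α) i) j

end Fp

open MvPolynomial in
/-- Piece FP. -/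
theorem t_FP : S_FP := by
  intro hINV m n k hm hk P _ hP0 hC
  obtain ⟨C, hC⟩ := hC
  obtain ⟨k, rfl⟩ : ∃ k', k = k' + 1 := ⟨k - 1, by omega⟩
  have hP : ∀ α, P α ∈ Fp.I m ^ 2 := by
    intro α
    rw [mem_pow_idealOfVars_iff']
    intro s hs
    exact hP0 α s (by omega)
  obtain ⟨B, hB0, hB⟩ := Fp.upper (k := 0) (p := Fp.D P) (by simp)
  have hG : ∀ α, Fp.G P α ∈ Fp.I m ^ k := by
    intro α
    refine Fp.lower (C := B * |C|) fun x hx => ?_
    rw [Fp.G_eq, abs_mul, mul_assoc]
    have h1 := hB x hx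
    rw [pow_zero, mul_one] at h1
    have h2 := hC α x hx
    rw [Nat.add_sub_cancel] at h2
    refine mul_le_mul h1 (h2.trans ?_) (abs_nonneg _) hB0
    exact mul_le_mul_of_nonneg_right (le_abs_self C) (by positivity)
  have hR : ∀ α, ∃ R : Pol m, R.IsHomogeneous (k + 2) ∧ Lap R = -homogeneousComponent k (Fp.G P α) :=
    fun α => hINV m hm k _ (homogeneousComponent_isHomogeneous k _).neg
  choose R hRh hRL using hR
  refine ⟨R, hRh, ?_⟩
  have hG' : ∀ α, Fp.G (fun β => P β + R β) α ∈ Fp.I m ^ (k + 1) := by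
    intro α
    have h1 := Fp.cong (k := k) P R hP (fun β => Fp.hom_mem (hRh β)) α
    have h2 : Fp.G P α + Lap (R α) ∈ Fp.I m ^ (k + 1) := by
      rw [hRL, mem_pow_idealOfVars_iff']
      intro s hs
      rw [coeff_add, coeff_neg, coeff_homogeneousComponent]
      split_ifs with h
      · ring
      · have := (mem_pow_idealOfVars_iff' _ _).mp (hG α) s (by omega)
        rw [this]; ring
    have := Ideal.add_mem _ h1 h2
    rwa [sub_add_cancel] at this
  -- lower bound of the determinant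
  obtain ⟨c, hc0, hc⟩ : ∃ c : ℝ, 0 < c ∧ ∀ x : Fin m → ℝ, ‖x‖ ≤ 1 →
      c ≤ eval x (Fp.D (fun β => P β + R β)) := by
    have hcomp : IsCompact (Metric.closedBall (0 : Fin m → ℝ) 1) := isCompact_closedBall _ _
    obtain ⟨x₀, _, hx₀⟩ := hcomp.exists_isMinOn ⟨0, by simp⟩
      (f := fun x => eval x (Fp.D (fun β => P β + R β))) (MvPolynomial.continuous_eval _).continuousOn
    refine ⟨eval x₀ (Fp.D (fun β => P β + R β)), Fp.D_pos _ x₀, fun x hx => ?_⟩
    exact hx₀ (by simpa using hx)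
  choose Cα hCα0 hCα using fun α => Fp.upper (hG' α)
  refine ⟨(∑ α, Cα α) / c, fun α x hx => ?_⟩
  have h1 := hCα α x hx
  rw [Fp.G_eq, abs_mul, abs_of_pos (Fp.D_pos _ x)] at h1
  have h2 : Cα α ≤ ∑ β, Cα β := Finset.single_le_sum (fun β _ => hCα0 β) (Finset.mem_univ α)
  rw [div_mul_eq_mul_div, le_div_iff₀ hc0]
  have h3 : Cα α * ‖x‖ ^ (k + 1) ≤ (∑ β, Cα β) * ‖x‖ ^ (k + 1) :=
    mul_le_mul_of_nonneg_right h2 (by positivity)
  have h4 := mul_le_mul_of_nonneg_right (hc x hx) (abs_nonneg (Fc (fun α => P α + R α) α x))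
  linarith [mul_comm c |Fc (fun α => P α + R α) α x|]

end Pool.Agent.Helper68X
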