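import Pool.Agent.Helper68X.NRM

/-!
# Project JET (helper68), piece HP (by helper40)
-/

set_option autoImplicit false

namespace Pool.Agent.Helper68X

open MvPolynomial

namespace HP

variable {m : ℕ}

theorem Lap_add (P Q : Pol m) : Lap (P + Q) = Lap P + Lap Q := by
  unfold Lap
  rw [← Finset.sum_add_distrib]
  refine Finset.sum_congr rfl fun i _ => ?_
  rw [map_add, map_add]

theorem Lap_smul (c : ℝ) (P : Pol m) : Lap (c • P) = c • Lap P := by
  unfold Lap
  rw [Finset.smul_sum]
  refine Finset.sum_congr rfl fun i _ => ?_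
  rw [Derivation.map_smul, Derivation.map_smul]

theorem Lap_zero : Lap (0 : Pol m) = 0 := by
  have := Lap_smul (m := m) 0 0
  rwa [zero_smul, zero_smul] at this

theorem Lap_sum {ι : Type*} (t : Finset ι) (P : ι → Pol m) : Lap (∑ i ∈ t, P i) = ∑ i ∈ t, Lap (P i) := by
  classical
  induction t using Finset.induction_on with
  | empty => rw [Finset.sum_empty, Finset.sum_empty, Lap_zero]
  | insert a t ha ih => rw [Finset.sum_insert ha, Finset.sum_insert ha, Lap_add, ih]

theorem Lap_sub (P Q : Pol m) : Lap (P - Q) = Lap P - Lap Q := by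
  have h := Lap_add (P - Q) Q
  rw [sub_add_cancel] at h
  rw [h, add_sub_cancel_right]

theorem support_Lap {d : ℕ} {P : Pol m} (hd : P.totalDegree ≤ d) {s : Fin m →₀ ℕ}
    (hs : s ∈ (Lap P).support) : s.degree + 2 ≤ d := by
  rw [MvPolynomial.mem_support_iff] at hs
  unfold Lap at hs
  rw [MvPolynomial.coeff_sum] at hs
  obtain ⟨i, -, hi⟩ := Finset.exists_ne_zero_of_sum_ne_zero hs
  rw [MvPolynomial.coeff_pderiv, MvPolynomial.coeff_pderiv] at hi
  have h1 : s + Finsupp.single i 1 + Finsupp.single i 1 ∈ P.support := by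
    rw [MvPolynomial.mem_support_iff]
    intro h
    rw [h, zero_mul, zero_mul] at hi
    exact hi rfl
  have h2 := NRM.degree_le hd h1
  rw [map_add, map_add, Finsupp.degree_single] at h2
  omega

theorem nrm_hom {k : ℕ} {r : ℝ} {P : Pol m} (hP : P.IsHomogeneous k) :
    nrm r P = r ^ k * nrm 1 P := by
  unfold nrm
  rw [Finset.mul_sum]
  refine Finset.sum_congr rfl fun s hs => ?_
  have h1 : s.degree = k := by
    have h2 := hP (MvPolynomial.mem_support_iff.1 hs)
    rw [Finsupp.degree_eq_weight_one]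
    exact h2
  rw [h1, one_pow, mul_one]
  ring

end HP

open HP in
theorem t_HP (hI : S_INV) : S_HP := by
  classical
  intro m d
  rcases Nat.eq_zero_or_pos m with hm | hm
  · subst hm
    refine ⟨0, le_rfl, fun r _ P hP => ⟨P, hP, ?_, ?_⟩⟩
    · unfold Lap
      exact Finset.sum_of_isEmpty _
    · rw [sub_self, NRM.zero, zero_mul, zero_mul]
  · have hR : ∀ s : Fin m →₀ ℕ, ∃ R : Pol m, R.IsHomogeneous (s.degree + 2) ∧
        Lap R = MvPolynomial.monomial s 1 := fun s =>
      hI m hm s.degree (MvPolynomial.monomial s 1) (MvPolynomial.isHomogeneous_monomial 1 rfl)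
    choose R hR1 hR2 using hR
    have hfin : {s : Fin m →₀ ℕ | s.degree ≤ d}.Finite := Finsupp.finite_of_degree_le d
    let T : Finset (Fin m →₀ ℕ) := hfin.toFinset
    let C : ℝ := ∑ s ∈ T, nrm 1 (R s)
    have hC : ∀ s : Fin m →₀ ℕ, s.degree ≤ d → nrm 1 (R s) ≤ C := by
      intro s hs
      exact Finset.single_le_sum (f := fun s => nrm 1 (R s))
        (fun s _ => NRM.nonneg _ zero_le_one) (hfin.mem_toFinset.2 hs)
    have hC0 : 0 ≤ C := Finset.sum_nonneg fun s _ => NRM.nonneg _ zero_le_one
    refine ⟨C, hC0, fun r hr P hP => ?_⟩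
    let Q : Pol m := ∑ s ∈ (Lap P).support, (Lap P).coeff s • R s
    have hQ : Lap Q = Lap P := by
      show Lap (∑ s ∈ (Lap P).support, (Lap P).coeff s • R s) = Lap P
      rw [Lap_sum]
      conv_rhs => rw [(Lap P).as_sum]
      refine Finset.sum_congr rfl fun s _ => ?_
      rw [Lap_smul, hR2, MvPolynomial.smul_monomial, smul_eq_mul, mul_one]
    have hQd : Q.totalDegree ≤ d := by
      refine MvPolynomial.totalDegree_finsetSum_le fun s hs => ?_
      refine (MvPolynomial.totalDegree_smul_le _ _).trans ?_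
      exact (hR1 s).totalDegree_le.trans (support_Lap hP hs)
    refine ⟨P - Q, ?_, ?_, ?_⟩
    · exact (MvPolynomial.totalDegree_sub _ _).trans (max_le hP hQd)
    · rw [Lap_sub, hQ, sub_self]
    · rw [sub_sub_cancel]
      refine (NRM.sum hr.le _ _).trans ?_
      have h1 : C * r ^ 2 * nrm r (Lap P) =
          ∑ s ∈ (Lap P).support, C * r ^ 2 * (|(Lap P).coeff s| * r ^ s.degree) := by
        unfold nrm
        rw [Finset.mul_sum]
      rw [h1]
      refine Finset.sum_le_sum fun s hs => ?_
      rw [NRM.smul, nrm_hom (hR1 s)]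
      have h2 := support_Lap hP hs
      have h3 := hC s (by omega)
      have h4 : 0 ≤ |(Lap P).coeff s| * r ^ (s.degree + 2) :=
        mul_nonneg (abs_nonneg _) (pow_nonneg hr.le _)
      calc |(Lap P).coeff s| * (r ^ (s.degree + 2) * nrm 1 (R s))
          = (|(Lap P).coeff s| * r ^ (s.degree + 2)) * nrm 1 (R s) := by ring
        _ ≤ (|(Lap P).coeff s| * r ^ (s.degree + 2)) * C := mul_le_mul_of_nonneg_left h3 h4
        _ = C * r ^ 2 * (|(Lap P).coeff s| * r ^ s.degree) := by ring

end Pool.Agent.Helper68X
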