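import Pool.Agent.Helper68X.Stm

/-!
# Project JET, piece INIT
-/

set_option autoImplicit false
set_option linter.all false

namespace Pool.Agent.Helper68X

open MeasureTheory Set Filter Topology Metric Pool.Agent.TH337.VF
open scoped ENNReal RealInnerProductSpace ContDiff

namespace InitP

lemma om_pos (m : ℕ) : 0 < om m := ENNReal.toReal_pos (omega_pos m) (omega_lt m)

lemma exists_radius {P : ℝ → Prop} (h : ∀ᶠ r in 𝓝[>] (0:ℝ), P r) :
    ∃ ρ : ℝ, 0 < ρ ∧ ∀ r, 0 < r → r < ρ → P r := by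
  obtain ⟨ρ, hρ, h1⟩ := (mem_nhdsGT_iff_exists_Ioo_subset (a := (0:ℝ))).1 h
  exact ⟨ρ, hρ, fun r h2 h3 => h1 ⟨h2, h3⟩⟩

theorem bad (N m : ℕ) (μ : Measure (E N)) (x₀ : E N) (B : Set (E N))
    (h : upperDens m μ B x₀ = 0) (ε : ℝ) (hε : 0 < ε) :
    ∃ ρ : ℝ, 0 < ρ ∧ ∀ r, 0 < r → r < ρ → μ.real (closedBall x₀ r ∩ B) ≤ ε * r ^ m := by
  have hA : 0 < ε / om m := div_pos hε (om_pos m)
  have h1 := Helper68V.upperDens_bound (μ := μ) (m := m) (S := B) (x₀ := x₀) (θ := 1)
    ENNReal.one_ne_top hA (by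
      rw [h, one_mul]
      exact ENNReal.ofReal_pos.2 hA)
  have h2 : Helper68V.cst m 1 * (ε / om m) = ε := by
    unfold Helper68V.cst
    rw [one_mul]
    have := (om_pos m).ne'
    change om m * (ε / om m) = ε
    field_simp
  rw [h2] at h1
  refine exists_radius ?_
  filter_upwards [h1, self_mem_nhdsWithin] with r hr hr0
  have hr0' : (0:ℝ) < r := hr0
  rw [div_lt_iff₀ (by positivity)] at hr
  exact hr.le

theorem ratio {N m : ℕ} {U : Set (E N)} {μ : Measure (E N)} {P : E N → E N →L[ℝ] E N}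
    (hS : Stat m U μ P) (hU : IsOpen U) {x₀ : E N} (hx₀ : x₀ ∈ U) (ε : ℝ) (hε : 0 < ε) :
    ∃ ρ : ℝ, 0 < ρ ∧ ∀ r, 0 < r → r < ρ → ∀ a ∈ closedBall x₀ r, ∀ s, 0 < s → s ≤ r →
      μ.real (ball a s) ≤ (om m * (density m μ x₀).toReal + ε) * s ^ m := by
  obtain ⟨R₀, hR₀, hsub⟩ := Metric.isOpen_iff.1 hU x₀ hx₀
  have hom0 := om_pos m
  -- the density is finite
  have hfin : density m μ x₀ ≠ ⊤ := by
    have h1 : closedBall x₀ (R₀ / 2) ⊆ U := (closedBall_subset_ball (by linarith)).trans hsub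
    have h2 := density_le hS h1 (by positivity : 0 < R₀ / 2)
    have h3 : μ (ball x₀ (R₀ / 2)) < ⊤ := (measure_mono ball_subset_closedBall).trans_lt
      (hS.fin _ h1 (isCompact_closedBall _ _))
    intro h4
    rw [h4, ENNReal.top_mul] at h2
    · exact absurd (top_le_iff.1 h2) h3.ne
    · exact mul_ne_zero (omega_pos m) (pow_ne_zero _ (ENNReal.ofReal_pos.2 (by positivity)).ne')
  set D := (density m μ x₀).toReal with hD
  have hD0 : 0 ≤ D := ENNReal.toReal_nonneg
  set δ := ε / (2 * om m) with hδ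
  have hδ0 : 0 < δ := by positivity
  have hlt : density m μ x₀ < density m μ x₀ + ENNReal.ofReal δ :=
    ENNReal.lt_add_right hfin (ENNReal.ofReal_pos.2 hδ0).ne'
  have h1 : ∀ᶠ r in 𝓝[>] (0:ℝ), μ (ball x₀ r) / (volume (ball (0 : EuclideanSpace ℝ (Fin m)) 1) *
      ENNReal.ofReal r ^ m) < density m μ x₀ + ENNReal.ofReal δ :=
    eventually_lt_of_limsup_lt hlt
  obtain ⟨R₁, hR₁, hR₁'⟩ := (h1.and (Ioo_mem_nhdsGT hR₀)).exists
  have hR₁0 : 0 < R₁ := hR₁'.1
  have hc1 : closedBall x₀ R₁ ⊆ U := (closedBall_subset_ball hR₁'.2).trans hsub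
  have hfinR : μ (ball x₀ R₁) < ⊤ := (measure_mono ball_subset_closedBall).trans_lt
      (hS.fin _ hc1 (isCompact_closedBall _ _))
  have h2 : μ.real (ball x₀ R₁) ≤ (om m * D + ε / 2) * R₁ ^ m := by
    have hne : volume (ball (0 : EuclideanSpace ℝ (Fin m)) 1) * ENNReal.ofReal R₁ ^ m ≠ 0 :=
      mul_ne_zero (omega_pos m) (pow_ne_zero _ (ENNReal.ofReal_pos.2 hR₁0).ne')
    have hnt : volume (ball (0 : EuclideanSpace ℝ (Fin m)) 1) * ENNReal.ofReal R₁ ^ m ≠ ⊤ :=
      ENNReal.mul_ne_top (omega_lt m) (ENNReal.pow_ne_top ENNReal.ofReal_ne_top)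
    rw [ENNReal.div_lt_iff (Or.inl hne) (Or.inl hnt)] at hR₁
    have h3 := ENNReal.toReal_mono (ENNReal.mul_ne_top
      (ENNReal.add_ne_top.2 ⟨hfin, ENNReal.ofReal_ne_top⟩) hnt) hR₁.le
    rw [ENNReal.toReal_mul, ENNReal.toReal_mul, ENNReal.toReal_add hfin ENNReal.ofReal_ne_top,
      ENNReal.toReal_pow, ENNReal.toReal_ofReal hR₁0.le, ENNReal.toReal_ofReal hδ0.le] at h3
    refine h3.trans (le_of_eq ?_)
    change (D + δ) * (om m * R₁ ^ m) = _
    rw [hδ]
    field_simp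
  -- the choice of the radius
  have h3 : Tendsto (fun r : ℝ => (om m * D + ε / 2) * (R₁ / (R₁ - r)) ^ m) (𝓝[>] 0)
      (𝓝 ((om m * D + ε / 2) * (R₁ / (R₁ - 0)) ^ m)) := by
    apply tendsto_nhdsWithin_of_tendsto_nhds
    apply Tendsto.const_mul
    apply Tendsto.pow
    apply Tendsto.div tendsto_const_nhds (tendsto_const_nhds.sub tendsto_id)
    rw [sub_zero]
    exact hR₁0.ne'
  rw [sub_zero, div_self hR₁0.ne', one_pow, mul_one] at h3
  have h4 : ∀ᶠ r in 𝓝[>] (0:ℝ), (om m * D + ε / 2) * (R₁ / (R₁ - r)) ^ m < om m * D + ε :=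
    h3.eventually (gt_mem_nhds (by linarith))
  refine exists_radius ?_
  filter_upwards [h4, Ioo_mem_nhdsGT (by positivity : 0 < R₁ / 2)] with r hr hr1
  intro a ha s hs hsr
  have hr0 : 0 < r := hr1.1
  have hr2 : r < R₁ / 2 := hr1.2
  have hRr : 0 < R₁ - r := by linarith
  rw [mem_closedBall] at ha
  have hcb : closedBall a (R₁ - r) ⊆ closedBall x₀ R₁ := by
    apply closedBall_subset_closedBall'
    linarith
  have h5 := mono hS (hcb.trans hc1) hs (by linarith : s ≤ R₁ - r)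
  have h6 : μ.real (ball a (R₁ - r)) ≤ μ.real (ball x₀ R₁) := by
    apply measureReal_mono _ hfinR.ne
    apply ball_subset_ball'
    linarith
  rw [div_le_iff₀ (by positivity)] at h5
  calc μ.real (ball a s) ≤ μ.real (ball a (R₁ - r)) / (R₁ - r) ^ m * s ^ m := h5
    _ ≤ ((om m * D + ε / 2) * R₁ ^ m) / (R₁ - r) ^ m * s ^ m := by
        have := h6.trans h2
        gcongr
    _ = ((om m * D + ε / 2) * (R₁ / (R₁ - r)) ^ m) * s ^ m := by
        rw [div_pow]
        ring
    _ ≤ (om m * D + ε) * s ^ m := by gcongr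

/-- the test function -/
noncomputable def zt {N : ℕ} (π : Submodule ℝ (E N)) (ε : ℝ) (w : E N) : ℝ :=
  max 0 (1 - max 0 (‖w‖ - (1 + ε))) * min 1 (‖πᗮ.starProjection w‖ * (2 / ε))

lemma zt_cont {N : ℕ} (π : Submodule ℝ (E N)) (ε : ℝ) : Continuous (zt π ε) := by
  unfold zt
  fun_prop

lemma zt_nonneg {N : ℕ} (π : Submodule ℝ (E N)) {ε : ℝ} (hε : 0 < ε) (w : E N) : 0 ≤ zt π ε w := by
  unfold zt
  positivity

lemma zt_zero {N : ℕ} (π : Submodule ℝ (E N)) {ε : ℝ} (hε : 0 < ε) {w : E N} (h : 2 + ε ≤ ‖w‖) :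
    zt π ε w = 0 := by
  unfold zt
  rw [max_eq_right (a := 0) (b := ‖w‖ - (1 + ε)) (by linarith), max_eq_left (by linarith), zero_mul]

lemma zt_one {N : ℕ} (π : Submodule ℝ (E N)) {ε : ℝ} (hε : 0 < ε) {w : E N} (h : ‖w‖ ≤ 1 + ε)
    (h2 : ε / 2 ≤ ‖πᗮ.starProjection w‖) : zt π ε w = 1 := by
  unfold zt
  rw [max_eq_left (a := 0) (b := ‖w‖ - (1 + ε)) (by linarith), sub_zero, max_eq_right (by norm_num),
    one_mul, min_eq_left]
  have : ε / 2 * (2 / ε) = 1 := by field_simp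
  rw [← this]
  gcongr

lemma zt_plane {N : ℕ} (π : Submodule ℝ (E N)) (ε : ℝ) (w : π) : zt π ε (w : E N) = 0 := by
  unfold zt
  have : πᗮ.starProjection (w : E N) = 0 := by
    rw [Submodule.starProjection_apply_eq_zero_iff, Submodule.orthogonal_orthogonal]
    exact w.2
  rw [this, norm_zero, zero_mul, min_eq_right (by norm_num), mul_zero]

theorem flat {N m : ℕ} {U : Set (E N)} {μ : Measure (E N)} {P : E N → E N →L[ℝ] E N}
    (hS : Stat m U μ P) (hU : IsOpen U) {θ : ℝ≥0∞} (hθ0 : θ ≠ 0) (hθ1 : θ ≠ ⊤)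
    (hθ : ∀ᵐ x ∂(μ.restrict U), θ ≤ density m μ x) {x₀ : E N} (hx₀ : x₀ ∈ U)
    {π : Submodule ℝ (E N)} {Q : ℝ} (hF : FlatTangent m μ x₀ π Q) (ε : ℝ) (hε : 0 < ε) :
    ∃ ρ : ℝ, 0 < ρ ∧ ∀ r, 0 < r → r < ρ → ∀ z ∈ μ.support, dist z x₀ ≤ r →
      ‖πᗮ.starProjection (z - x₀)‖ ≤ ε * r := by
  obtain ⟨R₀, hR₀, hsub⟩ := Metric.isOpen_iff.1 hU x₀ hx₀
  have hc := Helper68V.cst_pos (m := m) hθ0 hθ1
  have hcs : HasCompactSupport (zt π ε) := by
    apply HasCompactSupport.intro (isCompact_closedBall (0 : E N) (2 + ε))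
    intro w hw
    rw [mem_closedBall, dist_zero_right, not_le] at hw
    exact zt_zero π hε hw.le
  have h1 := hF (zt π ε) (zt_cont π ε) hcs
  have h2 : ∫ x : π, zt π ε x = 0 := by
    simp only [zt_plane, integral_zero]
  rw [h2, mul_zero] at h1
  have h3 : ∀ᶠ r in 𝓝[>] (0:ℝ), (∫ z, zt π ε (r⁻¹ • (z - x₀)) ∂μ) / r ^ m <
      Helper68V.cst m θ * (ε / 2) ^ m := h1.eventually (gt_mem_nhds (by positivity))
  refine exists_radius ?_
  filter_upwards [h3, Ioo_mem_nhdsGT (by positivity : 0 < R₀ / (2 + ε))] with r hr hr1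
  intro z hz hzr
  have hr0 : 0 < r := hr1.1
  have hr2 : r * (2 + ε) < R₀ := by
    have := hr1.2
    rwa [lt_div_iff₀ (by positivity)] at this
  by_contra hcon
  rw [not_le] at hcon
  have hcU : closedBall x₀ ((2 + ε) * r) ⊆ U := by
    refine (closedBall_subset_ball ?_).trans hsub
    linarith
  have hsb : closedBall z (ε / 2 * r) ⊆ closedBall x₀ ((1 + ε) * r) := by
    apply closedBall_subset_closedBall'
    nlinarith
  have hsb2 : closedBall x₀ ((1 + ε) * r) ⊆ closedBall x₀ ((2 + ε) * r) := by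
    apply closedBall_subset_closedBall
    nlinarith
  have h4 := Helper68V.lower_real hS hθ1 hθ hz (by positivity : 0 < ε / 2 * r)
    ((hsb.trans hsb2).trans hcU)
  have hfin : μ (closedBall x₀ ((2 + ε) * r)) < ⊤ := hS.fin _ hcU (isCompact_closedBall _ _)
  -- the integrand
  have hcont : Continuous fun y : E N => zt π ε (r⁻¹ • (y - x₀)) := by
    have := zt_cont π ε
    fun_prop
  have hzero : ∀ y, y ∉ closedBall x₀ ((2 + ε) * r) → zt π ε (r⁻¹ • (y - x₀)) = 0 := by
    intro y hy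
    rw [mem_closedBall, dist_eq_norm, not_le] at hy
    apply zt_zero π hε
    rw [norm_smul, norm_inv, Real.norm_eq_abs, abs_of_pos hr0, le_inv_mul_iff₀ hr0]
    linarith
  have hint : Integrable (fun y : E N => zt π ε (r⁻¹ • (y - x₀))) μ := by
    rw [← integrableOn_iff_integrable_of_support_subset (s := closedBall x₀ ((2 + ε) * r))]
    · exact hcont.continuousOn.integrableOn_of_subset_isCompact (isCompact_closedBall _ _)
        measurableSet_closedBall subset_rfl hfin.ne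
    · intro y hy
      by_contra h5
      exact hy (hzero y h5)
  have h5 : μ.real (ball z (ε / 2 * r)) ≤ ∫ y, zt π ε (r⁻¹ • (y - x₀)) ∂μ := by
    have e : μ.real (ball z (ε / 2 * r)) = ∫ y, (ball z (ε / 2 * r)).indicator (fun _ => (1:ℝ)) y ∂μ := by
      rw [integral_indicator measurableSet_ball]
      simp [Measure.real]
    rw [e]
    apply integral_mono_of_nonneg
    · filter_upwards with y
      exact indicator_nonneg (fun _ _ => zero_le_one) y
    · exact hint
    · filter_upwards with y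
      by_cases hy : y ∈ ball z (ε / 2 * r)
      · rw [indicator_of_mem hy]
        have hy2 := hsb (ball_subset_closedBall hy)
        rw [mem_closedBall, dist_eq_norm] at hy2
        rw [zt_one π hε]
        · rw [norm_smul, norm_inv, Real.norm_eq_abs, abs_of_pos hr0, inv_mul_le_iff₀ hr0]
          linarith
        · rw [map_smul, norm_smul, norm_inv, Real.norm_eq_abs, abs_of_pos hr0, le_inv_mul_iff₀ hr0]
          rw [mem_ball, dist_eq_norm] at hy
          have e1 : πᗮ.starProjection (z - x₀) = πᗮ.starProjection (y - x₀) -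
              πᗮ.starProjection (y - z) := by
            rw [← map_sub]
            congr 1
            abel
          have h6 : ‖πᗮ.starProjection (y - z)‖ ≤ ‖y - z‖ := by
            refine ((πᗮ.starProjection).le_opNorm _).trans ?_
            have := Submodule.starProjection_norm_le πᗮ
            have h7 := norm_nonneg (y - z)
            nlinarith
          have h7 := norm_sub_le (πᗮ.starProjection (y - x₀)) (πᗮ.starProjection (y - z))
          rw [← e1] at h7
          linarith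
      · rw [indicator_of_notMem hy]
        exact zt_nonneg π hε _
  rw [div_lt_iff₀ (by positivity)] at hr
  have h6 := (h4.trans h5).trans_lt hr
  rw [mul_pow] at h6
  linarith [h6]

end InitP

theorem t_INIT : S_INIT where
  flat := fun N m U μ T θ x₀ π Q _ hU hV hθ0 hθ1 hθ hx₀ hF =>
    InitP.flat (Helper68V.Pub.toStat hV) hU hθ0 hθ1 hθ hx₀ hF
  ratio := fun N m U μ T x₀ _ hU hV hx₀ => InitP.ratio (Helper68V.Pub.toStat hV) hU hx₀
  bad := fun N m U μ T x₀ B _ _ _ _ h => InitP.bad N m μ x₀ B h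

end Pool.Agent.Helper68X
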