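import Pool.Agent.Helper68X.Stm

/-!
# Piece INV of project JET (helper52 for helper68): the Laplacian is surjective on homogeneous polynomials
-/

set_option autoImplicit false

namespace Pool.Agent.Helper68X

namespace Inv

open MvPolynomial

/-- the Laplacian as a linear map -/
noncomputable def LapL (m : ℕ) : Pol m →ₗ[ℝ] Pol m :=
  ∑ i, (pderiv (R := ℝ) i).toLinearMap ∘ₗ (pderiv (R := ℝ) i).toLinearMap

theorem LapL_apply {m : ℕ} (P : Pol m) : LapL m P = Lap P := by
  simp [LapL, Lap]

theorem dd {m : ℕ} (i : Fin m) (t : Fin m →₀ ℕ) (c : ℝ) :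
    pderiv i (pderiv i (monomial t c)) =
      monomial (t - Finsupp.single i 1 - Finsupp.single i 1) (c * t i * ((t i - 1 : ℕ) : ℝ)) := by
  rw [pderiv_monomial, pderiv_monomial]
  congr 2
  simp

theorem mono_inv (m j : ℕ) : ∀ (n : ℕ) (s : Fin (m + 1) →₀ ℕ), s.degree = j → j - s 0 = n →
    ∃ R : Pol (m + 1), R.IsHomogeneous (j + 2) ∧ LapL (m + 1) R = monomial s 1 := by
  intro n
  induction n using Nat.strong_induction_on with
  | _ n ih =>
    intro s hs hn
    have hc : (((s 0 : ℝ) + 1) * ((s 0 : ℝ) + 2)) ≠ 0 := by positivity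
    set c : ℝ := (((s 0 : ℝ) + 1) * ((s 0 : ℝ) + 2))⁻¹ with hcd
    set t : Fin (m + 1) →₀ ℕ := s + Finsupp.single 0 2 with ht
    have ht0 : t 0 = s 0 + 2 := by simp [ht]
    have htd : t.degree = j + 2 := by
      rw [ht, map_add, hs]; simp
    -- the terms with i ≠ 0
    have key : ∀ i : Fin (m + 1), i ≠ 0 → ∃ R : Pol (m + 1), R.IsHomogeneous (j + 2) ∧
        LapL (m + 1) R = pderiv i (pderiv i (monomial t c)) := by
      intro i hi
      have hti : t i = s i := by
        simp [ht, Ne.symm hi]
      by_cases h2 : 2 ≤ s i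
      · set t' := t - Finsupp.single i 1 - Finsupp.single i 1 with ht'
        have ht'0 : t' 0 = s 0 + 2 := by
          simp [ht', hi, ht0]
        have hadd : t' + Finsupp.single i 2 = t := by
          ext l
          by_cases hl : l = i
          · subst hl
            simp [ht', hti]
            omega
          · simp [ht', Ne.symm hl]
        have hdeg : t'.degree = j := by
          have h := congrArg Finsupp.degree hadd
          rw [map_add, htd] at h
          simp at h
          omega
        have hle : s 0 + 2 ≤ j := by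
          rw [← hdeg, ← ht'0]
          exact Finsupp.le_degree 0 t'
        obtain ⟨R, hR, hL⟩ := ih (j - t' 0) (by omega) t' hdeg rfl
        refine ⟨(c * t i * ((t i - 1 : ℕ) : ℝ)) • R, ?_, ?_⟩
        · rw [MvPolynomial.smul_eq_C_mul]; exact hR.C_mul _
        · rw [map_smul, hL, dd, smul_monomial, smul_eq_mul, mul_one]
      · refine ⟨0, isHomogeneous_zero _ _ _, ?_⟩
        rw [map_zero, dd]
        have : (c * t i * ((t i - 1 : ℕ) : ℝ)) = 0 := by
          rw [hti]
          have h3 : s i = 0 ∨ s i = 1 := by omega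
          rcases h3 with h3 | h3 <;> simp [h3]
        rw [this]; simp
    choose! Ri hRi hLi using key
    refine ⟨monomial t c - ∑ i ∈ Finset.univ.erase (0 : Fin (m + 1)), Ri i, ?_, ?_⟩
    · refine (isHomogeneous_monomial _ htd).sub (IsHomogeneous.sum _ _ _ ?_)
      intro i hi
      exact hRi i (Finset.ne_of_mem_erase hi)
    · rw [map_sub, map_sum]
      rw [Finset.sum_congr rfl (fun i hi => hLi i (Finset.ne_of_mem_erase hi))]
      have h1 : LapL (m + 1) (monomial t c) = ∑ i, pderiv i (pderiv i (monomial t c)) := by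
        rw [LapL_apply]; rfl
      rw [h1, ← Finset.add_sum_erase _ _ (Finset.mem_univ (0 : Fin (m + 1))), add_sub_cancel_right, dd]
      have h2 : t - Finsupp.single 0 1 - Finsupp.single 0 1 = s := by
        ext l
        by_cases hl : l = 0
        · subst hl
          simp [ht]
        · simp [ht, Ne.symm hl]
      rw [h2, ht0]
      congr 1
      have : ((s 0 + 2 - 1 : ℕ) : ℝ) = (s 0 : ℝ) + 1 := by
        have : s 0 + 2 - 1 = s 0 + 1 := by omega
        rw [this]; push_cast; ring
      rw [this, hcd]
      push_cast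
      field_simp

end Inv

open MvPolynomial in
/-- Piece INV. -/
theorem t_INV : S_INV := by
  intro m hm j f hf
  obtain ⟨m, rfl⟩ : ∃ m', m = m' + 1 := ⟨m - 1, by omega⟩
  have key : ∀ s ∈ f.support, ∃ R : Pol (m + 1), R.IsHomogeneous (j + 2) ∧
      Inv.LapL (m + 1) R = monomial s (f.coeff s) := by
    intro s hs
    have hd : s.degree = j := by
      by_contra hne
      exact (mem_support_iff.mp hs) (hf.coeff_eq_zero hne)
    obtain ⟨R, hR, hL⟩ := Inv.mono_inv m j _ s hd rfl
    refine ⟨f.coeff s • R, ?_, ?_⟩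
    · rw [MvPolynomial.smul_eq_C_mul]; exact hR.C_mul _
    · rw [map_smul, hL, smul_monomial]; simp
  choose! R hR hL using key
  refine ⟨∑ s ∈ f.support, R s, IsHomogeneous.sum _ _ _ hR, ?_⟩
  rw [← Inv.LapL_apply, map_sum, Finset.sum_congr rfl hL]
  exact (MvPolynomial.as_sum f).symm

end Pool.Agent.Helper68X
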