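import Pool.Agent.Helper68X.Stm4

/-!
# Piece ITER of project JET (helper52 for helper68): the iteration
-/

set_option autoImplicit false

namespace Pool.Agent.Helper68X

open MeasureTheory Set Filter Topology Metric Pool.Agent.TH337.VF Pool.Agent.Helper68V
open scoped ENNReal RealInnerProductSpace ContDiff

namespace Iter

lemma exists_kappa (d : ℕ) (σ C₁ : ℝ) (h : σ < d + 1) :
    ∃ κ : ℝ, 0 < κ ∧ κ ≤ 1 / 8 ∧ C₁ * κ ^ (d + 1) ≤ (κ / 2) ^ σ := by
  have h1 : Tendsto (fun κ : ℝ => C₁ * 2 ^ σ * κ ^ ((d : ℝ) + 1 - σ)) (𝓝[>] 0)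
      (𝓝 (C₁ * 2 ^ σ * 0)) := by
    apply Tendsto.const_mul
    have h0 : Tendsto (fun κ : ℝ => κ ^ ((d : ℝ) + 1 - σ)) (𝓝 0) (𝓝 ((0 : ℝ) ^ ((d : ℝ) + 1 - σ))) :=
      (Real.continuousAt_rpow_const 0 _ (Or.inr (by linarith))).tendsto
    rw [Real.zero_rpow (by linarith)] at h0
    exact h0.mono_left nhdsWithin_le_nhds
  rw [mul_zero] at h1
  have h2 := h1.eventually (ge_mem_nhds one_pos)
  have h3 : ∀ᶠ κ : ℝ in 𝓝[>] 0, κ ∈ Ioc (0 : ℝ) (1 / 8) := Ioc_mem_nhdsGT (by norm_num)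
  obtain ⟨κ, hκ1, hκ2⟩ := (h2.and h3).exists
  have hp := hκ2.1
  refine ⟨κ, hp, hκ2.2, ?_⟩
  rw [Real.div_rpow hp.le (by norm_num), le_div_iff₀ (by positivity)]
  have e : κ ^ (d + 1) = κ ^ ((d : ℝ) + 1 - σ) * κ ^ σ := by
    rw [← Real.rpow_add hp, ← Real.rpow_natCast]
    congr 1
    push_cast
    ring
  rw [e]
  have e2 : C₁ * (κ ^ ((d : ℝ) + 1 - σ) * κ ^ σ) * 2 ^ σ =
      (C₁ * 2 ^ σ * κ ^ ((d : ℝ) + 1 - σ)) * κ ^ σ := by ring
  rw [e2]
  have h4 : 0 < κ ^ σ := Real.rpow_pos_of_pos hp σ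
  nlinarith

end Iter

/-- Piece ITER. -/
theorem t_ITER : S_ITER := by
  intro hN hLC hSEQ hUL N m n U μ T π τ ν x₀ B θ Bd hW d σ C₁ hd hσ1 hσ2 hC₁ hOne
  obtain ⟨κ, hκ0, hκ8, hκ⟩ := Iter.exists_kappa d σ C₁ hσ2
  obtain ⟨η, ρ, hη0, hη1, hρ0, hstep⟩ := hOne κ hκ0 hκ8
  obtain ⟨CU, ρU, hCU, hρU, hU⟩ := hUL hN N m U μ T π τ x₀ B θ Bd hW d
  obtain ⟨R, hR0, hRU⟩ := hW.nbd
  have hd1 : (1 : ℝ) ≤ d := by exact_mod_cast hd
  have hσ0 : 0 < σ := by linarith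
  refine ⟨CU + C₁ + 1, η, min ρ (min ρU R), by linarith, hη0, hη1, lt_min hρ0 (lt_min hρU hR0), ?_⟩
  intro M P Λ r₀ hΛ hr₀ hr₀1 hM hMr hΛη hA
  have hr₀ρ : r₀ < ρ := lt_of_lt_of_le hr₀1 (min_le_left _ _)
  have hr₀U : r₀ < ρU := lt_of_lt_of_le hr₀1 ((min_le_right _ _).trans (min_le_left _ _))
  have hr₀R : r₀ < R := lt_of_lt_of_le hr₀1 ((min_le_right _ _).trans (min_le_right _ _))
  set lam : ℝ := κ / 2 with hlam
  have hl0 : 0 < lam := by positivity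
  have hl1 : lam < 1 := by rw [hlam]; linarith
  obtain ⟨CS, hCS0, hCS⟩ := hSEQ hN hLC m d σ lam hl0 hl1 hσ1
  have hri0 : ∀ i : ℕ, 0 < r₀ * lam ^ i := fun i => by positivity
  have hri1 : ∀ i : ℕ, r₀ * lam ^ i ≤ r₀ := fun i =>
    mul_le_of_le_one_right hr₀.le (pow_le_one₀ hl0.le hl1.le)
  have hei0 : ∀ i : ℕ, 0 < Λ * (r₀ * lam ^ i) ^ σ := fun i =>
    mul_pos hΛ (Real.rpow_pos_of_pos (hri0 i) σ)
  -- the bound of the height gives the bound of the norm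
  have hnrm : ∀ (r b : ℝ) (H : Fin n → Pol m), 0 < r → r ≤ r₀ → Hrm d H → 0 ≤ b →
      (∀ z ∈ μ.support, z ∈ closedBall x₀ r → ∀ α,
        |hh ν x₀ (ut τ x₀ fun β => P β + H β) α z| ≤ b) → ∀ α, nrm r (H α) ≤ CU * (M r + b) := by
    intro r b H hr hrr hH hb hb' α
    refine hU r hr (lt_of_le_of_lt hrr hr₀U) (H α) (M r + b) (hH α).1
      (add_nonneg (hM r hr hrr).1 hb) fun z hz hzr => ?_
    have h1 := (hM r hr hrr).2 z hz hzr α
    have h2 := hb' z hz hzr α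
    rw [hh_ut_add] at h2
    have e : ev (fun i => (τ i : E N)) x₀ (H α) z = hh ν x₀ (ut τ x₀ P) α z -
        (hh ν x₀ (ut τ x₀ P) α z - ev (fun i => (τ i : E N)) x₀ (H α) z) := by ring
    rw [e]
    exact (abs_sub _ _).trans (add_le_add h1 h2)
  -- one step
  have step : ∀ (i : ℕ) (H : Fin n → Pol m), (Hrm d H ∧ ∀ z ∈ μ.support,
      z ∈ closedBall x₀ (r₀ * lam ^ i) → ∀ α,
        |hh ν x₀ (ut τ x₀ fun β => P β + H β) α z| ≤ Λ * (r₀ * lam ^ i) ^ σ) →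
      ∃ H' : Fin n → Pol m, (Hrm d H' ∧ ∀ z ∈ μ.support,
        z ∈ closedBall x₀ (r₀ * lam ^ (i + 1)) → ∀ α,
        |hh ν x₀ (ut τ x₀ fun β => P β + H' β) α z| ≤ Λ * (r₀ * lam ^ (i + 1)) ^ σ) ∧
        ∀ α, nrm (r₀ * lam ^ i) (H' α - H α) ≤ C₁ * Λ * (r₀ * lam ^ i) ^ σ := by
    rintro i H ⟨hH, hinv⟩
    set r := r₀ * lam ^ i with hr
    have hr0 : 0 < r := hri0 i
    have hrr : r ≤ r₀ := hri1 i
    have he0 : 0 < Λ * r ^ σ := hei0 i
    have hMr0 : 0 ≤ M r := (hM r hr0 hrr).1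
    have hnH := hnrm r (Λ * r ^ σ) H hr0 hrr hH he0.le hinv
    have hAH : ∀ w : Fin n → Pol m, Hrm d w → (∀ α, nrm r (w α) ≤ C₁ * (Λ * r ^ σ)) →
        ∀ z ∈ closedBall x₀ r, ∀ α,
        |Fo ν (ut τ x₀ fun β => P β + (H β + w β)) α z| ≤ η ^ 2 * (Λ * r ^ (σ - 2)) ∧
        ‖fderiv ℝ (ut τ x₀ (fun β => P β + (H β + w β)) α) z‖ ≤ η ∧
        N * ‖fderiv ℝ (fderiv ℝ (ut τ x₀ (fun β => P β + (H β + w β)) α)) z‖ ≤ η / r := by
      intro w hw hwn
      refine hA r hr0 hrr (fun β => H β + w β) ?_ ?_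
      · intro α
        refine ⟨(MvPolynomial.totalDegree_add _ _).trans (max_le (hH α).1 (hw α).1), ?_⟩
        have : Lap (H α + w α) = Lap (H α) + Lap (w α) := by
          simp only [Lap, map_add, Finset.sum_add_distrib]
        rw [this, (hH α).2, (hw α).2, add_zero]
      · intro α
        refine (hN.add m r _ _ hr0.le).trans ?_
        have h1 := hnH α
        have h2 := hwn α
        nlinarith
    have hzero : ∀ α : Fin n, nrm r ((0 : Fin n → Pol m) α) ≤ C₁ * (Λ * r ^ σ) := by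
      intro α
      rw [Pi.zero_apply, hN.zero]
      positivity
    have hz0 : Hrm d (0 : Fin n → Pol m) := by
      intro α
      simp [Lap]
    have hA0 := hAH 0 hz0 hzero
    simp only [Pi.zero_apply, add_zero] at hA0
    have hrσ : r ^ (σ - 1) ≤ r₀ ^ (σ - 1) := Real.rpow_le_rpow hr0.le hrr (by linarith)
    have hΛr : Λ * r ^ (σ - 1) ≤ η := (mul_le_mul_of_nonneg_left hrσ hΛ.le).trans hΛη
    have e1 : r ^ σ = r ^ (σ - 1) * r := by
      rw [← Real.rpow_add_one hr0.ne']; congr 1; ring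
    have e2 : r ^ (σ - 1) = r ^ (σ - 2) * r := by
      rw [← Real.rpow_add_one hr0.ne']; congr 1; ring
    have hsc : Sc U μ ν x₀ (ut τ x₀ fun β => P β + H β) r (Λ * r ^ σ) (η ^ 2 * (Λ * r ^ (σ - 2))) η := by
      refine ⟨hr0, he0, by positivity, hη0, hη1, ?_, ?_, ?_, ut_gf _, hinv, fun z hz α => (hA0 z hz α).1,
        fun z hz α => (hA0 z hz α).2.1, fun z hz α => (hA0 z hz α).2.2⟩
      · rw [e1, ← mul_assoc]
        exact mul_le_mul_of_nonneg_right hΛr hr0.le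
      · have : η ^ 2 * (Λ * r ^ (σ - 2)) * r = η ^ 2 * (Λ * r ^ (σ - 1)) := by rw [e2]; ring
        rw [this]
        have h5 : η ^ 2 * (Λ * r ^ (σ - 1)) ≤ η ^ 2 * η := mul_le_mul_of_nonneg_left hΛr (by positivity)
        have h6 : η ^ 2 * η ≤ 1 * η := mul_le_mul_of_nonneg_right (by nlinarith) hη0.le
        linarith
      · exact (closedBall_subset_closedBall (hrr.trans hr₀R.le)).trans hRU
    obtain ⟨w, hw, hwn, hwh⟩ := hstep r hr0 (lt_of_le_of_lt hrr hr₀ρ) (fun β => P β + H β) (Λ * r ^ σ)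
      (η ^ 2 * (Λ * r ^ (σ - 2))) hsc (by rw [e1, e2]; nlinarith) (by
        intro w hw hwn z hz α
        have := (hAH w hw hwn z hz α).1
        simpa only [add_assoc] using this)
    refine ⟨fun β => H β + w β, ⟨?_, ?_⟩, ?_⟩
    · intro α
      refine ⟨(MvPolynomial.totalDegree_add _ _).trans (max_le (hH α).1 (hw α).1), ?_⟩
      have : Lap (H α + w α) = Lap (H α) + Lap (w α) := by
        simp only [Lap, map_add, Finset.sum_add_distrib]
      rw [this, (hH α).2, (hw α).2, add_zero]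
    · intro z hz hzr α
      have e3 : r₀ * lam ^ (i + 1) = κ * r / 2 := by rw [hr, hlam, pow_succ]; ring
      have e4 : r₀ * lam ^ (i + 1) = r * lam := by rw [hr, pow_succ]; ring
      have h7 := hwh z hz (by rw [← e3]; exact hzr) α
      simp only [add_assoc] at h7
      refine h7.trans ?_
      rw [e4, Real.mul_rpow hr0.le hl0.le]
      have h8 := mul_le_mul_of_nonneg_right hκ he0.le
      calc C₁ * κ ^ (d + 1) * (Λ * r ^ σ) ≤ lam ^ σ * (Λ * r ^ σ) := h8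
        _ = Λ * (r ^ σ * lam ^ σ) := by ring
    · intro α
      have : H α + w α - H α = w α := by ring
      rw [this]
      have := hwn α
      linarith
  choose! f hf1 hf2 using step
  let H : ℕ → Fin n → Pol m := fun i => Nat.rec (0 : Fin n → Pol m) (fun j h => f j h) i
  have hH0 : H 0 = 0 := rfl
  have hHs : ∀ i, H (i + 1) = f i (H i) := fun i => rfl
  have hinv : ∀ i, Hrm d (H i) ∧ ∀ z ∈ μ.support, z ∈ closedBall x₀ (r₀ * lam ^ i) → ∀ α,
      |hh ν x₀ (ut τ x₀ fun β => P β + H i β) α z| ≤ Λ * (r₀ * lam ^ i) ^ σ := by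
    intro i
    induction i with
    | zero =>
      refine ⟨?_, ?_⟩
      · intro α
        rw [hH0]
        simp [Lap]
      · intro z hz hzr α
        rw [pow_zero, mul_one] at hzr ⊢
        rw [hH0]
        simp only [Pi.zero_apply, add_zero]
        exact ((hM r₀ hr₀ le_rfl).2 z hz hzr α).trans hMr
    | succ i ih =>
      rw [hHs]
      exact hf1 i (H i) ih
  have hdiff : ∀ i α, nrm (r₀ * lam ^ i) (H (i + 1) α - H i α) ≤ C₁ * Λ * (r₀ * lam ^ i) ^ σ := by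
    intro i α
    rw [hHs]
    exact hf2 i (H i) (hinv i) α
  have hlim : ∀ α, ∃ H' : Pol m, H'.totalDegree ≤ d ∧ Lap H' = 0 ∧
      ∀ i, nrm (r₀ * lam ^ i) (H' - H i α) ≤ CS * (C₁ * Λ) * (r₀ * lam ^ i) ^ σ := fun α =>
    hCS (C₁ * Λ) r₀ (by positivity) hr₀ (fun i => H i α) (fun i => ((hinv i).1 α).1)
      (fun i => ((hinv i).1 α).2) (fun i => hdiff i α)
  choose H' hH'd hH'L hH'n using hlim
  set C : ℝ := (Λ + CS * (C₁ * Λ)) * (lam ^ σ)⁻¹ with hC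
  have hls : 0 < lam ^ σ := Real.rpow_pos_of_pos hl0 σ
  have hC0 : 0 ≤ C := by positivity
  have hmain : ∀ r, 0 < r → r ≤ r₀ → ∀ z ∈ μ.support, z ∈ closedBall x₀ r → ∀ α,
      |hh ν x₀ (ut τ x₀ fun β => P β + H' β) α z| ≤ C * r ^ σ := by
    intro r hr hrr z hz hzr α
    -- choose i
    obtain ⟨i, hi1, hi2⟩ : ∃ i : ℕ, r₀ * lam ^ (i + 1) < r ∧ r ≤ r₀ * lam ^ i := by
      have hex : ∃ j : ℕ, r₀ * lam ^ j < r := by
        obtain ⟨j, hj⟩ := exists_pow_lt_of_lt_one (show (0 : ℝ) < r / r₀ by positivity) hl1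
        refine ⟨j, ?_⟩
        rw [lt_div_iff₀ hr₀] at hj
        linarith
      classical
      have h1 := Nat.find_spec hex
      have hne : Nat.find hex ≠ 0 := by
        intro h0
        rw [h0, pow_zero, mul_one] at h1
        linarith
      obtain ⟨i, hi⟩ := Nat.exists_eq_succ_of_ne_zero hne
      refine ⟨i, ?_, ?_⟩
      · rw [hi] at h1
        exact h1
      · have h2 := Nat.find_min hex (m := i) (by omega)
        exact not_lt.mp h2
    have hz' : z ∈ closedBall x₀ (r₀ * lam ^ i) := closedBall_subset_closedBall hi2 hzr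
    have h1 := (hinv i).2 z hz hz' α
    have h2 : |ev (fun i => (τ i : E N)) x₀ (H' α - H i α) z| ≤
        CS * (C₁ * Λ) * (r₀ * lam ^ i) ^ σ := (ev_le hN hz' _).trans (hH'n α i)
    have e5 : hh ν x₀ (ut τ x₀ fun β => P β + H' β) α z =
        hh ν x₀ (ut τ x₀ fun β => P β + H i β) α z -
          ev (fun i => (τ i : E N)) x₀ (H' α - H i α) z := by
      have e6 : (fun β => P β + H' β) = fun β => (P β + H i β) + (H' β - H i β) := by
        funext β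
        ring
      rw [e6, hh_ut_add (fun β => P β + H i β) (fun β => H' β - H i β)]
    rw [e5]
    refine (abs_sub _ _).trans ((add_le_add h1 h2).trans ?_)
    have h3 : r₀ * lam ^ i ≤ r / lam := by
      rw [le_div_iff₀ hl0]
      have : r₀ * lam ^ i * lam = r₀ * lam ^ (i + 1) := by rw [pow_succ]; ring
      rw [this]
      exact hi1.le
    have h4 : (r₀ * lam ^ i) ^ σ ≤ (r / lam) ^ σ := Real.rpow_le_rpow (hri0 i).le h3 hσ0.le
    rw [Real.div_rpow hr.le hl0.le] at h4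
    have h5 : 0 ≤ Λ + CS * (C₁ * Λ) := by positivity
    calc Λ * (r₀ * lam ^ i) ^ σ + CS * (C₁ * Λ) * (r₀ * lam ^ i) ^ σ
        = (Λ + CS * (C₁ * Λ)) * (r₀ * lam ^ i) ^ σ := by ring
      _ ≤ (Λ + CS * (C₁ * Λ)) * (r ^ σ / lam ^ σ) := mul_le_mul_of_nonneg_left h4 h5
      _ = C * r ^ σ := by rw [hC]; ring
  have hH'H : Hrm d H' := fun α => ⟨hH'd α, hH'L α⟩
  refine ⟨H', C, hC0, hH'H, fun r hr hrr => ⟨hmain r hr hrr, fun α => ?_⟩⟩
  have hrσ0 : 0 ≤ C * r ^ σ := mul_nonneg hC0 (Real.rpow_nonneg hr.le σ)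
  have h6 := hnrm r (C * r ^ σ) H' hr hrr hH'H hrσ0 (hmain r hr hrr) α
  refine h6.trans ?_
  have h7 := (hM r hr hrr).1
  apply mul_le_mul_of_nonneg_right _ (add_nonneg h7 hrσ0)
  linarith

end Pool.Agent.Helper68X
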