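import Mathlib
import Pool.Agent.Helper68V.Pub

/-!
# Project JET (helper68), MP_8daebb_an: Taylor expansions of all orders of stationary varifolds

Goal. Let `V = (μ, T)` be a stationary `m`-varifold in `U ⊆ ℝ^N` with density `≥ θ > 0` almost everywhere, and let
`x₀ ∈ supp μ` satisfy the hypotheses of Q1 (unique flat tangent cone `Θ(x₀) H^m ⌞ π`, and the set `{Θ ≠ Θ(x₀)}` has
density zero at `x₀`). Then for every `K` there is a polynomial map `P` of degree `≤ K` from `π` to `π^⊥` with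
vanishing 1-jet, whose graph is minimal up to order `O(|x|^(K-1))`, such that
`|π^⊥(z - x₀) - P(π(z - x₀))| = O(|z - x₀|^(K+1))` on `supp μ`.

This file: the statements of the independent pieces (each one is an ordinary lemma; the pieces do not depend on
each other, except that HP and WB may use NRM).
-/

set_option autoImplicit false

namespace Pool.Agent.Helper68X

open MeasureTheory Set Filter Topology Metric Pool.Agent.TH337.VF
open scoped ENNReal RealInnerProductSpace ContDiff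

/-- real polynomials in `m` variables -/
abbrev Pol (m : ℕ) : Type := MvPolynomial (Fin m) ℝ

/-- the Laplacian of a polynomial -/
noncomputable def Lap {m : ℕ} (P : Pol m) : Pol m :=
  ∑ i, MvPolynomial.pderiv i (MvPolynomial.pderiv i P)

/-- the weighted coefficient norm `∑ |c_s| r ^ |s|` -/
noncomputable def nrm {m : ℕ} (r : ℝ) (P : Pol m) : ℝ :=
  ∑ s ∈ P.support, |P.coeff s| * r ^ s.degree

/-- the polynomial `P` in the coordinates `⟨τ i, z - x₀⟩` -/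
noncomputable def ev {N m : ℕ} (τ : Fin m → E N) (x₀ : E N) (P : Pol m) (z : E N) : ℝ :=
  MvPolynomial.eval (fun i => ⟪τ i, z - x₀⟫) P

/-! ### NRM, INV, HP: polynomials -/

/-- **NRM.** Elementary facts about `nrm`. -/
structure S_NRM : Prop where
  nonneg : ∀ (m : ℕ) (r : ℝ) (P : Pol m), 0 ≤ r → 0 ≤ nrm r P
  zero : ∀ (m : ℕ) (r : ℝ), nrm r (0 : Pol m) = 0
  add : ∀ (m : ℕ) (r : ℝ) (P Q : Pol m), 0 ≤ r → nrm r (P + Q) ≤ nrm r P + nrm r Q
  smul : ∀ (m : ℕ) (r c : ℝ) (P : Pol m), nrm r (c • P) = |c| * nrm r P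
  coeff : ∀ (m : ℕ) (r : ℝ) (P : Pol m) (s : Fin m →₀ ℕ), 0 ≤ r → |P.coeff s| * r ^ s.degree ≤ nrm r P
  eval : ∀ (m : ℕ) (r : ℝ) (P : Pol m) (x : Fin m → ℝ), (∀ i, |x i| ≤ r) →
    |MvPolynomial.eval x P| ≤ nrm r P
  mono : ∀ (m : ℕ) (r R : ℝ) (P : Pol m), 0 ≤ r → r ≤ R → nrm r P ≤ nrm R P
  grow : ∀ (m d : ℕ) (r R : ℝ) (P : Pol m), 0 < r → r ≤ R → P.totalDegree ≤ d →
    nrm R P ≤ (R / r) ^ d * nrm r P
  pderiv : ∀ (m d : ℕ) (r : ℝ) (P : Pol m) (i : Fin m), 0 < r → P.totalDegree ≤ d →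
    nrm r (MvPolynomial.pderiv i P) ≤ d / r * nrm r P
  monomial : ∀ (m : ℕ) (r c : ℝ) (s : Fin m →₀ ℕ), 0 ≤ r →
    nrm r (MvPolynomial.monomial s c) ≤ |c| * r ^ s.degree

/-- **INV.** The Laplacian is surjective on homogeneous polynomials. Paper proof: by linearity it suffices to
treat monomials `x^s`; induction on the sum `|s'|` of the exponents of the variables other than `x_0`: for
`B₀ = x_0^(s_0+2) x'^(s') / ((s_0+1)(s_0+2))` one has `Lap B₀ = x^s + x_0^(s_0+2) Lap' x'^(s') / (...)`, and the last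
term is a combination of monomials of the same degree with smaller `|s'|`. -/
def S_INV : Prop := ∀ m : ℕ, 1 ≤ m → ∀ (j : ℕ) (f : Pol m), f.IsHomogeneous j →
  ∃ R : Pol m, R.IsHomogeneous (j + 2) ∧ Lap R = f

/-- **HP.** The distance to the harmonic polynomials (linear algebra in the finite-dimensional space
`MvPolynomial.restrictTotalDegree`, then scaling `x ↦ r x`). -/
def S_HP : Prop := ∀ m d : ℕ, ∃ C : ℝ, 0 ≤ C ∧ ∀ r : ℝ, 0 < r → ∀ P : Pol m, P.totalDegree ≤ d →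
  ∃ P' : Pol m, P'.totalDegree ≤ d ∧ Lap P' = 0 ∧ nrm r (P - P') ≤ C * r ^ 2 * nrm r (Lap P)

/-! ### KT: Taylor expansion of a kernel -/

/-- **KT.** Taylor expansion of a smooth function with compact support, uniformly in the centre, with continuous
coefficients. Paper proof: `w a = ∑_{j ≤ d} (1/j!) ∑_{I : Fin j → Fin m} D^j G(a)(τ ∘ I) ∏_l X_(I l)`; the remainder is
the one-dimensional Taylor formula (`taylor_mean_remainder_bound`) for `t ↦ G (a + t ∑ x_i τ_i)`; the derivatives of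
`G` are bounded, continuous, and vanish for `‖a‖ ≥ 1`. -/
def S_KT : Prop := ∀ (N m d : ℕ) (τ : Fin m → E N) (G : E N → ℝ), ContDiff ℝ ∞ G →
  (∀ z, 1 ≤ ‖z‖ → G z = 0) → ∃ (w : E N → Pol m) (C : ℝ), 0 ≤ C ∧ (∀ a, (w a).totalDegree ≤ d) ∧
    (∀ s, Continuous fun a => (w a).coeff s) ∧ (∀ a, nrm 1 (w a) ≤ C) ∧ (∀ a, 1 ≤ ‖a‖ → w a = 0) ∧
    ∀ (a : E N) (x : Fin m → ℝ), ‖x‖ ≤ 1 →
      |G (a + ∑ i, x i • τ i) - MvPolynomial.eval x (w a)| ≤ C * ‖x‖ ^ (d + 1)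

/-! ### WB: polynomials on a measure with a flat tangent -/

/-- the rescaled measures `r^(-m) (τ_(x₀,r))_# μ` converge weakly to `Q H^m ⌞ π` as `r → 0` -/
def FlatTangent {N : ℕ} (m : ℕ) (μ : Measure (E N)) (x₀ : E N) (π : Submodule ℝ (E N)) (Q : ℝ) : Prop :=
  ∀ ζ : E N → ℝ, Continuous ζ → HasCompactSupport ζ →
    Tendsto (fun r : ℝ => (∫ z, ζ (r⁻¹ • (z - x₀)) ∂μ) / r ^ m) (𝓝[>] 0) (𝓝 (Q * ∫ x : π, ζ x))

/-- **WB.** Lower bound of the `L²`-norm of polynomials on small balls. Paper proof: otherwise there are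
`r_j → 0` and `P_j` of degree `≤ d` with `nrm r_j P_j = 1` and `r_j^(-m) ∫_{B(x₀, r_j/2)} P_j² < 1/j`; the rescaled polynomials
`P_j(r_j x)` have `nrm 1 = 1` and a subsequence converges to `P` with `nrm 1 P = 1` (finite dimension); with a
continuous `0 ≤ χ ≤ 1`, `χ = 1` near `0`, with support in the ball of radius `1/2`, the weak convergence gives
`Q ∫_π χ P² = 0`, so `P = 0` on a neighbourhood of `0` in `π`, hence `P = 0`, a contradiction. -/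
def S_WB : Prop := ∀ (N m d : ℕ) (μ : Measure (E N)) (x₀ : E N) (π : Submodule ℝ (E N))
  (τ : OrthonormalBasis (Fin m) ℝ π) (Q R : ℝ), 1 ≤ m → 0 < Q → FlatTangent m μ x₀ π Q → 0 < R →
  μ (closedBall x₀ R) < ⊤ → ∃ C ρ : ℝ, 0 < C ∧ 0 < ρ ∧ ∀ r : ℝ, 0 < r → r < ρ → ∀ P : Pol m,
    P.totalDegree ≤ d → nrm r P ^ 2 * r ^ m ≤
      C * ∫ z in ball x₀ (r / 2), ev (fun i => (τ i : E N)) x₀ P z ^ 2 ∂μ

/-! ### DEN: smooth mass ratios -/

/-- a smooth kernel: nonincreasing, zero on `[1, ∞)`, positive at `0` -/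
structure Ker (f : ℝ → ℝ) : Prop where
  smooth : ContDiff ℝ ∞ f
  anti : ∀ u, deriv f u ≤ 0
  zero : ∀ u, 1 ≤ u → f u = 0
  pos : 0 < f 0

/-- the constant `∫_0^1 (-f'(v)) v^(m/2) dv` -/
noncomputable def cf (m : ℕ) (f : ℝ → ℝ) : ℝ := ∫ v in (0:ℝ)..1, -deriv f v * v ^ ((m : ℝ) / 2)

/-- **DEN.** Layer cake: `∫ f(|y-a|²/t²) dν = ∫_0^1 (-f'(v)) ν(B(a, t √v)) dv`. -/
structure S_DEN : Prop where
  ex : ∃ f : ℝ → ℝ, Ker f
  nonneg : ∀ f : ℝ → ℝ, Ker f → ∀ u, 0 ≤ f u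
  pos : ∀ (m : ℕ) (f : ℝ → ℝ), 1 ≤ m → Ker f → 0 < cf m f
  lower : ∀ (N m : ℕ) (f : ℝ → ℝ) (ν : Measure (E N)) (a : E N) (t B : ℝ), 1 ≤ m → Ker f →
    IsFiniteMeasure ν → 0 < t → (∀ s, 0 < s → s ≤ t → B * s ^ m ≤ ν.real (ball a s)) →
      cf m f * B * t ^ m ≤ ∫ y, f (‖y - a‖ ^ 2 / t ^ 2) ∂ν
  upper : ∀ (N m : ℕ) (f : ℝ → ℝ) (ν : Measure (E N)) (a : E N) (t B : ℝ), 1 ≤ m → Ker f →
    IsFiniteMeasure ν → 0 < t → (∀ s, 0 < s → s ≤ t → ν.real (ball a s) ≤ B * s ^ m) →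
      ∫ y, f (‖y - a‖ ^ 2 / t ^ 2) ∂ν ≤ cf m f * B * t ^ m

/-! ### INIT: the first consequences of the hypotheses -/

/-- volume of the unit ball of `ℝ^m` -/
noncomputable def om (m : ℕ) : ℝ := (volume (ball (0 : EuclideanSpace ℝ (Fin m)) 1)).toReal

/-- **INIT.** `flat`: the support is flat near `x₀` (a point of the support at height `≥ ε r` carries the mass
`≥ c (ε r)^m`, see `Pool.Agent.TH337.VF.lower`, against the weak convergence). `ratio`: from the monotonicity of the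
mass ratios (`Pool.Agent.TH337.VF.mono`): `ratio(a, s) ≤ ratio(a, R') ≤ ratio(x₀, R' + r) ((R' + r)/R')^m` with
`R' = r/γ`. `bad`: from the definition of `upperDens`. -/
structure S_INIT : Prop where
  flat : ∀ (N m : ℕ) (U : Set (E N)) (μ : Measure (E N)) (T : E N → Submodule ℝ (E N)) (θ : ℝ≥0∞)
    (x₀ : E N) (π : Submodule ℝ (E N)) (Q : ℝ), 1 ≤ m → IsOpen U → Helper68V.Pub.IsStationaryVarifold m U μ T →
    θ ≠ 0 → θ ≠ ⊤ → (∀ᵐ x ∂(μ.restrict U), θ ≤ density m μ x) → x₀ ∈ U → FlatTangent m μ x₀ π Q →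
    ∀ ε : ℝ, 0 < ε → ∃ ρ : ℝ, 0 < ρ ∧ ∀ r, 0 < r → r < ρ → ∀ z ∈ μ.support, dist z x₀ ≤ r →
      ‖πᗮ.starProjection (z - x₀)‖ ≤ ε * r
  ratio : ∀ (N m : ℕ) (U : Set (E N)) (μ : Measure (E N)) (T : E N → Submodule ℝ (E N)) (x₀ : E N),
    1 ≤ m → IsOpen U → Helper68V.Pub.IsStationaryVarifold m U μ T → x₀ ∈ U →
    ∀ ε : ℝ, 0 < ε → ∃ ρ : ℝ, 0 < ρ ∧ ∀ r, 0 < r → r < ρ → ∀ a ∈ closedBall x₀ r, ∀ s, 0 < s → s ≤ r →
      μ.real (ball a s) ≤ (om m * (density m μ x₀).toReal + ε) * s ^ m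
  bad : ∀ (N m : ℕ) (U : Set (E N)) (μ : Measure (E N)) (T : E N → Submodule ℝ (E N)) (x₀ : E N)
    (B : Set (E N)), 1 ≤ m → IsOpen U → Helper68V.Pub.IsStationaryVarifold m U μ T → x₀ ∈ U → upperDens m μ B x₀ = 0 →
    ∀ ε : ℝ, 0 < ε → ∃ ρ : ℝ, 0 < ρ ∧ ∀ r, 0 < r → r < ρ → μ.real (closedBall x₀ r ∩ B) ≤ ε * r ^ m

/-! ### FP: the minimal surface operator of polynomial graphs -/

/-- the matrix `∑_α ∂_i P_α ∂_j P_α` at `x` -/
noncomputable def gmat {m n : ℕ} (P : Fin n → Pol m) (x : Fin m → ℝ) : Matrix (Fin m) (Fin m) ℝ :=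
  fun i j => ∑ α, MvPolynomial.eval x (MvPolynomial.pderiv i (P α)) *
    MvPolynomial.eval x (MvPolynomial.pderiv j (P α))

/-- the Hessian matrix -/
noncomputable def hmat {m : ℕ} (P : Pol m) (x : Fin m → ℝ) : Matrix (Fin m) (Fin m) ℝ :=
  fun i j => MvPolynomial.eval x (MvPolynomial.pderiv i (MvPolynomial.pderiv j P))

/-- the minimal surface operator `tr ((1 + g)⁻¹ D² P_α)` -/
noncomputable def Fc {m n : ℕ} (P : Fin n → Pol m) (α : Fin n) (x : Fin m → ℝ) : ℝ :=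
  ((1 + gmat P x)⁻¹ * hmat (P α) x).trace

/-- **FP.** A polynomial graph with vanishing 1-jet that solves the minimal surface system up to `O(|x|^(k-1))` can
be improved by homogeneous terms of degree `k + 1`. Paper proof: `(1 + g)⁻¹ = ∑_{l ≤ J} (-g)^l + O(|x|^(2J+2))`
(Neumann series, `g = O(|x|²)`), so `F_α` is a polynomial up to `O(|x|^k)`; its terms of degree `< k - 1` vanish; let
`f_α` be the term of degree `k - 1` and `Lap R_α = - f_α` (INV, assumed). Then `F(P + R) - F(P) - Lap R = O(|x|^k)`. -/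
def S_FP : Prop := S_INV → ∀ (m n k : ℕ), 1 ≤ m → 1 ≤ k → ∀ P : Fin n → Pol m,
  (∀ α, (P α).totalDegree ≤ k) → (∀ α s, s.degree ≤ 1 → (P α).coeff s = 0) →
  (∃ C : ℝ, ∀ α x, ‖x‖ ≤ 1 → |Fc P α x| ≤ C * ‖x‖ ^ (k - 1)) →
  ∃ R : Fin n → Pol m, (∀ α, (R α).IsHomogeneous (k + 1)) ∧
    ∃ C : ℝ, ∀ α x, ‖x‖ ≤ 1 → |Fc (fun α => P α + R α) α x| ≤ C * ‖x‖ ^ k

end Pool.Agent.Helper68X
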