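import Mathlib
import Pool.Agent.Helper68X.Stm

/-!
Project JET (helper68), MP_8daebb_an: a second form of the piece KT with smooth coefficients (it replaces `S_KT`),
and the coefficients of the Laplacian.
-/

set_option autoImplicit false

namespace Pool.Agent.Helper68X

open MeasureTheory Set Filter Topology Metric Pool.Agent.TH337.VF
open scoped ENNReal RealInnerProductSpace ContDiff

/-- **LC.** The coefficients of the Laplacian of a polynomial. -/
def S_LC : Prop := ∀ (m : ℕ) (P : Pol m) (s : Fin m →₀ ℕ),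
  (Lap P).coeff s = ∑ i, (((s i : ℝ) + 1) * ((s i : ℝ) + 2)) * P.coeff (s + Finsupp.single i 2)

/-- **KT2.** Taylor expansion of a smooth function with compact support, uniformly in the centre `a`, with smooth
coefficients `c s = ∂^s G / s!` (derivatives in the directions `τ i`). Paper proof: define `∂^s G` by recursion on
`s` (with commuting partial derivatives, so that `∂^(s + e_k) G = ∂^s (∂_k G)` for every `k`), then induction on `d`:
`x ↦ G (a + ∑ x_i τ_i) - ∑_{|s| ≤ d + 1} c_s(a) x^s` vanishes at `0` and its `k`-th partial derivative is the same expression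
for `∂_k G` and `d`. -/
def S_KT2 : Prop := ∀ (N m d : ℕ) (τ : Fin m → E N) (G : E N → ℝ), ContDiff ℝ ∞ G →
  (∀ z, 1 ≤ ‖z‖ → G z = 0) → ∃ (S : Finset (Fin m →₀ ℕ)) (c : (Fin m →₀ ℕ) → E N → ℝ) (C : ℝ), 0 ≤ C ∧
    (∀ s, s ∈ S ↔ s.degree ≤ d) ∧ (∀ s, ContDiff ℝ ∞ (c s)) ∧ (∀ s a, 1 ≤ ‖a‖ → c s a = 0) ∧
    (∀ s a, ∑ i, (((s i : ℝ) + 1) * ((s i : ℝ) + 2)) * c (s + Finsupp.single i 2) a =
      ∑ i, fderiv ℝ (fderiv ℝ (c s)) a (τ i) (τ i)) ∧
    ∀ (a : E N) (x : Fin m → ℝ), ‖x‖ ≤ 1 →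
      |G (a + ∑ i, x i • τ i) - ∑ s ∈ S, c s a * ∏ i, x i ^ s i| ≤ C * ‖x‖ ^ (d + 1)

end Pool.Agent.Helper68X
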