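import Pool.Agent.Helper68X.KT
import Pool.Agent.Helper68X.Stm2

/-!
# Project JET: piece KT2 (Taylor expansion with smooth coefficients)
-/

set_option autoImplicit false
set_option linter.unusedSectionVars false

namespace Pool.Agent.Helper68X

open MeasureTheory Set Filter Topology Metric Pool.Agent.TH337.VF
open scoped ENNReal RealInnerProductSpace ContDiff Nat

namespace KT2

variable {N m : ℕ}

/-- the smooth functions -/
def Sm (N : ℕ) : Submodule ℝ (E N → ℝ) where
  carrier := {f | ContDiff ℝ ∞ f}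
  add_mem' := by
    intro f g (hf : ContDiff ℝ ∞ f) (hg : ContDiff ℝ ∞ g)
    exact hf.add hg
  zero_mem' := by
    change ContDiff ℝ ∞ fun _ : E N => (0 : ℝ)
    exact contDiff_const
  smul_mem' := by
    intro c f (hf : ContDiff ℝ ∞ f)
    change ContDiff ℝ ∞ fun a => c • f a
    exact hf.const_smul c

theorem cd (f : Sm N) : ContDiff ℝ ∞ f.1 := f.2

theorem dv_smooth {f : E N → ℝ} (hf : ContDiff ℝ ∞ f) (v : E N) :
    ContDiff ℝ ∞ fun a => fderiv ℝ f a v :=
  (hf.fderiv_right (m := ∞) (by simp)).clm_apply contDiff_const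

theorem sm_diff {f : E N → ℝ} (hf : ContDiff ℝ ∞ f) : Differentiable ℝ f :=
  hf.differentiable (by simp)

/-- the directional derivative -/
noncomputable def dv (v : E N) : Module.End ℝ (Sm N) where
  toFun f := ⟨fun a => fderiv ℝ f.1 a v, dv_smooth f.2 v⟩
  map_add' f g := by
    apply Subtype.ext
    funext a
    change fderiv ℝ (f.1 + g.1) a v = fderiv ℝ f.1 a v + fderiv ℝ g.1 a v
    rw [fderiv_add (sm_diff f.2 a) (sm_diff g.2 a)]
    rfl
  map_smul' c f := by
    apply Subtype.ext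
    funext a
    change fderiv ℝ (c • f.1) a v = c • fderiv ℝ f.1 a v
    rw [fderiv_const_smul (sm_diff f.2 a)]
    rfl

theorem dv_apply (v : E N) (f : Sm N) (a : E N) : (dv v f).1 a = fderiv ℝ f.1 a v := rfl

theorem snd {f : E N → ℝ} (hf : ContDiff ℝ ∞ f) (a v w : E N) :
    fderiv ℝ (fun a => fderiv ℝ f a w) a v = fderiv ℝ (fderiv ℝ f) a v w := by
  have h1 : DifferentiableAt ℝ (fderiv ℝ f) a :=
    ((hf.fderiv_right (m := ∞) (by simp)).differentiable (by simp)) a
  have h2 := (h1.hasFDerivAt.clm_apply (hasFDerivAt_const w a)).fderiv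
  rw [h2]
  simp

theorem dv_comm (v w : E N) : dv v * dv w = dv w * dv v := by
  apply LinearMap.ext
  intro f
  apply Subtype.ext
  funext a
  change fderiv ℝ (fun a => fderiv ℝ f.1 a w) a v = fderiv ℝ (fun a => fderiv ℝ f.1 a v) a w
  rw [snd f.2, snd f.2]
  have h1 : IsSymmSndFDerivAt ℝ f.1 a :=
    ((cd f).contDiffAt (x := a)).isSymmSndFDerivAt (by
      rw [minSmoothness_of_isRCLikeNormedField]
      exact ENat.LEInfty.out)
  exact h1 v w

section abs

open scoped IsMulCommutative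

/-- monomials in commuting elements of an algebra -/
theorem exists_mon {A : Type} [Ring A] [Algebra ℝ A] (D : Fin m → A)
    (hc : ∀ i j, D i * D j = D j * D i) :
    ∃ ds : (Fin m → ℕ) → A, (∀ s, ds s ∈ Algebra.adjoin ℝ (Set.range D)) ∧
      (∀ (s : Fin m →₀ ℕ) (i : Fin m),
        ds (s + Finsupp.single i 2 : Fin m →₀ ℕ) = D i * (D i * ds s)) ∧
      ∀ (x : Fin m → ℝ) (k : ℕ), (∑ i, x i • D i) ^ k =
        ∑ s ∈ Finset.piAntidiag Finset.univ k,
          ((Nat.multinomial Finset.univ s : ℝ) * ∏ i, x i ^ s i) • ds s := by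
  have : IsMulCommutative (Algebra.adjoin ℝ (Set.range D)) := by
    refine Algebra.isMulCommutative_adjoin ℝ ?_
    rintro _ ⟨i, rfl⟩ _ ⟨j, rfl⟩
    exact hc _ _
  let di : Fin m → Algebra.adjoin ℝ (Set.range D) := fun i =>
    ⟨D i, Algebra.subset_adjoin ⟨i, rfl⟩⟩
  let ds : (Fin m → ℕ) → Algebra.adjoin ℝ (Set.range D) := fun s => ∏ i, di i ^ s i
  refine ⟨fun s => (ds s : A), fun s => (ds s).2, fun s i => ?_, fun x k => ?_⟩
  · have h1 : ∀ j, di j ^ (s + Finsupp.single i 2 : Fin m →₀ ℕ) j =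
        di j ^ s j * if j = i then di i ^ 2 else 1 := by
      intro j
      rw [Finsupp.add_apply, pow_add]
      congr 1
      by_cases h : j = i
      · subst h
        rw [Finsupp.single_eq_same, if_pos rfl]
      · rw [Finsupp.single_eq_of_ne h, pow_zero, if_neg h]
    have h2 : ds (s + Finsupp.single i 2 : Fin m →₀ ℕ) = di i * (di i * ds s) := by
      change ∏ j, di j ^ (s + Finsupp.single i 2 : Fin m →₀ ℕ) j = di i * (di i * ∏ j, di j ^ s j)
      rw [Finset.prod_congr rfl fun j _ => h1 j, Finset.prod_mul_distrib, Finset.prod_ite_eq',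
        if_pos (Finset.mem_univ _), ← mul_assoc, mul_comm, sq]
    exact congrArg Subtype.val h2
  · have h1 : (∑ i, x i • di i) ^ k = ∑ s ∈ Finset.piAntidiag Finset.univ k,
        ((Nat.multinomial Finset.univ s : ℝ) * ∏ i, x i ^ s i) • ds s := by
      rw [Finset.sum_pow_eq_sum_piAntidiag]
      refine Finset.sum_congr rfl fun s _ => ?_
      simp only [smul_pow]
      rw [Finset.prod_smul, mul_smul, ← nsmul_eq_mul, Nat.cast_smul_eq_nsmul]
    have h2 := congrArg Subtype.val h1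
    rw [SubmonoidClass.coe_pow, AddSubmonoidClass.coe_finsetSum,
      AddSubmonoidClass.coe_finsetSum] at h2
    exact h2

end abs

/-- the monomials in the directional derivatives -/
noncomputable def ds (τ : Fin m → E N) : (Fin m → ℕ) → Module.End ℝ (Sm N) :=
  (exists_mon (fun i => dv (τ i)) fun i j => dv_comm (τ i) (τ j)).choose

theorem ds_mem (τ : Fin m → E N) (s : Fin m → ℕ) :
    ds τ s ∈ Algebra.adjoin ℝ (Set.range fun i => dv (τ i)) :=
  (exists_mon (fun i => dv (τ i)) fun i j => dv_comm (τ i) (τ j)).choose_spec.1 s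

theorem ds_add (τ : Fin m → E N) (s : Fin m →₀ ℕ) (i : Fin m) :
    ds τ (s + Finsupp.single i 2 : Fin m →₀ ℕ) = dv (τ i) * (dv (τ i) * ds τ s) :=
  (exists_mon (fun i => dv (τ i)) fun i j => dv_comm (τ i) (τ j)).choose_spec.2.1 s i

theorem pow_lin (τ : Fin m → E N) (x : Fin m → ℝ) (k : ℕ) :
    (∑ i, x i • dv (τ i)) ^ k = ∑ s ∈ Finset.piAntidiag Finset.univ k,
      ((Nat.multinomial Finset.univ s : ℝ) * ∏ i, x i ^ s i) • ds τ s :=
  (exists_mon (fun i => dv (τ i)) fun i j => dv_comm (τ i) (τ j)).choose_spec.2.2 x k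

theorem dv_lin (τ : Fin m → E N) (x : Fin m → ℝ) :
    dv (∑ i, x i • τ i) = ∑ i, x i • dv (τ i) := by
  apply LinearMap.ext
  intro f
  apply Subtype.ext
  funext a
  rw [dv_apply, map_sum, LinearMap.sum_apply, AddSubmonoidClass.coe_finsetSum,
    Finset.sum_apply]
  refine Finset.sum_congr rfl fun i _ => ?_
  rw [map_smul]
  rfl

theorem line_pow (G : Sm N) (v : E N) (k : ℕ) (a : E N) (t : ℝ) :
    iteratedDeriv k (fun t : ℝ => G.1 (a + t • v)) t = (((dv v) ^ k) G).1 (a + t • v) := by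
  induction k generalizing t with
  | zero => rfl
  | succ k ih =>
    rw [iteratedDeriv_succ]
    have h1 : iteratedDeriv k (fun t : ℝ => G.1 (a + t • v)) =
        fun t => (((dv v) ^ k) G).1 (a + t • v) := funext ih
    rw [h1, pow_succ']
    have h2 : HasFDerivAt (((dv v) ^ k) G).1 (fderiv ℝ (((dv v) ^ k) G).1 (a + t • v))
        (a + t • v) := (sm_diff (((dv v) ^ k) G).2 _).hasFDerivAt
    have h3 : HasDerivAt (fun t : ℝ => a + t • v) v t := by
      simpa using ((hasDerivAt_id t).smul_const v).const_add a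
    exact (h2.comp_hasDerivAt t h3).deriv

/-- the functions vanishing outside of the unit ball -/
def Zs (N : ℕ) : Submodule ℝ (Sm N) where
  carrier := {f | ∀ a, 1 ≤ ‖a‖ → f.1 a = 0}
  add_mem' := by
    intro f g hf hg a ha
    change f.1 a + g.1 a = 0
    rw [hf a ha, hg a ha, add_zero]
  zero_mem' := fun _ _ => rfl
  smul_mem' := by
    intro c f hf a ha
    change c • f.1 a = 0
    rw [hf a ha, smul_zero]

theorem dv_Zs (v : E N) {f : Sm N} (hf : f ∈ Zs N) : dv v f ∈ Zs N := by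
  intro a ha
  have h1 := KT.der_zero f.2 hf 1 a ha
  have h2 : fderiv ℝ f.1 a v = iteratedFDeriv ℝ 1 f.1 a ![v] := by
    rw [iteratedFDeriv_one_apply]
    rfl
  rw [dv_apply, h2, h1]
  rfl

theorem Dl_Zs (τ : Fin m → E N) {A : Module.End ℝ (Sm N)}
    (hA : A ∈ Algebra.adjoin ℝ (Set.range fun i => dv (τ i))) {f : Sm N} (hf : f ∈ Zs N) :
    A f ∈ Zs N := by
  induction hA using Algebra.adjoin_induction generalizing f with
  | mem x hx =>
    obtain ⟨i, rfl⟩ := hx
    exact dv_Zs _ hf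
  | algebraMap r =>
    rw [Module.algebraMap_end_apply]
    exact (Zs N).smul_mem r hf
  | add x y _ _ hx hy => exact (Zs N).add_mem (hx hf) (hy hf)
  | mul x y _ _ hx hy => exact hx (hy hf)

/-- the factorial of a multiindex -/
def fa (s : Fin m → ℕ) : ℕ := ∏ i, (s i)!

theorem fa_pos (s : Fin m → ℕ) : 0 < fa s := Finset.prod_pos fun _ _ => Nat.factorial_pos _

theorem fa_add (s : Fin m →₀ ℕ) (i : Fin m) :
    fa (s + Finsupp.single i 2 : Fin m →₀ ℕ) = (s i + 1) * (s i + 2) * fa s := by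
  unfold fa
  rw [← Finset.mul_prod_erase Finset.univ _ (Finset.mem_univ i),
    ← Finset.mul_prod_erase Finset.univ (fun j => (s j)!) (Finset.mem_univ i)]
  have h1 : ∏ j ∈ Finset.univ.erase i, ((s + Finsupp.single i 2 : Fin m →₀ ℕ) j)! =
      ∏ j ∈ Finset.univ.erase i, (s j)! := by
    refine Finset.prod_congr rfl fun j hj => ?_
    rw [Finsupp.add_apply, Finsupp.single_eq_of_ne (Finset.ne_of_mem_erase hj), add_zero]
  rw [h1, Finsupp.add_apply, Finsupp.single_eq_same, Nat.factorial_succ, Nat.factorial_succ]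
  ring

/-- the coefficients -/
noncomputable def co (τ : Fin m → E N) (G : Sm N) (s : Fin m →₀ ℕ) : Sm N :=
  ((fa s : ℝ)⁻¹) • ds τ s G

theorem co_lap (τ : Fin m → E N) (G : Sm N) (s : Fin m →₀ ℕ) (i : Fin m) (a : E N) :
    (((s i : ℝ) + 1) * ((s i : ℝ) + 2)) * (co τ G (s + Finsupp.single i 2)).1 a =
      fderiv ℝ (fderiv ℝ (co τ G s).1) a (τ i) (τ i) := by
  have h1 : fderiv ℝ (fderiv ℝ (co τ G s).1) a (τ i) (τ i) =
      (dv (τ i) (dv (τ i) (co τ G s))).1 a := by
    rw [← snd (co τ G s).2]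
    rfl
  have h2 : dv (τ i) (dv (τ i) (co τ G s)) =
      ((fa s : ℝ)⁻¹) • ds τ (s + Finsupp.single i 2 : Fin m →₀ ℕ) G := by
    unfold co
    rw [map_smul, map_smul, ds_add]
    rfl
  rw [h1, h2]
  unfold co
  change _ * ((fa (s + Finsupp.single i 2 : Fin m →₀ ℕ) : ℝ)⁻¹ * _) = (fa s : ℝ)⁻¹ * _
  rw [fa_add]
  have h3 : (fa s : ℝ) ≠ 0 := by exact_mod_cast (fa_pos s).ne'
  have h4 : ((s i : ℝ) + 1) ≠ 0 := by positivity
  have h5 : ((s i : ℝ) + 2) ≠ 0 := by positivity
  push_cast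
  field_simp

/-- the multiindices of degree at most `d` -/
noncomputable def S (m d : ℕ) : Finset (Fin m →₀ ℕ) :=
  ((Finset.range (d + 1)).biUnion fun k => Finset.piAntidiag Finset.univ k).map
    Finsupp.equivFunOnFinite.symm.toEmbedding

theorem mem_S (d : ℕ) (s : Fin m →₀ ℕ) : s ∈ S m d ↔ s.degree ≤ d := by
  unfold S
  rw [Finset.mem_map]
  constructor
  · rintro ⟨f, hf, rfl⟩
    obtain ⟨k, hk, hf⟩ := Finset.mem_biUnion.mp hf
    rw [Finset.mem_piAntidiag] at hf
    rw [Finsupp.degree_eq_sum]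
    have h1 := Finset.mem_range.mp hk
    have h2 : ∑ i, (Finsupp.equivFunOnFinite.symm.toEmbedding f) i = k := hf.1
    rw [h2]
    omega
  · intro h
    refine ⟨s, Finset.mem_biUnion.mpr ⟨s.degree, Finset.mem_range.mpr (by omega), ?_⟩, ?_⟩
    · rw [Finset.mem_piAntidiag, Finsupp.degree_eq_sum]
      exact ⟨rfl, fun _ _ => Finset.mem_univ _⟩
    · exact Finsupp.equivFunOnFinite.symm_apply_apply s

theorem sum_S (d : ℕ) (f : (Fin m →₀ ℕ) → ℝ) :
    ∑ s ∈ S m d, f s = ∑ k ∈ Finset.range (d + 1), ∑ s ∈ Finset.piAntidiag Finset.univ k,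
      f (Finsupp.equivFunOnFinite.symm s) := by
  unfold S
  rw [Finset.sum_map, Finset.sum_biUnion]
  · rfl
  · intro k _ l _ hkl
    refine Finset.disjoint_left.mpr fun s hs hs' => hkl ?_
    rw [Finset.mem_piAntidiag] at hs hs'
    exact hs.1.symm.trans hs'.1

end KT2

open KT2 in
/-- **Piece KT2** -/
theorem t_KT2 : S_KT2 := by
  intro N m d τ G hG h0
  let G' : Sm N := ⟨G, hG⟩
  have hG' : G' ∈ Zs N := h0
  obtain ⟨B, hB0, hB⟩ := KT.der_bound hG h0 (d + 1)
  set M : ℝ := ∑ i, ‖τ i‖ with hM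
  have hM0 : 0 ≤ M := Finset.sum_nonneg fun i _ => norm_nonneg _
  refine ⟨KT2.S m d, fun s => (co τ G' s).1, B * M ^ (d + 1), by positivity, mem_S d,
    fun s => (co τ G' s).2, fun s a ha => ?_, fun s a => ?_, fun a x _ => ?_⟩
  · have h1 : co τ G' s ∈ Zs N := (Zs N).smul_mem _ (Dl_Zs τ (ds_mem τ s) hG')
    exact h1 a ha
  · exact Finset.sum_congr rfl fun i _ => co_lap τ G' s i a
  · have h1 := KT.taylor hG d hB a (∑ i, x i • τ i)
    have h2 : ∀ k, (k ! : ℝ)⁻¹ * (iteratedFDeriv ℝ k G a fun _ => ∑ i, x i • τ i) =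
        ∑ s ∈ Finset.piAntidiag Finset.univ k,
          (co τ G' (Finsupp.equivFunOnFinite.symm s)).1 a * ∏ i, x i ^ s i := by
      intro k
      have h3 := KT.line_der hG a (∑ i, x i • τ i) k 0
      have h4 := line_pow G' (∑ i, x i • τ i) k a 0
      rw [zero_smul, add_zero] at h3 h4
      rw [← h3]
      change _ * iteratedDeriv k (fun t : ℝ => G'.1 (a + t • ∑ i, x i • τ i)) 0 = _
      rw [h4, dv_lin, pow_lin, LinearMap.sum_apply, AddSubmonoidClass.coe_finsetSum, Finset.sum_apply, Finset.mul_sum]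
      refine Finset.sum_congr rfl fun s hs => ?_
      rw [Finset.mem_piAntidiag] at hs
      have h5 : ((((Nat.multinomial Finset.univ s : ℝ) * ∏ i, x i ^ s i) • ds τ s) G').1 a =
          ((Nat.multinomial Finset.univ s : ℝ) * ∏ i, x i ^ s i) * (ds τ s G').1 a := rfl
      have h6 : (co τ G' (Finsupp.equivFunOnFinite.symm s)).1 a =
          (fa s : ℝ)⁻¹ * (ds τ s G').1 a := rfl
      rw [h5, h6]
      have h7 : (fa s : ℝ) * (Nat.multinomial Finset.univ s : ℝ) = (k ! : ℝ) := by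
        have := Nat.multinomial_spec Finset.univ s
        rw [hs.1] at this
        exact_mod_cast this
      have h8 : (fa s : ℝ) ≠ 0 := by exact_mod_cast (fa_pos s).ne'
      have h9 : (k ! : ℝ) ≠ 0 := by exact_mod_cast (Nat.factorial_pos k).ne'
      rw [← h7] at h9 ⊢
      have h10 : (Nat.multinomial Finset.univ s : ℝ) ≠ 0 := right_ne_zero_of_mul h9
      field_simp
    have h3 : ∑ s ∈ KT2.S m d, (co τ G' s).1 a * ∏ i, x i ^ s i =
        ∑ k ∈ Finset.range (d + 1), (k ! : ℝ)⁻¹ *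
          (iteratedFDeriv ℝ k G a fun _ => ∑ i, x i • τ i) := by
      rw [sum_S d fun s => (co τ G' s).1 a * ∏ i, x i ^ s i]
      refine Finset.sum_congr rfl fun k _ => ?_
      rw [h2 k]
      rfl
    rw [h3]
    refine h1.trans ?_
    have h4 : ‖∑ i, x i • τ i‖ ≤ M * ‖x‖ := by
      refine (norm_sum_le _ _).trans ?_
      rw [hM, Finset.sum_mul]
      refine Finset.sum_le_sum fun i _ => ?_
      rw [norm_smul, mul_comm]
      exact mul_le_mul_of_nonneg_left (norm_le_pi_norm x i) (norm_nonneg _)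
    calc B * ‖∑ i, x i • τ i‖ ^ (d + 1) ≤ B * (M * ‖x‖) ^ (d + 1) := by gcongr
      _ = B * M ^ (d + 1) * ‖x‖ ^ (d + 1) := by rw [mul_pow]; ring

end Pool.Agent.Helper68X
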