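import Pool.Agent.Helper68X.Stm

/-!
# Project JET (helper68), piece NRM (by helper40)
-/

set_option autoImplicit false
set_option linter.unusedVariables false

namespace Pool.Agent.Helper68X

open MvPolynomial

namespace NRM

variable {m : ℕ}

theorem nrm_eq {r : ℝ} {P : Pol m} {t : Finset (Fin m →₀ ℕ)} (h : P.support ⊆ t) :
    nrm r P = ∑ s ∈ t, |P.coeff s| * r ^ s.degree := by
  unfold nrm
  refine Finset.sum_subset h fun s _ hs => ?_
  rw [MvPolynomial.notMem_support_iff.1 hs, abs_zero, zero_mul]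

theorem nonneg {r : ℝ} (P : Pol m) (hr : 0 ≤ r) : 0 ≤ nrm r P :=
  Finset.sum_nonneg fun s _ => mul_nonneg (abs_nonneg _) (pow_nonneg hr _)

theorem zero (r : ℝ) : nrm r (0 : Pol m) = 0 := by
  unfold nrm
  rw [MvPolynomial.support_zero, Finset.sum_empty]

theorem add {r : ℝ} (P Q : Pol m) (hr : 0 ≤ r) : nrm r (P + Q) ≤ nrm r P + nrm r Q := by
  classical
  rw [nrm_eq (t := P.support ∪ Q.support) MvPolynomial.support_add,
    nrm_eq (P := P) (t := P.support ∪ Q.support) Finset.subset_union_left,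
    nrm_eq (P := Q) (t := P.support ∪ Q.support) Finset.subset_union_right,
    ← Finset.sum_add_distrib]
  refine Finset.sum_le_sum fun s _ => ?_
  rw [MvPolynomial.coeff_add, ← add_mul]
  exact mul_le_mul_of_nonneg_right (abs_add_le _ _) (pow_nonneg hr _)

theorem smul (r c : ℝ) (P : Pol m) : nrm r (c • P) = |c| * nrm r P := by
  rw [nrm_eq (t := P.support) (MvPolynomial.support_smul), nrm_eq (P := P) (subset_refl _),
    Finset.mul_sum]
  refine Finset.sum_congr rfl fun s _ => ?_
  rw [MvPolynomial.coeff_smul, smul_eq_mul, abs_mul, mul_assoc]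

theorem sum {ι : Type*} {r : ℝ} (hr : 0 ≤ r) (t : Finset ι) (P : ι → Pol m) :
    nrm r (∑ i ∈ t, P i) ≤ ∑ i ∈ t, nrm r (P i) := by
  classical
  induction t using Finset.induction_on with
  | empty => rw [Finset.sum_empty, Finset.sum_empty, zero]
  | insert a t ha ih =>
    rw [Finset.sum_insert ha, Finset.sum_insert ha]
    exact (add _ _ hr).trans (by linarith)

theorem coeff {r : ℝ} (P : Pol m) (s : Fin m →₀ ℕ) (hr : 0 ≤ r) :
    |P.coeff s| * r ^ s.degree ≤ nrm r P := by
  by_cases hs : s ∈ P.support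
  · exact Finset.single_le_sum (f := fun s => |P.coeff s| * r ^ s.degree)
      (fun s _ => mul_nonneg (abs_nonneg _) (pow_nonneg hr _)) hs
  · rw [MvPolynomial.notMem_support_iff.1 hs, abs_zero, zero_mul]
    exact nonneg P hr

theorem eval {r : ℝ} (P : Pol m) (x : Fin m → ℝ) (hx : ∀ i, |x i| ≤ r) :
    |MvPolynomial.eval x P| ≤ nrm r P := by
  rw [MvPolynomial.eval_eq']
  refine (Finset.abs_sum_le_sum_abs _ _).trans ?_
  refine Finset.sum_le_sum fun s _ => ?_
  rw [abs_mul]
  refine mul_le_mul_of_nonneg_left ?_ (abs_nonneg _)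
  rw [Finset.abs_prod, Finsupp.degree_eq_sum, ← Finset.prod_pow_eq_pow_sum]
  refine Finset.prod_le_prod (fun i _ => abs_nonneg _) fun i _ => ?_
  rw [abs_pow]
  exact pow_le_pow_left₀ (abs_nonneg _) (hx i) _

theorem mono {r R : ℝ} (P : Pol m) (hr : 0 ≤ r) (hR : r ≤ R) : nrm r P ≤ nrm R P :=
  Finset.sum_le_sum fun s _ => mul_le_mul_of_nonneg_left (pow_le_pow_left₀ hr hR _) (abs_nonneg _)

theorem degree_le {d : ℕ} {P : Pol m} (hd : P.totalDegree ≤ d) {s : Fin m →₀ ℕ}
    (hs : s ∈ P.support) : s.degree ≤ d := by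
  refine le_trans ?_ hd
  have := MvPolynomial.le_totalDegree hs
  exact this

theorem grow {d : ℕ} {r R : ℝ} (P : Pol m) (hr : 0 < r) (hR : r ≤ R) (hd : P.totalDegree ≤ d) :
    nrm R P ≤ (R / r) ^ d * nrm r P := by
  unfold nrm
  rw [Finset.mul_sum]
  refine Finset.sum_le_sum fun s hs => ?_
  have h1 := degree_le hd hs
  have h2 : R ^ s.degree = (R / r) ^ s.degree * r ^ s.degree := by
    rw [← mul_pow, div_mul_cancel₀ _ hr.ne']
  have h3 : (R / r) ^ s.degree ≤ (R / r) ^ d :=
    pow_le_pow_right₀ ((one_le_div hr).2 hR) h1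
  calc |P.coeff s| * R ^ s.degree = (R / r) ^ s.degree * (|P.coeff s| * r ^ s.degree) := by
        rw [h2]; ring
    _ ≤ (R / r) ^ d * (|P.coeff s| * r ^ s.degree) :=
        mul_le_mul_of_nonneg_right h3 (mul_nonneg (abs_nonneg _) (pow_nonneg hr.le _))

theorem monomial {r : ℝ} (c : ℝ) (s : Fin m →₀ ℕ) (hr : 0 ≤ r) :
    nrm r (MvPolynomial.monomial s c) ≤ |c| * r ^ s.degree := by
  rw [nrm_eq (t := {s}) MvPolynomial.support_monomial_subset, Finset.sum_singleton,
    MvPolynomial.coeff_monomial, if_pos rfl]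

theorem pderiv {d : ℕ} {r : ℝ} (P : Pol m) (i : Fin m) (hr : 0 < r) (hd : P.totalDegree ≤ d) :
    nrm r (MvPolynomial.pderiv i P) ≤ d / r * nrm r P := by
  have h1 : MvPolynomial.pderiv i P = ∑ s ∈ P.support,
      MvPolynomial.monomial (s - Finsupp.single i 1) (P.coeff s * (s i : ℝ)) := by
    conv_lhs => rw [P.as_sum]
    rw [map_sum]
    refine Finset.sum_congr rfl fun s _ => ?_
    rw [MvPolynomial.pderiv_monomial]
  rw [h1]
  refine (sum hr.le _ _).trans ?_
  unfold nrm
  rw [Finset.mul_sum]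
  refine Finset.sum_le_sum fun s hs => ?_
  refine (monomial _ _ hr.le).trans ?_
  by_cases hi : s i = 0
  · rw [hi, Nat.cast_zero, mul_zero, abs_zero, zero_mul]
    exact mul_nonneg (div_nonneg (Nat.cast_nonneg _) hr.le)
      (mul_nonneg (abs_nonneg _) (pow_nonneg hr.le _))
  · have hsi : Finsupp.single i 1 ≤ s := by
      rw [Finsupp.single_le_iff]
      omega
    have h2 : (s - Finsupp.single i 1).degree + 1 = s.degree := by
      have h3 : s - Finsupp.single i 1 + Finsupp.single i 1 = s := tsub_add_cancel_of_le hsi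
      conv_rhs => rw [← h3]
      rw [map_add, Finsupp.degree_single]
    have h4 : r ^ (s - Finsupp.single i 1).degree = r ^ s.degree / r := by
      rw [← h2, pow_succ, mul_div_cancel_right₀ _ hr.ne']
    have h5 : (s i : ℝ) ≤ d := by
      have h6 : s i ≤ s.degree := by
        rw [Finsupp.degree_eq_sum]
        exact Finset.single_le_sum (f := fun i => s i) (fun _ _ => Nat.zero_le _)
          (Finset.mem_univ i)
      exact_mod_cast h6.trans (degree_le hd hs)
    rw [h4, abs_mul, Nat.abs_cast]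
    have h7 : 0 ≤ |P.coeff s| * r ^ s.degree / r :=
      div_nonneg (mul_nonneg (abs_nonneg _) (pow_nonneg hr.le _)) hr.le
    calc |P.coeff s| * (s i : ℝ) * (r ^ s.degree / r)
        = (s i : ℝ) * (|P.coeff s| * r ^ s.degree / r) := by ring
      _ ≤ d * (|P.coeff s| * r ^ s.degree / r) := mul_le_mul_of_nonneg_right h5 h7
      _ = d / r * (|P.coeff s| * r ^ s.degree) := by ring

end NRM

theorem t_NRM : S_NRM where
  nonneg m r P hr := NRM.nonneg P hr
  zero m r := NRM.zero r
  add m r P Q hr := NRM.add P Q hr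
  smul m r c P := NRM.smul r c P
  coeff m r P s hr := NRM.coeff P s hr
  eval m r P x hx := NRM.eval P x hx
  mono m r R P hr hR := NRM.mono P hr hR
  grow m d r R P hr hR hd := NRM.grow P hr hR hd
  pderiv m d r P i hr hd := NRM.pderiv P i hr hd
  monomial m r c s hr := NRM.monomial c s hr

end Pool.Agent.Helper68X
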