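import Pool.Agent.Helper68X.Stm3

/-!
Project JET (helper68), piece SEQ: convergence of a sequence of harmonic polynomials.
-/

set_option autoImplicit false

namespace Pool.Agent.Helper68X

open MeasureTheory Set Filter Topology Metric Pool.Agent.TH337.VF
open scoped ENNReal RealInnerProductSpace ContDiff

/-- the exponents of degree at most `d` -/
noncomputable def expo (m d : ℕ) : Finset (Fin m →₀ ℕ) :=
  (Finset.range (d + 1)).biUnion fun k => Finset.finsuppAntidiag Finset.univ k

lemma mem_expo {m d : ℕ} (s : Fin m →₀ ℕ) : s ∈ expo m d ↔ s.degree ≤ d := by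
  simp only [expo, Finset.mem_biUnion, Finset.mem_range, Finset.mem_finsuppAntidiag,
    Finsupp.degree_eq_sum]
  constructor
  · rintro ⟨k, hk, h, -⟩
    have h' : ∑ i, s i = k := h
    omega
  · intro h
    exact ⟨_, Nat.lt_succ_of_le h, rfl, Finset.subset_univ _⟩

lemma nrm_le_expo {m d : ℕ} {r : ℝ} (hr : 0 ≤ r) (P : Pol m) (hP : P.totalDegree ≤ d) :
    nrm r P ≤ ∑ s ∈ expo m d, |P.coeff s| * r ^ s.degree := by
  unfold nrm
  apply Finset.sum_le_sum_of_subset_of_nonneg
  · intro s hs
    rw [mem_expo]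
    have := MvPolynomial.le_totalDegree hs
    rw [Finsupp.degree]
    exact this.trans hP
  · intro s _ _
    positivity

lemma coeff_zero_of_degree {m d : ℕ} (P : Pol m) (hP : P.totalDegree ≤ d) {s : Fin m →₀ ℕ}
    (hs : ¬ s.degree ≤ d) : P.coeff s = 0 := by
  by_contra h
  apply hs
  have := MvPolynomial.le_totalDegree (MvPolynomial.mem_support_iff.2 h)
  rw [Finsupp.degree]
  exact this.trans hP

theorem t_SEQ : S_SEQ := by
  classical
  intro hN hL m d σ lam hl0 hl1 hσ
  have hq1 : lam ^ (σ - d) < 1 := Real.rpow_lt_one hl0.le hl1 (by linarith)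
  have hq0 : 0 < 1 - lam ^ (σ - d) := by linarith
  refine ⟨(expo m d).card / (1 - lam ^ (σ - d)), by positivity, ?_⟩
  intro A r₀ hA hr₀ H hd hlap hst
  have hx : ∀ i : ℕ, 0 < r₀ * lam ^ i := fun i => by positivity
  -- the power identity
  have hpow : ∀ (s : Fin m →₀ ℕ) (i : ℕ), (r₀ * lam ^ i) ^ σ =
      r₀ ^ (σ - s.degree) * (lam ^ (σ - s.degree)) ^ i * (r₀ * lam ^ i) ^ s.degree := by
    intro s i
    have h1 : σ = (σ - s.degree) + (s.degree : ℕ) := by ring
    conv_lhs => rw [h1]
    rw [Real.rpow_add (hx i), Real.rpow_natCast, Real.mul_rpow hr₀.le (by positivity)]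
    congr 2
    rw [← Real.rpow_natCast, ← Real.rpow_mul hl0.le, ← Real.rpow_natCast, ← Real.rpow_mul hl0.le,
      mul_comm]
  -- step bound for coefficients
  have hstep : ∀ (s : Fin m →₀ ℕ) (i : ℕ), dist ((H i).coeff s) ((H (i + 1)).coeff s) ≤
      (A * r₀ ^ (σ - s.degree)) * (lam ^ (σ - s.degree)) ^ i := by
    intro s i
    have h1 := (hN.coeff m (r₀ * lam ^ i) (H (i + 1) - H i) s (hx i).le).trans (hst i)
    rw [hpow s i] at h1
    have h2 : |(H (i + 1) - H i).coeff s| ≤
        A * (r₀ ^ (σ - s.degree) * (lam ^ (σ - s.degree)) ^ i) := by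
      have hp : 0 < (r₀ * lam ^ i) ^ s.degree := pow_pos (hx i) _
      refine le_of_mul_le_mul_right ?_ hp
      calc _ ≤ _ := h1
        _ = _ := by ring
    rw [dist_comm, Real.dist_eq, ← MvPolynomial.coeff_sub]
    linarith
  have hqs : ∀ s : Fin m →₀ ℕ, s.degree ≤ d → lam ^ (σ - s.degree) ≤ lam ^ (σ - d) := by
    intro s hs
    apply Real.rpow_le_rpow_of_exponent_ge hl0 hl1.le
    have : (s.degree : ℝ) ≤ d := by exact_mod_cast hs
    linarith
  -- limits
  have hlim : ∀ s : Fin m →₀ ℕ, ∃ a : ℝ, Tendsto (fun i => (H i).coeff s) atTop (𝓝 a) := by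
    intro s
    by_cases hs : s.degree ≤ d
    · apply cauchySeq_tendsto_of_complete
      exact cauchySeq_of_le_geometric _ _ ((hqs s hs).trans_lt hq1) (hstep s)
    · refine ⟨0, ?_⟩
      have : (fun i => (H i).coeff s) = fun _ => (0 : ℝ) := by
        funext i
        exact coeff_zero_of_degree (H i) (hd i) hs
      rw [this]
      exact tendsto_const_nhds
  choose a ha using hlim
  set H' : Pol m := ∑ s ∈ expo m d, MvPolynomial.monomial s (a s) with hH'
  have hcoef : ∀ s, H'.coeff s = a s := by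
    intro s
    rw [hH', MvPolynomial.coeff_sum]
    simp only [MvPolynomial.coeff_monomial]
    rw [Finset.sum_ite_eq' (expo m d) s]
    split_ifs with h
    · rfl
    · rw [mem_expo] at h
      refine tendsto_nhds_unique ?_ (ha s)
      have : (fun i => (H i).coeff s) = fun _ => (0 : ℝ) := by
        funext i
        exact coeff_zero_of_degree (H i) (hd i) h
      rw [this]
      exact tendsto_const_nhds
  have hdeg : H'.totalDegree ≤ d := by
    unfold MvPolynomial.totalDegree
    refine Finset.sup_le fun s hs => ?_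
    by_contra hc
    have hc' : ¬ s.degree ≤ d := hc
    rw [MvPolynomial.mem_support_iff, hcoef] at hs
    apply hs
    refine tendsto_nhds_unique (ha s) ?_
    have : (fun i => (H i).coeff s) = fun _ => (0 : ℝ) := by
      funext i
      exact coeff_zero_of_degree (H i) (hd i) hc'
    rw [this]
    exact tendsto_const_nhds
  refine ⟨H', hdeg, ?_, ?_⟩
  · ext s
    rw [hL m H' s, MvPolynomial.coeff_zero]
    have h1 : Tendsto (fun i => ∑ j, (((s j : ℝ) + 1) * ((s j : ℝ) + 2)) *
        (H i).coeff (s + Finsupp.single j 2)) atTop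
        (𝓝 (∑ j, (((s j : ℝ) + 1) * ((s j : ℝ) + 2)) * H'.coeff (s + Finsupp.single j 2))) := by
      apply tendsto_finsetSum
      intro j _
      rw [hcoef]
      exact (ha _).const_mul _
    refine tendsto_nhds_unique h1 ?_
    have : (fun i => ∑ j, (((s j : ℝ) + 1) * ((s j : ℝ) + 2)) *
        (H i).coeff (s + Finsupp.single j 2)) = fun _ => (0 : ℝ) := by
      funext i
      rw [← hL m (H i) s, hlap i, MvPolynomial.coeff_zero]
    rw [this]
    exact tendsto_const_nhds
  · intro i
    have hdd : (H' - H i).totalDegree ≤ d :=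
      (MvPolynomial.totalDegree_sub _ _).trans (max_le hdeg (hd i))
    refine (nrm_le_expo (hx i).le _ hdd).trans ?_
    have hb : ∀ s ∈ expo m d, |(H' - H i).coeff s| * (r₀ * lam ^ i) ^ s.degree ≤
        A * (r₀ * lam ^ i) ^ σ / (1 - lam ^ (σ - d)) := by
      intro s hs
      rw [mem_expo] at hs
      have h1 := dist_le_of_le_geometric_of_tendsto _ _ ((hqs s hs).trans_lt hq1) (hstep s)
        (ha s) i
      rw [dist_comm, Real.dist_eq, ← hcoef s, ← MvPolynomial.coeff_sub] at h1
      have hp : 0 ≤ (r₀ * lam ^ i) ^ s.degree := (pow_pos (hx i) _).le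
      refine (mul_le_mul_of_nonneg_right h1 hp).trans ?_
      have h2 : A * r₀ ^ (σ - s.degree) * (lam ^ (σ - s.degree)) ^ i / (1 - lam ^ (σ - s.degree)) *
          (r₀ * lam ^ i) ^ s.degree = A * (r₀ * lam ^ i) ^ σ / (1 - lam ^ (σ - s.degree)) := by
        rw [hpow s i]
        ring
      rw [h2]
      apply div_le_div_of_nonneg_left _ hq0 (by linarith [hqs s hs])
      have := Real.rpow_nonneg (hx i).le σ
      positivity
    refine (Finset.sum_le_card_nsmul _ _ _ hb).trans (le_of_eq ?_)
    rw [nsmul_eq_mul]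
    ring

end Pool.Agent.Helper68X
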