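import Pool.Agent.Helper68X.Stm4

/-!
Project JET, piece STEP: from order `k` to order `k + 1`.
-/

set_option autoImplicit false

namespace Pool.Agent.Helper68X

open MeasureTheory Set Filter Topology Metric Pool.Agent.TH337.VF Pool.Agent.Helper68V
open scoped ENNReal RealInnerProductSpace ContDiff

variable {N m n : ℕ} {π : Submodule ℝ (E N)}

namespace StepP

lemma small (C : ℝ) {a ε : ℝ} (ha : 0 < a) (hε : 0 < ε) : ∀ᶠ r : ℝ in 𝓝[>] 0, C * r ^ a ≤ ε := by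
  have h1 : Tendsto (fun r : ℝ => r ^ a) (𝓝[>] 0) (𝓝 0) := by
    have h2 := (Real.continuousAt_rpow_const (0 : ℝ) a (Or.inr ha.le)).tendsto
    rw [Real.zero_rpow ha.ne'] at h2
    exact h2.mono_left nhdsWithin_le_nhds
  have h := h1.const_mul C
  rw [mul_zero] at h
  exact h.eventually_le_const hε

/-- the norm of a polynomial without terms of low degree -/
lemma nrm_low {d j : ℕ} {P : Pol m} (hd : P.totalDegree ≤ d)
    (hj : ∀ s, s.degree < j → P.coeff s = 0) {r R : ℝ} (hr : 0 ≤ r) (hrR : r ≤ R) (hR : 1 ≤ R) :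
    nrm r P ≤ R ^ d * nrm 1 P * r ^ j := by
  unfold nrm
  rw [mul_assoc, Finset.sum_mul, Finset.mul_sum]
  refine Finset.sum_le_sum fun s hs => ?_
  have h1 : j ≤ s.degree := by
    by_contra hcon
    push Not at hcon
    exact (MvPolynomial.mem_support_iff.1 hs) (hj s hcon)
  have h2 : s.degree ≤ d := (MvPolynomial.le_totalDegree hs).trans hd
  obtain ⟨e, he⟩ := Nat.exists_eq_add_of_le h1
  rw [one_pow, mul_one, he, pow_add]
  have h3 : r ^ e ≤ R ^ d := (pow_le_pow_left₀ hr hrR e).trans (pow_le_pow_right₀ hR (by omega))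
  calc |P.coeff s| * (r ^ j * r ^ e) = r ^ e * (|P.coeff s| * r ^ j) := by ring
    _ ≤ R ^ d * (|P.coeff s| * r ^ j) := mul_le_mul_of_nonneg_right h3 (by positivity)

/-- coefficients of low degree of a polynomial which is small near zero -/
lemma coeff_zero (hN : S_NRM) {P : Pol m} {C a ρ : ℝ} (hρ : 0 < ρ)
    (h : ∀ r, 0 < r → r ≤ ρ → nrm r P ≤ C * r ^ a) {s : Fin m →₀ ℕ} (hs : (s.degree : ℝ) < a) :
    P.coeff s = 0 := by
  by_contra hne
  have hpos : 0 < |P.coeff s| := abs_pos.2 hne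
  obtain ⟨r, hr1, hr2⟩ := ((small C (a := a - s.degree) (by linarith) (half_pos hpos)).and
    (Ioc_mem_nhdsGT hρ)).exists
  have h1 := (hN.coeff m r P s hr2.1.le).trans (h r hr2.1 hr2.2)
  have h2 : r ^ a = r ^ (a - s.degree) * r ^ s.degree := by
    rw [← Real.rpow_natCast r s.degree, ← Real.rpow_add hr2.1]
    congr 1
    ring
  rw [h2, ← mul_assoc] at h1
  have h3 : 0 < r ^ s.degree := pow_pos hr2.1 _
  have h4 := le_of_mul_le_mul_right h1 h3
  linarith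

/-- the cross term for polynomial graphs -/
lemma cross_bound (hN : S_NRM) (hC : S_CROSS) (τ : OrthonormalBasis (Fin m) ℝ π)
    (ν : OrthonormalBasis (Fin n) ℝ πᗮ) (x₀ : E N) {d : ℕ} {Q H : Fin n → Pol m}
    (hQ : ∀ α, (Q α).totalDegree ≤ d) (hH : ∀ α, (H α).totalDegree ≤ d)
    (hL : ∀ α, Lap (H α) = 0) {r q h : ℝ} (hr : 0 < r) (hq : ∀ α, nrm r (Q α) ≤ q)
    (hh' : ∀ α, nrm r (H α) ≤ h) {z : E N} (hz : z ∈ closedBall x₀ r) (α : Fin n) :
    |Fo ν (ut τ x₀ fun β => Q β + H β) α z| ≤ |Fo ν (ut τ x₀ Q) α z| +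
      2 * N ^ 2 * n * (m ^ 3 * d ^ 3) * (h * (2 * q + h) / r ^ 3) := by
  have e : ut τ x₀ (fun β => Q β + H β) = fun β y => ut τ x₀ Q β y + ut τ x₀ H β y := by
    funext β y
    exact ev_add _ _ _
  have h1 := hC N n π ν (ut τ x₀ Q) (ut τ x₀ H) z (m * (d / r * q)) (m ^ 2 * ((d / r) ^ 2 * q))
    (m * (d / r * h)) (m ^ 2 * ((d / r) ^ 2 * h)) (ut_gf Q) (ut_gf H)
    (fun β => (ev_fderiv_le hN hr hz (hQ β)).trans (by have := hq β; gcongr))
    (fun β => (ev_ff_le hN hr hz (hQ β)).trans (by have := hq β; gcongr))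
    (fun β => (ev_fderiv_le hN hr hz (hH β)).trans (by have := hh' β; gcongr))
    (fun β => (ev_ff_le hN hr hz (hH β)).trans (by have := hh' β; gcongr)) α
  have h2 : lap π (ut τ x₀ H α) z = 0 := by
    have h3 := ev_lap (τ := τ) (x₀ := x₀) (H α) z
    rw [hL α] at h3
    have h4 : ev (fun i => (τ i : E N)) x₀ (0 : Pol m) z = 0 := by
      unfold ev
      rw [map_zero]
    rw [h4] at h3
    exact h3
  rw [← e, h2, sub_zero] at h1
  have h3 : 2 * (N : ℝ) ^ 2 * n * (m ^ 2 * ((d / r) ^ 2 * h) * (m * (d / r * q) + m * (d / r * h)) +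
      m ^ 2 * ((d / r) ^ 2 * q) * (m * (d / r * h))) =
      2 * N ^ 2 * n * (m ^ 3 * d ^ 3) * (h * (2 * q + h) / r ^ 3) := by
    field_simp
    ring
  rw [h3] at h1
  have h4 := abs_sub_abs_le_abs_sub (Fo ν (ut τ x₀ fun β => Q β + H β) α z) (Fo ν (ut τ x₀ Q) α z)
  linarith

/-- the point with given horizontal coordinates -/
lemma crd_point (τ : OrthonormalBasis (Fin m) ℝ π) (x₀ : E N) (x : Fin m → ℝ) :
    crd τ x₀ (x₀ + ∑ i, x i • (τ i : E N)) = x := by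
  funext i
  unfold crd
  rw [add_sub_cancel_left, inner_sum, Finset.sum_eq_single i]
  · rw [real_inner_smul_right, inner_tau, if_pos rfl, mul_one]
  · intro j _ hj
    rw [real_inner_smul_right, inner_tau, if_neg (Ne.symm hj), mul_zero]
  · intro h
    exact absurd (Finset.mem_univ i) h

lemma point_mem (τ : OrthonormalBasis (Fin m) ℝ π) (x₀ : E N) (x : Fin m → ℝ) {r : ℝ}
    (hr : m * ‖x‖ ≤ r) : x₀ + ∑ i, x i • (τ i : E N) ∈ closedBall x₀ r := by
  rw [mem_closedBall, dist_eq_norm, add_sub_cancel_left]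
  refine (norm_sum_le _ _).trans (le_trans ?_ hr)
  calc ∑ i, ‖x i • (τ i : E N)‖ ≤ ∑ _i : Fin m, ‖x‖ := by
        refine Finset.sum_le_sum fun i _ => ?_
        rw [norm_smul, norm_tau, mul_one]
        exact norm_le_pi_norm x i
    _ = m * ‖x‖ := by
      rw [Finset.sum_const, Finset.card_univ, Fintype.card_fin, nsmul_eq_mul]

/-- the last step: the operator of the improved polynomials -/
lemma Fc_final (hN : S_NRM) (hC : S_CROSS) (hLk : S_LINK) (τ : OrthonormalBasis (Fin m) ℝ π)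
    (ν : OrthonormalBasis (Fin n) ℝ πᗮ) (x₀ : E N) {k : ℕ} (hm : 1 ≤ m) (hk : 1 ≤ k)
    {Q H : Fin n → Pol m}
    (hQ : ∀ α, (Q α).totalDegree ≤ k + 1) (hH : ∀ α, (H α).totalDegree ≤ k + 1)
    (hL : ∀ α, Lap (H α) = 0) (hQ0 : ∀ α s, s.degree < 2 → (Q α).coeff s = 0)
    (hH0 : ∀ α s, s.degree < k + 1 → (H α).coeff s = 0) {CF : ℝ}
    (hCF : ∀ α x, ‖x‖ ≤ 1 → |Fc Q α x| ≤ CF * ‖x‖ ^ k) :
    ∃ C : ℝ, ∀ α x, ‖x‖ ≤ 1 → |Fc (fun α => Q α + H α) α x| ≤ C * ‖x‖ ^ k := by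
  set S : ℝ := ∑ α, (nrm 1 (Q α) + nrm 1 (H α)) with hS
  have hS0 : 0 ≤ S := Finset.sum_nonneg fun α _ =>
    add_nonneg (hN.nonneg m 1 (Q α) zero_le_one) (hN.nonneg m 1 (H α) zero_le_one)
  have hS1 : ∀ α, nrm 1 (Q α) + nrm 1 (H α) ≤ S := fun α =>
    Finset.single_le_sum (f := fun α => nrm 1 (Q α) + nrm 1 (H α))
      (fun α _ => add_nonneg (hN.nonneg m 1 (Q α) zero_le_one) (hN.nonneg m 1 (H α) zero_le_one))
      (Finset.mem_univ α)
  have hSQ : ∀ α, nrm 1 (Q α) ≤ S := fun α => by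
    have := hS1 α
    have := hN.nonneg m 1 (H α) zero_le_one
    linarith
  have hSH : ∀ α, nrm 1 (H α) ≤ S := fun α => by
    have := hS1 α
    have := hN.nonneg m 1 (Q α) zero_le_one
    linarith
  have hm1 : (1 : ℝ) ≤ m := by exact_mod_cast hm
  set c : ℝ := (m : ℝ) ^ (k + 1) * S with hc
  have hc0 : 0 ≤ c := by positivity
  set K : ℝ := 2 * N ^ 2 * n * (m ^ 3 * ((k + 1 : ℕ) : ℝ) ^ 3) with hK
  have hK0 : 0 ≤ K := by positivity
  have main : ∀ (α : Fin n) (x : Fin m → ℝ) (r : ℝ), ‖x‖ ≤ 1 → 0 < r → m * ‖x‖ ≤ r → r ≤ m →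
      |Fc (fun α => Q α + H α) α x| ≤ CF * ‖x‖ ^ k + K * (c ^ 2 * (2 + m ^ k)) * r ^ k := by
    intro α x r hx hr hxr hrm
    have h1 := cross_bound hN hC τ ν x₀ hQ hH hL (r := r) (q := c * r ^ 2) (h := c * r ^ (k + 1))
      hr (fun β => (nrm_low (hQ β) (hQ0 β) hr.le hrm hm1).trans (by
        have := hSQ β
        rw [hc]
        gcongr))
      (fun β => (nrm_low (hH β) (hH0 β) hr.le hrm hm1).trans (by
        have := hSH β
        rw [hc]
        gcongr)) (point_mem τ x₀ x hxr) α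
    rw [hLk, hLk, crd_point] at h1
    refine h1.trans (add_le_add (hCF α x hx) ?_)
    have h2 : c * r ^ (k + 1) * (2 * (c * r ^ 2) + c * r ^ (k + 1)) / r ^ 3 =
        c ^ 2 * (2 + r ^ (k - 1)) * r ^ k := by
      obtain ⟨j, rfl⟩ := Nat.exists_eq_add_of_le hk
      rw [Nat.add_sub_cancel_left]
      field_simp
      ring
    rw [h2]
    have h3 : r ^ (k - 1) ≤ (m : ℝ) ^ k :=
      (pow_le_pow_left₀ hr.le hrm _).trans (pow_le_pow_right₀ hm1 (by omega))
    calc K * (c ^ 2 * (2 + r ^ (k - 1)) * r ^ k) ≤ K * (c ^ 2 * (2 + m ^ k) * r ^ k) := by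
          gcongr
      _ = _ := by ring
  set K' : ℝ := K * (c ^ 2 * (2 + m ^ k)) with hK'
  have hK'0 : 0 ≤ K' := by positivity
  refine ⟨CF + K' * m ^ k, fun α x hx => ?_⟩
  rcases (norm_nonneg x).eq_or_lt with h0 | h0
  · rw [← h0, zero_pow (by omega), mul_zero]
    refine le_of_forall_pos_le_add fun ε hε => ?_
    obtain ⟨r, hr1, hr2⟩ := ((small K' (a := k) (by exact_mod_cast hk) hε).and
      (Ioc_mem_nhdsGT (zero_lt_one' ℝ))).exists
    have h1 := main α x r hx hr2.1 (by rw [← h0, mul_zero]; exact hr2.1.le) (hr2.2.trans hm1)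
    rw [← h0, zero_pow (by omega), mul_zero, zero_add] at h1
    rw [Real.rpow_natCast] at hr1
    linarith
  · have h1 := main α x (m * ‖x‖) hx (by positivity) le_rfl (by nlinarith)
    refine h1.trans (le_of_eq ?_)
    rw [mul_pow]
    ring

end StepP

open StepP in
/-- **STEP** -/
theorem t_STEP : S_STEP := by
  intro hN hLC hSEQ hUL hC hLk hI hFP hIT N m n U μ T π τ ν x₀ B θ Bd k C₁ β β' hW hk hC₁ hOne hβ
    hββ' hβ' hJ
  have hm : 1 ≤ m := hW.glo.hm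
  have hk1 : (1 : ℝ) ≤ k := by exact_mod_cast hk
  have hβ1 : β < 1 := by linarith
  obtain ⟨P, hPd, hP0, hPF, C0, ρJ, hC0, hρJ, hJb⟩ := hJ
  obtain ⟨R, hRh, CF, hCF⟩ := hFP hI m n k hm hk P hPd hP0 hPF
  obtain ⟨Q, hQ⟩ : ∃ Q : Fin n → Pol m, Q = fun α => P α + R α := ⟨_, rfl⟩
  rw [← hQ] at hCF
  have hR0 : ∀ α s, s.degree < k + 1 → (R α).coeff s = 0 := fun α s hs =>
    (hRh α).coeff_eq_zero (by omega)
  have hQ0 : ∀ α s, s.degree < 2 → (Q α).coeff s = 0 := by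
    intro α s hs
    rw [hQ]
    simp only []
    rw [MvPolynomial.coeff_add, hP0 α s (by omega), hR0 α s (by omega), add_zero]
  have hQd : ∀ α, (Q α).totalDegree ≤ k + 1 := fun α => by
    rw [hQ]
    exact (MvPolynomial.totalDegree_add _ _).trans
      (max_le ((hPd α).trans (Nat.le_succ k)) (hRh α).totalDegree_le)
  -- constants
  set S₁ : ℝ := ∑ α, nrm 1 (Q α) with hS₁
  set S₂ : ℝ := ∑ α, nrm 1 (R α) with hS₂
  have hS₁0 : 0 ≤ S₁ := Finset.sum_nonneg fun α _ => hN.nonneg m 1 (Q α) zero_le_one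
  have hS₂0 : 0 ≤ S₂ := Finset.sum_nonneg fun α _ => hN.nonneg m 1 (R α) zero_le_one
  have hQn : ∀ α r, 0 < r → r ≤ 1 → nrm r (Q α) ≤ S₁ * r ^ 2 := by
    intro α r hr hr1
    have h1 := nrm_low (hQd α) (hQ0 α) hr.le hr1 le_rfl
    rw [one_pow, one_mul] at h1
    refine h1.trans (mul_le_mul_of_nonneg_right ?_ (by positivity))
    exact Finset.single_le_sum (f := fun α => nrm 1 (Q α))
      (fun α _ => hN.nonneg m 1 (Q α) zero_le_one) (Finset.mem_univ α)
  have hRn : ∀ α r, 0 < r → r ≤ 1 → nrm r (R α) ≤ S₂ * r ^ (k + 1) := by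
    intro α r hr hr1
    have h1 := nrm_low (hRh α).totalDegree_le (hR0 α) hr.le hr1 le_rfl
    rw [one_pow, one_mul] at h1
    refine h1.trans (mul_le_mul_of_nonneg_right ?_ (by positivity))
    exact Finset.single_le_sum (f := fun α => nrm 1 (R α))
      (fun α _ => hN.nonneg m 1 (R α) zero_le_one) (Finset.mem_univ α)
  obtain ⟨CM, hCM⟩ : ∃ CM : ℝ, CM = C0 + S₂ + 1 := ⟨_, rfl⟩
  have hCM0 : 0 < CM := by linarith
  obtain ⟨C_A, η, ρ₁, hCA, hη, hη1, hρ₁, hIT⟩ := hIT hN hLC hSEQ hUL N m n U μ T π τ ν x₀ B θ Bd hW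
    (k + 1) ((k : ℝ) + 2 - β') C₁ (by omega) (by push_cast; linarith) (by push_cast; linarith)
    hC₁ hOne
  obtain ⟨c, hc⟩ : ∃ c : ℝ, c = S₁ + 2 * C_A * CM := ⟨_, rfl⟩
  have hc0 : 0 ≤ c := by
    rw [hc]
    positivity
  obtain ⟨K, hK⟩ : ∃ K : ℝ, K = 2 * N ^ 2 * n * (m ^ 3 * ((k + 1 : ℕ) : ℝ) ^ 3) := ⟨_, rfl⟩
  have hK0 : 0 ≤ K := by
    rw [hK]
    positivity
  obtain ⟨D, hD⟩ : ∃ D : ℝ, D = |CF| + 3 * (K * c ^ 2) := ⟨_, rfl⟩
  obtain ⟨A₀, hA₀⟩ : ∃ A₀ : ℝ, A₀ = (m * ((k + 1 : ℕ) : ℝ) + N * (m ^ 2 * ((k + 1 : ℕ) : ℝ) ^ 2)) * c :=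
    ⟨_, rfl⟩
  have hA₀0 : 0 ≤ A₀ := by
    rw [hA₀]
    positivity
  -- the scale
  have hkβ : 0 < (k : ℝ) - β := by linarith
  obtain ⟨r₀, ⟨⟨⟨e1, e2⟩, e3⟩, e4⟩, e5⟩ := ((((small CM hkβ hη).and
    (small D (a := 1 + β - β') (by linarith) (by positivity : 0 < η ^ 2 * CM))).and
    (small A₀ zero_lt_one (half_pos hη))).and (small A₀ hkβ (half_pos hη))).and
    (Ioo_mem_nhdsGT (lt_min hρ₁ (lt_min hρJ (zero_lt_one' ℝ)))) |>.exists
  have hr₀ : 0 < r₀ := e5.1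
  have hr₀ρ : r₀ < ρ₁ := lt_of_lt_of_le e5.2 (min_le_left _ _)
  have hr₀J : r₀ < ρJ := lt_of_lt_of_le e5.2 ((min_le_right _ _).trans (min_le_left _ _))
  have hr₀1 : r₀ < 1 := lt_of_lt_of_le e5.2 ((min_le_right _ _).trans (min_le_right _ _))
  rw [Real.rpow_one] at e3
  obtain ⟨Λ, hΛdef⟩ : ∃ Λ : ℝ, Λ = CM * r₀ ^ (β' - β - 1) := ⟨_, rfl⟩
  have hΛ : 0 < Λ := by
    rw [hΛdef]
    positivity
  -- heights
  have hM : ∀ r, 0 < r → r ≤ r₀ → 0 ≤ CM * r ^ ((k : ℝ) + 1 - β) ∧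
      ∀ z ∈ μ.support, z ∈ closedBall x₀ r → ∀ α,
        |hh ν x₀ (ut τ x₀ Q) α z| ≤ CM * r ^ ((k : ℝ) + 1 - β) := by
    intro r hr hrr
    refine ⟨by positivity, fun z hz hzr α => ?_⟩
    rw [hQ, hh_ut_add]
    have h1 := hJb r hr (lt_of_le_of_lt hrr hr₀J) z hz hzr α
    have h2 := (ev_le (τ := τ) hN hzr (R α)).trans (hRn α r hr (by linarith))
    have h3 : r ^ (k + 1) ≤ r ^ ((k : ℝ) + 1 - β) := by
      rw [← Real.rpow_natCast]
      apply Real.rpow_le_rpow_of_exponent_ge hr (by linarith)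
      push_cast
      linarith
    have h4 : S₂ * r ^ (k + 1) ≤ S₂ * r ^ ((k : ℝ) + 1 - β) := mul_le_mul_of_nonneg_left h3 hS₂0
    have h5 : 0 ≤ r ^ ((k : ℝ) + 1 - β) := by positivity
    refine (abs_sub _ _).trans ?_
    rw [hCM]
    nlinarith
  have hM0 : CM * r₀ ^ ((k : ℝ) + 1 - β) ≤ Λ * r₀ ^ ((k : ℝ) + 2 - β') := by
    rw [hΛdef, mul_assoc, ← Real.rpow_add hr₀]
    apply le_of_eq
    congr 2
    ring
  have hΛη : Λ * r₀ ^ ((k : ℝ) + 2 - β' - 1) ≤ η := by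
    rw [hΛdef, mul_assoc, ← Real.rpow_add hr₀]
    have : β' - β - 1 + ((k : ℝ) + 2 - β' - 1) = k - β := by ring
    rw [this]
    exact e1
  -- the hypothesis (A)
  have hA : ∀ r, 0 < r → r ≤ r₀ → ∀ H : Fin n → Pol m, Hrm (k + 1) H →
      (∀ α, nrm r (H α) ≤ C_A * (CM * r ^ ((k : ℝ) + 1 - β) + Λ * r ^ ((k : ℝ) + 2 - β'))) →
      ∀ z ∈ closedBall x₀ r, ∀ α,
        |Fo ν (ut τ x₀ fun β => Q β + H β) α z| ≤ η ^ 2 * (Λ * r ^ ((k : ℝ) + 2 - β' - 2)) ∧
        ‖fderiv ℝ (ut τ x₀ (fun β => Q β + H β) α) z‖ ≤ η ∧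
        N * ‖fderiv ℝ (fderiv ℝ (ut τ x₀ (fun β => Q β + H β) α)) z‖ ≤ η / r := by
    intro r hr hrr H hH hHn z hz α
    have hr1 : r ≤ 1 := by linarith
    obtain ⟨p, hp⟩ : ∃ p : ℝ, p = r ^ ((k : ℝ) - β) := ⟨_, rfl⟩
    have hp0 : 0 < p := by
      rw [hp]
      positivity
    have hpr : r ^ ((k : ℝ) + 1 - β) = p * r := by
      rw [hp]
      nth_rewrite 3 [← Real.rpow_one r]
      rw [← Real.rpow_add hr]
      congr 1
      ring
    -- bound of H
    have hH1 : ∀ α, nrm r (H α) ≤ c * (p * r) := by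
      intro α
      refine (hHn α).trans ?_
      have h1 : Λ * r ^ ((k : ℝ) + 2 - β') ≤ CM * (p * r) := by
        rw [hΛdef, ← hpr]
        have h2 : r₀ ^ (β' - β - 1) ≤ r ^ (β' - β - 1) :=
          Real.rpow_le_rpow_of_nonpos hr hrr (by linarith)
        calc CM * r₀ ^ (β' - β - 1) * r ^ ((k : ℝ) + 2 - β') ≤
              CM * r ^ (β' - β - 1) * r ^ ((k : ℝ) + 2 - β') := by gcongr
          _ = CM * r ^ ((k : ℝ) + 1 - β) := by
            rw [mul_assoc, ← Real.rpow_add hr]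
            congr 2
            ring
      rw [hpr]
      calc C_A * (CM * (p * r) + Λ * r ^ ((k : ℝ) + 2 - β')) ≤
            C_A * (CM * (p * r) + CM * (p * r)) := by gcongr
        _ = (2 * C_A * CM) * (p * r) := by ring
        _ ≤ c * (p * r) := by
          apply mul_le_mul_of_nonneg_right _ (by positivity)
          rw [hc]
          linarith
    have hQ1 : ∀ α, nrm r (Q α) ≤ c * r ^ 2 := by
      intro α
      refine (hQn α r hr hr1).trans (mul_le_mul_of_nonneg_right ?_ (by positivity))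
      rw [hc]
      have : 0 ≤ 2 * C_A * CM := by positivity
      linarith
    have hsum : ∀ α, nrm r (Q α + H α) ≤ c * (r ^ 2 + p * r) := fun α => by
      refine (hN.add m r _ _ hr.le).trans ?_
      have := hQ1 α
      have := hH1 α
      linarith
    have hdeg : ∀ α, (Q α + H α).totalDegree ≤ k + 1 := fun α =>
      (MvPolynomial.totalDegree_add _ _).trans (max_le (hQd α) (hH α).1)
    -- monotonicity in r
    have hpr₀ : p ≤ r₀ ^ ((k : ℝ) - β) := by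
      rw [hp]
      exact Real.rpow_le_rpow hr.le hrr hkβ.le
    have hArp : A₀ * (r + p) ≤ η := by
      have h1 : A₀ * r ≤ A₀ * r₀ := mul_le_mul_of_nonneg_left hrr hA₀0
      have h2 : A₀ * p ≤ A₀ * r₀ ^ ((k : ℝ) - β) := mul_le_mul_of_nonneg_left hpr₀ hA₀0
      linarith
    refine ⟨?_, ?_, ?_⟩
    · have h1 := cross_bound hN hC τ ν x₀ hQd (fun α => (hH α).1) (fun α => (hH α).2) hr hQ1 hH1
        hz α
      rw [← hK] at h1
      -- the term of Q
      have h2 : |Fo ν (ut τ x₀ Q) α z| ≤ |CF| * r ^ ((k : ℝ) - β') := by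
        rw [hLk]
        have h3 : ‖crd τ x₀ z‖ ≤ r := (pi_norm_le_iff_of_nonneg hr.le).2 fun i => crd_le hz i
        refine (hCF α _ (h3.trans hr1)).trans ?_
        have h4 : ‖crd τ x₀ z‖ ^ k ≤ r ^ ((k : ℝ) - β') := by
          refine (pow_le_pow_left₀ (norm_nonneg _) h3 k).trans ?_
          rw [← Real.rpow_natCast]
          exact Real.rpow_le_rpow_of_exponent_ge hr hr1 (by linarith)
        exact mul_le_mul (le_abs_self CF) h4 (by positivity) (abs_nonneg _)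
      have h3 : c * (p * r) * (2 * (c * r ^ 2) + c * (p * r)) / r ^ 3 =
          c ^ 2 * (2 * p + p ^ 2 / r) := by
        field_simp
      have h4 : p ≤ r ^ ((k : ℝ) - β') := by
        rw [hp]
        exact Real.rpow_le_rpow_of_exponent_ge hr hr1 (by linarith)
      have h5 : p ^ 2 / r ≤ r ^ ((k : ℝ) - β') := by
        have h6 : p ^ 2 / r = r ^ (2 * ((k : ℝ) - β) - 1) := by
          rw [hp, Real.rpow_sub_one hr.ne', ← Real.rpow_natCast, ← Real.rpow_mul hr.le]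
          congr 2
          push_cast
          ring
        rw [h6]
        exact Real.rpow_le_rpow_of_exponent_ge hr hr1 (by linarith)
      rw [h3] at h1
      have h6 : K * (c ^ 2 * (2 * p + p ^ 2 / r)) ≤ 3 * (K * c ^ 2) * r ^ ((k : ℝ) - β') := by
        calc K * (c ^ 2 * (2 * p + p ^ 2 / r)) ≤
              K * (c ^ 2 * (2 * r ^ ((k : ℝ) - β') + r ^ ((k : ℝ) - β'))) := by gcongr
          _ = _ := by ring
      have h7 : |Fo ν (ut τ x₀ fun β => Q β + H β) α z| ≤ D * r ^ ((k : ℝ) - β') := by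
        rw [hD, add_mul]
        exact h1.trans (add_le_add h2 h6)
      refine h7.trans ?_
      have h8 : (k : ℝ) + 2 - β' - 2 = k - β' := by ring
      rw [h8, ← mul_assoc]
      apply mul_le_mul_of_nonneg_right _ (by positivity)
      -- D ≤ η² Λ
      have h9 : r₀ ^ (1 + β - β') * r₀ ^ (β' - β - 1) = 1 := by
        rw [← Real.rpow_add hr₀]
        have : 1 + β - β' + (β' - β - 1) = 0 := by ring
        rw [this, Real.rpow_zero]
      calc D = D * r₀ ^ (1 + β - β') * r₀ ^ (β' - β - 1) := by rw [mul_assoc, h9, mul_one]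
        _ ≤ η ^ 2 * CM * r₀ ^ (β' - β - 1) := mul_le_mul_of_nonneg_right e2 (by positivity)
        _ = η ^ 2 * Λ := by rw [hΛdef]; ring
    · have h1 := (ev_fderiv_le (τ := τ) hN hr hz (hdeg α))
      refine h1.trans ((?_ : _ ≤ A₀ * (r + p)).trans hArp)
      have h2 := hsum α
      calc m * (((k + 1 : ℕ) : ℝ) / r * nrm r (Q α + H α)) ≤
            m * (((k + 1 : ℕ) : ℝ) / r * (c * (r ^ 2 + p * r))) := by gcongr
        _ = m * ((k + 1 : ℕ) : ℝ) * c * (r + p) := by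
          field_simp
        _ ≤ A₀ * (r + p) := by
          apply mul_le_mul_of_nonneg_right _ (by positivity)
          rw [hA₀]
          apply mul_le_mul_of_nonneg_right _ hc0
          have : 0 ≤ (N : ℝ) * (m ^ 2 * ((k + 1 : ℕ) : ℝ) ^ 2) := by positivity
          linarith
    · have h1 := (ev_ff_le (τ := τ) hN hr hz (hdeg α))
      rw [le_div_iff₀ hr]
      have h2 := hsum α
      have h3 : (N : ℝ) * ‖fderiv ℝ (fderiv ℝ (ut τ x₀ (fun β => Q β + H β) α)) z‖ * r ≤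
          N * (m ^ 2 * ((((k + 1 : ℕ) : ℝ) / r) ^ 2 * (c * (r ^ 2 + p * r)))) * r := by
        apply mul_le_mul_of_nonneg_right _ hr.le
        apply mul_le_mul_of_nonneg_left _ (by positivity)
        refine h1.trans ?_
        gcongr
      refine h3.trans ((?_ : _ ≤ A₀ * (r + p)).trans hArp)
      calc N * (m ^ 2 * ((((k + 1 : ℕ) : ℝ) / r) ^ 2 * (c * (r ^ 2 + p * r)))) * r =
            N * (m ^ 2 * ((k + 1 : ℕ) : ℝ) ^ 2) * c * (r + p) := by
              field_simp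
        _ ≤ A₀ * (r + p) := by
          apply mul_le_mul_of_nonneg_right _ (by positivity)
          rw [hA₀]
          apply mul_le_mul_of_nonneg_right _ hc0
          have : 0 ≤ (m : ℝ) * ((k + 1 : ℕ) : ℝ) := by positivity
          linarith
  obtain ⟨H', C', hC', hHrm, hfin⟩ := hIT (fun r => CM * r ^ ((k : ℝ) + 1 - β)) Q Λ r₀ hΛ hr₀ hr₀ρ
    hM hM0 hΛη hA
  have hH0 : ∀ α s, s.degree < k + 1 → (H' α).coeff s = 0 := by
    intro α s hs
    refine coeff_zero hN (P := H' α) (C := C_A * (CM + C')) (a := (k : ℝ) + 1 - β) hr₀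
      (fun r hr hrr => ?_) ?_
    · refine ((hfin r hr hrr).2 α).trans ?_
      have h1 : r ^ ((k : ℝ) + 2 - β') ≤ r ^ ((k : ℝ) + 1 - β) :=
        Real.rpow_le_rpow_of_exponent_ge hr (by linarith) (by linarith)
      calc C_A * (CM * r ^ ((k : ℝ) + 1 - β) + C' * r ^ ((k : ℝ) + 2 - β')) ≤
            C_A * (CM * r ^ ((k : ℝ) + 1 - β) + C' * r ^ ((k : ℝ) + 1 - β)) := by gcongr
        _ = _ := by ring
    · have : (s.degree : ℝ) ≤ k := by exact_mod_cast Nat.lt_succ_iff.1 hs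
      linarith
  refine ⟨fun α => Q α + H' α, fun α => (MvPolynomial.totalDegree_add _ _).trans
    (max_le (hQd α) (hHrm α).1), fun α s hs => ?_, ?_, C', r₀, hC', hr₀, ?_⟩
  · rw [MvPolynomial.coeff_add, hQ0 α s (by omega), hH0 α s (by omega), add_zero]
  · exact Fc_final hN hC hLk τ ν x₀ hm hk hQd (fun α => (hHrm α).1) (fun α => (hHrm α).2) hQ0 hH0
      hCF
  · intro r hr hrr z hz hzr α
    have h1 := (hfin r hr hrr.le).1 z hz hzr α
    have h2 : ((k + 1 : ℕ) : ℝ) + 1 - β' = (k : ℝ) + 2 - β' := by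
      push_cast
      ring
    rw [h2]
    exact h1

end Pool.Agent.Helper68X
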