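import Pool.Agent.Helper68X.Stm

/-!
# Project JET, piece WB: lower bound of the `L²`-norm of polynomials on small balls
-/

set_option autoImplicit false

namespace Pool.Agent.Helper68X

open MeasureTheory Set Filter Topology Metric Pool.Agent.TH337.VF
open scoped ENNReal RealInnerProductSpace ContDiff

namespace WB

/-- a positive definite quadratic form is bounded below by a multiple of the square of the norm -/
theorem quad {ι : Type*} [Fintype ι] (G : ι → ι → ℝ)
    (hG : ∀ b : ι → ℝ, b ≠ 0 → 0 < ∑ s, ∑ t, b s * b t * G s t) :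
    ∃ c : ℝ, 0 < c ∧ ∀ b : ι → ℝ, c * (∑ s, |b s|) ^ 2 ≤ ∑ s, ∑ t, b s * b t * G s t := by
  classical
  set q : (ι → ℝ) → ℝ := fun b => ∑ s, ∑ t, b s * b t * G s t with hq
  have hqc : Continuous q := by
    rw [hq]
    fun_prop
  have hom : ∀ (a : ℝ) (b : ι → ℝ), q (a • b) = a ^ 2 * q b := by
    intro a b
    simp only [hq, Pi.smul_apply, smul_eq_mul, Finset.mul_sum]
    refine Finset.sum_congr rfl fun s _ => Finset.sum_congr rfl fun t _ => by ring
  have hK : IsCompact (sphere (0 : ι → ℝ) 1) := isCompact_sphere _ _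
  have hz : ∀ b : ι → ℝ, b ≠ 0 → ‖b‖⁻¹ • b ∈ sphere (0 : ι → ℝ) 1 := by
    intro b hb
    rw [mem_sphere_zero_iff_norm, norm_smul, norm_inv, norm_norm, inv_mul_cancel₀ (norm_ne_zero_iff.2 hb)]
  rcases (sphere (0 : ι → ℝ) 1).eq_empty_or_nonempty with h | h
  · refine ⟨1, one_pos, fun b => ?_⟩
    have hb : b = 0 := by
      by_contra hb
      have := hz b hb
      rw [h] at this
      exact this
    subst hb
    simp
  · obtain ⟨b0, hb0, hmin⟩ := hK.exists_isMinOn h hqc.continuousOn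
    have h0 : 0 < q b0 := by
      apply hG
      rintro rfl
      simp at hb0
    refine ⟨q b0 / (Fintype.card ι + 1) ^ 2, by positivity, fun b => ?_⟩
    by_cases hb : b = 0
    · subst hb
      simp
    · have h1 : ∑ s, |b s| ≤ (Fintype.card ι + 1) * ‖b‖ := by
        calc ∑ s, |b s| ≤ ∑ _s : ι, ‖b‖ := Finset.sum_le_sum fun s _ => norm_le_pi_norm b s
          _ = Fintype.card ι * ‖b‖ := by simp
          _ ≤ _ := by nlinarith [norm_nonneg b]
      have h2 : q b0 ≤ q (‖b‖⁻¹ • b) := hmin (hz b hb)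
      rw [hom] at h2
      have h3 : 0 < ‖b‖ := norm_pos_iff.2 hb
      have h4 : q b0 * ‖b‖ ^ 2 ≤ q b := by
        have h5 : ‖b‖ ^ 2 * (‖b‖⁻¹ ^ 2 * q b) = q b := by field_simp
        nlinarith [sq_nonneg ‖b‖]
      have h6 : (∑ s, |b s|) ^ 2 ≤ ((Fintype.card ι + 1) * ‖b‖) ^ 2 :=
        pow_le_pow_left₀ (Finset.sum_nonneg fun s _ => abs_nonneg _) h1 2
      calc q b0 / (Fintype.card ι + 1) ^ 2 * (∑ s, |b s|) ^ 2
          ≤ q b0 / (Fintype.card ι + 1) ^ 2 * ((Fintype.card ι + 1) * ‖b‖) ^ 2 := by gcongr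
        _ = q b0 * ‖b‖ ^ 2 := by field_simp
        _ ≤ _ := h4

/-- perturbation -/
theorem pert {ι : Type*} [Fintype ι] (G G' : ι → ι → ℝ) (c : ℝ)
    (h : ∀ b : ι → ℝ, c * (∑ s, |b s|) ^ 2 ≤ ∑ s, ∑ t, b s * b t * G s t)
    (hG : ∀ s t, |G' s t - G s t| ≤ c / 2) (b : ι → ℝ) :
    c / 2 * (∑ s, |b s|) ^ 2 ≤ ∑ s, ∑ t, b s * b t * G' s t := by
  have h1 : ∑ s, ∑ t, b s * b t * G s t - c / 2 * (∑ s, |b s|) ^ 2 ≤ ∑ s, ∑ t, b s * b t * G' s t := by
    rw [sq, Finset.sum_mul_sum, Finset.mul_sum, ← Finset.sum_sub_distrib]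
    refine Finset.sum_le_sum fun s _ => ?_
    rw [Finset.mul_sum, ← Finset.sum_sub_distrib]
    refine Finset.sum_le_sum fun t _ => ?_
    have h2 : |b s * b t * (G' s t - G s t)| ≤ c / 2 * (|b s| * |b t|) := by
      rw [abs_mul, abs_mul, mul_comm]
      exact mul_le_mul_of_nonneg_right (hG s t) (by positivity)
    have h3 := (abs_le.1 h2).1
    nlinarith
  have := h b
  linarith

/-- the cut-off function -/
noncomputable def chi {N : ℕ} (w : E N) : ℝ := max 0 (1 - 3 * ‖w‖)

theorem chi_nonneg {N : ℕ} (w : E N) : 0 ≤ chi w := le_max_left _ _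

theorem chi_le {N : ℕ} (w : E N) : chi w ≤ 1 := max_le zero_le_one (by linarith [norm_nonneg w])

theorem chi_zero {N : ℕ} (w : E N) (h : 1 / 3 ≤ ‖w‖) : chi w = 0 := max_eq_left (by linarith)

theorem chi_cont {N : ℕ} : Continuous (chi : E N → ℝ) := by unfold chi; fun_prop

/-- the monomials in the coordinates `⟨τ i, w⟩` -/
noncomputable def mon {N m : ℕ} (τ : Fin m → E N) (s : Fin m →₀ ℕ) (w : E N) : ℝ := ∏ i, ⟪τ i, w⟫ ^ s i

theorem mon_cont {N m : ℕ} (τ : Fin m → E N) (s : Fin m →₀ ℕ) : Continuous (mon τ s) := by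
  unfold mon
  fun_prop

noncomputable def zet {N m : ℕ} (τ : Fin m → E N) (s t : Fin m →₀ ℕ) (w : E N) : ℝ :=
  chi w * (mon τ s w * mon τ t w)

theorem zet_cont {N m : ℕ} (τ : Fin m → E N) (s t : Fin m →₀ ℕ) : Continuous (zet τ s t) :=
  chi_cont.mul ((mon_cont τ s).mul (mon_cont τ t))

theorem zet_supp {N m : ℕ} (τ : Fin m → E N) (s t : Fin m →₀ ℕ) : HasCompactSupport (zet τ s t) := by
  refine HasCompactSupport.of_support_subset_isCompact (isCompact_closedBall 0 (1 / 3)) fun w hw => ?_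
  rw [mem_closedBall_zero_iff]
  by_contra h
  exact hw (by rw [zet, chi_zero w (not_le.1 h).le, zero_mul])

theorem sum_zet {ι : Type*} [Fintype ι] {N m : ℕ} (τ : Fin m → E N) (σ : ι → Fin m →₀ ℕ) (b : ι → ℝ) (w : E N) :
    ∑ s, ∑ t, b s * b t * zet τ (σ s) (σ t) w = chi w * (∑ s, b s * mon τ (σ s) w) ^ 2 := by
  rw [sq, Finset.sum_mul_sum, Finset.mul_sum]
  refine Finset.sum_congr rfl fun s _ => ?_
  rw [Finset.mul_sum]
  refine Finset.sum_congr rfl fun t _ => ?_
  rw [zet]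
  ring

/-- positivity of the Gram form on the plane -/
theorem posdef {N m : ℕ} (S : Finset (Fin m →₀ ℕ)) (π : Submodule ℝ (E N)) (τ : OrthonormalBasis (Fin m) ℝ π)
    (Q : ℝ) (hQ : 0 < Q) (b : {s // s ∈ S} → ℝ) (hb : b ≠ 0) :
    0 < ∑ s : {s // s ∈ S}, ∑ t : {s // s ∈ S}, b s * b t *
      (Q * ∫ x : π, zet (fun i => (τ i : E N)) s.1 t.1 (x : E N)) := by
  have hint : ∀ s t : Fin m →₀ ℕ, Integrable (fun x : π => zet (fun i => (τ i : E N)) s t (x : E N)) := by
    intro s t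
    refine Continuous.integrable_of_hasCompactSupport ((zet_cont _ s t).comp continuous_subtype_val) ?_
    exact (zet_supp _ s t).comp_isClosedEmbedding (π.closed_of_finiteDimensional.isClosedEmbedding_subtypeVal)
  have h1 : ∑ s : {s // s ∈ S}, ∑ t : {s // s ∈ S}, b s * b t *
      (Q * ∫ x : π, zet (fun i => (τ i : E N)) s.1 t.1 (x : E N)) =
      Q * ∫ x : π, chi (x : E N) * (∑ s, b s * mon (fun i => (τ i : E N)) s.1 (x : E N)) ^ 2 := by
    have h2 : (fun x : π => chi (x : E N) * (∑ s, b s * mon (fun i => (τ i : E N)) s.1 (x : E N)) ^ 2) =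
        fun x : π => ∑ s, ∑ t, b s * b t * zet (fun i => (τ i : E N)) s.1 t.1 (x : E N) := by
      funext x
      exact (sum_zet (fun i => (τ i : E N)) (fun s : {s // s ∈ S} => s.1) b (x : E N)).symm
    rw [h2, integral_finsetSum _ fun s _ => integrable_finsetSum _ fun t _ => (hint s.1 t.1).const_mul _,
      Finset.mul_sum]
    refine Finset.sum_congr rfl fun s _ => ?_
    rw [integral_finsetSum _ fun t _ => (hint s.1 t.1).const_mul _, Finset.mul_sum]
    refine Finset.sum_congr rfl fun t _ => ?_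
    rw [integral_const_mul]
    ring
  rw [h1]
  refine mul_pos hQ ?_
  -- a point of the plane where the polynomial does not vanish
  set P : MvPolynomial (Fin m) ℝ := ∑ s : {s // s ∈ S}, MvPolynomial.monomial s.1 (b s) with hP
  have hcoeff : ∀ s : {s // s ∈ S}, P.coeff s.1 = b s := by
    intro s
    rw [hP, MvPolynomial.coeff_sum, Finset.sum_eq_single s]
    · simp
    · intro t _ hts
      rw [MvPolynomial.coeff_monomial, if_neg fun h => hts (Subtype.ext h)]
    · simp
  have hP0 : P ≠ 0 := by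
    intro h
    apply hb
    funext s
    rw [← hcoeff s, h]
    simp
  have heval : ∀ y : Fin m → ℝ, MvPolynomial.eval y P = ∑ s, b s * ∏ i, y i ^ s.1 i := by
    intro y
    rw [hP, map_sum]
    refine Finset.sum_congr rfl fun s _ => ?_
    rw [MvPolynomial.eval_monomial, Finsupp.prod_fintype _ _ (fun i => by simp)]
  obtain ⟨y, hy, hy0⟩ : ∃ y : Fin m → ℝ, (∀ i, |y i| < 1 / (3 * (m + 1))) ∧ MvPolynomial.eval y P ≠ 0 := by
    by_contra hcon
    push Not at hcon
    apply hP0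
    have hδ : (0:ℝ) < 1 / (3 * (m + 1)) := by positivity
    refine MvPolynomial.funext_set (fun _ => Ioo (-(1 / (3 * (m + 1)) : ℝ)) (1 / (3 * (m + 1))))
      (fun _ => Ioo_infinite (by linarith)) fun x hx => ?_
    rw [map_zero]
    exact hcon x fun i => abs_lt.2 (hx i (mem_univ i))
  set x0 : π := ∑ i, y i • τ i with hx0
  have hco : ∀ i, ⟪(τ i : E N), (x0 : E N)⟫ = y i := by
    intro i
    have h3 : ⟪τ i, x0⟫ = y i := by
      rw [hx0, τ.orthonormal.inner_right_fintype]
    rw [← h3]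
    rfl
  have hnorm : ‖(x0 : E N)‖ < 1 / 3 := by
    have h3 : ‖x0‖ ≤ ∑ i, ‖y i • τ i‖ := norm_sum_le _ _
    have h4 : ∑ i, ‖y i • τ i‖ ≤ ∑ _i : Fin m, (1 / (3 * (m + 1)) : ℝ) := by
      refine Finset.sum_le_sum fun i _ => ?_
      rw [norm_smul, τ.norm_eq_one, mul_one]
      exact (hy i).le
    have h5 : ∑ _i : Fin m, (1 / (3 * (m + 1)) : ℝ) = m / (3 * (m + 1)) := by
      simp [Finset.sum_const, div_eq_mul_inv]
    have h6 : (m : ℝ) / (3 * (m + 1)) < 1 / 3 := by
      rw [div_lt_div_iff₀ (by positivity) (by norm_num)]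
      linarith
    have h7 : ‖(x0 : E N)‖ = ‖x0‖ := rfl
    linarith
  refine Continuous.integral_pos_of_hasCompactSupport_nonneg_nonzero (x := x0) ?_ ?_ ?_ ?_
  · refine (chi_cont.comp continuous_subtype_val).mul (Continuous.pow ?_ 2)
    exact continuous_finsetSum _ fun s _ => continuous_const.mul ((mon_cont _ s.1).comp continuous_subtype_val)
  · refine HasCompactSupport.of_support_subset_isCompact (isCompact_closedBall 0 (1 / 3)) fun w hw => ?_
    rw [mem_closedBall_zero_iff]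
    by_contra h
    apply hw
    show chi (w : E N) * _ = 0
    rw [chi_zero (w : E N) (not_le.1 h).le, zero_mul]
  · intro x
    exact mul_nonneg (chi_nonneg _) (sq_nonneg _)
  · have h3 : 0 < chi (x0 : E N) := lt_max_of_lt_right (by linarith)
    refine mul_ne_zero h3.ne' (pow_ne_zero 2 ?_)
    have h4 : ∑ s, b s * mon (fun i => (τ i : E N)) s.1 (x0 : E N) = MvPolynomial.eval y P := by
      rw [heval]
      refine Finset.sum_congr rfl fun s _ => ?_
      simp only [mon, hco]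
    rw [h4]
    exact hy0

end WB

theorem wb : S_WB := by
  intro N m d μ x₀ π τ Q R hm hQ hflat hR hfin
  classical
  set S : Finset (Fin m →₀ ℕ) := (Finsupp.finite_of_degree_le (σ := Fin m) d).toFinset with hS
  have hmem : ∀ s, s ∈ S ↔ s.degree ≤ d := by
    intro s
    simp [hS]
  set τ' : Fin m → E N := fun i => (τ i : E N) with hτ'
  set G : {s // s ∈ S} → {s // s ∈ S} → ℝ := fun s t => Q * ∫ x : π, WB.zet τ' s.1 t.1 (x : E N) with hG
  obtain ⟨c, hc, hquad⟩ := WB.quad G fun b hb => WB.posdef S π τ Q hQ b hb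
  set H : ℝ → {s // s ∈ S} → {s // s ∈ S} → ℝ := fun r s t =>
    (∫ z, WB.zet τ' s.1 t.1 (r⁻¹ • (z - x₀)) ∂μ) / r ^ m with hH
  have hev : ∀ᶠ r in 𝓝[>] (0:ℝ), ∀ s t, |H r s t - G s t| ≤ c / 2 := by
    rw [eventually_all]
    intro s
    rw [eventually_all]
    intro t
    have h1 := hflat (WB.zet τ' s.1 t.1) (WB.zet_cont _ _ _) (WB.zet_supp _ _ _)
    have h2 := (Metric.tendsto_nhds.1 h1) (c / 2) (by positivity)
    refine h2.mono fun r hr => ?_
    rw [Real.dist_eq] at hr
    exact hr.le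
  obtain ⟨ρ₀, hρ₀, hρ⟩ : ∃ ρ : ℝ, 0 < ρ ∧ ∀ r, 0 < r → r < ρ → ∀ s t, |H r s t - G s t| ≤ c / 2 := by
    rw [eventually_nhdsWithin_iff] at hev
    obtain ⟨ε, hε, h1⟩ := Metric.eventually_nhds_iff.1 hev
    refine ⟨ε, hε, fun r hr hr' => h1 ?_ hr⟩
    rw [Real.dist_eq, sub_zero, abs_of_pos hr]
    exact hr'
  refine ⟨2 / c, min ρ₀ R, by positivity, lt_min hρ₀ hR, fun r hr hr' P hP => ?_⟩
  have hr1 : r < ρ₀ := lt_of_lt_of_le hr' (min_le_left _ _)
  have hr2 : r < R := lt_of_lt_of_le hr' (min_le_right _ _)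
  have hsupp : P.support ⊆ S := by
    intro s hs
    rw [hmem]
    have := MvPolynomial.le_totalDegree hs
    rw [Finsupp.degree_eq_sum, ← Finsupp.sum_fintype s (fun _ e => e) (fun _ => rfl)]
    exact this.trans hP
  set b : {s // s ∈ S} → ℝ := fun s => P.coeff s.1 * r ^ s.1.degree with hb
  have hnrm : nrm r P = ∑ s, |b s| := by
    have h1 : nrm r P = ∑ s ∈ S, |P.coeff s| * r ^ s.degree := by
      unfold nrm
      refine Finset.sum_subset hsupp fun s _ hs => ?_
      rw [MvPolynomial.notMem_support_iff.1 hs]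
      simp
    rw [h1, ← Finset.sum_coe_sort]
    refine Finset.sum_congr rfl fun s _ => ?_
    rw [hb, abs_mul, abs_of_pos (pow_pos hr _)]
  have hevP : ∀ z, ev τ' x₀ P z = ∑ s, b s * WB.mon τ' s.1 (r⁻¹ • (z - x₀)) := by
    intro z
    unfold ev
    rw [MvPolynomial.eval_eq']
    have h1 : ∑ s ∈ P.support, P.coeff s * ∏ i, ⟪τ' i, z - x₀⟫ ^ s i =
        ∑ s ∈ S, P.coeff s * ∏ i, ⟪τ' i, z - x₀⟫ ^ s i := by
      refine Finset.sum_subset hsupp fun s _ hs => ?_
      rw [MvPolynomial.notMem_support_iff.1 hs]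
      simp
    rw [h1, ← Finset.sum_coe_sort]
    refine Finset.sum_congr rfl fun s _ => ?_
    have h2 : ∀ i, ⟪τ' i, z - x₀⟫ = r * ⟪τ' i, r⁻¹ • (z - x₀)⟫ := by
      intro i
      rw [inner_smul_right, ← mul_assoc, mul_inv_cancel₀ hr.ne', one_mul]
    simp only [h2, mul_pow, Finset.prod_mul_distrib, Finset.prod_pow_eq_pow_sum, WB.mon, hb]
    rw [Finsupp.degree_eq_sum]
    ring
  have hball : μ (ball x₀ (r / 2)) < ⊤ :=
    lt_of_le_of_lt (measure_mono (ball_subset_closedBall.trans (closedBall_subset_closedBall (by linarith)))) hfin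
  -- integrability
  have hzi : ∀ s t : Fin m →₀ ℕ, Integrable (fun z => WB.zet τ' s t (r⁻¹ • (z - x₀))) μ := by
    intro s t
    have hcont : Continuous fun z => WB.zet τ' s t (r⁻¹ • (z - x₀)) := by
      have := WB.zet_cont τ' s t
      fun_prop
    have h1 : IntegrableOn (fun z => WB.zet τ' s t (r⁻¹ • (z - x₀))) (ball x₀ (r / 2)) μ := by
      obtain ⟨C, hC⟩ := (WB.zet_supp τ' s t).exists_bound_of_continuous (WB.zet_cont τ' s t)
      refine Measure.integrableOn_of_bounded (M := C) hball.ne hcont.aestronglyMeasurable ?_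
      exact Eventually.of_forall fun z => hC _
    refine (integrableOn_iff_integrable_of_support_subset ?_).1 h1
    intro z hz
    rw [mem_ball, dist_eq_norm]
    by_contra h
    apply hz
    show WB.chi _ * _ = 0
    rw [WB.chi_zero, zero_mul]
    rw [norm_smul, norm_inv, Real.norm_of_nonneg hr.le]
    rw [not_lt] at h
    rw [inv_mul_eq_div, div_le_div_iff₀ (by norm_num) hr]
    linarith
  have hevcont : Continuous fun z => ev τ' x₀ P z ^ 2 := by
    have : (fun z => ev τ' x₀ P z ^ 2) = fun z => (∑ s, b s * WB.mon τ' s.1 (r⁻¹ • (z - x₀))) ^ 2 := by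
      funext z
      rw [hevP]
    rw [this]
    refine Continuous.pow (continuous_finsetSum _ fun s _ => continuous_const.mul ?_) 2
    have := WB.mon_cont τ' s.1
    fun_prop
  have hevi : IntegrableOn (fun z => ev τ' x₀ P z ^ 2) (ball x₀ (r / 2)) μ := by
    obtain ⟨C, hC⟩ := (isCompact_closedBall x₀ (r / 2)).exists_bound_of_continuousOn hevcont.continuousOn
    refine Measure.integrableOn_of_bounded (M := C) hball.ne hevcont.aestronglyMeasurable ?_
    exact (ae_restrict_iff' measurableSet_ball).2 (Eventually.of_forall fun z hz => hC z (ball_subset_closedBall hz))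
  -- the main inequality
  have hmain : ∑ s, ∑ t, b s * b t * H r s t ≤ (∫ z in ball x₀ (r / 2), ev τ' x₀ P z ^ 2 ∂μ) / r ^ m := by
    have h1 : ∑ s, ∑ t, b s * b t * H r s t =
        (∫ z, WB.chi (r⁻¹ • (z - x₀)) * ev τ' x₀ P z ^ 2 ∂μ) / r ^ m := by
      have h2 : (fun z => WB.chi (r⁻¹ • (z - x₀)) * ev τ' x₀ P z ^ 2) =
          fun z => ∑ s, ∑ t, b s * b t * WB.zet τ' s.1 t.1 (r⁻¹ • (z - x₀)) := by
        funext z
        rw [hevP]
        exact (WB.sum_zet τ' (fun s : {s // s ∈ S} => s.1) b _).symm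
      rw [h2, integral_finsetSum _ fun s _ => integrable_finsetSum _ fun t _ => (hzi s.1 t.1).const_mul _,
        Finset.sum_div]
      refine Finset.sum_congr rfl fun s _ => ?_
      rw [integral_finsetSum _ fun t _ => (hzi s.1 t.1).const_mul _, Finset.sum_div]
      refine Finset.sum_congr rfl fun t _ => ?_
      rw [integral_const_mul, hH]
      ring
    rw [h1]
    refine div_le_div_of_nonneg_right ?_ (pow_pos hr m).le
    have h3 : ∫ z, WB.chi (r⁻¹ • (z - x₀)) * ev τ' x₀ P z ^ 2 ∂μ =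
        ∫ z in ball x₀ (r / 2), WB.chi (r⁻¹ • (z - x₀)) * ev τ' x₀ P z ^ 2 ∂μ := by
      refine (setIntegral_eq_integral_of_forall_compl_eq_zero fun z hz => ?_).symm
      rw [mem_ball, dist_eq_norm, not_lt] at hz
      rw [WB.chi_zero, zero_mul]
      rw [norm_smul, norm_inv, Real.norm_of_nonneg hr.le]
      rw [inv_mul_eq_div, div_le_div_iff₀ (by norm_num) hr]
      linarith
    rw [h3]
    refine integral_mono_of_nonneg (Eventually.of_forall fun z => mul_nonneg (WB.chi_nonneg _) (sq_nonneg _)) hevi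
      (Eventually.of_forall fun z => ?_)
    have := WB.chi_le (r⁻¹ • (z - x₀))
    have h4 := sq_nonneg (ev τ' x₀ P z)
    show WB.chi _ * _ ≤ _
    nlinarith
  have h5 := (WB.pert G (H r) c hquad (hρ r hr hr1) b).trans hmain
  rw [← hnrm, le_div_iff₀ (pow_pos hr m)] at h5
  rw [div_mul_eq_mul_div, le_div_iff₀ hc]
  linarith

end Pool.Agent.Helper68X
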