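import Pool.Agent.Helper68X.Stm4

/-!
# Project JET, piece WD (helper54)
-/

set_option autoImplicit false
set_option linter.all false

namespace Pool.Agent.Helper68X

open MeasureTheory Set Filter Topology Metric Pool.Agent.TH337.VF Pool.Agent.Helper68V
open scoped ENNReal RealInnerProductSpace ContDiff

namespace WdP

variable {N m : ℕ} {U : Set (E N)} {μ : Measure (E N)} {P : E N → E N →L[ℝ] E N}

lemma dens_lt {x₀ : E N} (hS : Stat m U μ P) (hU : IsOpen U) (hx₀ : x₀ ∈ U) :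
    density m μ x₀ ≠ ⊤ := by
  obtain ⟨R₀, hR₀, hsub⟩ := Metric.isOpen_iff.1 hU x₀ hx₀
  have h1 : closedBall x₀ (R₀ / 2) ⊆ U := (closedBall_subset_ball (by linarith)).trans hsub
  have h2 := density_le hS h1 (by positivity : 0 < R₀ / 2)
  have h3 : μ (ball x₀ (R₀ / 2)) < ⊤ := (measure_mono ball_subset_closedBall).trans_lt
    (hS.fin _ h1 (isCompact_closedBall _ _))
  intro h4
  rw [h4, ENNReal.top_mul] at h2
  · exact absurd (top_le_iff.1 h2) h3.ne
  · exact mul_ne_zero (omega_pos m) (pow_ne_zero _ (ENNReal.ofReal_pos.2 (by positivity)).ne')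

lemma dens_ge {x₀ : E N} (hS : Stat m U μ P) (hU : IsOpen U) {θ : ℝ≥0∞} (hθ1 : θ ≠ ⊤)
    (hθ : ∀ᵐ x ∂(μ.restrict U), θ ≤ density m μ x) (hx₀U : x₀ ∈ U) (hx₀ : x₀ ∈ μ.support) :
    θ ≤ density m μ x₀ := by
  obtain ⟨R₀, hR₀, hRU⟩ := Metric.isOpen_iff.1 hU x₀ hx₀U
  unfold density
  apply le_limsup_of_frequently_le'
  apply Eventually.frequently
  filter_upwards [Ioc_mem_nhdsGT hR₀] with r hr
  have h4 := lower_supp hS hθ1 hθ hx₀ hr.1 ((ball_subset_ball hr.2).trans hRU)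
  have hr' : ENNReal.ofReal r ≠ 0 := (ENNReal.ofReal_pos.2 hr.1).ne'
  rwa [ENNReal.le_div_iff_mul_le (Or.inl (mul_ne_zero (omega_pos m) (pow_ne_zero _ hr')))
    (Or.inl (ENNReal.mul_ne_top (omega_lt m) (ENNReal.pow_ne_top ENNReal.ofReal_ne_top)))]

lemma good {x₀ a : E N} (hS : Stat m U μ P) (ha : density m μ a = density m μ x₀) {t : ℝ}
    (ht : 0 < t) (hc : closedBall a t ⊆ U) :
    om m * (density m μ x₀).toReal * t ^ m ≤ μ.real (ball a t) := by
  have h1 := density_le hS hc ht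
  rw [ha] at h1
  have h3 : μ (ball a t) < ⊤ := (measure_mono ball_subset_closedBall).trans_lt
    (hS.fin _ hc (isCompact_closedBall _ _))
  have h4 := ENNReal.toReal_mono h3.ne h1
  rw [ENNReal.toReal_mul, ENNReal.toReal_mul, ENNReal.toReal_pow, ENNReal.toReal_ofReal ht.le] at h4
  refine le_trans (le_of_eq ?_) h4
  unfold om
  ring

end WdP

theorem t_WD : S_WD := by
  intro hI hW N m U μ T θ x₀ π τ hm hU hV hθ0 hθ1 hθ hx₀ hx₀s hF hbad
  have hS := Helper68V.Pub.toStat hV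
  have hD1 := WdP.dens_lt hS hU hx₀
  have hD0 := WdP.dens_ge hS hU hθ1 hθ hx₀ hx₀s
  have hDpos : 0 < (density m μ x₀).toReal :=
    ENNReal.toReal_pos (fun h => hθ0 (le_antisymm (hD0.trans h.le) zero_le)) hD1
  have hom : 0 < om m := ENNReal.toReal_pos (omega_pos m) (omega_lt m)
  obtain ⟨R₀, hR₀, hsub⟩ := Metric.isOpen_iff.1 hU x₀ hx₀
  have hcl : closedBall x₀ (R₀ / 2) ⊆ U := (closedBall_subset_ball (by linarith)).trans hsub
  refine ⟨om m * (density m μ x₀).toReal, cst m θ, ?_⟩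
  constructor
  · exact ⟨hm, hS, hV.dim_plane, by
      rw [Module.finrank_eq_card_basis τ.toBasis, Fintype.card_fin]⟩
  · exact ⟨R₀ / 2, by positivity, hcl⟩
  · positivity
  · exact cst_pos hθ0 hθ1
  · intro a ha t ht hc
    have ha' : density m μ a = density m μ x₀ := by
      by_contra h
      exact ha h
    exact WdP.good hS ha' ht hc
  · intro a ha t ht hc
    exact lower_real hS hθ1 hθ ha ht hc
  · exact hI.ratio N m U μ T x₀ hm hU hV hx₀
  · exact hI.flat N m U μ T θ x₀ π _ hm hU hV hθ0 hθ1 hθ hx₀ hF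
  · exact hI.bad N m U μ T x₀ _ hm hU hV hx₀ hbad
  · intro d
    exact hW N m d μ x₀ π τ _ (R₀ / 2) hm hDpos hF (by positivity)
      (hS.fin _ hcl (isCompact_closedBall _ _))

end Pool.Agent.Helper68X
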