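import Pool.Agent.Helper68X.TDef
import Pool.Agent.Helper68X.WB
import Pool.Agent.Helper68X.DEN
import Pool.Agent.Helper68X.NRM
import Pool.Agent.Helper68X.HP
import Pool.Agent.Helper68X.INV
import Pool.Agent.Helper68X.FP
import Pool.Agent.Helper68X.KT2
import Pool.Agent.Helper68X.INIT
import Pool.Agent.Helper68X.WD
import Pool.Agent.Helper68X.ITER
import Pool.Agent.Helper68X.STEP
import Pool.Agent.Helper68X.SEQ

/-!
Assembly of project JET.
-/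

set_option autoImplicit false

namespace Pool.Agent.Helper68X

open MeasureTheory Set Filter Topology Metric Pool.Agent.TH337.VF Pool.Agent.Helper68V
open scoped ENNReal RealInnerProductSpace ContDiff

variable {N m n : ℕ} {U : Set (E N)} {μ : Measure (E N)} {T : E N → Submodule ℝ (E N)}
  {π : Submodule ℝ (E N)} {x₀ : E N} {τ : OrthonormalBasis (Fin m) ℝ π} {B θ : ℝ} {Bd : Set (E N)}

/-- all the jets -/
lemma jets (hBASE : S_BASE) (hW : Wd m U μ T π τ x₀ B θ Bd) (ν : OrthonormalBasis (Fin n) ℝ πᗮ)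
    (k : ℕ) : ∀ β : ℝ, 0 < β → β < 1 → Jet μ τ ν x₀ (k + 1) β := by
  have hone := fun d => one_thm den t_NRM (t_HP t_INV) t_KT2 hW ν d
  induction k with
  | zero =>
    intro β h0 h1
    obtain ⟨C₁, hC₁, h⟩ := hone 1
    exact hBASE t_NRM t_LC t_SEQ t_UL t_ITER N m n U μ T π τ ν x₀ B θ Bd C₁ β hW hC₁ h h0 h1
  | succ k ih =>
    intro β h0 h1
    obtain ⟨C₁, hC₁, h⟩ := hone (k + 1 + 1)
    exact t_STEP t_NRM t_LC t_SEQ t_UL t_CROSS t_LINK t_INV t_FP t_ITER N m n U μ T π τ ν x₀ B θ Bd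
      (k + 1) C₁ (β / 2) β hW (by omega) hC₁ h (by linarith) (by linarith) h1
      (ih (β / 2) (by linarith) (by linarith))

/-- **the main theorem** -/
theorem main (hBASE : S_BASE) {θ : ℝ≥0∞} (hm : 1 ≤ m) (hU : IsOpen U)
    (hV : Helper68V.Pub.IsStationaryVarifold m U μ T) (hθ0 : θ ≠ 0) (hθ1 : θ ≠ ⊤)
    (hθ : ∀ᵐ x ∂(μ.restrict U), θ ≤ density m μ x) (hx₀ : x₀ ∈ U) (hxs : x₀ ∈ μ.support)
    (hπ : FlatTangent m μ x₀ π (density m μ x₀).toReal)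
    (hd : upperDens m μ {z | density m μ z ≠ density m μ x₀} x₀ = 0)
    (τ : OrthonormalBasis (Fin m) ℝ π) (ν : OrthonormalBasis (Fin n) ℝ πᗮ) :
    ∃ Q : ℕ → Fin n → MvPolynomial (Fin m) ℝ, IsTaylorSeries μ τ ν x₀ Q ∧
      (∀ Q', IsTaylorSeries μ τ ν x₀ Q' → Q' = Q) ∧ (∀ α, Q 0 α = 0) ∧ (∀ α, Q 1 α = 0) ∧
      ∀ K, 1 ≤ K → MinimalUpTo m (K - 1) π (polyMap τ ν x₀ (partialSum Q K)) x₀ ∧
        TiltUpTo m K μ T π (polyMap τ ν x₀ (partialSum Q K)) x₀ := by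
  obtain ⟨B, θ', hW⟩ := t_WD t_INIT wb N m U μ T θ x₀ π τ hm hU hV hθ0 hθ1 hθ hx₀ hxs hπ hd
  apply final t_NRM hW
  intro K hK
  exact cut t_NRM hK (jets hBASE hW ν K (1 / 2) (by norm_num) (by norm_num))

end Pool.Agent.Helper68X
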