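import Pool.Agent.Helper68X.STEP

/-!
Project JET, piece BASE: the first order estimate (helper68).
-/

set_option autoImplicit false

namespace Pool.Agent.Helper68X

open MeasureTheory Set Filter Topology Metric Pool.Agent.TH337.VF Pool.Agent.Helper68V
open scoped ENNReal RealInnerProductSpace ContDiff

variable {N m n : ℕ} {π : Submodule ℝ (E N)}

namespace BaseP

lemma coeff_high {P : Pol m} (hP : P.totalDegree ≤ 1) {s : Fin m →₀ ℕ} (hs : 2 ≤ s.degree) :
    P.coeff s = 0 := by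
  by_contra h
  have h1 := MvPolynomial.le_totalDegree (MvPolynomial.mem_support_iff.2 h)
  have h2 : s.degree ≤ P.totalDegree := h1
  omega

/-- second derivatives of polynomials of degree `≤ 1` vanish -/
lemma pd_pd {P : Pol m} (hP : P.totalDegree ≤ 1) (i j : Fin m) :
    MvPolynomial.pderiv j (MvPolynomial.pderiv i P) = 0 := by
  ext s
  rw [MvPolynomial.coeff_pderiv, MvPolynomial.coeff_pderiv, coeff_high hP, MvPolynomial.coeff_zero]
  · ring
  · rw [map_add, map_add, Finsupp.degree_single, Finsupp.degree_single]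
    omega

lemma ff_zero (τ : OrthonormalBasis (Fin m) ℝ π) (x₀ : E N) {P : Pol m} (hP : P.totalDegree ≤ 1)
    (z : E N) : fderiv ℝ (fderiv ℝ (ev (fun i => (τ i : E N)) x₀ P)) z = 0 := by
  ext v w
  rw [ev_ff]
  simp only [pd_pd hP, ev, map_zero, zero_mul, Finset.sum_const_zero]
  rfl

lemma Fo_zero (τ : OrthonormalBasis (Fin m) ℝ π) (ν : OrthonormalBasis (Fin n) ℝ πᗮ) (x₀ : E N)
    {P : Fin n → Pol m} (hP : ∀ α, (P α).totalDegree ≤ 1) (α : Fin n) (z : E N) :
    Fo ν (ut τ x₀ P) α z = 0 := by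
  unfold Fo lap
  have h : fderiv ℝ (fderiv ℝ (ut τ x₀ P α)) z = 0 := ff_zero τ x₀ (hP α) z
  simp [h]

end BaseP

open BaseP in
/-- **BASE** -/
theorem t_BASE : S_BASE := by
  intro hN hLC hSEQ hUL hIT N m n U μ T π τ ν x₀ B θ Bd C₁ β hW hC₁ hOne hβ hβ1
  have hm : 1 ≤ m := hW.glo.hm
  obtain ⟨C_A, η, ρ₁, hCA, hη, hη1, hρ₁, hIT⟩ := hIT hN hLC hSEQ hUL N m n U μ T π τ ν x₀ B θ Bd hW
    1 (2 - β) C₁ le_rfl (by push_cast; linarith) (by push_cast; linarith) hC₁ hOne
  obtain ⟨ε, hε, hε1, hε2⟩ : ∃ ε : ℝ, 0 < ε ∧ ε ≤ η ∧ m * (2 * C_A * ε) ≤ η := by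
    refine ⟨η / (m * (2 * C_A) + 1), by positivity, ?_, ?_⟩
    · apply div_le_self hη.le
      have : 0 ≤ (m : ℝ) * (2 * C_A) := by positivity
      linarith
    · have h0 : 0 ≤ (m : ℝ) * (2 * C_A) := by positivity
      have h1 : (m : ℝ) * (2 * C_A * (η / (m * (2 * C_A) + 1))) =
          η * ((m * (2 * C_A)) / (m * (2 * C_A) + 1)) := by
        field_simp
      rw [h1]
      have h2 : (m * (2 * C_A)) / (m * (2 * C_A) + 1) ≤ (1 : ℝ) := by
        rw [div_le_one (by positivity)]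
        linarith
      nlinarith
  obtain ⟨ρ, hρ, hflat⟩ := hW.flat ε hε
  obtain ⟨r₀, hr₀, hr₀1⟩ : ∃ r₀ : ℝ, 0 < r₀ ∧ r₀ < min ρ ρ₁ := ⟨min ρ ρ₁ / 2, by positivity, by
    have : 0 < min ρ ρ₁ := by positivity
    linarith⟩
  have hr₀ρ : r₀ < ρ := hr₀1.trans_le (min_le_left _ _)
  have hr₀ρ₁ : r₀ < ρ₁ := hr₀1.trans_le (min_le_right _ _)
  have hzn : ∀ (z : E N) (α : Fin n), |hh ν x₀ (ut τ x₀ fun _ => (0 : Pol m)) α z| ≤
      ‖πᗮ.starProjection (z - x₀)‖ := by
    intro z α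
    have h0 : hh ν x₀ (ut τ x₀ fun _ => (0 : Pol m)) α z = ⟪(ν α : E N), z - x₀⟫ := by
      unfold hh ut ev
      rw [map_zero, sub_zero]
    have h1 : ⟪(ν α : E N), z - x₀⟫ = ⟪(ν α : E N), πᗮ.starProjection (z - x₀)⟫ := by
      rw [← proj_symm, pqo (ν α).2]
    rw [h0, h1]
    refine (abs_real_inner_le_norm _ _).trans ?_
    have h2 : ‖(ν α : E N)‖ = 1 := ν.orthonormal.1 α
    rw [h2, one_mul]
  obtain ⟨Λ, hΛdef⟩ : ∃ Λ : ℝ, Λ = ε * r₀ ^ (β - 1) := ⟨_, rfl⟩
  have hΛ : 0 < Λ := by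
    rw [hΛdef]
    positivity
  have hΛr : ∀ r, 0 < r → r ≤ r₀ → Λ * r ^ (2 - β) ≤ ε * r := by
    intro r hr hrr
    rw [hΛdef]
    have h1 : r₀ ^ (β - 1) ≤ r ^ (β - 1) := Real.rpow_le_rpow_of_nonpos hr hrr (by linarith)
    calc ε * r₀ ^ (β - 1) * r ^ (2 - β) ≤ ε * r ^ (β - 1) * r ^ (2 - β) := by gcongr
      _ = ε * r := by
        rw [mul_assoc, ← Real.rpow_add hr]
        have : β - 1 + (2 - β) = 1 := by ring
        rw [this, Real.rpow_one]
  obtain ⟨H', C, hC, hH', hres⟩ := hIT (fun r => ε * r) (fun _ => 0) Λ r₀ hΛ hr₀ hr₀ρ₁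
    (fun r hr hrr => ⟨by positivity, fun z hz hzr α => (hzn z α).trans
      (hflat r hr (hrr.trans_lt hr₀ρ) z hz (mem_closedBall.1 hzr))⟩)
    (by
      rw [hΛdef, mul_assoc, ← Real.rpow_add hr₀]
      have : β - 1 + (2 - β) = 1 := by ring
      rw [this, Real.rpow_one])
    (by
      rw [hΛdef, mul_assoc, ← Real.rpow_add hr₀]
      have : β - 1 + (2 - β - 1) = 0 := by ring
      rw [this, Real.rpow_zero, mul_one]
      exact hε1)
    (by
      intro r hr hrr H hH hHn z hz α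
      have hd : ∀ β, ((0 : Pol m) + H β).totalDegree ≤ 1 := fun β => by
        rw [zero_add]
        exact (hH β).1
      have h2 : fderiv ℝ (fderiv ℝ (ut τ x₀ (fun β => (0 : Pol m) + H β) α)) z = 0 :=
        ff_zero τ x₀ (hd α) z
      refine ⟨?_, ?_, ?_⟩
      · rw [Fo_zero τ ν x₀ hd α z, abs_zero]
        positivity
      · refine (ev_fderiv_le (τ := τ) hN hr hz (hd α)).trans ?_
        have h3 : nrm r ((0 : Pol m) + H α) ≤ 2 * C_A * ε * r := by
          rw [zero_add]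
          refine (hHn α).trans ?_
          have := hΛr r hr hrr
          calc C_A * (ε * r + Λ * r ^ (2 - β)) ≤ C_A * (ε * r + ε * r) := by gcongr
            _ = _ := by ring
        calc m * (((1 : ℕ) : ℝ) / r * nrm r ((0 : Pol m) + H α)) ≤
              m * (((1 : ℕ) : ℝ) / r * (2 * C_A * ε * r)) := by gcongr
          _ = m * (2 * C_A * ε) := by
            push_cast
            field_simp
          _ ≤ η := hε2
      · have h3 : 0 ≤ η / r := by positivity
        refine le_trans (le_of_eq ?_) h3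
        rw [h2, ContinuousLinearMap.opNorm_zero, mul_zero])
  -- the polynomials vanish
  obtain ⟨CU, ρU, hCU, hρU, hUL'⟩ := hUL hN N m U μ T π τ x₀ B θ Bd hW 1
  have hbd : ∀ ε' : ℝ, 0 < ε' → ∀ᶠ r : ℝ in 𝓝[>] 0, ∀ α, nrm r (H' α) ≤ CU * (2 * ε' * r) := by
    intro ε' hε'
    obtain ⟨ρ', hρ', hfl⟩ := hW.flat ε' hε'
    filter_upwards [StepP.small C (a := 1 - β) (by linarith) hε',
      Ioo_mem_nhdsGT (lt_min hρU (lt_min hρ' hr₀))] with r hr1 hr2 α
    have hr : 0 < r := hr2.1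
    have hrU : r < ρU := hr2.2.trans_le (min_le_left _ _)
    have hrρ' : r < ρ' := hr2.2.trans_le ((min_le_right _ _).trans (min_le_left _ _))
    have hrr₀ : r < r₀ := hr2.2.trans_le ((min_le_right _ _).trans (min_le_right _ _))
    refine hUL' r hr hrU (H' α) (2 * ε' * r) (hH' α).1 (by positivity) fun z hz hzr => ?_
    have h1 := (hres r hr hrr₀.le).1 z hz hzr α
    have h2 := (hzn z α).trans (hfl r hr hrρ' z hz (mem_closedBall.1 hzr))
    rw [hh_ut_add (fun _ => (0 : Pol m)) H' α z] at h1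
    have h3 : C * r ^ (2 - β) ≤ ε' * r := by
      have h4 : r ^ (2 - β) = r ^ (1 - β) * r := by
        nth_rewrite 3 [← Real.rpow_one r]
        rw [← Real.rpow_add hr]
        congr 1
        ring
      rw [h4, ← mul_assoc]
      exact mul_le_mul_of_nonneg_right hr1 hr.le
    have h5 := abs_sub_abs_le_abs_sub (ev (fun i => (τ i : E N)) x₀ (H' α) z)
      (hh ν x₀ (ut τ x₀ fun _ => (0 : Pol m)) α z)
    rw [abs_sub_comm] at h1
    linarith
  have hH0 : ∀ α, H' α = 0 := by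
    intro α
    ext s
    rw [MvPolynomial.coeff_zero]
    by_cases hs : 2 ≤ s.degree
    · exact coeff_high (hH' α).1 hs
    · have hs1 : s.degree ≤ 1 := by omega
      by_contra hne
      have hpos : 0 < |(H' α).coeff s| := abs_pos.2 hne
      obtain ⟨r, hr1, hr2⟩ := ((hbd (|(H' α).coeff s| / (4 * CU)) (by positivity)).and
        (Ioo_mem_nhdsGT (zero_lt_one' ℝ))).exists
      have hr : 0 < r := hr2.1
      have h1 := (hN.coeff m r (H' α) s hr.le).trans (hr1 α)
      have h2 : CU * (2 * (|(H' α).coeff s| / (4 * CU)) * r) = |(H' α).coeff s| / 2 * r := by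
        field_simp
        ring
      rw [h2] at h1
      have h3 : r ≤ r ^ s.degree := by
        have := pow_le_pow_of_le_one hr.le hr2.2.le hs1
        rwa [pow_one] at this
      have h4 : |(H' α).coeff s| * r ≤ |(H' α).coeff s| / 2 * r :=
        (mul_le_mul_of_nonneg_left h3 hpos.le).trans h1
      have h5 := le_of_mul_le_mul_right h4 hr
      linarith
  refine ⟨fun _ => 0, fun α => by simp, fun α s _ => by simp, ⟨0, fun α x _ => ?_⟩,
    C, r₀, hC, hr₀, fun r hr hrr z hz hzr α => ?_⟩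
  · have h1 : Fc (fun _ : Fin n => (0 : Pol m)) α x = 0 := by
      unfold Fc
      have h2 : hmat (0 : Pol m) x = 0 := by
        ext i j
        simp [hmat]
      rw [h2, mul_zero, Matrix.trace_zero]
    rw [h1]
    simp
  · have h1 := (hres r hr hrr.le).1 z hz hzr α
    have h2 : (fun β => (0 : Pol m) + H' β) = fun _ => 0 := by
      funext β
      rw [hH0 β, add_zero]
    rw [h2] at h1
    have h3 : ((1 : ℕ) : ℝ) + 1 - β = 2 - β := by
      push_cast
      ring
    rw [h3]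
    exact h1

end Pool.Agent.Helper68X
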