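import Mathlib

/-!
# Borel's lemma in a finite dimensional space, and Taylor's estimate
-/

set_option autoImplicit false

namespace Pool.Agent.Helper68X.BORa

open Filter Topology Metric
open scoped ContDiff

section taylor
variable {F : Type} [NormedAddCommGroup F] [NormedSpace ℝ F]

theorem bdd {G : Type} [NormedAddCommGroup G] [NormedSpace ℝ G] {R : F → G}
    (hR : Continuous R) (x₀ : F) : ∃ C ρ : ℝ, 0 ≤ C ∧ 0 < ρ ∧ ∀ z, dist z x₀ < ρ → ‖R z‖ ≤ C := by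
  have h1 : ∀ᶠ z in 𝓝 x₀, ‖R z‖ < ‖R x₀‖ + 1 :=
    (hR.norm.continuousAt (x := x₀)).eventually (gt_mem_nhds (by linarith))
  obtain ⟨ρ, hρ, h⟩ := Metric.eventually_nhds_iff.1 h1
  exact ⟨‖R x₀‖ + 1, ρ, by positivity, hρ, fun z hz => (h hz).le⟩

/-- the iterated derivatives of the derivative -/
theorem fd_zero {G : Type} [NormedAddCommGroup G] [NormedSpace ℝ G] {R : F → G} {x₀ : F} {K : ℕ}
    (h : ∀ k, k ≤ K + 1 → iteratedFDeriv ℝ k R x₀ = 0) (k : ℕ) (hk : k ≤ K) :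
    iteratedFDeriv ℝ k (fderiv ℝ R) x₀ = 0 := by
  rw [← norm_eq_zero, norm_iteratedFDeriv_fderiv, norm_eq_zero]
  exact h (k + 1) (by omega)

/-- Taylor's estimate -/
theorem taylor (x₀ : F) (K : ℕ) : ∀ (G : Type) [NormedAddCommGroup G] [NormedSpace ℝ G] (R : F → G),
    ContDiff ℝ ∞ R → (∀ k, k ≤ K → iteratedFDeriv ℝ k R x₀ = 0) →
    ∃ C ρ : ℝ, 0 ≤ C ∧ 0 < ρ ∧ ∀ z, dist z x₀ < ρ → ‖R z‖ ≤ C * dist z x₀ ^ (K + 1) := by
  -- the mean value inequality
  have mv : ∀ (G : Type) [NormedAddCommGroup G] [NormedSpace ℝ G] (R : F → G), ContDiff ℝ ∞ R →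
      iteratedFDeriv ℝ 0 R x₀ = 0 → ∀ (C ρ : ℝ) (k : ℕ), 0 ≤ C → 0 < ρ →
      (∀ z, dist z x₀ < ρ → ‖fderiv ℝ R z‖ ≤ C * dist z x₀ ^ k) →
      ∀ z, dist z x₀ < ρ → ‖R z‖ ≤ C * dist z x₀ ^ (k + 1) := by
    intro G _ _ R hR h0 C ρ k hC hρ h z hz
    have hR0 : R x₀ = 0 := by
      rw [← norm_eq_zero, ← norm_iteratedFDeriv_zero (𝕜 := ℝ), h0, norm_zero]
    have hd : Differentiable ℝ R := hR.differentiable (by simp)
    have hconv : Convex ℝ (closedBall x₀ (dist z x₀)) := convex_closedBall x₀ _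
    have h1 := hconv.norm_image_sub_le_of_norm_fderiv_le (𝕜 := ℝ) (f := R)
      (C := C * dist z x₀ ^ k) (fun y _ => hd y) (fun y hy => by
        rw [mem_closedBall] at hy
        refine (h y (hy.trans_lt hz)).trans ?_
        exact mul_le_mul_of_nonneg_left (pow_le_pow_left₀ dist_nonneg hy _) hC)
      (show x₀ ∈ closedBall x₀ (dist z x₀) from mem_closedBall_self dist_nonneg)
      (show z ∈ closedBall x₀ (dist z x₀) from mem_closedBall.2 le_rfl)
    rw [hR0, sub_zero, ← dist_eq_norm] at h1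
    refine h1.trans (le_of_eq ?_)
    ring
  induction K with
  | zero =>
    intro G _ _ R hR h
    obtain ⟨C, ρ, hC, hρ, h1⟩ := bdd (R := fderiv ℝ R) (hR.continuous_fderiv (by simp)) x₀
    refine ⟨C, ρ, hC, hρ, ?_⟩
    exact mv G R hR (h 0 le_rfl) C ρ 0 hC hρ fun z hz => by
      rw [pow_zero, mul_one]
      exact h1 z hz
  | succ K ih =>
    intro G _ _ R hR h
    obtain ⟨C, ρ, hC, hρ, h1⟩ := ih (F →L[ℝ] G) (fderiv ℝ R) (hR.fderiv_right (by simp))
      (fun k hk => fd_zero h k hk)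
    exact ⟨C, ρ, hC, hρ, mv G R hR (h 0 (by omega)) C ρ (K + 1) hC hρ h1⟩

/-- Taylor's estimate for a function and its first two derivatives -/
theorem taylor2 (x₀ : F) (K : ℕ) (R : F → ℝ) (hR : ContDiff ℝ ∞ R)
    (h : ∀ k, k ≤ K → iteratedFDeriv ℝ k R x₀ = 0) :
    ∃ C ρ : ℝ, 0 ≤ C ∧ 0 < ρ ∧ ∀ z, dist z x₀ < ρ → |R z| ≤ C * dist z x₀ ^ (K + 1) ∧
      ‖fderiv ℝ R z‖ ≤ C * dist z x₀ ^ K ∧
      ‖fderiv ℝ (fderiv ℝ R) z‖ ≤ C * dist z x₀ ^ (K - 1) := by
  have hR1 : ContDiff ℝ ∞ (fderiv ℝ R) := hR.fderiv_right (by simp)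
  have hR2 : ContDiff ℝ ∞ (fderiv ℝ (fderiv ℝ R)) := hR1.fderiv_right (by simp)
  obtain ⟨C0, ρ0, hC0, hρ0, h0⟩ := taylor x₀ K ℝ R hR h
  obtain ⟨C1, ρ1, hC1, hρ1, h1⟩ : ∃ C ρ : ℝ, 0 ≤ C ∧ 0 < ρ ∧ ∀ z, dist z x₀ < ρ →
      ‖fderiv ℝ R z‖ ≤ C * dist z x₀ ^ K := by
    rcases K with _ | K
    · obtain ⟨C, ρ, hC, hρ, h1⟩ := bdd hR1.continuous x₀
      exact ⟨C, ρ, hC, hρ, fun z hz => by rw [pow_zero, mul_one]; exact h1 z hz⟩
    · exact taylor x₀ K _ (fderiv ℝ R) hR1 fun k hk => fd_zero h k hk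
  obtain ⟨C2, ρ2, hC2, hρ2, h2⟩ : ∃ C ρ : ℝ, 0 ≤ C ∧ 0 < ρ ∧ ∀ z, dist z x₀ < ρ →
      ‖fderiv ℝ (fderiv ℝ R) z‖ ≤ C * dist z x₀ ^ (K - 1) := by
    rcases K with _ | _ | K
    · obtain ⟨C, ρ, hC, hρ, h1⟩ := bdd hR2.continuous x₀
      exact ⟨C, ρ, hC, hρ, fun z hz => by rw [Nat.zero_sub, pow_zero, mul_one]; exact h1 z hz⟩
    · obtain ⟨C, ρ, hC, hρ, h1⟩ := bdd hR2.continuous x₀
      exact ⟨C, ρ, hC, hρ, fun z hz => by
        rw [Nat.add_sub_cancel, pow_zero, mul_one]; exact h1 z hz⟩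
    · refine taylor x₀ K _ (fderiv ℝ (fderiv ℝ R)) hR2 ?_
      intro k hk
      exact fd_zero (K := K) (fun k hk => fd_zero (K := K + 1) h k hk) k hk
  refine ⟨max C0 (max C1 C2), min ρ0 (min ρ1 ρ2), le_max_of_le_left hC0,
    lt_min hρ0 (lt_min hρ1 hρ2), fun z hz => ⟨?_, ?_, ?_⟩⟩
  · refine (h0 z (hz.trans_le (min_le_left _ _))).trans ?_
    exact mul_le_mul_of_nonneg_right (le_max_left _ _) (by positivity)
  · refine (h1 z (hz.trans_le ((min_le_right _ _).trans (min_le_left _ _)))).trans ?_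
    exact mul_le_mul_of_nonneg_right ((le_max_left _ _).trans (le_max_right _ _)) (by positivity)
  · refine (h2 z (hz.trans_le ((min_le_right _ _).trans (min_le_right _ _)))).trans ?_
    exact mul_le_mul_of_nonneg_right ((le_max_right _ _).trans (le_max_right _ _)) (by positivity)

end taylor

section borel
variable {F : Type} [NormedAddCommGroup F] [NormedSpace ℝ F]

/-- scaling -/
theorem iter_scale {G : F → ℝ} (hG : ContDiff ℝ ∞ G) (c l : ℝ) (k : ℕ) (y : F) :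
    iteratedFDeriv ℝ k (fun y => c * G (l • y)) y =
      c • (iteratedFDeriv ℝ k G (l • y)).compContinuousLinearMap
        fun _ => l • ContinuousLinearMap.id ℝ F := by
  have h1 : (fun y => c * G (l • y)) = c • (G ∘ (l • ContinuousLinearMap.id ℝ F)) := by
    funext y
    simp
  have hk : (k : ℕ∞ω) ≤ ∞ := by exact_mod_cast le_top
  have h2 : ContDiff ℝ k (G ∘ (l • ContinuousLinearMap.id ℝ F)) :=
    (hG.of_le hk).comp (l • ContinuousLinearMap.id ℝ F).contDiff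
  rw [h1, iteratedFDeriv_const_smul_apply h2.contDiffAt,
    (l • ContinuousLinearMap.id ℝ F).iteratedFDeriv_comp_right (hG.of_le hk) y le_rfl]
  rfl

theorem iter_scale_norm {G : F → ℝ} (hG : ContDiff ℝ ∞ G) (c l : ℝ) (k : ℕ) (y : F) {M : ℝ}
    (hM : ∀ y, ‖iteratedFDeriv ℝ k G y‖ ≤ M) :
    ‖iteratedFDeriv ℝ k (fun y => c * G (l • y)) y‖ ≤ |c| * |l| ^ k * M := by
  rw [iter_scale hG, norm_smul, Real.norm_eq_abs, mul_assoc]
  refine mul_le_mul_of_nonneg_left ?_ (abs_nonneg _)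
  refine (ContinuousMultilinearMap.norm_compContinuousLinearMap_le _ _).trans ?_
  rw [mul_comm]
  have h1 : ‖l • ContinuousLinearMap.id ℝ F‖ ≤ |l| := by
    rw [norm_smul, Real.norm_eq_abs]
    exact mul_le_of_le_one_right (abs_nonneg _) ContinuousLinearMap.norm_id_le
  refine mul_le_mul ?_ (hM _) (norm_nonneg _) (by positivity)
  rw [Finset.prod_const, Finset.card_univ, Fintype.card_fin]
  exact pow_le_pow_left₀ (norm_nonneg _) h1 _

/-- the derivatives at `0` of a homogeneous function -/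
theorem iter_hom {q : F → ℝ} (hq : ContDiff ℝ ∞ q) {j : ℕ} (hh : ∀ (t : ℝ) y, q (t • y) = t ^ j * q y)
    {k : ℕ} (hk : k < j) : iteratedFDeriv ℝ k q 0 = 0 := by
  have h1 := iter_scale hq (1 / 2 ^ j) 2 k 0
  have h2 : (fun y => (1 / 2 ^ j : ℝ) * q ((2 : ℝ) • y)) = q := by
    funext y
    rw [hh]
    field_simp
  rw [h2, smul_zero] at h1
  ext v
  have h3 := congrArg (fun L => L v) h1
  simp only [ContinuousMultilinearMap.smul_apply,
    ContinuousMultilinearMap.compContinuousLinearMap_apply, ContinuousLinearMap.smul_apply,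
    ContinuousLinearMap.id_apply] at h3
  have h4 := (iteratedFDeriv ℝ k q 0).map_smul_univ (fun _ => (2 : ℝ)) v
  rw [h4, Finset.prod_const, Finset.card_univ, Fintype.card_fin, smul_smul, smul_eq_mul] at h3
  have h5 : (1 / 2 ^ j * 2 ^ k : ℝ) ≠ 1 := by
    intro he
    rw [div_mul_eq_mul_div, one_mul, div_eq_one_iff_eq (by positivity)] at he
    have h6 := pow_right_injective₀ (show (0:ℝ) < 2 by norm_num) (by norm_num) he
    omega
  have h6 : (1 - 1 / 2 ^ j * 2 ^ k : ℝ) * iteratedFDeriv ℝ k q 0 v = 0 := by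
    rw [sub_mul, one_mul, sub_eq_zero]
    exact h3
  rcases mul_eq_zero.1 h6 with h7 | h7
  · exact absurd (by linarith) h5
  · simpa using h7

/-- Borel's lemma -/
theorem borel [FiniteDimensional ℝ F] [HasContDiffBump F] (q : ℕ → F → ℝ)
    (hq : ∀ j, ContDiff ℝ ∞ (q j)) (hh : ∀ j (t : ℝ) y, q j (t • y) = t ^ j * q j y) :
    ∃ u : F → ℝ, ContDiff ℝ ∞ u ∧ ∀ K k : ℕ, k ≤ K →
      iteratedFDeriv ℝ k (fun y => u y - ∑ j ∈ Finset.range (K + 1), q j y) 0 = 0 := by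
  classical
  let χ : ContDiffBump (0 : F) := ⟨1, 2, one_pos, one_lt_two⟩
  have hχ : ContDiff ℝ ∞ (χ : F → ℝ) := χ.contDiff
  let G : ℕ → F → ℝ := fun j y => χ y * q j y
  have hG : ∀ j, ContDiff ℝ ∞ (G j) := fun j => hχ.mul (hq j)
  have hGs : ∀ j, HasCompactSupport (G j) := fun j => χ.hasCompactSupport.mul_right
  have hGb : ∀ j k, ∃ M : ℝ, ∀ y, ‖iteratedFDeriv ℝ k (G j) y‖ ≤ M := by
    intro j k
    exact ((hG j).continuous_iteratedFDeriv (by exact_mod_cast le_top)).bounded_above_of_compact_support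
      ((hGs j).iteratedFDeriv k)
  choose M hM using hGb
  have hM0 : ∀ j k, 0 ≤ M j k := fun j k => (norm_nonneg _).trans (hM j k 0)
  let l : ℕ → ℝ := fun j => 1 + 2 ^ j * ∑ k ∈ Finset.range j, M j k
  have hl1 : ∀ j, 1 ≤ l j := by
    intro j
    have : 0 ≤ 2 ^ j * ∑ k ∈ Finset.range j, M j k :=
      mul_nonneg (by positivity) (Finset.sum_nonneg fun k _ => hM0 j k)
    show 1 ≤ 1 + 2 ^ j * ∑ k ∈ Finset.range j, M j k
    linarith
  have hlM : ∀ j k, k < j → 2 ^ j * M j k ≤ l j := by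
    intro j k hk
    have h1 : M j k ≤ ∑ k ∈ Finset.range j, M j k :=
      Finset.single_le_sum (f := fun k => M j k) (fun k _ => hM0 j k) (Finset.mem_range.2 hk)
    have h2 := mul_le_mul_of_nonneg_left h1 (show (0:ℝ) ≤ 2 ^ j by positivity)
    show 2 ^ j * M j k ≤ 1 + 2 ^ j * ∑ k ∈ Finset.range j, M j k
    linarith
  let f : ℕ → F → ℝ := fun j y => (l j ^ j)⁻¹ * G j (l j • y)
  let v : ℕ → ℕ → ℝ := fun k j => if k < j then (1 / 2) ^ j else (l j ^ j)⁻¹ * l j ^ k * M j k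
  have hf : ∀ j, ContDiff ℝ ∞ (f j) := fun j =>
    contDiff_const.mul ((hG j).comp (contDiff_const.smul contDiff_id))
  have hv : ∀ k : ℕ, (k : ℕ∞) ≤ (⊤ : ℕ∞) → Summable (v k) := by
    intro k _
    have h1 : Summable fun j : ℕ => ((1 : ℝ) / 2) ^ j := summable_geometric_two
    have h2 : (fun j : ℕ => ((1 : ℝ) / 2) ^ j) =ᶠ[cofinite] v k := by
      rw [Nat.cofinite_eq_atTop]
      filter_upwards [eventually_gt_atTop k] with j hj
      exact (if_pos hj).symm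
    exact (summable_congr_cofinite h2).1 h1
  have hb : ∀ (k j : ℕ) (y : F), (k : ℕ∞) ≤ (⊤ : ℕ∞) → ‖iteratedFDeriv ℝ k (f j) y‖ ≤ v k j := by
    intro k j y _
    have h1 := iter_scale_norm (hG j) ((l j ^ j)⁻¹) (l j) k y (hM j k)
    have hlp : 0 < l j := lt_of_lt_of_le one_pos (hl1 j)
    rw [abs_of_nonneg (by positivity), abs_of_nonneg hlp.le] at h1
    refine h1.trans ?_
    show _ ≤ if k < j then (1 / 2 : ℝ) ^ j else (l j ^ j)⁻¹ * l j ^ k * M j k
    split_ifs with hkj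
    · -- `l ^ k / l ^ j * M ≤ M / l ≤ 2 ^ (-j)`
      have h2 := hlM j k hkj
      have h3 : l j ^ (k + 1) ≤ l j ^ j := pow_le_pow_right₀ (hl1 j) hkj
      have h4 : (l j ^ j)⁻¹ * l j ^ k * M j k ≤ M j k / l j := by
        rw [le_div_iff₀ hlp]
        have h5 : (l j ^ j)⁻¹ * l j ^ k * M j k * l j = (l j ^ j)⁻¹ * l j ^ (k + 1) * M j k := by
          ring
        rw [h5]
        refine mul_le_of_le_one_left (hM0 j k) ?_
        rw [inv_mul_le_iff₀ (by positivity), mul_one]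
        exact h3
      refine h4.trans ?_
      rw [div_le_iff₀ hlp, one_div, inv_pow]
      rw [← div_eq_inv_mul, le_div_iff₀ (by positivity)]
      linarith
    · exact le_rfl
  have hu : ContDiff ℝ ∞ (fun y => ∑' j, f j y) := contDiff_tsum hf hv hb
  refine ⟨fun y => ∑' j, f j y, hu, ?_⟩
  intro K k hk
  -- the derivatives of the terms
  have hf0 : ∀ j, f j =ᶠ[𝓝 0] q j := by
    intro j
    have hlp : 0 < l j := lt_of_lt_of_le one_pos (hl1 j)
    have h1 : ∀ᶠ y : F in 𝓝 0, l j • y ∈ closedBall (0 : F) 1 := by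
      have h2 : Tendsto (fun y : F => l j • y) (𝓝 0) (𝓝 0) := by
        have h3 : Continuous fun y : F => l j • y := continuous_const_smul _
        simpa using h3.tendsto 0
      exact h2.eventually (closedBall_mem_nhds 0 one_pos)
    filter_upwards [h1] with y hy
    show (l j ^ j)⁻¹ * (χ (l j • y) * q j (l j • y)) = q j y
    rw [χ.one_of_mem_closedBall hy, hh, one_mul, ← mul_assoc, inv_mul_cancel₀ (by positivity),
      one_mul]
  have hterm : ∀ j, iteratedFDeriv ℝ k (f j) 0 = iteratedFDeriv ℝ k (q j) 0 := fun j =>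
    ((hf0 j).iteratedFDeriv ℝ k).eq_of_nhds
  have hkt : (k : ℕ∞ω) ≤ ∞ := by exact_mod_cast le_top
  have hsum : ContDiff ℝ ∞ (fun y => ∑ j ∈ Finset.range (K + 1), q j y) :=
    ContDiff.sum fun j _ => hq j
  have e1 : iteratedFDeriv ℝ k (fun y => (∑' j, f j y) - ∑ j ∈ Finset.range (K + 1), q j y) 0 =
      iteratedFDeriv ℝ k (fun y => ∑' j, f j y) 0 -
        iteratedFDeriv ℝ k (fun y => ∑ j ∈ Finset.range (K + 1), q j y) 0 := by
    exact iteratedFDeriv_sub_apply (hu.of_le hkt).contDiffAt (hsum.of_le hkt).contDiffAt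
  have e2 : iteratedFDeriv ℝ k (fun y => ∑' j, f j y) 0 = ∑' j, iteratedFDeriv ℝ k (f j) 0 :=
    iteratedFDeriv_tsum_apply hf hv hb (by exact_mod_cast le_top) 0
  have e3 : iteratedFDeriv ℝ k (fun y => ∑ j ∈ Finset.range (K + 1), q j y) 0 =
      ∑ j ∈ Finset.range (K + 1), iteratedFDeriv ℝ k (q j) 0 := by
    have h1 := iteratedFDeriv_sum (𝕜 := ℝ) (i := k) (f := q) (u := Finset.range (K + 1))
      (fun j _ => (hq j).of_le hkt)
    rw [h1, Finset.sum_apply]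
  have e4 : ∑' j, iteratedFDeriv ℝ k (f j) 0 = ∑ j ∈ Finset.range (K + 1), iteratedFDeriv ℝ k (q j) 0 := by
    rw [tsum_congr hterm, tsum_eq_sum (s := Finset.range (K + 1))]
    intro j hj
    rw [Finset.mem_range, not_lt] at hj
    exact iter_hom (hq j) (hh j) (by omega)
  rw [e1, e2, e3, e4, sub_self]

end borel

end Pool.Agent.Helper68X.BORa
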