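import Pool.Agent.Helper68X.Stm5
import Pool.Agent.Helper68X.BORa

/-!
# Piece BOR of project JET: Borel's lemma
-/

set_option autoImplicit false

namespace Pool.Agent.Helper68X

open MeasureTheory Set Filter Topology Metric Pool.Agent.TH337.VF Pool.Agent.Helper68V
open scoped ENNReal RealInnerProductSpace ContDiff

theorem t_BOR : S_BOR := by
  intro N m π τ x₀ Q hQ
  -- the polynomials as functions on the whole space
  let q : ℕ → E N → ℝ := fun j y => MvPolynomial.eval (fun i => ⟪(τ i : E N), y⟫) (Q j)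
  have hqe : ∀ j y, q j y = ev (fun i => (τ i : E N)) 0 (Q j) y := by
    intro j y
    simp only [q, ev, sub_zero]
  have hq : ∀ j, ContDiff ℝ ∞ (q j) := by
    intro j
    have h := ev_cd (τ := τ) (x₀ := (0 : E N)) (Q j) ∞
    have e : q j = ev (fun i => (τ i : E N)) 0 (Q j) := funext (hqe j)
    rw [e]
    exact h
  have hh : ∀ j (t : ℝ) y, q j (t • y) = t ^ j * q j y := by
    intro j t y
    have h1 : (fun i => ⟪(τ i : E N), t • y⟫) = fun i => t * ⟪(τ i : E N), y⟫ := by
      funext i
      rw [real_inner_smul_right]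
    simp only [q]
    rw [h1, MvPolynomial.eval_eq', MvPolynomial.eval_eq', Finset.mul_sum]
    refine Finset.sum_congr rfl fun d hd => ?_
    have h2 : ∑ i, d i = j := by
      have h3 := hQ j (MvPolynomial.mem_support_iff.1 hd)
      have h4 : d.degree = j := by
        rw [Finsupp.degree_eq_weight_one]
        exact h3
      rw [← h4, Finsupp.degree_eq_sum]
    simp only [mul_pow]
    rw [Finset.prod_mul_distrib, Finset.prod_pow_eq_pow_sum, h2]
    ring
  obtain ⟨u₀, hu₀, hu⟩ := BORa.borel q hq hh
  let L : E N → E N := fun z => π.starProjection (z - x₀)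
  have hL : ContDiff ℝ ∞ L := π.starProjection.contDiff.comp (contDiff_id.sub contDiff_const)
  have hpp : ∀ w : E N, π.starProjection (π.starProjection w) = π.starProjection w := fun w =>
    Submodule.starProjection_eq_self_iff.2 (Submodule.starProjection_apply_mem π w)
  have hτ : ∀ i (w : E N), ⟪(τ i : E N), π.starProjection w⟫ = ⟪(τ i : E N), w⟫ := by
    intro i w
    rw [← Submodule.inner_starProjection_left_eq_right,
      Submodule.starProjection_eq_self_iff.2 (τ i).2]
  refine ⟨fun z => u₀ (L z), hu₀.comp hL, ?_, ?_⟩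
  · intro z
    show u₀ (π.starProjection (z - x₀)) =
      u₀ (π.starProjection (x₀ + π.starProjection (z - x₀) - x₀))
    rw [add_sub_cancel_left, hpp]
  · intro K
    let R₀ : E N → ℝ := fun y => u₀ y - ∑ j ∈ Finset.range (K + 1), q j y
    have hR₀ : ContDiff ℝ ∞ R₀ := hu₀.sub (ContDiff.sum fun j _ => hq j)
    let P := ev (fun i => (τ i : E N)) x₀ (∑ j ∈ Finset.range (K + 1), Q j)
    have hP : ContDiff ℝ ∞ P := ev_cd _ _
    have hR : (fun z => u₀ (L z) - P z) = fun z => (R₀ ∘ π.starProjection) (z - x₀) := by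
      funext z
      show u₀ (L z) - P z = u₀ (π.starProjection (z - x₀)) -
        ∑ j ∈ Finset.range (K + 1), q j (π.starProjection (z - x₀))
      congr 1
      show MvPolynomial.eval (fun i => ⟪(τ i : E N), z - x₀⟫) (∑ j ∈ Finset.range (K + 1), Q j) = _
      rw [map_sum]
      refine Finset.sum_congr rfl fun j _ => ?_
      simp only [q, hτ]
    have hRc : ContDiff ℝ ∞ (fun z => u₀ (L z) - P z) := (hu₀.comp hL).sub hP
    have hzero : ∀ k, k ≤ K → iteratedFDeriv ℝ k (fun z => u₀ (L z) - P z) x₀ = 0 := by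
      intro k hk
      have hkt : (k : ℕ∞ω) ≤ (∞ : ℕ∞ω) := by exact_mod_cast le_top
      rw [hR, iteratedFDeriv_comp_sub,
        π.starProjection.iteratedFDeriv_comp_right (hR₀.of_le hkt) _ le_rfl, sub_self, map_zero,
        hu K k hk]
      rfl
    obtain ⟨C, ρ, hC, hρ, h⟩ := BORa.taylor2 x₀ K _ hRc hzero
    refine ⟨C, ρ, hC, hρ, fun z hz => ?_⟩
    obtain ⟨h1, h2, h3⟩ := h z hz
    have hud : Differentiable ℝ (fun z => u₀ (L z)) := (hu₀.comp hL).differentiable (by simp)
    have hPd : Differentiable ℝ P := hP.differentiable (by simp)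
    have e1 : fderiv ℝ (fun z => u₀ (L z) - P z) =
        fun z => fderiv ℝ (fun z => u₀ (L z)) z - fderiv ℝ P z := by
      funext z
      exact fderiv_fun_sub (hud z) (hPd z)
    have hud2 : Differentiable ℝ (fderiv ℝ (fun z => u₀ (L z))) :=
      ((hu₀.comp hL).fderiv_right (m := ∞) (by simp)).differentiable (by simp)
    have hPd2 : Differentiable ℝ (fderiv ℝ P) :=
      (hP.fderiv_right (m := ∞) (by simp)).differentiable (by simp)
    have e2 : fderiv ℝ (fderiv ℝ (fun z => u₀ (L z) - P z)) z =
        fderiv ℝ (fderiv ℝ (fun z => u₀ (L z))) z - fderiv ℝ (fderiv ℝ P) z := by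
      rw [e1]
      exact fderiv_fun_sub (hud2 z) (hPd2 z)
    refine ⟨h1, ?_, ?_⟩
    · rw [e1] at h2
      exact h2
    · rw [e2] at h3
      exact h3

end Pool.Agent.Helper68X
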