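import Pool.Agent.Helper68X.Stm4

/-!
Project JET, piece CROSS: the minimal surface operator of a sum.
-/

set_option autoImplicit false

namespace Pool.Agent.Helper68X

open MeasureTheory Set Filter Topology Metric Pool.Agent.TH337.VF Pool.Agent.Helper68V
open scoped ENNReal RealInnerProductSpace ContDiff

variable {N n : ℕ} {π : Submodule ℝ (E N)}

namespace CrossP

lemma norm_Ao_le (ν : OrthonormalBasis (Fin n) ℝ πᗮ) {v : Fin n → E N → ℝ} {z : E N} {b : ℝ}
    (h : ∀ β, ‖fderiv ℝ (v β) z‖ ≤ b) : ‖Ao ν v z‖ ≤ n * b := by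
  unfold Ao
  refine (norm_sum_le _ _).trans ?_
  calc ∑ α, ‖(fderiv ℝ (v α) z).smulRight (ν α : E N)‖ ≤ ∑ _α : Fin n, b := by
        refine Finset.sum_le_sum fun α _ => ?_
        rw [ContinuousLinearMap.norm_smulRight_apply]
        have h1 : ‖(ν α : E N)‖ = 1 := ν.orthonormal.1 α
        rw [h1, mul_one]
        exact h α
    _ = n * b := by
      rw [Finset.sum_const, Finset.card_univ, Fintype.card_fin, nsmul_eq_mul]

lemma Ao_add (ν : OrthonormalBasis (Fin n) ℝ πᗮ) {u v : Fin n → E N → ℝ} (hu : GF π u)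
    (hv : GF π v) (z : E N) : Ao ν (fun β y => u β y + v β y) z = Ao ν u z + Ao ν v z := by
  unfold Ao
  rw [← Finset.sum_add_distrib]
  refine Finset.sum_congr rfl fun α _ => ?_
  have h1 : fderiv ℝ (fun y => u α y + v α y) z = fderiv ℝ (u α) z + fderiv ℝ (v α) z :=
    fderiv_add ((hu.cd α).differentiable two_ne_zero z) ((hv.cd α).differentiable two_ne_zero z)
  rw [h1]
  ext w
  simp only [ContinuousLinearMap.smulRight_apply, add_apply, add_smul]

lemma GF_add {u v : Fin n → E N → ℝ} (hu : GF π u) (hv : GF π v) :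
    GF π fun β y => u β y + v β y where
  cd α := (hu.cd α).add (hv.cd α)
  dep α z w := by
    have h1 : fderiv ℝ (fun y => u α y + v α y) z = fderiv ℝ (u α) z + fderiv ℝ (v α) z :=
      fderiv_add ((hu.cd α).differentiable two_ne_zero z) ((hv.cd α).differentiable two_ne_zero z)
    rw [h1, add_apply, add_apply, hu.dep α z w, hv.dep α z w]

/-- laplacians for two graph planes -/
lemma lap_diff {A B : E N →L[ℝ] E N} (hA : Vert π A) (hB : Vert π B) (f : E N → ℝ) (z : E N)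
    {c d : ℝ} (hc : ‖fderiv ℝ (fderiv ℝ f) z‖ ≤ c) (hd : ‖A - B‖ ≤ d) :
    |lap (gp π A) f z - lap (gp π B) f z| ≤ N * c * (2 * N * d) := by
  have hd0 : 0 ≤ d := (norm_nonneg _).trans hd
  have hc0 : 0 ≤ c := (norm_nonneg (fderiv ℝ (fderiv ℝ f) z)).trans hc
  have h1 := trace_diff (gp π A) (gp π B) (by rw [finrank_gp hA, finrank_gp hB])
    (fderiv ℝ (fderiv ℝ f) z)
  refine h1.trans ?_
  have h2 : Real.sqrt (2 * defect (gp π A) (gp π B)) ≤ 2 * N * d := by
    rw [Real.sqrt_le_left (by positivity)]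
    have h3 := defect_gp (B := B) hA
    have h4 : ‖A - B‖ ^ 2 ≤ d ^ 2 := pow_le_pow_left₀ (norm_nonneg _) hd 2
    have h5 : (N : ℝ) * ‖A - B‖ ^ 2 ≤ N * d ^ 2 := mul_le_mul_of_nonneg_left h4 (by positivity)
    have h6 : (N : ℝ) ≤ (N : ℝ) ^ 2 := by
      rcases Nat.eq_zero_or_pos N with h | h
      · rw [h]
        norm_num
      · have h' : (1 : ℝ) ≤ N := by exact_mod_cast h
        nlinarith
    have h7 : (N : ℝ) * d ^ 2 ≤ (N : ℝ) ^ 2 * d ^ 2 := mul_le_mul_of_nonneg_right h6 (by positivity)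
    have h8 : 0 ≤ (N : ℝ) ^ 2 * d ^ 2 := by positivity
    have h9 : (2 * (N : ℝ) * d) ^ 2 = 4 * ((N : ℝ) ^ 2 * d ^ 2) := by ring
    rw [h9]
    linarith
  gcongr

end CrossP

open CrossP in
/-- **CROSS** -/
theorem t_CROSS : S_CROSS := by
  intro N n π ν u v z a₁ a₂ b₁ b₂ hu hv ha1 ha2 hb1 hb2 α
  have hA := Ao_vert (ν := ν) hu z
  have hB := Ao_vert (ν := ν) hv z
  have hAB := Ao_vert (ν := ν) (GF_add hu hv) z
  have h0 : Vert π (0 : E N →L[ℝ] E N) :=
    ⟨fun _ => rfl, fun _ => by rw [zero_apply]; exact Submodule.zero_mem _⟩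
  have e1 : Fo ν (fun β y => u β y + v β y) α z =
      lap (gp π (Ao ν (fun β y => u β y + v β y) z)) (u α) z +
      lap (gp π (Ao ν (fun β y => u β y + v β y) z)) (v α) z :=
    lap_add (hu.cd α) (hv.cd α) _ z
  have nA := norm_Ao_le ν ha1
  have nB := norm_Ao_le ν hb1
  have h1 := lap_diff hAB hA (u α) z (ha2 α) (d := n * b₁) (by
    rw [Ao_add ν hu hv, add_sub_cancel_left]
    exact nB)
  have h2 := lap_diff hAB h0 (v α) z (hb2 α) (d := n * (a₁ + b₁)) (by
    rw [Ao_add ν hu hv, sub_zero]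
    refine (norm_add_le _ _).trans ?_
    rw [mul_add]
    exact add_le_add nA nB)
  rw [finrank_zero_gp] at h2
  rw [e1]
  unfold Fo
  have e2 : ∀ p q r s : ℝ, p + q - r - s = (p - r) + (q - s) := fun p q r s => by ring
  rw [e2]
  refine (abs_add_le _ _).trans ((add_le_add h1 h2).trans (le_of_eq ?_))
  ring

end Pool.Agent.Helper68X
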