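import Pool.Agent.Helper68X.WM

/-!
Comparison of a stationary varifold with a graph: pointwise identities.
-/

set_option autoImplicit false

namespace Pool.Agent.Helper68X

open MeasureTheory Set Filter Topology Metric Pool.Agent.TH337.VF Pool.Agent.Helper68V
open scoped ENNReal RealInnerProductSpace ContDiff

variable {N m n : ℕ} {π : Submodule ℝ (E N)}

/-- the components of the vertical distance from the graph -/
noncomputable def hh (ν : OrthonormalBasis (Fin n) ℝ πᗮ) (x₀ : E N) (u : Fin n → E N → ℝ)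
    (α : Fin n) (z : E N) : ℝ := ⟪(ν α : E N), z - x₀⟫ - u α z

/-- the differential of the graph function -/
noncomputable def Ao (ν : OrthonormalBasis (Fin n) ℝ πᗮ) (u : Fin n → E N → ℝ) (z : E N) :
    E N →L[ℝ] E N := ∑ α, (fderiv ℝ (u α) z).smulRight (ν α : E N)

/-- the minimal surface operator -/
noncomputable def Fo (ν : OrthonormalBasis (Fin n) ℝ πᗮ) (u : Fin n → E N → ℝ) (α : Fin n)
    (z : E N) : ℝ := lap (gp π (Ao ν u z)) (u α) z

/-- the energy density -/
noncomputable def JJ (S : Submodule ℝ (E N)) (h : Fin n → E N → ℝ) (z : E N) : ℝ :=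
  ∑ α, ‖S.starProjection (grd (h α) z)‖ ^ 2

/-- functions of the horizontal variable -/
structure GF (π : Submodule ℝ (E N)) (u : Fin n → E N → ℝ) : Prop where
  cd : ∀ α, ContDiff ℝ 2 (u α)
  dep : ∀ α z v, fderiv ℝ (u α) z v = fderiv ℝ (u α) z (π.starProjection v)

variable {ν : OrthonormalBasis (Fin n) ℝ πᗮ} {x₀ : E N} {u : Fin n → E N → ℝ}

lemma hh_cd (hu : GF π u) (α : Fin n) : ContDiff ℝ 2 (hh ν x₀ u α) :=
  (contDiff_const.inner ℝ (contDiff_id.sub contDiff_const)).sub (hu.cd α)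

lemma hh_fd (hu : GF π u) (α : Fin n) (z : E N) :
    fderiv ℝ (hh ν x₀ u α) z = innerSL ℝ (ν α : E N) - fderiv ℝ (u α) z := by
  have h1 : HasFDerivAt (fun z : E N => ⟪(ν α : E N), z - x₀⟫) (innerSL ℝ (ν α : E N)) z := by
    have h2 := ((innerSL ℝ (ν α : E N)).hasFDerivAt (x := z)).sub_const ⟪(ν α : E N), x₀⟫
    have e : (fun z : E N => ⟪(ν α : E N), z - x₀⟫) =
        fun z => (innerSL ℝ (ν α : E N)) z - ⟪(ν α : E N), x₀⟫ := by
      funext z
      rw [inner_sub_right]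
      rfl
    rw [e]
    exact h2
  exact (h1.sub ((hu.cd α).differentiable two_ne_zero z).hasFDerivAt).fderiv

lemma hh_ff (hu : GF π u) (α : Fin n) (z : E N) :
    fderiv ℝ (fderiv ℝ (hh ν x₀ u α)) z = -fderiv ℝ (fderiv ℝ (u α)) z := by
  have e : fderiv ℝ (hh ν x₀ u α) = fun z => innerSL ℝ (ν α : E N) - fderiv ℝ (u α) z := by
    funext z
    exact hh_fd hu α z
  rw [e, fderiv_const_sub]

lemma hh_lap (hu : GF π u) (α : Fin n) (S : Submodule ℝ (E N)) (z : E N) :
    lap S (hh ν x₀ u α) z = -lap S (u α) z := by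
  unfold lap
  rw [hh_ff hu, ← Finset.sum_neg_distrib]
  rfl

lemma Ao_apply (z v : E N) : Ao ν u z v = ∑ α, fderiv ℝ (u α) z v • (ν α : E N) := by
  unfold Ao
  rw [sum_apply]
  rfl

lemma Ao_vert (hu : GF π u) (z : E N) : Vert π (Ao ν u z) where
  dep v := by
    rw [Ao_apply, Ao_apply]
    exact Finset.sum_congr rfl fun α _ => by rw [hu.dep α z v]
  val v := by
    rw [Ao_apply]
    exact Submodule.sum_mem _ fun α _ => Submodule.smul_mem _ _ (ν α).2

/-- norm of a combination of `ν` -/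
lemma norm_comb (c : Fin n → ℝ) : ‖∑ α, c α • (ν α : E N)‖ ^ 2 = ∑ α, c α ^ 2 := by
  have h1 : ∑ α, c α • (ν α : E N) = ((∑ α, c α • ν α : πᗮ) : E N) := by
    rw [Submodule.coe_sum]
    rfl
  have h2 : ‖((∑ α, c α • ν α : πᗮ) : E N)‖ = ‖(∑ α, c α • ν α : πᗮ)‖ := rfl
  rw [h1, h2, ← real_inner_self_eq_norm_sq, sum_inner]
  refine Finset.sum_congr rfl fun α _ => ?_
  rw [real_inner_smul_left, inner_sum, Finset.sum_eq_single α]
  · rw [real_inner_smul_right, real_inner_self_eq_norm_sq, ν.orthonormal.1 α]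
    ring
  · intro β _ hβ
    rw [real_inner_smul_right, ν.orthonormal.2 (Ne.symm hβ), mul_zero]
  · intro h
    exact absurd (Finset.mem_univ α) h

/-- the vertical projection in coordinates -/
lemma perp_eq (v : E N) : πᗮ.starProjection v = ∑ α, ⟪(ν α : E N), v⟫ • (ν α : E N) := by
  have h1 : (πᗮ.orthogonalProjectionOnto v) = ∑ α, ⟪ν α, πᗮ.orthogonalProjectionOnto v⟫ • ν α :=
    (ν.sum_repr' _).symm
  have h2 : πᗮ.starProjection v = (πᗮ.orthogonalProjectionOnto v : E N) := rfl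
  rw [h2, h1, Submodule.coe_sum]
  refine Finset.sum_congr rfl fun α _ => ?_
  rw [Submodule.coe_smul]
  congr 1
  rw [Submodule.coe_inner, ← h2, ← proj_symm, pqo (ν α).2]

lemma sum_sq_proj (S : Submodule ℝ (E N)) (f : E N → ℝ) (z : E N) :
    ∑ i, (fderiv ℝ f z (S.starProjection (bs N i))) ^ 2 = ‖S.starProjection (grd f z)‖ ^ 2 := by
  rw [← (bs N).sum_sq_norm_inner_right (S.starProjection (grd f z))]
  refine Finset.sum_congr rfl fun i _ => ?_
  rw [← inner_grd, ← proj_symm, Real.norm_eq_abs, sq_abs]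
  rw [proj_symm, real_inner_comm, proj_symm, real_inner_comm]

lemma JJ_eq (S : Submodule ℝ (E N)) (h : Fin n → E N → ℝ) (z : E N) :
    JJ S h z = ∑ i, ∑ α, (fderiv ℝ (h α) z (S.starProjection (bs N i))) ^ 2 := by
  rw [Finset.sum_comm]
  unfold JJ
  exact Finset.sum_congr rfl fun α _ => (sum_sq_proj S (h α) z).symm

lemma JJ_nonneg (S : Submodule ℝ (E N)) (h : Fin n → E N → ℝ) (z : E N) : 0 ≤ JJ S h z :=
  Finset.sum_nonneg fun _ _ => by positivity

/-- (P0) -/
lemma defect_JJ (hu : GF π u) (S : Submodule ℝ (E N)) (z : E N) :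
    defect S (gp π (Ao ν u z)) ≤ JJ S (hh ν x₀ u) z := by
  rw [JJ_eq]
  unfold defect
  refine Finset.sum_le_sum fun i _ => ?_
  set v := S.starProjection (bs N i) with hv
  refine (pow_le_pow_left₀ (norm_nonneg _) (gp_ge (Ao_vert hu z) v) 2).trans (le_of_eq ?_)
  rw [perp_eq (ν := ν), Ao_apply, ← Finset.sum_sub_distrib,
    Finset.sum_congr rfl fun α _ => (sub_smul ⟪(ν α : E N), v⟫ (fderiv ℝ (u α) z v) (ν α : E N)).symm,
    norm_comb]
  refine Finset.sum_congr rfl fun α _ => ?_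
  rw [hh_fd hu]
  rfl

/-- (P1) -/
lemma lap_hh (hu : GF π u) {S : Submodule ℝ (E N)} (hd : Module.finrank ℝ S = Module.finrank ℝ π)
    (α : Fin n) (z : E N) : |lap S (hh ν x₀ u α) z + Fo ν u α z| ≤
      N * ‖fderiv ℝ (fderiv ℝ (u α)) z‖ * Real.sqrt (2 * JJ S (hh ν x₀ u) z) := by
  have h1 := trace_diff S (gp π (Ao ν u z)) (by rw [hd, finrank_gp (Ao_vert hu z)])
    (fderiv ℝ (fderiv ℝ (u α)) z)
  rw [hh_lap hu]
  have e : -lap S (u α) z + Fo ν u α z = -(lap S (u α) z - Fo ν u α z) := by ring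
  rw [e, abs_neg]
  refine h1.trans ?_
  have := defect_JJ (ν := ν) (x₀ := x₀) hu S z
  gcongr

lemma finrank_zero_gp : gp π (0 : E N →L[ℝ] E N) = π := by
  ext v
  rw [mem_gp]
  constructor
  · rintro ⟨a, ha, rfl⟩
    simpa using ha
  · intro h
    exact ⟨v, h, by simp⟩

/-- (P2) -/
lemma lap_pi (hu : GF π u) {S : Submodule ℝ (E N)} (hd : Module.finrank ℝ S = Module.finrank ℝ π)
    (ζ : E N → ℝ) (z : E N) {η : ℝ} (hη0 : 0 ≤ η) (hη : ∀ α, ‖fderiv ℝ (u α) z‖ ≤ η) :
    |lap S ζ z - lap π ζ z| ≤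
      N * ‖fderiv ℝ (fderiv ℝ ζ) z‖ * (2 * Real.sqrt (JJ S (hh ν x₀ u) z) + 2 * (n * N) * η) := by
  refine (trace_diff S π hd (fderiv ℝ (fderiv ℝ ζ) z)).trans ?_
  apply mul_le_mul_of_nonneg_left _ (by positivity)
  have hJ := JJ_nonneg S (hh ν x₀ u) z
  have h1 : defect S π ≤ 2 * JJ S (hh ν x₀ u) z + 2 * (n * N) * η ^ 2 := by
    rw [JJ_eq]
    unfold defect
    have h2 : ∀ i : Fin N, ‖S.starProjection (bs N i) -
        π.starProjection (S.starProjection (bs N i))‖ ^ 2 ≤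
        2 * ∑ α, (fderiv ℝ (hh ν x₀ u α) z (S.starProjection (bs N i))) ^ 2 + 2 * n * η ^ 2 := by
      intro i
      set v := S.starProjection (bs N i) with hv
      have h3 : v - π.starProjection v = πᗮ.starProjection v := by
        nth_rewrite 1 [split (π := π) v]
        abel
      have hv1 : ‖v‖ ≤ 1 := norm_proj_bs S i
      rw [h3, perp_eq (ν := ν), norm_comb]
      have h4 : ∀ α : Fin n, ⟪(ν α : E N), v⟫ ^ 2 ≤
          2 * (fderiv ℝ (hh ν x₀ u α) z v) ^ 2 + 2 * η ^ 2 := by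
        intro α
        have h5 : fderiv ℝ (hh ν x₀ u α) z v = ⟪(ν α : E N), v⟫ - fderiv ℝ (u α) z v := by
          rw [hh_fd hu]
          rfl
        have h6 : |fderiv ℝ (u α) z v| ≤ η := by
          refine ((fderiv ℝ (u α) z).le_opNorm v).trans ?_
          calc ‖fderiv ℝ (u α) z‖ * ‖v‖ ≤ η * 1 :=
                mul_le_mul (hη α) hv1 (norm_nonneg _) hη0
            _ = η := mul_one _
        have h7 : (fderiv ℝ (u α) z v) ^ 2 ≤ η ^ 2 := by
          rw [← sq_abs]
          exact pow_le_pow_left₀ (abs_nonneg _) h6 2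
        rw [h5]
        nlinarith [sq_nonneg (⟪(ν α : E N), v⟫ - 2 * fderiv ℝ (u α) z v)]
      calc ∑ α, ⟪(ν α : E N), v⟫ ^ 2 ≤
            ∑ α : Fin n, (2 * (fderiv ℝ (hh ν x₀ u α) z v) ^ 2 + 2 * η ^ 2) :=
            Finset.sum_le_sum fun α _ => h4 α
        _ = _ := by
          rw [Finset.sum_add_distrib, ← Finset.mul_sum, Finset.sum_const, Finset.card_univ,
            Fintype.card_fin, nsmul_eq_mul]
          ring
    refine (Finset.sum_le_sum fun i _ => h2 i).trans (le_of_eq ?_)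
    rw [Finset.sum_add_distrib, ← Finset.mul_sum, Finset.sum_const, Finset.card_univ,
      Fintype.card_fin, nsmul_eq_mul]
    ring
  rw [Real.sqrt_le_left (by positivity)]
  have h8 : Real.sqrt (JJ S (hh ν x₀ u) z) ^ 2 = JJ S (hh ν x₀ u) z := Real.sq_sqrt hJ
  have h9 := Real.sqrt_nonneg (JJ S (hh ν x₀ u) z)
  have hnN : ((n : ℝ) * N) ≤ (n * N) ^ 2 := by
    rcases Nat.eq_zero_or_pos (n * N) with h | h
    · have : (n : ℝ) * N = 0 := by exact_mod_cast h
      rw [this]
      norm_num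
    · have h' : (1 : ℝ) ≤ n * N := by exact_mod_cast h
      nlinarith
  have h10 : 0 ≤ Real.sqrt (JJ S (hh ν x₀ u) z) * ((n * N) * η) := by positivity
  have h11 : (n : ℝ) * N * η ^ 2 ≤ (n * N) ^ 2 * η ^ 2 :=
    mul_le_mul_of_nonneg_right hnN (by positivity)
  nlinarith

lemma lap_sum {ι : Type*} (s : Finset ι) {f : ι → E N → ℝ} (hf : ∀ i ∈ s, ContDiff ℝ 2 (f i))
    (S : Submodule ℝ (E N)) (z : E N) :
    lap S (fun y => ∑ i ∈ s, f i y) z = ∑ i ∈ s, lap S (f i) z := by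
  classical
  induction s using Finset.induction_on with
  | empty =>
    simp only [Finset.sum_empty]
    unfold lap
    have h2 : fderiv ℝ (fun _ : E N => (0 : ℝ)) = fun _ => 0 := by
      funext y
      simp
    rw [h2]
    simp
  | insert a s ha ih =>
    rw [Finset.sum_insert ha]
    have e : (fun y => ∑ i ∈ insert a s, f i y) = fun y => f a y + ∑ i ∈ s, f i y := by
      funext y
      rw [Finset.sum_insert ha]
    rw [e, lap_add (hf a (Finset.mem_insert_self _ _))
      (ContDiff.sum fun i hi => hf i (Finset.mem_insert_of_mem hi)),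
      ih fun i hi => hf i (Finset.mem_insert_of_mem hi)]

lemma lap_smul {f : E N → ℝ} (hf : ContDiff ℝ 2 f) (c : ℝ) (S : Submodule ℝ (E N)) (z : E N) :
    lap S (fun y => c * f y) z = c * lap S f z := by
  have h := lap_mul (q := fun _ => c) contDiff_const hf S z
  rw [h]
  have h1 : lap S (fun _ : E N => c) z = 0 := by
    unfold lap
    have h2 : fderiv ℝ (fun _ : E N => c) = fun _ => 0 := by
      funext y
      simp
    rw [h2]
    simp
  have h2 : grd (fun _ : E N => c) z = 0 := by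
    unfold grd
    simp
  rw [h1, h2]
  simp

lemma lap_const (c : ℝ) (S : Submodule ℝ (E N)) (z : E N) : lap S (fun _ : E N => c) z = 0 := by
  unfold lap
  have h2 : fderiv ℝ (fun _ : E N => c) = fun _ => 0 := by
    funext y
    simp
  rw [h2]
  simp

/-- (P3) -/
lemma lap_sqs {h : Fin n → E N → ℝ} (hh' : ∀ α, ContDiff ℝ 2 (h α)) (S : Submodule ℝ (E N)) (z : E N) :
    lap S (fun y => ∑ α, h α y * h α y) z = 2 * JJ S h z + 2 * ∑ α, h α z * lap S (h α) z := by
  rw [lap_sum Finset.univ (fun α _ => (hh' α).mul (hh' α))]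
  unfold JJ
  rw [Finset.mul_sum, Finset.mul_sum, ← Finset.sum_add_distrib]
  refine Finset.sum_congr rfl fun α _ => ?_
  rw [lap_mul (hh' α) (hh' α), proj_sq, inner_grd]
  ring

lemma abs_lap_le (S : Submodule ℝ (E N)) (f : E N → ℝ) (z : E N) :
    |lap S f z| ≤ N * ‖fderiv ℝ (fderiv ℝ f) z‖ := by
  unfold lap
  refine (Finset.abs_sum_le_sum_abs _ _).trans ?_
  calc ∑ i, |fderiv ℝ (fderiv ℝ f) z (bs N i) (S.starProjection (bs N i))|
      ≤ ∑ _i : Fin N, ‖fderiv ℝ (fderiv ℝ f) z‖ := by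
        refine Finset.sum_le_sum fun i _ => ?_
        refine ((fderiv ℝ (fderiv ℝ f) z (bs N i)).le_opNorm _).trans ?_
        have h1 := (fderiv ℝ (fderiv ℝ f) z).le_opNorm (bs N i)
        rw [norm_bs, mul_one] at h1
        have h2 := norm_proj_bs S i
        calc ‖fderiv ℝ (fderiv ℝ f) z (bs N i)‖ * ‖S.starProjection (bs N i)‖
            ≤ ‖fderiv ℝ (fderiv ℝ f) z‖ * 1 :=
              mul_le_mul h1 h2 (norm_nonneg _) (by positivity)
          _ = _ := mul_one _
    _ = _ := by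
      rw [Finset.sum_const, Finset.card_univ, Fintype.card_fin, nsmul_eq_mul]

end Pool.Agent.Helper68X
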