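import Pool.Agent.Helper68X.Dfn2
import Pool.Agent.Helper68V.Pub

/-!
The passage from the definitions of `Dfn` and `Dfn2` to those of `Helper68V/Pub`.
-/

namespace Pool.Agent.Helper68X.Conv

open MeasureTheory Set Filter Topology Metric Pool.Agent.Helper68X.Dfn
open scoped ENNReal

variable {N m : ℕ} {U : Set (EuclideanSpace ℝ (Fin N))} {μ : Measure (EuclideanSpace ℝ (Fin N))}
  {T : EuclideanSpace ℝ (Fin N) → Submodule ℝ (EuclideanSpace ℝ (Fin N))}
  {M : Set (EuclideanSpace ℝ (Fin N))} {x₀ : EuclideanSpace ℝ (Fin N)}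
  {π : Submodule ℝ (EuclideanSpace ℝ (Fin N))}
  {u : EuclideanSpace ℝ (Fin N) → EuclideanSpace ℝ (Fin N)} {r : ℝ}

theorem stat (hV : IsStationaryVarifold m U μ T) :
    Pool.Agent.Helper68V.Pub.IsStationaryVarifold m U μ T :=
  ⟨hV.finite_compact, hV.measurable_plane, hV.dim_plane, hV.stationary⟩

theorem graphAt (h : IsMinimalGraphAt m M x₀ π u r) :
    Pool.Agent.Helper68V.Pub.IsMinimalGraphAt m M x₀ π u r :=
  ⟨h.pos, h.dim, h.function_on_plane, h.vertical, h.smooth, h.graph, h.minimal⟩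

theorem sub (h : IsMinimalSubmanifold m U M) :
    Pool.Agent.Helper68V.Pub.IsMinimalSubmanifold m U M := by
  refine ⟨h.subset, h.closed, fun x hx => ?_⟩
  obtain ⟨π, u, r, hG⟩ := h.graph x hx
  exact ⟨π, u, r, graphAt hG⟩

theorem contact {k : ℕ} (h : Pool.Agent.Helper68V.Pub.Contact m k μ T M x₀) :
    Contact m k μ T M x₀ :=
  ⟨h.1, fun π u r₀ hG => h.2 π u r₀ (graphAt hG)⟩

end Pool.Agent.Helper68X.Conv
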