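import Mathlib

/-!
Stationary varifolds, flat tangent cones and order of contact: the definitions of the result
`InfiniteOrderContact` for MP_8daebb_an. `E` is a Euclidean space.
-/

namespace Pool.Agent.Helper68X.Dfn

open MeasureTheory Set Filter Topology Metric
open scoped ENNReal ContDiff

section linear

variable {E : Type} [NormedAddCommGroup E] [InnerProductSpace ℝ E] [FiniteDimensional ℝ E]

/-- The orthogonal projection onto the subspace `S`. -/
noncomputable def proj (S : Submodule ℝ E) : E →L[ℝ] E := S.starProjection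

/-- The dimension of the subspace `S`. -/
noncomputable def dim (S : Submodule ℝ E) : ℕ := Module.finrank ℝ S

/-- The trace of the linear map `A`. -/
noncomputable def tr (A : E →L[ℝ] E) : ℝ := LinearMap.trace ℝ E A

/-- The second derivative `D²u(z)(a, b)`. -/
noncomputable def secondDerivative (u : E → E) (z a b : E) : E := fderiv ℝ (fderiv ℝ u) z a b

/-- The plane of all vectors `a + Du(z) a`, `a ∈ π`: the tangent plane of the graph of `u` over the
plane `π` at the point above the projection of `z` to `π`. -/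
noncomputable def tangentPlane (π : Submodule ℝ E) (u : E → E) (z : E) : Submodule ℝ E :=
  π.map (ContinuousLinearMap.id ℝ E + fderiv ℝ u z).toLinearMap

/-- The squared distance of the plane `S` to the tangent plane of the graph of `u` above `z`. -/
noncomputable def tilt (π : Submodule ℝ E) (u : E → E) (z : E) (S : Submodule ℝ E) : ℝ≥0∞ :=
  ENNReal.ofReal (‖proj S - proj (tangentPlane π u z)‖ ^ 2)

/-- `u` is a smooth map that depends on the orthogonal projection to the plane `π` only and has
values orthogonal to `π`; its graph `{z | z = πz + u z}` passes through `x₀` and is tangent to `π`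
there. -/
structure IsSmoothGraph (π : Submodule ℝ E) (x₀ : E) (u : E → E) : Prop where
  smooth : ContDiff ℝ ∞ u
  function_on_plane : ∀ z, u z = u (proj π z)
  orthogonal : ∀ z, u z ∈ πᗮ
  point : x₀ = proj π x₀ + u x₀
  tangent : fderiv ℝ u x₀ = 0

/-- The graph of `u` is minimal up to an error `O(|z - x₀| ^ K)`: for orthonormal vectors `t₁, …, tₘ`
in its tangent plane `|∑ D²u(z)(tᵢ, tᵢ)| = O(|z - x₀| ^ K)`. -/
def MinimalOrder (m K : ℕ) (π : Submodule ℝ E) (x₀ : E) (u : E → E) : Prop :=
  ∃ C ρ : ℝ, 0 < ρ ∧ ∀ z, dist z x₀ < ρ → ∀ t : Fin m → E, Orthonormal ℝ t →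
    (∀ i, t i ∈ tangentPlane π u z) →
    ‖∑ i, secondDerivative u z (t i) (t i)‖ ≤ C * dist z x₀ ^ K

end linear

section measure

variable {E : Type} [NormedAddCommGroup E] [InnerProductSpace ℝ E] [FiniteDimensional ℝ E]
  [MeasurableSpace E] [BorelSpace E]

/-- The weight measure `μ` together with the field of tangent planes `T` is a stationary
`m`-dimensional varifold in `U`: `μ` is finite on compact subsets of `U`, the plane field is
measurable, `T x` is an `m`-plane for `μ`-almost every `x` in `U`, and the first variation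
`∫ tr (T x ∘ DX(x)) dμ` vanishes for all `C¹` vector fields `X` with compact support in `U`. -/
structure IsStationaryVarifold (m : ℕ) (U : Set E) (μ : Measure E) (T : E → Submodule ℝ E) : Prop where
  finite_compact : ∀ K ⊆ U, IsCompact K → μ K < ⊤
  measurable_plane : Measurable fun x => proj (T x)
  dim_plane : ∀ᵐ x ∂(μ.restrict U), dim (T x) = m
  stationary : ∀ X : E → E, ContDiff ℝ 1 X → HasCompactSupport X → tsupport X ⊆ U →
    ∫ x, tr (proj (T x) ∘L fderiv ℝ X x) ∂μ = 0

/-- The volume of the ball of radius `r` in `ℝ^m`. -/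
noncomputable def ballVolume (m : ℕ) (r : ℝ) : ℝ≥0∞ :=
  volume (ball (0 : EuclideanSpace ℝ (Fin m)) 1) * ENNReal.ofReal r ^ m

/-- The `m`-dimensional density of `μ` at `x` (as an upper limit). -/
noncomputable def density (m : ℕ) (μ : Measure E) (x : E) : ℝ≥0∞ :=
  limsup (fun r : ℝ => μ (ball x r) / ballVolume m r) (𝓝[>] 0)

/-- The upper `m`-dimensional density at `x` of the part of `μ` in the set `S`. -/
noncomputable def upperDensity (m : ℕ) (μ : Measure E) (S : Set E) (x : E) : ℝ≥0∞ :=
  limsup (fun r : ℝ => μ (ball x r ∩ S) / ballVolume m r) (𝓝[>] 0)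

/-- The rescaled measures `r^(-m) (τ_(x₀,r))_# μ` converge weakly to `Q` times the `m`-dimensional
Lebesgue measure of the `m`-plane `π` as `r → 0`. -/
def IsFlatTangent (m : ℕ) (μ : Measure E) (x₀ : E) (π : Submodule ℝ E) (Q : ℝ) : Prop :=
  ∀ ζ : E → ℝ, Continuous ζ → HasCompactSupport ζ →
    Tendsto (fun r : ℝ => (∫ z, ζ (r⁻¹ • (z - x₀)) ∂μ) / r ^ m) (𝓝[>] 0) (𝓝 (Q * ∫ x : π, ζ x))

/-- On the support of `μ` the vertical distance to the graph of `u` over `π` is `O(|z - x₀| ^ K)`. -/
def HeightOrder (K : ℕ) (μ : Measure E) (π : Submodule ℝ E) (x₀ : E) (u : E → E) : Prop :=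
  ∃ C ρ : ℝ, 0 < ρ ∧ ∀ z ∈ μ.support, dist z x₀ < ρ → ‖z - (proj π z + u z)‖ ≤ C * dist z x₀ ^ K

/-- The integral over the ball of radius `r` about `x₀` of the squared distance of `T z` to the
tangent plane of the graph of `u` is `O(r ^ K)`. -/
def TiltOrder (K : ℕ) (μ : Measure E) (T : E → Submodule ℝ E) (π : Submodule ℝ E) (x₀ : E)
    (u : E → E) : Prop :=
  ∃ C ρ : ℝ, 0 < ρ ∧ ∀ r, 0 < r → r < ρ →
    ∫⁻ z in ball x₀ r, tilt π u z (T z) ∂μ ≤ ENNReal.ofReal (C * r ^ K)

/-- `V = (μ, T)` has infinite order of contact at `x₀` with a smooth graph over the plane `π`, tangent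
to `π` at `x₀`, which is minimal to infinite order at `x₀`. -/
def InfiniteContact (m : ℕ) (μ : Measure E) (T : E → Submodule ℝ E) (π : Submodule ℝ E) (x₀ : E) :
    Prop :=
  ∃ u, IsSmoothGraph π x₀ u ∧
    ∀ K : ℕ, HeightOrder K μ π x₀ u ∧ MinimalOrder m K π x₀ u ∧ TiltOrder K μ T π x₀ u

end measure

end Pool.Agent.Helper68X.Dfn
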