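import Pool.Agent.Helper68X.Dfn

/-!
Minimal submanifolds and order of contact with them: the definitions of the results `MinimalSheet`,
`NoIslands`, `ContactOrder` for MP_8daebb_an. `E` is a Euclidean space.
-/

namespace Pool.Agent.Helper68X.Dfn

open MeasureTheory Set Filter Topology Metric
open scoped ENNReal ContDiff

section linear

variable {E : Type} [NormedAddCommGroup E] [InnerProductSpace ℝ E] [FiniteDimensional ℝ E]

/-- The minimal surface system for the graph of `u` over the `m`-plane `π`: for orthonormal
vectors `t₁, …, tₘ` in its tangent plane, `∑ D²u(z)(tᵢ, tᵢ) = 0`. -/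
def MinimalSurfaceSystem (m : ℕ) (π : Submodule ℝ E) (u : E → E) (z : E) : Prop :=
  ∀ t : Fin m → E, Orthonormal ℝ t → (∀ i, t i ∈ tangentPlane π u z) →
    ∑ i, secondDerivative u z (t i) (t i) = 0

/-- In the ball of radius `r` about `x₀` the set `M` is the graph `{z | z = πz + u z}` over the
`m`-plane `π` of the `C²` function `u`, which depends on the projection `πz` only and has values
orthogonal to `π`; and `u` solves the minimal surface system. -/
structure IsMinimalGraphAt (m : ℕ) (M : Set E) (x₀ : E) (π : Submodule ℝ E) (u : E → E) (r : ℝ) :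
    Prop where
  pos : 0 < r
  dim : dim π = m
  function_on_plane : ∀ z, u z = u (proj π z)
  vertical : ∀ z, u z ∈ πᗮ
  smooth : ContDiffOn ℝ 2 u (ball x₀ r)
  graph : ∀ z ∈ ball x₀ r, (z ∈ M ↔ z = proj π z + u z)
  minimal : ∀ z ∈ ball x₀ r, MinimalSurfaceSystem m π u z

/-- `M` is a relatively closed embedded minimal `C²` submanifold of dimension `m` of the open set
`U`. -/
structure IsMinimalSubmanifold (m : ℕ) (U M : Set E) : Prop where
  subset : M ⊆ U
  closed : ∀ x ∈ U, x ∈ closure M → x ∈ M
  graph : ∀ x ∈ M, ∃ π u r, IsMinimalGraphAt m M x π u r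

end linear

section measure

variable {E : Type} [NormedAddCommGroup E] [InnerProductSpace ℝ E] [FiniteDimensional ℝ E]
  [MeasurableSpace E] [BorelSpace E]

/-- `V = (μ, T)` has contact of order `k + 1` with `M` at `x₀`: on the support of `μ` the distance
to `M` is `O(|z - x₀| ^ (k + 1))`, and the integral over the ball of radius `r` about `x₀` of the
squared distance of `T z` to the tangent plane of `M` above `z` is `O(r ^ (m + 2 k))`. -/
def Contact (m k : ℕ) (μ : Measure E) (T : E → Submodule ℝ E) (M : Set E) (x₀ : E) : Prop :=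
  (∃ C ρ : ℝ, 0 < ρ ∧ ∀ z ∈ μ.support, dist z x₀ < ρ →
    infDist z M ≤ C * dist z x₀ ^ (k + 1)) ∧
  ∀ π u r₀, IsMinimalGraphAt m M x₀ π u r₀ → TiltOrder (m + 2 * k) μ T π x₀ u

end measure

end Pool.Agent.Helper68X.Dfn
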