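import Pool.Agent.Helper68X.Cmp

/-!
Energy estimates: Caccioppoli inequality and almost harmonicity of the heights.
-/

set_option autoImplicit false

namespace Pool.Agent.Helper68X

open MeasureTheory Set Filter Topology Metric Pool.Agent.TH337.VF Pool.Agent.Helper68V
open scoped ENNReal RealInnerProductSpace ContDiff

variable {N m n : ℕ} {U : Set (E N)} {μ : Measure (E N)} {T : E N → Submodule ℝ (E N)}
  {π : Submodule ℝ (E N)} {ν : OrthonormalBasis (Fin n) ℝ πᗮ} {x₀ : E N} {u : Fin n → E N → ℝ}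

lemma meas_lap (hS : Stat m U μ fun x => (T x).starProjection) {g : E N → ℝ} (hg : ContDiff ℝ 2 g) :
    Measurable fun z => lap (T z) g z := by
  have e : (fun z => lap (T z) g z) =
      fun z => trc ((T z).starProjection ∘L fderiv ℝ (grd g) z) :=
    funext fun z => (trc_grd hg _ _).symm
  rw [e]
  exact continuous_trc.measurable.comp
    ((ContinuousLinearMap.compL ℝ (E N) (E N) (E N)).continuous₂.measurable.comp
      (hS.meas.prodMk ((grd_contDiff hg).continuous_fderiv one_ne_zero).measurable))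

lemma meas_JJ (hS : Stat m U μ fun x => (T x).starProjection) {h : Fin n → E N → ℝ}
    (hh' : ∀ α, ContDiff ℝ 2 (h α)) : Measurable fun z => JJ (T z) h z := by
  unfold JJ
  apply Finset.measurable_sum
  intro α _
  have h1 : Measurable fun z => (T z).starProjection (grd (h α) z) :=
    (isBoundedBilinearMap_apply (𝕜 := ℝ) (E := E N) (F := E N)).continuous.measurable.comp
      (hS.meas.prodMk (grd_contDiff (hh' α)).continuous.measurable)
  exact h1.norm.pow_const 2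

lemma int_bdd {a : E N} {R : ℝ} (hfin : μ (closedBall a R) < ⊤) {f : E N → ℝ} (hf : Measurable f)
    {g : E N → ℝ} (hg : Continuous g) (hfg : ∀ z, |f z| ≤ g z) : IntegrableOn f (closedBall a R) μ := by
  obtain ⟨C, hC⟩ := (isCompact_closedBall a R).exists_bound_of_continuousOn hg.continuousOn
  refine Measure.integrableOn_of_bounded (M := C) hfin.ne hf.aestronglyMeasurable
    (ae_restrict_of_forall_mem measurableSet_closedBall fun z hz => ?_)
  rw [Real.norm_eq_abs]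
  exact (hfg z).trans ((le_abs_self _).trans (hC z hz))

lemma cont_ff {g : E N → ℝ} (hg : ContDiff ℝ 2 g) :
    Continuous fun z => ‖fderiv ℝ (fderiv ℝ g) z‖ := by
  have h1 : ContDiff ℝ 1 (fderiv ℝ g) := hg.fderiv_right (by norm_num)
  exact (h1.continuous_fderiv one_ne_zero).norm

lemma int_lap (hS : Stat m U μ fun x => (T x).starProjection) {g : E N → ℝ} (hg : ContDiff ℝ 2 g)
    {a : E N} {R : ℝ} (hfin : μ (closedBall a R) < ⊤) {k : E N → ℝ} (hk : Continuous k) :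
    IntegrableOn (fun z => k z * lap (T z) g z) (closedBall a R) μ := by
  apply int_bdd hfin (hk.measurable.mul (meas_lap hS hg))
    (g := fun z => |k z| * (N * ‖fderiv ℝ (fderiv ℝ g) z‖))
    (hk.abs.mul (continuous_const.mul (cont_ff hg)))
  intro z
  show |k z * lap (T z) g z| ≤ _
  rw [abs_mul]
  exact mul_le_mul_of_nonneg_left (abs_lap_le _ _ _) (abs_nonneg _)

lemma int_JJ (hS : Stat m U μ fun x => (T x).starProjection) {h : Fin n → E N → ℝ}
    (hh' : ∀ α, ContDiff ℝ 2 (h α)) {a : E N} {R : ℝ} (hfin : μ (closedBall a R) < ⊤)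
    {k : E N → ℝ} (hk : Continuous k) :
    IntegrableOn (fun z => k z * JJ (T z) h z) (closedBall a R) μ := by
  apply int_bdd hfin (hk.measurable.mul (meas_JJ hS hh'))
    (g := fun z => |k z| * ∑ α, ‖grd (h α) z‖ ^ 2)
  · apply hk.abs.mul
    exact continuous_finsetSum _ fun α _ => (grd_contDiff (hh' α)).continuous.norm.pow 2
  · intro z
    show |k z * JJ (T z) h z| ≤ _
    rw [abs_mul, abs_of_nonneg (JJ_nonneg _ _ _)]
    apply mul_le_mul_of_nonneg_left _ (abs_nonneg _)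
    exact Finset.sum_le_sum fun α _ => pow_le_pow_left₀ (norm_nonneg _) (norm_proj_le _ _) 2

/-- the global data -/
structure Glo (m : ℕ) (U : Set (E N)) (μ : Measure (E N)) (T : E N → Submodule ℝ (E N))
    (π : Submodule ℝ (E N)) : Prop where
  hm : 1 ≤ m
  stat : Stat m U μ fun x => (T x).starProjection
  dim : ∀ᵐ x ∂(μ.restrict U), Module.finrank ℝ (T x) = m
  dimπ : Module.finrank ℝ π = m

/-- the data at the scale `r` -/
structure Sc (U : Set (E N)) (μ : Measure (E N)) (ν : OrthonormalBasis (Fin n) ℝ πᗮ) (x₀ : E N)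
    (u : Fin n → E N → ℝ) (r e F η : ℝ) : Prop where
  r0 : 0 < r
  e0 : 0 < e
  F0 : 0 ≤ F
  η0 : 0 < η
  η1 : η ≤ 1
  er : e ≤ η * r
  Fr : F * r ≤ η
  sub : closedBall x₀ r ⊆ U
  gf : GF π u
  h : ∀ z ∈ μ.support, z ∈ closedBall x₀ r → ∀ α, |hh ν x₀ u α z| ≤ e
  f : ∀ z ∈ closedBall x₀ r, ∀ α, |Fo ν u α z| ≤ F
  d1 : ∀ z ∈ closedBall x₀ r, ∀ α, ‖fderiv ℝ (u α) z‖ ≤ η
  d2 : ∀ z ∈ closedBall x₀ r, ∀ α, N * ‖fderiv ℝ (fderiv ℝ (u α)) z‖ ≤ η / r

section

variable {r e F η : ℝ}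

/-- the bound for the Laplacian of the heights -/
lemma Sc.lap (hs : Sc U μ ν x₀ u r e F η) {S : Submodule ℝ (E N)}
    (hd : Module.finrank ℝ S = Module.finrank ℝ π) {z : E N} (hz : z ∈ closedBall x₀ r) (α : Fin n) :
    |lap S (hh ν x₀ u α) z| ≤ F + η / r * Real.sqrt (2 * JJ S (hh ν x₀ u) z) := by
  have h1 := lap_hh (ν := ν) (x₀ := x₀) hs.gf hd α z
  have h2 := hs.f z hz α
  have h3 := mul_le_mul_of_nonneg_right (hs.d2 z hz α)
    (Real.sqrt_nonneg (2 * JJ S (hh ν x₀ u) z))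
  have h4 : Helper68V.lap S (hh ν x₀ u α) z =
      (Helper68V.lap S (hh ν x₀ u α) z + Fo ν u α z) - Fo ν u α z := by ring
  rw [h4]
  refine (abs_sub _ _).trans ?_
  linarith

lemma sum_h (hs : Sc U μ ν x₀ u r e F η) {S : Submodule ℝ (E N)}
    (hd : Module.finrank ℝ S = Module.finrank ℝ π) {z : E N} (hz : z ∈ closedBall x₀ r)
    (hzs : z ∈ μ.support) :
    |∑ α, hh ν x₀ u α z * lap S (hh ν x₀ u α) z| ≤
      n * e * (F + η / r * Real.sqrt (2 * JJ S (hh ν x₀ u) z)) := by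
  refine (Finset.abs_sum_le_sum_abs _ _).trans ?_
  calc ∑ α, |hh ν x₀ u α z * lap S (hh ν x₀ u α) z|
      ≤ ∑ _α : Fin n, e * (F + η / r * Real.sqrt (2 * JJ S (hh ν x₀ u) z)) := by
        refine Finset.sum_le_sum fun α _ => ?_
        rw [abs_mul]
        exact mul_le_mul (hs.h z hzs hz α) (hs.lap hd hz α) (abs_nonneg _) hs.e0.le
    _ = _ := by
      rw [Finset.sum_const, Finset.card_univ, Fintype.card_fin, nsmul_eq_mul]
      ring

/-- almost everywhere facts -/
lemma ae_facts (hG : Glo m U μ T π) {K : Set (E N)} (hK : K ⊆ U) :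
    ∀ᵐ z ∂(μ.restrict K), Module.finrank ℝ (T z) = Module.finrank ℝ π ∧ z ∈ μ.support := by
  filter_upwards [ae_restrict_of_ae_restrict_of_subset hK hG.dim,
    ae_restrict_of_ae (Measure.support_mem_ae (μ := μ))] with z h1 h2
  exact ⟨by rw [h1, hG.dimπ], h2⟩

lemma fin_cb (hG : Glo m U μ T π) {a : E N} {R : ℝ} (hR : closedBall a R ⊆ U) :
    μ (closedBall a R) < ⊤ := hG.stat.fin _ hR (isCompact_closedBall a R)

lemma chi_zero {R : ℝ} (hR : 0 < R) {y : E N} (hy : y ∉ closedBall x₀ R) :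
    -Hf R (‖y - x₀‖ ^ 2) = 0 := by
  have h1 : R < ‖y - x₀‖ := by
    rw [mem_closedBall, dist_eq_norm] at hy
    exact not_le.1 hy
  have h2 : 1 ≤ ‖y - x₀‖ ^ 2 / R ^ 2 := by
    rw [one_le_div (by positivity)]
    exact pow_le_pow_left₀ hR.le h1.le 2
  simp only [Hf]
  rw [max_eq_left (by linarith)]
  simp

/-- **Caccioppoli inequality** -/
lemma cacc (hG : Glo m U μ T π) (hs : Sc U μ ν x₀ u r e F η) :
    ∫ z in closedBall x₀ (r / 2), JJ (T z) (hh ν x₀ u) z ∂μ ≤
      16 * (n * (m + 4) + n ^ 2 + n) * (e / r + F * r) ^ 2 * μ.real (closedBall x₀ r) := by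
  have hr := hs.r0
  have he := hs.e0
  have hF := hs.F0
  have hη := hs.η0
  have hη1 := hs.η1
  have hR2 : 0 < r ^ 2 := by positivity
  have hfin := fin_cb hG hs.sub
  have hhc : ∀ α, ContDiff ℝ 2 (hh ν x₀ u α) := fun α => hh_cd hs.gf α
  set g : E N → ℝ := fun y => ∑ α, hh ν x₀ u α y * hh ν x₀ u α y with hg
  have hgc : ContDiff ℝ 2 g := ContDiff.sum fun α _ => (hhc α).mul (hhc α)
  set χ : E N → ℝ := fun y => -Hf r (‖y - x₀‖ ^ 2) with hχ
  have hχc : ContDiff ℝ 2 χ := ((Hf_contDiff r).comp (sq_contDiff2 x₀)).neg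
  have hχ0 : ∀ y, 0 ≤ χ y := fun y => by
    have := Hf_nonpos r (‖y - x₀‖ ^ 2)
    simp only [hχ]
    linarith
  have hχ1 : ∀ y, χ y ≤ r ^ 2 / 6 := by
    intro y
    simp only [hχ, Hf]
    have h1 : max 0 (1 - ‖y - x₀‖ ^ 2 / r ^ 2) ≤ 1 :=
      max_le (by norm_num) (by have : 0 ≤ ‖y - x₀‖ ^ 2 / r ^ 2 := by positivity
                               linarith)
    have h2 : (max 0 (1 - ‖y - x₀‖ ^ 2 / r ^ 2)) ^ 3 ≤ 1 := pow_le_one₀ (le_max_left _ _) h1
    nlinarith
  have hχ2 : ∀ y ∈ closedBall x₀ (r / 2), r ^ 2 / 16 ≤ χ y := by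
    intro y hy
    rw [mem_closedBall, dist_eq_norm] at hy
    have h1 : ‖y - x₀‖ ^ 2 / r ^ 2 ≤ 1 / 4 := by
      rw [div_le_iff₀ hR2]
      have := pow_le_pow_left₀ (norm_nonneg _) hy 2
      nlinarith
    have h2 : (3 / 4 : ℝ) ≤ max 0 (1 - ‖y - x₀‖ ^ 2 / r ^ 2) := le_max_of_le_right (by linarith)
    have h3 := pow_le_pow_left₀ (by norm_num) h2 3
    simp only [hχ, Hf]
    have h4 : r ^ 2 / 6 * (3 / 4) ^ 3 ≤ r ^ 2 / 6 * (max 0 (1 - ‖y - x₀‖ ^ 2 / r ^ 2)) ^ 3 :=
      mul_le_mul_of_nonneg_left h3 (by positivity)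
    linarith
  have hzero : ∀ y, y ∉ closedBall x₀ r → χ y = 0 := fun y hy => chi_zero hr hy
  have htsup : tsupport χ ⊆ closedBall x₀ r := by
    apply closure_minimal _ isClosed_closedBall
    intro y hy
    by_contra hc
    exact hy (hzero y hc)
  have hcs : HasCompactSupport χ := HasCompactSupport.intro (isCompact_closedBall x₀ r) hzero
  obtain ⟨hint, hstat⟩ := green hG.stat hχc hcs (htsup.trans hs.sub) hgc
  have h3 : ∫ y in closedBall x₀ r, (χ y * lap (T y) g y - g y * lap (T y) χ y) ∂μ = 0 := by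
    rw [← hstat]
    apply setIntegral_eq_integral_of_forall_compl_eq_zero
    intro y hy
    rw [hzero y hy, lap_zero_of_notMem fun h => hy (htsup h)]
    ring
  set c : ℝ := r ^ 2 / 3 * (n * e * F + n ^ 2 * e ^ 2 * (η / r) ^ 2) + n * (m + 4) * e ^ 2 with hc
  have hJi : IntegrableOn (fun y => JJ (T y) (hh ν x₀ u) y) (closedBall x₀ (r / 2)) μ := by
    have := int_JJ hG.stat hhc (fin_cb hG ((closedBall_subset_closedBall (by linarith)).trans hs.sub) :
      μ (closedBall x₀ (r / 2)) < ⊤) (k := fun _ => (1:ℝ)) continuous_const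
    simpa using this
  have hJi' : IntegrableOn ((closedBall x₀ (r / 2)).indicator
      (fun y => JJ (T y) (hh ν x₀ u) y)) (closedBall x₀ r) μ :=
    (hJi.integrable_indicator measurableSet_closedBall).integrableOn
  have hfinm : IsFiniteMeasure (μ.restrict (closedBall x₀ r)) := ⟨by simpa using hfin⟩
  have h4 : ∫ y in closedBall x₀ r, (r ^ 2 / 16 * (closedBall x₀ (r / 2)).indicator
      (fun y => JJ (T y) (hh ν x₀ u) y) y - c) ∂μ ≤ 0 := by
    rw [← h3]
    apply integral_mono_ae ((hJi'.const_mul _).sub (integrable_const c)) hint.restrict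
    filter_upwards [ae_facts hG hs.sub, ae_restrict_mem measurableSet_closedBall] with y hy hyr
    obtain ⟨hyd, hys⟩ := hy
    have hJ := JJ_nonneg (T y) (hh ν x₀ u) y
    set J := JJ (T y) (hh ν x₀ u) y with hJdef
    have e1 : lap (T y) g y = 2 * J + 2 * ∑ α, hh ν x₀ u α y * lap (T y) (hh ν x₀ u α) y :=
      lap_sqs hhc (T y) y
    have e2 := sum_h hs hyd hyr hys
    have e3 : |lap (T y) χ y| ≤ m + 4 := by
      have := Hf_lap hr x₀ (T y) y
      rw [hyd, hG.dimπ] at this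
      exact this
    have e4 : 0 ≤ g y ∧ g y ≤ n * e ^ 2 := by
      refine ⟨Finset.sum_nonneg fun α _ => mul_self_nonneg _, ?_⟩
      calc g y ≤ ∑ _α : Fin n, e ^ 2 := by
            refine Finset.sum_le_sum fun α _ => ?_
            have := hs.h y hys hyr α
            rw [← sq, ← sq_abs]
            exact pow_le_pow_left₀ (abs_nonneg _) this 2
        _ = n * e ^ 2 := by
          rw [Finset.sum_const, Finset.card_univ, Fintype.card_fin, nsmul_eq_mul]
    have e5 : n * e * (η / r) * Real.sqrt (2 * J) ≤ J / 2 + (n * e * (η / r)) ^ 2 := by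
      have h5 : Real.sqrt (2 * J) ^ 2 = 2 * J := Real.sq_sqrt (by positivity)
      nlinarith [sq_nonneg (Real.sqrt (2 * J) - 2 * (n * e * (η / r)))]
    have e6 : J - 2 * (n * e * F + n ^ 2 * e ^ 2 * (η / r) ^ 2) ≤ lap (T y) g y := by
      rw [e1]
      have := neg_abs_le (∑ α, hh ν x₀ u α y * lap (T y) (hh ν x₀ u α) y)
      nlinarith
    have e7 : g y * lap (T y) χ y ≤ n * (m + 4) * e ^ 2 := by
      calc g y * lap (T y) χ y ≤ g y * (m + 4) :=
            mul_le_mul_of_nonneg_left ((le_abs_self _).trans e3) e4.1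
        _ ≤ n * e ^ 2 * (m + 4) := mul_le_mul_of_nonneg_right e4.2 (by positivity)
        _ = _ := by ring
    have e8 : χ y * (J - 2 * (n * e * F + n ^ 2 * e ^ 2 * (η / r) ^ 2)) ≤ χ y * lap (T y) g y :=
      mul_le_mul_of_nonneg_left e6 (hχ0 y)
    have e9 : χ y * (2 * (n * e * F + n ^ 2 * e ^ 2 * (η / r) ^ 2)) ≤
        r ^ 2 / 6 * (2 * (n * e * F + n ^ 2 * e ^ 2 * (η / r) ^ 2)) :=
      mul_le_mul_of_nonneg_right (hχ1 y) (by positivity)
    have e10 : r ^ 2 / 16 * (closedBall x₀ (r / 2)).indicator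
        (fun y => JJ (T y) (hh ν x₀ u) y) y ≤ χ y * J := by
      by_cases hy2 : y ∈ closedBall x₀ (r / 2)
      · rw [indicator_of_mem hy2]
        exact mul_le_mul_of_nonneg_right (hχ2 y hy2) hJ
      · rw [indicator_of_notMem hy2, mul_zero]
        exact mul_nonneg (hχ0 y) hJ
    rw [mul_sub] at e8
    show r ^ 2 / 16 * (closedBall x₀ (r / 2)).indicator (fun y => JJ (T y) (hh ν x₀ u) y) y - c ≤
      χ y * lap (T y) g y - g y * lap (T y) χ y
    rw [hc]
    linarith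
  rw [integral_sub (hJi'.const_mul _) (integrable_const c), integral_const_mul,
    setIntegral_indicator measurableSet_closedBall, setIntegral_const] at h4
  have h5 : closedBall x₀ r ∩ closedBall x₀ (r / 2) = closedBall x₀ (r / 2) :=
    inter_eq_right.2 (closedBall_subset_closedBall (by linarith))
  rw [h5, smul_eq_mul] at h4
  have h6 : 16 * c ≤ 16 * (n * (m + 4) + n ^ 2 + n) * (e / r + F * r) ^ 2 * r ^ 2 := by
    have h7 : (e / r + F * r) ^ 2 * r ^ 2 = e ^ 2 + 2 * (e * F * r ^ 2) + (F * r ^ 2) ^ 2 := by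
      field_simp
      ring
    have h8 : c = n * (e * F * r ^ 2) / 3 + n ^ 2 * e ^ 2 * η ^ 2 / 3 + n * (m + 4) * e ^ 2 := by
      rw [hc]
      field_simp
    have h9 : η ^ 2 ≤ 1 := pow_le_one₀ hη.le hη1
    have h10 : (n : ℝ) ^ 2 * e ^ 2 * η ^ 2 ≤ n ^ 2 * e ^ 2 := by
      have : 0 ≤ (n : ℝ) ^ 2 * e ^ 2 := by positivity
      nlinarith
    rw [mul_assoc (16 * (n * (m + 4) + n ^ 2 + n : ℝ)), h7, h8]
    have p1 : 0 ≤ (n : ℝ) * (e * F * r ^ 2) := by positivity
    have p2 : 0 ≤ (n : ℝ) ^ 2 * (e * F * r ^ 2) := by positivity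
    have p3 : 0 ≤ (n : ℝ) * (m + 4) * (e * F * r ^ 2) := by positivity
    have p4 : 0 ≤ ((n : ℝ) * (m + 4) + n ^ 2 + n) * (F * r ^ 2) ^ 2 := by positivity
    have p5 : 0 ≤ (n : ℝ) ^ 2 * e ^ 2 := by positivity
    have p6 : 0 ≤ (n : ℝ) * e ^ 2 := by positivity
    nlinarith
  have hμ : 0 ≤ μ.real (closedBall x₀ r) := measureReal_nonneg
  have h11 : (∫ z in closedBall x₀ (r / 2), JJ (T z) (hh ν x₀ u) z ∂μ) * r ^ 2 ≤
      (16 * (n * (m + 4) + n ^ 2 + n) * (e / r + F * r) ^ 2 * μ.real (closedBall x₀ r)) * r ^ 2 := by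
    calc (∫ z in closedBall x₀ (r / 2), JJ (T z) (hh ν x₀ u) z ∂μ) * r ^ 2
        ≤ 16 * (μ.real (closedBall x₀ r) * c) := by linarith
      _ = (16 * c) * μ.real (closedBall x₀ r) := by ring
      _ ≤ (16 * (n * (m + 4) + n ^ 2 + n) * (e / r + F * r) ^ 2 * r ^ 2) *
          μ.real (closedBall x₀ r) := mul_le_mul_of_nonneg_right h6 hμ
      _ = _ := by ring
  exact le_of_mul_le_mul_right h11 hR2

end

end Pool.Agent.Helper68X
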