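import Pool.Agent.Helper68X.Smo

/-!
The smooth graph.
-/

set_option autoImplicit false

namespace Pool.Agent.Helper68X

open MeasureTheory Set Filter Topology Metric Pool.Agent.TH337.VF Pool.Agent.Helper68V
open scoped ENNReal RealInnerProductSpace ContDiff

variable {N m n : ℕ} {U : Set (E N)} {μ : Measure (E N)} {T : E N → Submodule ℝ (E N)}
  {π : Submodule ℝ (E N)} {x₀ : E N} {τ : OrthonormalBasis (Fin m) ℝ π}
  {ν : OrthonormalBasis (Fin n) ℝ πᗮ} {B θ : ℝ} {Bd : Set (E N)}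

lemma pos_min (f : Fin n → ℝ) (h : ∀ α, 0 < f α) : ∃ ρ : ℝ, 0 < ρ ∧ ∀ α, ρ ≤ f α := by
  by_cases hn : Nonempty (Fin n)
  · obtain ⟨i, hi⟩ := Finite.exists_min f
    exact ⟨f i, h i, hi⟩
  · exact ⟨1, one_pos, fun α => (hn ⟨α⟩).elim⟩

/-- **the smooth graph** -/
theorem smooth_final (hBOR : S_BOR) (hN : S_NRM) (hW : Wd m U μ T π τ x₀ B θ Bd)
    (ν : OrthonormalBasis (Fin n) ℝ πᗮ)
    (hE : ∀ K, 1 ≤ K → ∃ P : Fin n → Pol m, Exp μ τ ν x₀ K P) : InfiniteContact m μ T π x₀ := by
  obtain ⟨Q, hQh, hQ0, hQ⟩ := series hN hW hE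
  choose u huc hupi huK using fun α => hBOR N m π τ x₀ (fun j => Q j α) (fun j => hQh j α)
  -- uniform constants
  have hbor : ∀ K : ℕ, ∃ C ρ : ℝ, 0 ≤ C ∧ 0 < ρ ∧ ∀ z, dist z x₀ < ρ → ∀ α,
      |u α z - ut τ x₀ (psum Q K) α z| ≤ C * dist z x₀ ^ (K + 1) ∧
      ‖fderiv ℝ (u α) z - fderiv ℝ (ut τ x₀ (psum Q K) α) z‖ ≤ C * dist z x₀ ^ K ∧
      ‖fderiv ℝ (fderiv ℝ (u α)) z - fderiv ℝ (fderiv ℝ (ut τ x₀ (psum Q K) α)) z‖ ≤
        C * dist z x₀ ^ (K - 1) := by
    intro K
    choose C ρ hC hρ h using fun α => huK α K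
    obtain ⟨ρ', hρ', hρρ⟩ := pos_min ρ hρ
    refine ⟨∑ α, C α, ρ', Finset.sum_nonneg fun α _ => hC α, hρ', fun z hz α => ?_⟩
    have hCle : C α ≤ ∑ α, C α := Finset.single_le_sum (fun β _ => hC β) (Finset.mem_univ α)
    obtain ⟨h1, h2, h3⟩ := h α z (hz.trans_le (hρρ α))
    exact ⟨h1.trans (mul_le_mul_of_nonneg_right hCle (by positivity)),
      h2.trans (mul_le_mul_of_nonneg_right hCle (by positivity)),
      h3.trans (mul_le_mul_of_nonneg_right hCle (by positivity))⟩
  -- GF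
  have hu : GF π u := by
    refine ⟨fun α => (huc α).of_le le_two_infty, fun α z v => ?_⟩
    have hd : Differentiable ℝ (u α) := (huc α).differentiable (by simp)
    have h1 : HasFDerivAt (fun z : E N => x₀ + π.starProjection (z - x₀)) π.starProjection z := by
      have h2 := (π.starProjection.hasFDerivAt (x := z - x₀)).comp z
        ((hasFDerivAt_id (𝕜 := ℝ) z).sub_const x₀)
      have h3 := h2.const_add x₀
      rw [ContinuousLinearMap.comp_id] at h3
      exact h3
    have h2 : HasFDerivAt (u α) ((fderiv ℝ (u α) (x₀ + π.starProjection (z - x₀))) ∘L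
        π.starProjection) z := by
      have h3 := (hd (x₀ + π.starProjection (z - x₀))).hasFDerivAt.comp z h1
      have h4 : u α ∘ (fun z : E N => x₀ + π.starProjection (z - x₀)) = u α := by
        funext z
        exact (hupi α z).symm
      rw [h4] at h3
      exact h3
    rw [h2.fderiv, ContinuousLinearMap.comp_apply, ContinuousLinearMap.comp_apply, proj_idem]
  have hps1 : psum Q 1 = fun _ => (0 : Pol m) := by
    funext α
    unfold psum
    rw [Finset.sum_range_succ, Finset.sum_range_succ, Finset.sum_range_zero, hQ0 0 (by norm_num),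
      hQ0 1 le_rfl]
    simp
  have hut0 : ∀ α, ut τ x₀ (fun _ : Fin n => (0 : Pol m)) α = fun _ => 0 := by
    intro α
    funext z
    simp [ut, ev]
  have hf0 : fderiv ℝ (fun _ : E N => (0 : ℝ)) = fun _ => 0 := by
    funext y
    simp
  have hff0 : ∀ z : E N, fderiv ℝ (fderiv ℝ (fun _ : E N => (0 : ℝ))) z = 0 := by
    intro z
    rw [hf0]
    simp
  -- first derivative bounds
  obtain ⟨A, ρA, hA, hρA, hbA⟩ := hbor 1
  rw [hps1] at hbA
  simp only [hut0, hf0, hff0, sub_zero] at hbA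
  have hbd : Bd2 x₀ u := by
    refine ⟨A, ρA, hA, hρA, fun r hr hrρ z hz α => ?_⟩
    have hd : dist z x₀ ≤ r := mem_closedBall.1 hz
    obtain ⟨-, h2, h3⟩ := hbA z (hd.trans_lt hrρ) α
    constructor
    · rw [pow_one] at h2
      exact h2.trans (mul_le_mul_of_nonneg_left hd hA)
    · have h4 : fderiv ℝ (fderiv ℝ (u α)) z = fderiv ℝ (fderiv ℝ (u α)) z - 0 := (sub_zero _).symm
      rw [h4]
      simpa using h3
  have hexp : ∀ K, 1 ≤ K → ExpS μ ν x₀ K u := by
    intro K hK
    obtain ⟨-, -, C₁, ρ₁, hC₁, hρ₁, hρ₁1, h₁⟩ := hQ K hK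
    obtain ⟨C₂, ρ₂, hC₂, hρ₂, h₂⟩ := hbor K
    obtain ⟨A', ρ₃, hA', hρ₃, h₃⟩ := hbd
    refine ⟨C₁ + C₂ + N * C₂ + 2 * N ^ 2 * n * (C₂ * (A' + C₂ + C₂) + (A' + C₂) * C₂),
      min ρ₁ (min ρ₂ ρ₃), by positivity, by positivity, (min_le_left _ _).trans hρ₁1, ?_⟩
    intro r hr hrρ
    have hr1 : r < ρ₁ := hrρ.trans_le (min_le_left _ _)
    have hr2 : r < ρ₂ := hrρ.trans_le ((min_le_right _ _).trans (min_le_left _ _))
    have hr3 : r < ρ₃ := hrρ.trans_le ((min_le_right _ _).trans (min_le_right _ _))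
    have hrle : r ≤ 1 := hr1.le.trans hρ₁1
    set Z : ℝ := 2 * N ^ 2 * n * (C₂ * (A' + C₂ + C₂) + (A' + C₂) * C₂) with hZ
    have hZ0 : 0 ≤ Z := by positivity
    have hNC : 0 ≤ (N : ℝ) * C₂ := by positivity
    constructor
    · intro z hz hzr α
      have hd : dist z x₀ ≤ r := mem_closedBall.1 hzr
      have e1 := (h₁ r hr hr1).1 z hz hzr α
      have e2 := (h₂ z (hd.trans_lt hr2) α).1
      have e3 : hh ν x₀ u α z = hh ν x₀ (ut τ x₀ (psum Q K)) α z -
          (u α z - ut τ x₀ (psum Q K) α z) := by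
        unfold hh
        ring
      rw [e3]
      refine (abs_sub _ _).trans ?_
      have e4 : dist z x₀ ^ (K + 1) ≤ r ^ (K + 1) := pow_le_pow_left₀ dist_nonneg hd _
      have e5 := mul_le_mul_of_nonneg_left e4 hC₂
      have e6 : 0 ≤ (N * C₂ + Z) * r ^ (K + 1) := by positivity
      nlinarith
    · intro z hz α
      have hd : dist z x₀ ≤ r := mem_closedBall.1 hz
      have e1 := (h₁ r hr hr1).2 z hz α
      have hb := fun β => h₂ z (hd.trans_lt hr2) β
      have hb3 := fun β => h₃ r hr hr3 z hz β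
      set v : Fin n → E N → ℝ := fun β y => u β y - ut τ x₀ (psum Q K) β y with hv
      have hvd : ∀ β z, fderiv ℝ (v β) z = fderiv ℝ (u β) z - fderiv ℝ (ut τ x₀ (psum Q K) β) z :=
        fun β z => fderiv_sub ((hu.cd β).differentiable two_ne_zero z)
          ((ev_cd (psum Q K β) 2).differentiable two_ne_zero z)
      have hvdd : ∀ β z, fderiv ℝ (fderiv ℝ (v β)) z = fderiv ℝ (fderiv ℝ (u β)) z -
          fderiv ℝ (fderiv ℝ (ut τ x₀ (psum Q K) β)) z := by
        intro β z
        have e : fderiv ℝ (v β) = fun z => fderiv ℝ (u β) z -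
            fderiv ℝ (ut τ x₀ (psum Q K) β) z := by
          funext z
          exact hvd β z
        rw [e]
        exact fderiv_sub (cd_fderiv (hu.cd β) z) (cd_fderiv (ev_cd (psum Q K β) 2) z)
      have hvg : GF π v := by
        refine ⟨fun β => (hu.cd β).sub (ev_cd (psum Q K β) 2), fun β z w => ?_⟩
        rw [hvd, sub_apply, sub_apply, hu.dep β z w, (ut_gf (psum Q K)).dep β z w]
      have hrK : r ^ K ≤ 1 := pow_le_one₀ hr.le hrle
      have hrK1 : r ^ (K - 1) ≤ 1 := pow_le_one₀ hr.le hrle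
      have hrKK : r ^ K ≤ r ^ (K - 1) := pow_le_pow_of_le_one hr.le hrle (Nat.sub_le _ _)
      have hr0 : 0 ≤ r ^ (K - 1) := by positivity
      have c3 : ∀ β, ‖fderiv ℝ (v β) z‖ ≤ C₂ * r ^ K := by
        intro β
        rw [hvd]
        exact (hb β).2.1.trans (mul_le_mul_of_nonneg_left (pow_le_pow_left₀ dist_nonneg hd _) hC₂)
      have c4 : ∀ β, ‖fderiv ℝ (fderiv ℝ (v β)) z‖ ≤ C₂ * r ^ (K - 1) := by
        intro β
        rw [hvdd]
        exact (hb β).2.2.trans (mul_le_mul_of_nonneg_left (pow_le_pow_left₀ dist_nonneg hd _) hC₂)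
      have c1 : ∀ β, ‖fderiv ℝ (ut τ x₀ (psum Q K) β) z‖ ≤ A' + C₂ := by
        intro β
        have h5 : fderiv ℝ (ut τ x₀ (psum Q K) β) z = fderiv ℝ (u β) z - fderiv ℝ (v β) z := by
          rw [hvd]
          abel
        rw [h5]
        refine (norm_sub_le _ _).trans (add_le_add ((hb3 β).1.trans ?_) ((c3 β).trans ?_))
        · calc A' * r ≤ A' * 1 := mul_le_mul_of_nonneg_left hrle hA'
            _ = A' := mul_one _
        · calc C₂ * r ^ K ≤ C₂ * 1 := mul_le_mul_of_nonneg_left hrK hC₂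
            _ = C₂ := mul_one _
      have c2 : ∀ β, ‖fderiv ℝ (fderiv ℝ (ut τ x₀ (psum Q K) β)) z‖ ≤ A' + C₂ := by
        intro β
        have h5 : fderiv ℝ (fderiv ℝ (ut τ x₀ (psum Q K) β)) z =
            fderiv ℝ (fderiv ℝ (u β)) z + (-1 : ℝ) • fderiv ℝ (fderiv ℝ (v β)) z := by
          rw [hvdd, smul_sub, neg_smul, neg_smul, one_smul, one_smul]
          abel
        rw [h5]
        refine (ContinuousLinearMap.opNorm_add_le _ _).trans (add_le_add (hb3 β).2 ?_)
        refine (norm_smul_bil _ _).trans ?_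
        rw [abs_neg, abs_one, one_mul]
        refine (c4 β).trans ?_
        calc C₂ * r ^ (K - 1) ≤ C₂ * 1 := mul_le_mul_of_nonneg_left hrK1 hC₂
          _ = C₂ := mul_one _
      have hcr := t_CROSS N n π ν (ut τ x₀ (psum Q K)) v z (A' + C₂) (A' + C₂) (C₂ * r ^ K)
        (C₂ * r ^ (K - 1)) (ut_gf _) hvg c1 c2 c3 c4 α
      have he : (fun β y => ut τ x₀ (psum Q K) β y + v β y) = u := by
        funext β y
        simp only [hv]
        ring
      rw [he] at hcr
      have hl : |lap π (v α) z| ≤ N * (C₂ * r ^ (K - 1)) :=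
        (abs_lap_le _ _ _).trans (mul_le_mul_of_nonneg_left (c4 α) (Nat.cast_nonneg _))
      have hcr2 : 2 * (N : ℝ) ^ 2 * n * (C₂ * r ^ (K - 1) * (A' + C₂ + C₂ * r ^ K) +
          (A' + C₂) * (C₂ * r ^ K)) ≤ Z * r ^ (K - 1) := by
        rw [hZ, mul_assoc (2 * (N : ℝ) ^ 2 * n)]
        apply mul_le_mul_of_nonneg_left _ (by positivity)
        have q1 : C₂ * r ^ (K - 1) * (A' + C₂ + C₂ * r ^ K) ≤
            C₂ * r ^ (K - 1) * (A' + C₂ + C₂ * 1) := by gcongr
        have q2 : (A' + C₂) * (C₂ * r ^ K) ≤ (A' + C₂) * (C₂ * r ^ (K - 1)) := by gcongr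
        calc _ ≤ C₂ * r ^ (K - 1) * (A' + C₂ + C₂ * 1) + (A' + C₂) * (C₂ * r ^ (K - 1)) :=
              add_le_add q1 q2
          _ = _ := by ring
      have h9 : Fo ν u α z = (Fo ν u α z - Fo ν (ut τ x₀ (psum Q K)) α z - lap π (v α) z) +
          (Fo ν (ut τ x₀ (psum Q K)) α z + lap π (v α) z) := by ring
      rw [h9]
      refine (abs_add_le _ _).trans ((add_le_add (hcr.trans hcr2)
        ((abs_add_le _ _).trans (add_le_add e1 hl))).trans ?_)
      have h5 : 0 ≤ C₂ * r ^ (K - 1) := by positivity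
      nlinarith
  have hux0 : ∀ α, u α x₀ = 0 := by
    intro α
    have h1 := (hbA x₀ (by rw [dist_self]; exact hρA) α).1
    rw [dist_self] at h1
    have h2 : |u α x₀| ≤ 0 := by simpa using h1
    exact abs_nonpos_iff.1 h2
  have hdux0 : ∀ α, fderiv ℝ (u α) x₀ = 0 := by
    intro α
    have h1 := (hbA x₀ (by rw [dist_self]; exact hρA) α).2.1
    rw [dist_self] at h1
    have h2 : ‖fderiv ℝ (u α) x₀‖ ≤ 0 := by simpa using h1
    exact norm_le_zero_iff.1 h2
  have hhv : ∀ z, z - (π.starProjection z + vmap ν x₀ u z) = ∑ α, hh ν x₀ u α z • (ν α : E N) := by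
    intro z
    have h1 : z - (π.starProjection z + vmap ν x₀ u z) =
        πᗮ.starProjection (z - x₀) - ∑ α, u α z • (ν α : E N) := by
      have h2 := split (π := π) z
      unfold vmap
      rw [map_sub]
      nth_rewrite 1 [h2]
      abel
    rw [h1, perp_eq (ν := ν), ← Finset.sum_sub_distrib]
    refine Finset.sum_congr rfl fun α _ => ?_
    rw [← sub_smul]
    rfl
  refine ⟨vmap ν x₀ u, ?_, ?_, ?_, ?_, ?_, ?_⟩
  · exact contDiff_const.add (ContDiff.sum fun α _ => (huc α).smul contDiff_const)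
  · intro z
    unfold vmap
    congr 1
    refine Finset.sum_congr rfl fun α _ => ?_
    rw [hupi α z, hupi α (π.starProjection z)]
    congr 3
    rw [map_sub, map_sub, proj_idem]
  · intro z
    unfold vmap
    exact Submodule.add_mem _ (Submodule.starProjection_apply_mem _ _)
      (Submodule.sum_mem _ fun α _ => Submodule.smul_mem _ _ (ν α).2)
  · unfold vmap
    simp only [hux0, zero_smul, Finset.sum_const_zero, add_zero]
    exact split x₀
  · rw [vm_fd hu]
    ext1 v
    rw [Ao_apply]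
    simp [hdux0]
  · intro K
    have hE' := hexp (K + 1) (by omega)
    obtain ⟨C₃, ρ₃, hρ₃, h₃⟩ := tilt_gen hW (by omega : 1 ≤ K + 1) hu hbd hE'
    obtain ⟨C, ρ, hC, hρ, hρ1, h⟩ := hE'
    refine ⟨n * C + |C₃|, min ρ ρ₃, lt_min hρ hρ₃, ?_, ?_, ?_⟩
    · intro z hz hzρ
      have hzρ' : dist z x₀ < ρ := hzρ.trans_le (min_le_left _ _)
      rw [hhv]
      have h1 : ‖∑ α, hh ν x₀ u α z • (ν α : E N)‖ ≤ n * C * dist z x₀ ^ (K + 1 + 1) := by
        apply lim_r hzρ'
        intro r hr hrρ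
        have hr0 : 0 < r := dist_nonneg.trans_lt hr
        have h1 := (h r hr0 hrρ).1 z hz (mem_closedBall.2 hr.le)
        refine (norm_comb_le _).trans ?_
        calc ∑ α, |hh ν x₀ u α z| ≤ ∑ _α : Fin n, C * r ^ (K + 1 + 1) :=
              Finset.sum_le_sum fun α _ => h1 α
          _ = n * C * r ^ (K + 1 + 1) := by
            rw [Finset.sum_const, Finset.card_univ, Fintype.card_fin, nsmul_eq_mul]
            ring
      have h2 : dist z x₀ ^ (K + 1 + 1) ≤ dist z x₀ ^ K :=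
        pow_le_pow_of_le_one dist_nonneg (by linarith) (by omega)
      have h3 : 0 ≤ |C₃| * dist z x₀ ^ K := by positivity
      have h4 : (n : ℝ) * C * dist z x₀ ^ (K + 1 + 1) ≤ n * C * dist z x₀ ^ K :=
        mul_le_mul_of_nonneg_left h2 (by positivity)
      linarith
    · intro z hzρ t ht htp
      have hzρ' : dist z x₀ < ρ := hzρ.trans_le (min_le_left _ _)
      rw [vm_second hu hW.glo.dimπ z t ht htp]
      have h1 : ‖∑ α, Fo ν u α z • (ν α : E N)‖ ≤ n * C * dist z x₀ ^ K := by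
        apply lim_r hzρ'
        intro r hr hrρ
        have hr0 : 0 < r := dist_nonneg.trans_lt hr
        have h1 := (h r hr0 hrρ).2 z (mem_closedBall.2 hr.le)
        refine (norm_comb_le _).trans ?_
        calc ∑ α, |Fo ν u α z| ≤ ∑ _α : Fin n, C * r ^ (K + 1 - 1) :=
              Finset.sum_le_sum fun α _ => h1 α
          _ = n * C * r ^ K := by
            rw [Finset.sum_const, Finset.card_univ, Fintype.card_fin, nsmul_eq_mul,
              Nat.add_sub_cancel]
            ring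
      have h3 : 0 ≤ |C₃| * dist z x₀ ^ K := by positivity
      linarith
    · intro r hr hrρ
      have hr1 : r ≤ 1 := (hrρ.trans_le (min_le_left _ _)).le.trans hρ1
      have h1 := h₃ r hr (hrρ.trans_le (min_le_right _ _))
      have h2 : ∫⁻ z in ball x₀ r, Helper68V.Pub.tilt π (vmap ν x₀ u) z (T z) ∂μ =
          ∫⁻ z in ball x₀ r, ENNReal.ofReal (‖(T z).starProjection -
            (gp π (Ao ν u z)).starProjection‖ ^ 2) ∂μ := by
        apply lintegral_congr
        intro z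
        have e : Helper68V.Pub.tangentPlane π (vmap ν x₀ u) z = gp π (Ao ν u z) := by
          have h1 : Helper68V.Pub.tangentPlane π (vmap ν x₀ u) z =
              gp π (fderiv ℝ (vmap ν x₀ u) z) := rfl
          rw [h1, vm_fd hu]
        exact congrArg (fun S : Submodule ℝ (EuclideanSpace ℝ (Fin N)) =>
          ENNReal.ofReal (‖(T z).starProjection - S.starProjection‖ ^ 2)) e
      rw [h2]
      refine h1.trans (ENNReal.ofReal_le_ofReal ?_)
      have h3 : r ^ (m + 2 * (K + 1)) ≤ r ^ K := pow_le_pow_of_le_one hr.le hr1 (by omega)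
      have h4 : C₃ * r ^ (m + 2 * (K + 1)) ≤ |C₃| * r ^ K :=
        (mul_le_mul_of_nonneg_right (le_abs_self _) (by positivity)).trans
          (mul_le_mul_of_nonneg_left h3 (abs_nonneg _))
      have h5 : 0 ≤ (n : ℝ) * C * r ^ K := by positivity
      linarith

end Pool.Agent.Helper68X
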