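import Pool.Agent.Helper68X.Asm
import Pool.Agent.Helper68X.BASE
import Pool.Agent.Helper68X.Smo2

/-!
Project JET: the final theorem, modulo BOR and AE (helper68).
-/

set_option autoImplicit false

namespace Pool.Agent.Helper68X

open MeasureTheory Set Filter Topology Metric Pool.Agent.TH337.VF Pool.Agent.Helper68V
open scoped ENNReal RealInnerProductSpace ContDiff

variable {N m : ℕ} {U : Set (E N)} {μ : Measure (E N)} {T : E N → Submodule ℝ (E N)} {θ : ℝ≥0∞}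

/-- the theorem at a point -/
theorem fin_point (hBOR : S_BOR) (hm : 1 ≤ m) (hU : IsOpen U)
    (hV : Helper68V.Pub.IsStationaryVarifold m U μ T) (hθ0 : θ ≠ 0) (hθ1 : θ ≠ ⊤)
    (hθ : ∀ᵐ x ∂(μ.restrict U), θ ≤ density m μ x) {x₀ : E N} (hx₀ : x₀ ∈ U)
    (hxs : x₀ ∈ μ.support) {π : Submodule ℝ (E N)} (hπ : Module.finrank ℝ π = m)
    (hT : FlatTangent m μ x₀ π (density m μ x₀).toReal)
    (hd : upperDens m μ {z | density m μ z ≠ density m μ x₀} x₀ = 0) :
    InfiniteContact m μ T π x₀ := by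
  obtain ⟨B, θ', hW⟩ := t_WD t_INIT wb N m U μ T θ x₀ π
    ((stdOrthonormalBasis ℝ π).reindex (finCongr hπ)) hm hU hV hθ0 hθ1 hθ hx₀ hxs hT hd
  exact smooth_final hBOR t_NRM hW (stdOrthonormalBasis ℝ πᗮ) fun K hK =>
    cut t_NRM hK (jets t_BASE hW _ K (1 / 2) (by norm_num) (by norm_num))

/-- the theorem at almost every point -/
theorem fin_ae (hBOR : S_BOR) (hAE : S_AE) (hm : 1 ≤ m) (hU : IsOpen U)
    (hV : Helper68V.Pub.IsStationaryVarifold m U μ T)
    (hθ : ∀ᵐ x ∂(μ.restrict U), ∃ k : ℕ, 1 ≤ k ∧ density m μ x = k)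
    (hT : ∀ᵐ x ∂(μ.restrict U), FlatTangent m μ x (T x) (density m μ x).toReal) :
    ∀ᵐ x ∂(μ.restrict U), InfiniteContact m μ T (T x) x := by
  have hθ' : ∀ᵐ x ∂(μ.restrict U), (1 : ℝ≥0∞) ≤ density m μ x := by
    filter_upwards [hθ] with x hx
    obtain ⟨k, hk, h⟩ := hx
    rw [h]
    exact_mod_cast hk
  filter_upwards [hT, hAE N m U μ T hm hU hV hθ, hV.dim_plane, ae_restrict_mem hU.measurableSet,
    ae_restrict_of_ae (Measure.support_mem_ae (μ := μ))] with x h1 h2 h3 h4 h5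
  exact fin_point hBOR hm hU hV one_ne_zero ENNReal.one_ne_top hθ' h4 h5 h3 h1 h2

end Pool.Agent.Helper68X
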