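import Pool.Agent.Helper68X.Ene

/-!
Almost harmonicity of the heights, comparison with averages at the good points.
-/

set_option autoImplicit false

namespace Pool.Agent.Helper68X

open MeasureTheory Set Filter Topology Metric Pool.Agent.TH337.VF Pool.Agent.Helper68V
open scoped ENNReal RealInnerProductSpace ContDiff

variable {N m n : ℕ} {U : Set (E N)} {μ : Measure (E N)} {T : E N → Submodule ℝ (E N)}
  {π : Submodule ℝ (E N)} {ν : OrthonormalBasis (Fin n) ℝ πᗮ} {x₀ : E N} {u : Fin n → E N → ℝ}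
  {r e F η : ℝ}

lemma cont_lap (S : Submodule ℝ (E N)) {g : E N → ℝ} (hg : ContDiff ℝ 2 g) : Continuous (lap S g) := by
  have h1 : ContDiff ℝ 1 (fderiv ℝ g) := hg.fderiv_right (by norm_num)
  have h2 : Continuous (fderiv ℝ (fderiv ℝ g)) := h1.continuous_fderiv one_ne_zero
  unfold lap
  exact continuous_finsetSum _ fun i _ => (h2.clm_apply continuous_const).clm_apply continuous_const

/-- constants -/
noncomputable def C0 (m n : ℕ) : ℝ := 16 * (n * (m + 4) + n ^ 2 + n)

lemma C0_nonneg (m n : ℕ) : 0 ≤ C0 m n := by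
  unfold C0
  positivity

noncomputable def CN (N m n : ℕ) : ℝ := N * (2 * (1 + C0 m n) + 2 * (n * N)) + 2 + C0 m n

lemma CN_nonneg (N m n : ℕ) : 0 ≤ CN N m n := by
  have := C0_nonneg m n
  unfold CN
  positivity

/-- **almost harmonicity** -/
lemma almost_harm (hG : Glo m U μ T π) (hs : Sc U μ ν x₀ u r e F η) {ζ : E N → ℝ}
    (hζ : ContDiff ℝ 2 ζ) {Z : ℝ} (hZ : 0 ≤ Z) (hsup : ∀ z, z ∉ closedBall x₀ (r / 2) → ζ z = 0)
    (hζ0 : ∀ z, |ζ z| ≤ Z) (hζ2 : ∀ z, ‖fderiv ℝ (fderiv ℝ ζ) z‖ ≤ Z / r ^ 2) (α : Fin n) :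
    |∫ z in closedBall x₀ (r / 2), hh ν x₀ u α z * lap π ζ z ∂μ| * r ^ 2 ≤
      CN N m n * Z * (F * r ^ 2 + η * e) * μ.real (closedBall x₀ r) := by
  have hr := hs.r0
  have he := hs.e0
  have hF := hs.F0
  have hη := hs.η0
  have hη1 := hs.η1
  have hR2 : 0 < r ^ 2 := by positivity
  have hsubI : closedBall x₀ (r / 2) ⊆ closedBall x₀ r := closedBall_subset_closedBall (by linarith)
  have hIU : closedBall x₀ (r / 2) ⊆ U := hsubI.trans hs.sub
  have hfinI := fin_cb hG hIU
  have hfinm : IsFiniteMeasure (μ.restrict (closedBall x₀ (r / 2))) := ⟨by simpa using hfinI⟩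
  have hhc : ContDiff ℝ 2 (hh ν x₀ u α) := hh_cd hs.gf α
  have hhcs : ∀ α, ContDiff ℝ 2 (hh ν x₀ u α) := fun α => hh_cd hs.gf α
  have htsup : tsupport ζ ⊆ closedBall x₀ (r / 2) := by
    apply closure_minimal _ isClosed_closedBall
    intro y hy
    by_contra hc
    exact hy (hsup y hc)
  have hcs : HasCompactSupport ζ := HasCompactSupport.intro (isCompact_closedBall x₀ (r / 2)) hsup
  obtain ⟨hint, hstat⟩ := green hG.stat hζ hcs (htsup.trans hIU) hhc
  have h3 : ∫ y in closedBall x₀ (r / 2),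
      (ζ y * lap (T y) (hh ν x₀ u α) y - hh ν x₀ u α y * lap (T y) ζ y) ∂μ = 0 := by
    rw [← hstat]
    apply setIntegral_eq_integral_of_forall_compl_eq_zero
    intro y hy
    rw [hsup y hy, lap_zero_of_notMem fun h => hy (htsup h)]
    ring
  have i1 := int_lap hG.stat hhc hfinI hζ.continuous
  have i2 := int_lap hG.stat hζ hfinI hhc.continuous
  have i3 : IntegrableOn (fun y => hh ν x₀ u α y * lap π ζ y) (closedBall x₀ (r / 2)) μ :=
    integrableOn_cb hfinI (hhc.continuous.mul (cont_lap π hζ))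
  set t : ℝ := e / r + F * r with ht
  have ht0 : 0 < t := by positivity
  set J : E N → ℝ := fun z => JJ (T z) (hh ν x₀ u) z with hJ
  have hJi : IntegrableOn J (closedBall x₀ (r / 2)) μ := by
    have := int_JJ hG.stat hhcs hfinI (k := fun _ => (1:ℝ)) continuous_const
    simpa using this
  have hcac := cacc hG hs
  have e0 : ∫ z in closedBall x₀ (r / 2), hh ν x₀ u α z * lap π ζ z ∂μ =
      ∫ z in closedBall x₀ (r / 2), ((hh ν x₀ u α z * lap π ζ z - hh ν x₀ u α z * lap (T z) ζ z) +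
        ζ z * lap (T z) (hh ν x₀ u α) z) ∂μ := by
    have i32 : IntegrableOn (fun z => hh ν x₀ u α z * lap π ζ z - hh ν x₀ u α z * lap (T z) ζ z)
        (closedBall x₀ (r / 2)) μ := i3.sub i2
    rw [integral_add i32 i1, integral_sub i3 i2]
    rw [integral_sub i1 i2] at h3
    linarith
  set a₁ : ℝ := e * (N * (Z / r ^ 2)) * (t + 2 * (n * N) * η) + Z * (F + η / r * t) with ha₁
  set a₂ : ℝ := e * (N * (Z / r ^ 2)) / t + Z * (η / r) / t with ha₂
  have ha₂0 : 0 ≤ a₂ := by positivity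
  have e1 : ‖∫ z in closedBall x₀ (r / 2), ((hh ν x₀ u α z * lap π ζ z -
      hh ν x₀ u α z * lap (T z) ζ z) + ζ z * lap (T z) (hh ν x₀ u α) z) ∂μ‖ ≤
      ∫ z in closedBall x₀ (r / 2), (a₁ + a₂ * J z) ∂μ := by
    apply norm_integral_le_of_norm_le ((integrable_const a₁).add (hJi.const_mul a₂))
    filter_upwards [ae_facts hG hIU, ae_restrict_mem measurableSet_closedBall] with z hz hzI
    obtain ⟨hzd, hzs⟩ := hz
    have hzr := hsubI hzI
    have hJ0 : 0 ≤ J z := JJ_nonneg (T z) (hh ν x₀ u) z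
    have b1 := lap_pi (ν := ν) (x₀ := x₀) hs.gf hzd ζ z hη.le (hs.d1 z hzr)
    have b2 := hs.lap hzd hzr α
    have b3 := hs.h z hzs hzr α
    have q1 : 2 * Real.sqrt (J z) ≤ J z / t + t := by
      have h5 : Real.sqrt (J z) ^ 2 = J z := Real.sq_sqrt hJ0
      have h6 : J z / t + t - 2 * Real.sqrt (J z) = (Real.sqrt (J z) - t) ^ 2 / t := by
        field_simp
        nlinarith
      have h7 : 0 ≤ (Real.sqrt (J z) - t) ^ 2 / t := by positivity
      linarith
    have q2 : Real.sqrt (2 * J z) ≤ J z / t + t := by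
      have h5 : Real.sqrt (2 * J z) ^ 2 = 2 * J z := Real.sq_sqrt (by positivity)
      obtain ⟨q, hq⟩ : ∃ q, q = Real.sqrt (2 * J z) := ⟨_, rfl⟩
      rw [← hq] at h5 ⊢
      have h6 : J z / t + t / 2 - q = (q - t) ^ 2 / (2 * t) := by
        field_simp
        nlinarith
      have h7 : 0 ≤ (q - t) ^ 2 / (2 * t) := by positivity
      linarith
    rw [Real.norm_eq_abs]
    have c1 : |hh ν x₀ u α z * lap π ζ z - hh ν x₀ u α z * lap (T z) ζ z| ≤
        e * ((N * (Z / r ^ 2)) * (J z / t + t + 2 * (n * N) * η)) := by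
      have : hh ν x₀ u α z * lap π ζ z - hh ν x₀ u α z * lap (T z) ζ z =
          -(hh ν x₀ u α z * (lap (T z) ζ z - lap π ζ z)) := by ring
      rw [this, abs_neg, abs_mul]
      apply mul_le_mul b3 _ (abs_nonneg _) he.le
      refine b1.trans ?_
      apply mul_le_mul
      · exact mul_le_mul_of_nonneg_left (hζ2 z) (by positivity)
      · linarith
      · positivity
      · positivity
    have c2 : |ζ z * lap (T z) (hh ν x₀ u α) z| ≤ Z * (F + η / r * (J z / t + t)) := by
      rw [abs_mul]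
      apply mul_le_mul (hζ0 z) _ (abs_nonneg _) hZ
      refine b2.trans ?_
      have := mul_le_mul_of_nonneg_left q2 (by positivity : 0 ≤ η / r)
      linarith
    refine (abs_add_le _ _).trans ((add_le_add c1 c2).trans (le_of_eq ?_))
    show _ = a₁ + a₂ * J z
    rw [ha₁, ha₂]
    ring
  rw [integral_add (integrable_const a₁) (hJi.const_mul a₂), integral_const_mul, setIntegral_const,
    smul_eq_mul] at e1
  rw [e0, ← Real.norm_eq_abs]
  have hμI : μ.real (closedBall x₀ (r / 2)) ≤ μ.real (closedBall x₀ r) :=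
    measureReal_mono hsubI (fin_cb hG hs.sub).ne
  have hμ : 0 ≤ μ.real (closedBall x₀ r) := measureReal_nonneg
  have hCn := C0_nonneg m n
  have e2 : ‖∫ z in closedBall x₀ (r / 2), ((hh ν x₀ u α z * lap π ζ z -
      hh ν x₀ u α z * lap (T z) ζ z) + ζ z * lap (T z) (hh ν x₀ u α) z) ∂μ‖ ≤
      (a₁ + a₂ * (C0 m n * t ^ 2)) * μ.real (closedBall x₀ r) := by
    refine e1.trans ?_
    have h8 : μ.real (closedBall x₀ (r / 2)) * a₁ ≤ μ.real (closedBall x₀ r) * a₁ :=
      mul_le_mul_of_nonneg_right hμI (by positivity)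
    have h9 := mul_le_mul_of_nonneg_left hcac ha₂0
    have h10 : a₂ * (16 * (n * (m + 4) + n ^ 2 + n) * (e / r + F * r) ^ 2 *
        μ.real (closedBall x₀ r)) = a₂ * (C0 m n * t ^ 2) * μ.real (closedBall x₀ r) := by
      unfold C0
      ring
    linarith
  have e3 : (a₁ + a₂ * (C0 m n * t ^ 2)) * r ^ 2 ≤ CN N m n * Z * (F * r ^ 2 + η * e) := by
    have h11 : (a₁ + a₂ * (C0 m n * t ^ 2)) * r ^ 2 = Z * (e * N * ((1 + C0 m n) * t +
        2 * (n * N) * η) + F * r ^ 2 + η * (1 + C0 m n) * (t * r)) := by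
      rw [ha₁, ha₂]
      field_simp
      ring
    have h12 : t * r = e + F * r ^ 2 := by
      rw [ht]
      field_simp
    have h13 : e * t ≤ 2 * (η * e) := by
      have h14 : e / r ≤ η := by
        rw [div_le_iff₀ hr]
        exact hs.er
      have h15 : t ≤ 2 * η := by
        rw [ht]
        linarith [hs.Fr]
      nlinarith
    rw [h11, h12]
    have h16 : e * N * ((1 + C0 m n) * t + 2 * (n * N) * η) + F * r ^ 2 +
        η * (1 + C0 m n) * (e + F * r ^ 2) ≤ CN N m n * (F * r ^ 2 + η * e) := by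
      have p1 : (N : ℝ) * (1 + C0 m n) * (e * t) ≤ N * (1 + C0 m n) * (2 * (η * e)) :=
        mul_le_mul_of_nonneg_left h13 (by positivity)
      have p2 : η * (1 + C0 m n) * (F * r ^ 2) ≤ (1 + C0 m n) * (F * r ^ 2) := by
        have : 0 ≤ (1 + C0 m n) * (F * r ^ 2) := by positivity
        nlinarith
      have p3 : 0 ≤ (N : ℝ) * (2 * (1 + C0 m n) + 2 * (n * N)) * (F * r ^ 2) := by positivity
      have p4 : 0 ≤ η * e := by positivity
      unfold CN
      nlinarith
    calc Z * (e * N * ((1 + C0 m n) * t + 2 * (n * N) * η) + F * r ^ 2 +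
          η * (1 + C0 m n) * (e + F * r ^ 2)) ≤ Z * (CN N m n * (F * r ^ 2 + η * e)) :=
          mul_le_mul_of_nonneg_left h16 hZ
      _ = _ := by ring
  calc ‖∫ z in closedBall x₀ (r / 2), ((hh ν x₀ u α z * lap π ζ z -
      hh ν x₀ u α z * lap (T z) ζ z) + ζ z * lap (T z) (hh ν x₀ u α) z) ∂μ‖ * r ^ 2
      ≤ (a₁ + a₂ * (C0 m n * t ^ 2)) * μ.real (closedBall x₀ r) * r ^ 2 :=
        mul_le_mul_of_nonneg_right e2 hR2.le
    _ = (a₁ + a₂ * (C0 m n * t ^ 2)) * r ^ 2 * μ.real (closedBall x₀ r) := by ring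
    _ ≤ _ := mul_le_mul_of_nonneg_right e3 hμ

end Pool.Agent.Helper68X
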