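import Pool.Agent.Helper68X.Stm

/-!
# Project JET: piece KT (Taylor expansion of a smooth compactly supported kernel)
-/

set_option autoImplicit false

namespace Pool.Agent.Helper68X

open MeasureTheory Set Filter Topology Metric Pool.Agent.TH337.VF
open scoped ENNReal RealInnerProductSpace ContDiff Nat

namespace KT

variable {N m : ℕ}

theorem der_cont {G : E N → ℝ} (hG : ContDiff ℝ ∞ G) (j : ℕ) :
    Continuous fun a => iteratedFDeriv ℝ j G a :=
  hG.continuous_iteratedFDeriv (by exact_mod_cast le_top)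

theorem der_zero {G : E N → ℝ} (hG : ContDiff ℝ ∞ G) (h0 : ∀ z, 1 ≤ ‖z‖ → G z = 0) (j : ℕ)
    (a : E N) (ha : 1 ≤ ‖a‖) : iteratedFDeriv ℝ j G a = 0 := by
  have hc : Continuous fun t : ℝ => iteratedFDeriv ℝ j G (t • a) :=
    (der_cont hG j).comp (continuous_id.smul continuous_const)
  have hcl : IsClosed {t : ℝ | iteratedFDeriv ℝ j G (t • a) = 0} :=
    isClosed_eq hc continuous_const
  have hts : tsupport G ⊆ closedBall 0 1 := by
    refine closure_minimal ?_ isClosed_closedBall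
    intro z hz
    rw [mem_closedBall_zero_iff]
    by_contra h
    exact hz (h0 z (not_le.mp h).le)
  have hsub : Ioi (1:ℝ) ⊆ {t : ℝ | iteratedFDeriv ℝ j G (t • a) = 0} := by
    intro t ht
    by_contra h
    have h1 : t • a ∈ tsupport G := support_iteratedFDeriv_subset j h
    have h2 := hts h1
    have ht' : (1:ℝ) < t := ht
    rw [mem_closedBall_zero_iff, norm_smul, Real.norm_eq_abs, abs_of_pos (by linarith)] at h2
    nlinarith
  have h3 := hcl.closure_subset_iff.mpr hsub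
  rw [closure_Ioi] at h3
  have h4 : (1:ℝ) ∈ {t : ℝ | iteratedFDeriv ℝ j G (t • a) = 0} := h3 (mem_Ici.mpr le_rfl)
  simpa using h4

theorem der_bound {G : E N → ℝ} (hG : ContDiff ℝ ∞ G) (h0 : ∀ z, 1 ≤ ‖z‖ → G z = 0) (j : ℕ) :
    ∃ B : ℝ, 0 ≤ B ∧ ∀ a, ‖iteratedFDeriv ℝ j G a‖ ≤ B := by
  obtain ⟨B, hB⟩ := (isCompact_closedBall (0 : E N) 1).exists_bound_of_continuousOn
    (der_cont hG j).continuousOn
  refine ⟨max B 0, le_max_right _ _, fun a => ?_⟩
  by_cases ha : ‖a‖ ≤ 1
  · exact (hB a (mem_closedBall_zero_iff.mpr ha)).trans (le_max_left _ _)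
  · rw [der_zero hG h0 j a (not_le.mp ha).le, norm_zero]
    exact le_max_right _ _

theorem line_der {G : E N → ℝ} (hG : ContDiff ℝ ∞ G) (a v : E N) (j : ℕ) (t : ℝ) :
    iteratedDeriv j (fun t : ℝ => G (a + t • v)) t =
      iteratedFDeriv ℝ j G (a + t • v) fun _ => v := by
  have h1 : (fun t : ℝ => G (a + t • v)) =
      (fun y => G (a + y)) ∘ (ContinuousLinearMap.toSpanSingleton ℝ v) := rfl
  have h2 : ContDiff ℝ ∞ fun y => G (a + y) := hG.comp (contDiff_const.add contDiff_id)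
  rw [iteratedDeriv_eq_iteratedFDeriv, h1,
    ContinuousLinearMap.iteratedFDeriv_comp_right _ h2 _ (by exact_mod_cast le_top),
    iteratedFDeriv_comp_add_left]
  simp

/-- Taylor's formula -/
theorem taylor {G : E N → ℝ} (hG : ContDiff ℝ ∞ G) (d : ℕ) {B : ℝ}
    (hB : ∀ a, ‖iteratedFDeriv ℝ (d + 1) G a‖ ≤ B) (a v : E N) :
    |G (a + v) - ∑ k ∈ Finset.range (d + 1), (k ! : ℝ)⁻¹ * iteratedFDeriv ℝ k G a fun _ => v| ≤
      B * ‖v‖ ^ (d + 1) := by
  have hf : ContDiff ℝ ∞ fun t : ℝ => G (a + t • v) :=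
    hG.comp (contDiff_const.add (contDiff_id.smul contDiff_const))
  have hw : ∀ (k : ℕ) (t : ℝ), t ∈ Icc (0:ℝ) 1 →
      iteratedDerivWithin k (fun t : ℝ => G (a + t • v)) (Icc 0 1) t =
        iteratedFDeriv ℝ k G (a + t • v) fun _ => v := by
    intro k t ht
    rw [iteratedDerivWithin_eq_iteratedDeriv (uniqueDiffOn_Icc zero_lt_one)
      ((hf.of_le (by exact_mod_cast le_top)).contDiffAt) ht, line_der hG]
  have hb : 0 ≤ B := (norm_nonneg _).trans (hB a)
  have h1 := taylor_mean_remainder_bound (f := fun t : ℝ => G (a + t • v)) (a := 0) (b := 1)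
    (C := B * ‖v‖ ^ (d + 1)) (x := 1) (n := d) zero_le_one
    ((hf.of_le (by exact_mod_cast le_top)).contDiffOn) (right_mem_Icc.mpr zero_le_one) ?_
  · rw [taylor_within_apply] at h1
    simp only [one_smul, sub_zero, one_pow, mul_one] at h1
    rw [Real.norm_eq_abs] at h1
    have h2 : ∑ k ∈ Finset.range (d + 1), ((k ! : ℝ)⁻¹ * (1:ℝ)) •
        iteratedDerivWithin k (fun t : ℝ => G (a + t • v)) (Icc 0 1) 0 =
        ∑ k ∈ Finset.range (d + 1), (k ! : ℝ)⁻¹ * iteratedFDeriv ℝ k G a fun _ => v := by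
      refine Finset.sum_congr rfl fun k _ => ?_
      rw [hw k 0 (left_mem_Icc.mpr zero_le_one), zero_smul, add_zero, mul_one, smul_eq_mul]
    simp only [mul_one] at h2
    rw [h2] at h1
    refine h1.trans (div_le_self (by positivity) ?_)
    exact_mod_cast Nat.factorial_pos d
  · intro y hy
    rw [hw (d + 1) y hy]
    refine (ContinuousMultilinearMap.le_opNorm _ _).trans ?_
    rw [Finset.prod_const, Finset.card_univ, Fintype.card_fin]
    exact mul_le_mul_of_nonneg_right (hB _) (by positivity)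

/-- the exponent of the monomial `∏ X_(I l)` -/
noncomputable def ex {j : ℕ} (I : Fin j → Fin m) : Fin m →₀ ℕ := ∑ l, Finsupp.single (I l) 1

theorem ex_deg {j : ℕ} (I : Fin j → Fin m) : (ex I).degree = j := by
  unfold ex
  rw [map_sum]
  simp

/-- the coefficient -/
noncomputable def cf' (τ : Fin m → E N) (G : E N → ℝ) (a : E N) {j : ℕ} (I : Fin j → Fin m) : ℝ :=
  (j ! : ℝ)⁻¹ * iteratedFDeriv ℝ j G a fun l => τ (I l)

/-- the Taylor polynomial -/
noncomputable def tp (τ : Fin m → E N) (G : E N → ℝ) (d : ℕ) (a : E N) : Pol m :=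
  ∑ j ∈ Finset.range (d + 1), ∑ I : Fin j → Fin m, MvPolynomial.monomial (ex I) (cf' τ G a I)

theorem tp_deg (τ : Fin m → E N) (G : E N → ℝ) (d : ℕ) (a : E N) :
    (tp τ G d a).totalDegree ≤ d := by
  unfold tp
  refine MvPolynomial.totalDegree_finsetSum_le fun j hj => ?_
  refine MvPolynomial.totalDegree_finsetSum_le fun I _ => ?_
  refine (MvPolynomial.totalDegree_monomial_le _ _).trans ?_
  have h1 : (ex I).degree = (ex I).sum fun _ e => e := by
    rw [Finsupp.degree_eq_sum, Finsupp.sum_fintype]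
    intro i
    rfl
  have h2 := ex_deg I
  rw [h1] at h2
  have h3 := Finset.mem_range.mp hj
  simp only [Function.id_def] at *
  omega

theorem tp_coeff (τ : Fin m → E N) (G : E N → ℝ) (d : ℕ) (a : E N) (s : Fin m →₀ ℕ) :
    (tp τ G d a).coeff s = ∑ j ∈ Finset.range (d + 1), ∑ I : Fin j → Fin m,
      if ex I = s then cf' τ G a I else 0 := by
  unfold tp
  rw [MvPolynomial.coeff_sum]
  refine Finset.sum_congr rfl fun j _ => ?_
  rw [MvPolynomial.coeff_sum]
  refine Finset.sum_congr rfl fun I _ => ?_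
  rw [MvPolynomial.coeff_monomial]

theorem tp_eval (τ : Fin m → E N) (G : E N → ℝ) (d : ℕ) (a : E N) (x : Fin m → ℝ) :
    MvPolynomial.eval x (tp τ G d a) = ∑ k ∈ Finset.range (d + 1),
      (k ! : ℝ)⁻¹ * iteratedFDeriv ℝ k G a fun _ => ∑ i, x i • τ i := by
  unfold tp
  rw [map_sum]
  refine Finset.sum_congr rfl fun j _ => ?_
  rw [map_sum, ContinuousMultilinearMap.map_sum, Finset.mul_sum]
  refine Finset.sum_congr rfl fun I _ => ?_
  rw [ContinuousMultilinearMap.map_smul_univ, smul_eq_mul]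
  have h1 : MvPolynomial.monomial (ex I) (cf' τ G a I) =
      MvPolynomial.C (cf' τ G a I) * ∏ l, MvPolynomial.X (I l) := by
    unfold ex
    rw [MvPolynomial.monomial_sum_index]
    rfl
  rw [h1, map_mul, MvPolynomial.eval_C, map_prod]
  simp only [MvPolynomial.eval_X]
  unfold cf'
  ring

end KT

open KT in
/-- **Piece KT** -/
theorem t_KT : S_KT := by
  intro N m d τ G hG h0
  obtain ⟨B, hB0, hB⟩ := der_bound hG h0 (d + 1)
  have hcont : ∀ s, Continuous fun a => (tp τ G d a).coeff s := by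
    intro s
    simp only [tp_coeff]
    refine continuous_finsetSum _ fun j _ => continuous_finsetSum _ fun I _ => ?_
    split_ifs
    · unfold cf'
      exact continuous_const.mul ((der_cont hG j).eval_const _)
    · exact continuous_const
  have hz : ∀ a : E N, 1 ≤ ‖a‖ → tp τ G d a = 0 := by
    intro a ha
    unfold tp
    refine Finset.sum_eq_zero fun j _ => Finset.sum_eq_zero fun I _ => ?_
    unfold cf'
    rw [der_zero hG h0 j a ha]
    simp
  have hcb : ∀ s, ∃ Bs : ℝ, 0 ≤ Bs ∧ ∀ a, |(tp τ G d a).coeff s| ≤ Bs := by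
    intro s
    obtain ⟨b, hb⟩ := (isCompact_closedBall (0 : E N) 1).exists_bound_of_continuousOn
      (hcont s).continuousOn
    refine ⟨max b 0, le_max_right _ _, fun a => ?_⟩
    by_cases ha : ‖a‖ ≤ 1
    · exact (hb a (mem_closedBall_zero_iff.mpr ha)).trans (le_max_left _ _)
    · rw [hz a (not_le.mp ha).le, MvPolynomial.coeff_zero, abs_zero]
      exact le_max_right _ _
  choose Bs hBs0 hBs using hcb
  let T : Finset (Fin m →₀ ℕ) := (Finset.range (d + 1)).biUnion fun j =>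
    (Finset.univ : Finset (Fin j → Fin m)).image ex
  have hT : ∀ a, (tp τ G d a).support ⊆ T := by
    intro a s hs
    by_contra hne
    rw [MvPolynomial.mem_support_iff, tp_coeff] at hs
    apply hs
    refine Finset.sum_eq_zero fun j hj => Finset.sum_eq_zero fun I _ => ?_
    rw [if_neg]
    rintro rfl
    exact hne (Finset.mem_biUnion.mpr ⟨j, hj, Finset.mem_image.mpr ⟨I, Finset.mem_univ _, rfl⟩⟩)
  have hnrm : ∀ a, nrm 1 (tp τ G d a) ≤ ∑ s ∈ T, Bs s := by
    intro a
    unfold nrm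
    refine (Finset.sum_le_sum_of_subset_of_nonneg (hT a) fun s _ _ => by positivity).trans ?_
    refine Finset.sum_le_sum fun s _ => ?_
    rw [one_pow, mul_one]
    exact hBs s a
  set M : ℝ := ∑ i, ‖τ i‖ with hM
  have hM0 : 0 ≤ M := Finset.sum_nonneg fun i _ => norm_nonneg _
  have hC1 : 0 ≤ ∑ s ∈ T, Bs s := Finset.sum_nonneg fun s _ => hBs0 s
  have hC2 : 0 ≤ B * M ^ (d + 1) := by positivity
  refine ⟨tp τ G d, ∑ s ∈ T, Bs s + B * M ^ (d + 1), add_nonneg hC1 hC2, tp_deg τ G d, hcont,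
    fun a => (hnrm a).trans (le_add_of_nonneg_right hC2), hz, fun a x _ => ?_⟩
  rw [tp_eval]
  have h1 := taylor hG d hB a (∑ i, x i • τ i)
  refine h1.trans ?_
  have h2 : ‖∑ i, x i • τ i‖ ≤ M * ‖x‖ := by
    refine (norm_sum_le _ _).trans ?_
    rw [hM, Finset.sum_mul]
    refine Finset.sum_le_sum fun i _ => ?_
    rw [norm_smul, mul_comm]
    exact mul_le_mul_of_nonneg_left (norm_le_pi_norm x i) (norm_nonneg _)
  calc B * ‖∑ i, x i • τ i‖ ^ (d + 1) ≤ B * (M * ‖x‖) ^ (d + 1) := by gcongr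
    _ = B * M ^ (d + 1) * ‖x‖ ^ (d + 1) := by rw [mul_pow]; ring
    _ ≤ (∑ s ∈ T, Bs s + B * M ^ (d + 1)) * ‖x‖ ^ (d + 1) := by
      gcongr
      linarith

end Pool.Agent.Helper68X
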