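import Pool.Agent.Helper68X.Stm2

/-!
# Project JET: piece LC (the coefficients of the Laplacian of a polynomial)
-/

set_option autoImplicit false

namespace Pool.Agent.Helper68X

/-- **Piece LC** -/
theorem t_LC : S_LC := by
  intro m P s
  unfold Lap
  rw [MvPolynomial.coeff_sum]
  refine Finset.sum_congr rfl fun i _ => ?_
  rw [MvPolynomial.coeff_pderiv, MvPolynomial.coeff_pderiv, add_assoc, ← Finsupp.single_add]
  simp only [Finsupp.add_apply, Finsupp.single_eq_same]
  push_cast
  ring

end Pool.Agent.Helper68X
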