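import Pool.Agent.Helper68X.Cmp
import Pool.Agent.Helper68X.Stm2
import Pool.Agent.Helper68X.LC

/-!
Polynomials of the horizontal coordinates.
-/

set_option autoImplicit false

namespace Pool.Agent.Helper68X

open MeasureTheory Set Filter Topology Metric Pool.Agent.TH337.VF Pool.Agent.Helper68V
open scoped ENNReal RealInnerProductSpace ContDiff

variable {N m n : ℕ} {π : Submodule ℝ (E N)}

/-- the horizontal coordinates -/
noncomputable def crd (τ : OrthonormalBasis (Fin m) ℝ π) (x₀ z : E N) (i : Fin m) : ℝ :=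
  ⟪(τ i : E N), z - x₀⟫

/-- a tuple of polynomials as a tuple of functions -/
noncomputable def ut (τ : OrthonormalBasis (Fin m) ℝ π) (x₀ : E N) (P : Fin n → Pol m) (α : Fin n)
    (z : E N) : ℝ := ev (fun i => (τ i : E N)) x₀ (P α) z

variable {τ : OrthonormalBasis (Fin m) ℝ π} {x₀ : E N}

lemma ev_eq (P : Pol m) (z : E N) :
    ev (fun i => (τ i : E N)) x₀ P z = MvPolynomial.eval (crd τ x₀ z) P := rfl

lemma ev_add (P Q : Pol m) (z : E N) : ev (fun i => (τ i : E N)) x₀ (P + Q) z =
    ev (fun i => (τ i : E N)) x₀ P z + ev (fun i => (τ i : E N)) x₀ Q z := by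
  simp [ev]

lemma ev_sub (P Q : Pol m) (z : E N) : ev (fun i => (τ i : E N)) x₀ (P - Q) z =
    ev (fun i => (τ i : E N)) x₀ P z - ev (fun i => (τ i : E N)) x₀ Q z := by
  simp [ev]

lemma ev_smul (c : ℝ) (P : Pol m) (z : E N) : ev (fun i => (τ i : E N)) x₀ (c • P) z =
    c * ev (fun i => (τ i : E N)) x₀ P z := by
  simp [ev, MvPolynomial.smul_eval]

lemma crd_hasFDerivAt (i : Fin m) (z : E N) :
    HasFDerivAt (fun z => crd τ x₀ z i) (innerSL ℝ (τ i : E N)) z := by
  have h2 := ((innerSL ℝ (τ i : E N)).hasFDerivAt (x := z)).sub_const ⟪(τ i : E N), x₀⟫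
  have e : (fun z : E N => crd τ x₀ z i) =
      fun z => (innerSL ℝ (τ i : E N)) z - ⟪(τ i : E N), x₀⟫ := by
    funext z
    unfold crd
    rw [inner_sub_right]
    rfl
  rw [e]
  exact h2

lemma ev_hasFDerivAt (P : Pol m) (z : E N) : HasFDerivAt (ev (fun i => (τ i : E N)) x₀ P)
    (∑ i, ev (fun i => (τ i : E N)) x₀ (MvPolynomial.pderiv i P) z • innerSL ℝ (τ i : E N)) z := by
  classical
  induction P using MvPolynomial.induction_on with
  | C a =>
    have e : ev (fun i => (τ i : E N)) x₀ (MvPolynomial.C a) = fun _ => a := by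
      funext z
      simp [ev]
    rw [e]
    have h : ∑ i, ev (fun i => (τ i : E N)) x₀ (MvPolynomial.pderiv i (MvPolynomial.C a)) z •
        innerSL ℝ (τ i : E N) = 0 := by
      apply Finset.sum_eq_zero
      intro i _
      rw [MvPolynomial.pderiv_C]
      simp [ev]
    rw [h]
    exact hasFDerivAt_const _ _
  | add P Q hP hQ =>
    have e : ev (fun i => (τ i : E N)) x₀ (P + Q) =
        fun z => ev (fun i => (τ i : E N)) x₀ P z + ev (fun i => (τ i : E N)) x₀ Q z := by
      funext z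
      exact ev_add P Q z
    rw [e]
    have h : ∑ i, ev (fun i => (τ i : E N)) x₀ (MvPolynomial.pderiv i (P + Q)) z •
        innerSL ℝ (τ i : E N) = ∑ i, ev (fun i => (τ i : E N)) x₀ (MvPolynomial.pderiv i P) z •
        innerSL ℝ (τ i : E N) + ∑ i, ev (fun i => (τ i : E N)) x₀ (MvPolynomial.pderiv i Q) z •
        innerSL ℝ (τ i : E N) := by
      rw [← Finset.sum_add_distrib]
      refine Finset.sum_congr rfl fun i _ => ?_
      rw [map_add, ev_add, add_smul]
    rw [h]
    exact hP.add hQ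
  | mul_X P j hP =>
    have e : ev (fun i => (τ i : E N)) x₀ (P * MvPolynomial.X j) =
        fun z => ev (fun i => (τ i : E N)) x₀ P z * crd τ x₀ z j := by
      funext z
      simp [ev, crd]
    rw [e]
    have h1 := hP.mul (crd_hasFDerivAt (τ := τ) (x₀ := x₀) j z)
    have h2 : ∑ i ∈ Finset.univ.erase j, ev (fun i => (τ i : E N)) x₀
        (MvPolynomial.pderiv i (P * MvPolynomial.X j)) z • innerSL ℝ (τ i : E N) =
        ∑ i ∈ Finset.univ.erase j, crd τ x₀ z j •
        ev (fun i => (τ i : E N)) x₀ (MvPolynomial.pderiv i P) z • innerSL ℝ (τ i : E N) := by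
      refine Finset.sum_congr rfl fun i hi => ?_
      rw [MvPolynomial.pderiv_mul, MvPolynomial.pderiv_X_of_ne (Finset.ne_of_mem_erase hi).symm,
        mul_zero, add_zero, smul_smul]
      congr 1
      simp [ev, crd, mul_comm]
    have h3 : ev (fun i => (τ i : E N)) x₀ (MvPolynomial.pderiv j (P * MvPolynomial.X j)) z =
        ev (fun i => (τ i : E N)) x₀ P z + crd τ x₀ z j *
          ev (fun i => (τ i : E N)) x₀ (MvPolynomial.pderiv j P) z := by
      rw [MvPolynomial.pderiv_mul, MvPolynomial.pderiv_X_self]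
      simp [ev, crd]
      ring
    have h4 : ∑ i, ev (fun i => (τ i : E N)) x₀ (MvPolynomial.pderiv i (P * MvPolynomial.X j)) z •
        innerSL ℝ (τ i : E N) = ev (fun i => (τ i : E N)) x₀ P z • innerSL ℝ (τ j : E N) +
        crd τ x₀ z j • ∑ i, ev (fun i => (τ i : E N)) x₀ (MvPolynomial.pderiv i P) z •
          innerSL ℝ (τ i : E N) := by
      rw [Finset.smul_sum, ← Finset.sum_erase_add _ _ (Finset.mem_univ j), h2, h3,
        ← Finset.sum_erase_add (a := j) (f := fun i => crd τ x₀ z j •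
          ev (fun i => (τ i : E N)) x₀ (MvPolynomial.pderiv i P) z • innerSL ℝ (τ i : E N))
          _ (Finset.mem_univ j), add_smul, smul_smul]
      abel
    rw [h4]
    exact h1

lemma totalDegree_pderiv_le' (P : Pol m) (i : Fin m) :
    (MvPolynomial.pderiv i P).totalDegree ≤ P.totalDegree := by
  unfold MvPolynomial.totalDegree
  refine Finset.sup_le fun s hs => ?_
  rw [MvPolynomial.mem_support_iff, MvPolynomial.coeff_pderiv] at hs
  have h1 : s + Finsupp.single i 1 ∈ P.support :=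
    MvPolynomial.mem_support_iff.2 (left_ne_zero_of_mul hs)
  refine le_trans ?_ (MvPolynomial.le_totalDegree h1)
  rw [Finsupp.sum_add_index' (fun _ => rfl) (fun _ _ _ => rfl)]
  exact Nat.le_add_right _ _

lemma ev_fderiv (P : Pol m) (z v : E N) : fderiv ℝ (ev (fun i => (τ i : E N)) x₀ P) z v =
    ∑ i, ev (fun i => (τ i : E N)) x₀ (MvPolynomial.pderiv i P) z * ⟪(τ i : E N), v⟫ := by
  rw [(ev_hasFDerivAt P z).fderiv, sum_apply]
  rfl

lemma ev_cd (P : Pol m) (k : ℕ∞ω) : ContDiff ℝ k (ev (fun i => (τ i : E N)) x₀ P) := by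
  have hc : ∀ i, ContDiff ℝ k (fun z => crd τ x₀ z i) := fun i =>
    contDiff_const.inner ℝ (contDiff_id.sub contDiff_const)
  induction P using MvPolynomial.induction_on with
  | C a =>
    have e : ev (fun i => (τ i : E N)) x₀ (MvPolynomial.C a) = fun _ => a := by
      funext z
      simp [ev]
    rw [e]
    exact contDiff_const
  | add P Q hP hQ =>
    have e : ev (fun i => (τ i : E N)) x₀ (P + Q) =
        fun z => ev (fun i => (τ i : E N)) x₀ P z + ev (fun i => (τ i : E N)) x₀ Q z := by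
      funext z
      exact ev_add P Q z
    rw [e]
    exact hP.add hQ
  | mul_X P j hP =>
    have e : ev (fun i => (τ i : E N)) x₀ (P * MvPolynomial.X j) =
        fun z => ev (fun i => (τ i : E N)) x₀ P z * crd τ x₀ z j := by
      funext z
      simp [ev, crd]
    rw [e]
    exact hP.mul (hc j)

lemma ev_ff (P : Pol m) (z v w : E N) :
    fderiv ℝ (fderiv ℝ (ev (fun i => (τ i : E N)) x₀ P)) z v w =
    ∑ i, (∑ j, ev (fun i => (τ i : E N)) x₀ (MvPolynomial.pderiv j (MvPolynomial.pderiv i P)) z *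
      ⟪(τ j : E N), v⟫) * ⟪(τ i : E N), w⟫ := by
  rw [← fderiv_apply_const (cd_fderiv (ev_cd P 2) z)]
  have e : (fun y => fderiv ℝ (ev (fun i => (τ i : E N)) x₀ P) y w) = fun y =>
      ∑ i, ev (fun i => (τ i : E N)) x₀ (MvPolynomial.pderiv i P) y * ⟪(τ i : E N), w⟫ := by
    funext y
    exact ev_fderiv P y w
  rw [e]
  have h1 : ∀ i : Fin m, HasFDerivAt (fun y => ev (fun i => (τ i : E N)) x₀
      (MvPolynomial.pderiv i P) y * ⟪(τ i : E N), w⟫)
      (⟪(τ i : E N), w⟫ • fderiv ℝ (ev (fun i => (τ i : E N)) x₀ (MvPolynomial.pderiv i P)) z) z :=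
    fun i => (((ev_cd (MvPolynomial.pderiv i P) 1).differentiable one_ne_zero z).hasFDerivAt).mul_const _
  have h2 := HasFDerivAt.fun_sum (u := Finset.univ) fun i _ => h1 i
  rw [h2.fderiv, sum_apply]
  refine Finset.sum_congr rfl fun i _ => ?_
  rw [smul_apply, ev_fderiv, smul_eq_mul, mul_comm]

lemma ut_gf (P : Fin n → Pol m) : GF π (ut τ x₀ P) where
  cd α := ev_cd (P α) 2
  dep α z v := by
    have h : ∀ w, fderiv ℝ (ut τ x₀ P α) z w =
        ∑ i, ev (fun i => (τ i : E N)) x₀ (MvPolynomial.pderiv i (P α)) z * ⟪(τ i : E N), w⟫ :=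
      fun w => ev_fderiv (P α) z w
    rw [h, h]
    refine Finset.sum_congr rfl fun i _ => ?_
    rw [← proj_symm, ppi (τ i).2]

lemma norm_tau (i : Fin m) : ‖(τ i : E N)‖ = 1 := τ.orthonormal.1 i

lemma crd_le {r : ℝ} {z : E N} (hz : z ∈ closedBall x₀ r) (i : Fin m) : |crd τ x₀ z i| ≤ r := by
  rw [mem_closedBall, dist_eq_norm] at hz
  refine (abs_real_inner_le_norm _ _).trans ?_
  rw [norm_tau, one_mul]
  exact hz

lemma ev_le (hN : S_NRM) {r : ℝ} {z : E N} (hz : z ∈ closedBall x₀ r) (P : Pol m) :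
    |ev (fun i => (τ i : E N)) x₀ P z| ≤ nrm r P := by
  exact hN.eval m r P (crd τ x₀ z) (fun i => crd_le hz i)

lemma ev_fderiv_le (hN : S_NRM) {r : ℝ} {z : E N} (hr : 0 < r) (hz : z ∈ closedBall x₀ r) {d : ℕ}
    {P : Pol m} (hd : P.totalDegree ≤ d) :
    ‖fderiv ℝ (ev (fun i => (τ i : E N)) x₀ P) z‖ ≤ m * (d / r * nrm r P) := by
  have h0 := hN.nonneg m r P hr.le
  apply ContinuousLinearMap.opNorm_le_bound _ (by positivity)
  intro v
  rw [ev_fderiv, Real.norm_eq_abs]
  refine (Finset.abs_sum_le_sum_abs _ _).trans ?_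
  calc ∑ i, |ev (fun i => (τ i : E N)) x₀ (MvPolynomial.pderiv i P) z * ⟪(τ i : E N), v⟫|
      ≤ ∑ _i : Fin m, (d / r * nrm r P) * ‖v‖ := by
        refine Finset.sum_le_sum fun i _ => ?_
        rw [abs_mul]
        apply mul_le_mul ((ev_le hN hz _).trans (hN.pderiv m d r P i hr hd)) _ (abs_nonneg _)
          (by positivity)
        refine (abs_real_inner_le_norm _ _).trans ?_
        rw [norm_tau, one_mul]
    _ = _ := by
      rw [Finset.sum_const, Finset.card_univ, Fintype.card_fin, nsmul_eq_mul]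
      ring

lemma ev_ff_le (hN : S_NRM) {r : ℝ} {z : E N} (hr : 0 < r) (hz : z ∈ closedBall x₀ r) {d : ℕ}
    {P : Pol m} (hd : P.totalDegree ≤ d) :
    ‖fderiv ℝ (fderiv ℝ (ev (fun i => (τ i : E N)) x₀ P)) z‖ ≤
      m ^ 2 * ((d / r) ^ 2 * nrm r P) := by
  have h0 := hN.nonneg m r P hr.le
  apply ContinuousLinearMap.opNorm_le_bound _ (by positivity)
  intro v
  apply ContinuousLinearMap.opNorm_le_bound _ (by positivity)
  intro w
  rw [ev_ff, Real.norm_eq_abs]
  refine (Finset.abs_sum_le_sum_abs _ _).trans ?_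
  have hb : ∀ i j : Fin m, |ev (fun i => (τ i : E N)) x₀
      (MvPolynomial.pderiv j (MvPolynomial.pderiv i P)) z| ≤ (d / r) ^ 2 * nrm r P := by
    intro i j
    refine (ev_le hN hz _).trans ?_
    have h1 : (MvPolynomial.pderiv i P).totalDegree ≤ d :=
      (totalDegree_pderiv_le' P i).trans hd
    refine (hN.pderiv m d r _ j hr h1).trans ?_
    have := hN.pderiv m d r P i hr hd
    calc (d : ℝ) / r * nrm r (MvPolynomial.pderiv i P) ≤ d / r * (d / r * nrm r P) :=
          mul_le_mul_of_nonneg_left this (by positivity)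
      _ = _ := by ring
  calc ∑ i, |(∑ j, ev (fun i => (τ i : E N)) x₀ (MvPolynomial.pderiv j (MvPolynomial.pderiv i P)) z *
        ⟪(τ j : E N), v⟫) * ⟪(τ i : E N), w⟫|
      ≤ ∑ _i : Fin m, (m * ((d / r) ^ 2 * nrm r P * ‖v‖)) * ‖w‖ := by
        refine Finset.sum_le_sum fun i _ => ?_
        rw [abs_mul]
        apply mul_le_mul _ _ (abs_nonneg _) (by positivity)
        · refine (Finset.abs_sum_le_sum_abs _ _).trans ?_
          calc ∑ j, |ev (fun i => (τ i : E N)) x₀
                (MvPolynomial.pderiv j (MvPolynomial.pderiv i P)) z * ⟪(τ j : E N), v⟫|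
              ≤ ∑ _j : Fin m, (d / r) ^ 2 * nrm r P * ‖v‖ := by
                refine Finset.sum_le_sum fun j _ => ?_
                rw [abs_mul]
                apply mul_le_mul (hb i j) _ (abs_nonneg _) (by positivity)
                refine (abs_real_inner_le_norm _ _).trans ?_
                rw [norm_tau, one_mul]
            _ = _ := by
              rw [Finset.sum_const, Finset.card_univ, Fintype.card_fin, nsmul_eq_mul]
        · refine (abs_real_inner_le_norm _ _).trans ?_
          rw [norm_tau, one_mul]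
    _ = _ := by
      rw [Finset.sum_const, Finset.card_univ, Fintype.card_fin, nsmul_eq_mul]
      ring

/-- trace of a bilinear form over `π` -/
lemma trace_pi (B : E N →L[ℝ] E N →L[ℝ] ℝ) :
    ∑ i, B (bs N i) (π.starProjection (bs N i)) = ∑ j, B (τ j) (τ j) := by
  have h1 : ∀ v : E N, π.starProjection v = ∑ j, ⟪(τ j : E N), v⟫ • (τ j : E N) := by
    intro v
    have h2 : (π.orthogonalProjectionOnto v) = ∑ j, ⟪τ j, π.orthogonalProjectionOnto v⟫ • τ j :=
      (τ.sum_repr' _).symm
    have h3 : π.starProjection v = (π.orthogonalProjectionOnto v : E N) := rfl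
    rw [h3, h2, Submodule.coe_sum]
    refine Finset.sum_congr rfl fun j _ => ?_
    rw [Submodule.coe_smul]
    congr 1
    rw [Submodule.coe_inner, ← h3, ← proj_symm, ppi (τ j).2]
  have h4 : ∀ i, B (bs N i) (π.starProjection (bs N i)) =
      ∑ j, ⟪(τ j : E N), bs N i⟫ * B (bs N i) (τ j) := by
    intro i
    rw [h1, map_sum]
    exact Finset.sum_congr rfl fun j _ => by rw [map_smul, smul_eq_mul]
  rw [Finset.sum_congr rfl fun i _ => h4 i, Finset.sum_comm]
  refine Finset.sum_congr rfl fun j _ => ?_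
  have h5 : B (τ j : E N) = ∑ i, ⟪bs N i, (τ j : E N)⟫ • B (bs N i) := by
    conv_lhs => rw [← (bs N).sum_repr' (τ j : E N), map_sum]
    exact Finset.sum_congr rfl fun i _ => by rw [map_smul]
  rw [h5, sum_apply]
  refine Finset.sum_congr rfl fun i _ => ?_
  rw [smul_apply, smul_eq_mul, real_inner_comm]

lemma inner_tau (i j : Fin m) : ⟪(τ i : E N), (τ j : E N)⟫ = if i = j then 1 else 0 := by
  have := (orthonormal_iff_ite (𝕜 := ℝ)).1 τ.orthonormal i j
  rw [Submodule.coe_inner] at this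
  exact this

lemma ev_lap (P : Pol m) (z : E N) : lap π (ev (fun i => (τ i : E N)) x₀ P) z =
    ev (fun i => (τ i : E N)) x₀ (Lap P) z := by
  unfold lap
  rw [trace_pi (τ := τ)]
  have h1 : ∀ j : Fin m, fderiv ℝ (fderiv ℝ (ev (fun i => (τ i : E N)) x₀ P)) z (τ j) (τ j) =
      ev (fun i => (τ i : E N)) x₀ (MvPolynomial.pderiv j (MvPolynomial.pderiv j P)) z := by
    intro j
    rw [ev_ff]
    simp only [inner_tau, mul_ite, mul_one, mul_zero, Finset.sum_ite_eq', Finset.mem_univ, if_true]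
  rw [Finset.sum_congr rfl fun j _ => h1 j]
  unfold Lap ev
  rw [map_sum]

lemma hh_ut_add {ν : OrthonormalBasis (Fin n) ℝ πᗮ} (P w : Fin n → Pol m) (α : Fin n) (z : E N) :
    hh ν x₀ (ut τ x₀ fun β => P β + w β) α z =
      hh ν x₀ (ut τ x₀ P) α z - ev (fun i => (τ i : E N)) x₀ (w α) z := by
  unfold hh ut
  rw [ev_add]
  ring

end Pool.Agent.Helper68X
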