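import Mathlib
import Pool.Agent.Helper68X.Pol

/-!
Project JET (helper68), MP_8daebb_an: two more pieces.
-/

set_option autoImplicit false

namespace Pool.Agent.Helper68X

open MeasureTheory Set Filter Topology Metric Pool.Agent.TH337.VF
open scoped ENNReal RealInnerProductSpace ContDiff

/-- **LINK.** The minimal surface operator of a polynomial graph in coordinates. Paper proof: with `A = Ao ν u z` the
vectors `t_i = τ_i + A τ_i` are a basis of `gp π A` with Gram matrix `G = 1 + gmat`, the orthogonal projection onto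
`gp π A` is `v ↦ ∑_ij (G⁻¹)_ij ⟨t_j, v⟩ t_i` (`G` is positive definite, so invertible), hence
`∑_k B(e_k, T e_k) = ∑_ij (G⁻¹)_ij B(t_j, t_i)` for a bilinear `B`, and `D² u_α (t_j, t_i) = D² u_α (τ_j, τ_i)` is the entry
of the Hessian matrix (see `ev_ff`, `ev_fderiv`, `ut_gf`, `Ao_apply`, `norm_comb`, `mem_gp`). -/
def S_LINK : Prop := ∀ (N m n : ℕ) (π : Submodule ℝ (E N)) (τ : OrthonormalBasis (Fin m) ℝ π)
  (ν : OrthonormalBasis (Fin n) ℝ πᗮ) (x₀ : E N) (P : Fin n → Pol m) (α : Fin n) (z : E N),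
  Fo ν (ut τ x₀ P) α z = Fc P α (crd τ x₀ z)

/-- **SEQ.** Convergence of a sequence of harmonic polynomials: the coefficient at `s` is a Cauchy sequence with
geometric ratio `lam ^ (σ - |s|)`. -/
def S_SEQ : Prop := S_NRM → S_LC → ∀ (m d : ℕ) (σ lam : ℝ), 0 < lam → lam < 1 → (d : ℝ) < σ →
  ∃ C : ℝ, 0 ≤ C ∧ ∀ (A r₀ : ℝ), 0 ≤ A → 0 < r₀ → ∀ H : ℕ → Pol m, (∀ i, (H i).totalDegree ≤ d) →
    (∀ i, Lap (H i) = 0) → (∀ i, nrm (r₀ * lam ^ i) (H (i + 1) - H i) ≤ A * (r₀ * lam ^ i) ^ σ) →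
    ∃ H' : Pol m, H'.totalDegree ≤ d ∧ Lap H' = 0 ∧
      ∀ i, nrm (r₀ * lam ^ i) (H' - H i) ≤ C * A * (r₀ * lam ^ i) ^ σ

end Pool.Agent.Helper68X
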