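import Mathlib
import Pool.Agent.Helper68X.Stm3
import Pool.Agent.Helper68X.Ene

/-!
Project JET (helper68), MP_8daebb_an: the pieces of the iteration.
-/

set_option autoImplicit false

namespace Pool.Agent.Helper68X

open MeasureTheory Set Filter Topology Metric Pool.Agent.TH337.VF Pool.Agent.Helper68V
open scoped ENNReal RealInnerProductSpace ContDiff

variable {N m n : ℕ}

/-- the consequences of the hypotheses of the main theorem which the iteration uses -/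
structure Wd (m : ℕ) (U : Set (E N)) (μ : Measure (E N)) (T : E N → Submodule ℝ (E N))
    (π : Submodule ℝ (E N)) (τ : OrthonormalBasis (Fin m) ℝ π) (x₀ : E N) (B θ : ℝ)
    (Bd : Set (E N)) : Prop where
  glo : Glo m U μ T π
  nbd : ∃ R : ℝ, 0 < R ∧ closedBall x₀ R ⊆ U
  B0 : 0 < B
  θ0 : 0 < θ
  good : ∀ a, a ∉ Bd → ∀ t, 0 < t → closedBall a t ⊆ U → B * t ^ m ≤ μ.real (ball a t)
  low : ∀ a ∈ μ.support, ∀ t, 0 < t → closedBall a t ⊆ U → θ * t ^ m ≤ μ.real (ball a t)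
  up : ∀ ε : ℝ, 0 < ε → ∃ ρ : ℝ, 0 < ρ ∧ ∀ r, 0 < r → r < ρ → ∀ a ∈ closedBall x₀ r, ∀ s, 0 < s →
    s ≤ r → μ.real (ball a s) ≤ (B + ε) * s ^ m
  flat : ∀ ε : ℝ, 0 < ε → ∃ ρ : ℝ, 0 < ρ ∧ ∀ r, 0 < r → r < ρ → ∀ z ∈ μ.support, dist z x₀ ≤ r →
    ‖πᗮ.starProjection (z - x₀)‖ ≤ ε * r
  bad : ∀ ε : ℝ, 0 < ε → ∃ ρ : ℝ, 0 < ρ ∧ ∀ r, 0 < r → r < ρ →
    μ.real (closedBall x₀ r ∩ Bd) ≤ ε * r ^ m
  wb : ∀ d : ℕ, ∃ C ρ : ℝ, 0 < C ∧ 0 < ρ ∧ ∀ r : ℝ, 0 < r → r < ρ → ∀ P : Pol m,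
    P.totalDegree ≤ d → nrm r P ^ 2 * r ^ m ≤
      C * ∫ z in ball x₀ (r / 2), ev (fun i => (τ i : E N)) x₀ P z ^ 2 ∂μ

/-- a tuple of harmonic polynomials of degree `≤ d` -/
def Hrm (d : ℕ) (w : Fin n → Pol m) : Prop := ∀ α, (w α).totalDegree ≤ d ∧ Lap (w α) = 0

/-- one step of the iteration (proved by helper68) -/
def One {π : Submodule ℝ (E N)} (U : Set (E N)) (μ : Measure (E N)) (τ : OrthonormalBasis (Fin m) ℝ π)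
    (ν : OrthonormalBasis (Fin n) ℝ πᗮ) (x₀ : E N) (d : ℕ) (C₁ : ℝ) : Prop :=
  ∀ κ : ℝ, 0 < κ → κ ≤ 1 / 8 → ∃ η ρ : ℝ, 0 < η ∧ η ≤ 1 ∧ 0 < ρ ∧ ∀ r : ℝ, 0 < r → r < ρ →
    ∀ (P : Fin n → Pol m) (e F : ℝ), Sc U μ ν x₀ (ut τ x₀ P) r e F η → F * r ^ 2 ≤ η ^ 2 * e →
    (∀ w : Fin n → Pol m, Hrm d w → (∀ α, nrm r (w α) ≤ C₁ * e) →
      ∀ z ∈ closedBall x₀ r, ∀ α, |Fo ν (ut τ x₀ fun β => P β + w β) α z| ≤ F) →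
    ∃ w : Fin n → Pol m, Hrm d w ∧ (∀ α, nrm r (w α) ≤ C₁ * e) ∧
      ∀ z ∈ μ.support, z ∈ closedBall x₀ (κ * r / 2) → ∀ α,
        |hh ν x₀ (ut τ x₀ fun β => P β + w β) α z| ≤ C₁ * κ ^ (d + 1) * e

/-- **UL.** Polynomials are controlled by their values on the support. Paper proof: `Wd.wb`,
`μ (ball x₀ (r/2)) ≤ (B + 1) r^m` (`Wd.up`), and `μ`-almost every point is in the support (`Measure.support_mem_ae`). -/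
def S_UL : Prop := S_NRM → ∀ (N m : ℕ) (U : Set (E N)) (μ : Measure (E N)) (T : E N → Submodule ℝ (E N))
  (π : Submodule ℝ (E N)) (τ : OrthonormalBasis (Fin m) ℝ π) (x₀ : E N) (B θ : ℝ) (Bd : Set (E N)),
  Wd m U μ T π τ x₀ B θ Bd → ∀ d : ℕ, ∃ C ρ : ℝ, 0 < C ∧ 0 < ρ ∧ ∀ r : ℝ, 0 < r → r < ρ →
    ∀ (P : Pol m) (b : ℝ), P.totalDegree ≤ d → 0 ≤ b →
    (∀ z ∈ μ.support, z ∈ closedBall x₀ r → |ev (fun i => (τ i : E N)) x₀ P z| ≤ b) → nrm r P ≤ C * b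

/-- **CROSS.** The minimal surface operator of a sum. Paper proof: `Fo (u + v) - Fo u - lap π v` is
`(lap_(T_(u+v)) u_α - lap_(T_u) u_α) + (lap_(T_(u+v)) v_α - lap_π v_α)`; use `trace_diff`, `defect_gp`, `finrank_gp`,
`finrank_zero_gp` (that is `gp π 0 = π`), `Ao_vert` and `‖Ao ν v z‖ ≤ ∑ ‖D v_β‖ ≤ n b₁`, `√(2 N) ≤ 2 N`. -/
def S_CROSS : Prop := ∀ (N n : ℕ) (π : Submodule ℝ (E N)) (ν : OrthonormalBasis (Fin n) ℝ πᗮ)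
  (u v : Fin n → E N → ℝ) (z : E N) (a₁ a₂ b₁ b₂ : ℝ), GF π u → GF π v →
  (∀ β, ‖fderiv ℝ (u β) z‖ ≤ a₁) → (∀ β, ‖fderiv ℝ (fderiv ℝ (u β)) z‖ ≤ a₂) →
  (∀ β, ‖fderiv ℝ (v β) z‖ ≤ b₁) → (∀ β, ‖fderiv ℝ (fderiv ℝ (v β)) z‖ ≤ b₂) → ∀ α,
  |Fo ν (fun β y => u β y + v β y) α z - Fo ν u α z - lap π (v α) z| ≤
    2 * N ^ 2 * n * (b₂ * (a₁ + b₁) + a₂ * b₁)

/-- **ITER.** The iteration. Paper proof: choose `κ ≤ 1/8` with `C₁ κ^(d+1) ≤ (κ/2)^σ` (possible as `σ < d + 1`), take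
`η, ρ` from `One`, `lam := κ/2`, `r_i := r₀ lam^i`, `e_i := Λ r_i^σ`, `F_i := η² Λ r_i^(σ-2)`. Construct `H_0 = 0`, `H_(i+1) = H_i + w_i`
with the invariant: `H_i` is harmonic of degree `≤ d` and `|hh (P + H_i)| ≤ e_i` on `supp μ ∩ closedBall x₀ r_i`.
By UL (applied to `ev (H_i) = hh P - hh (P + H_i)`, see `hh_ut_add`) `nrm r_i (H_i) ≤ C_U (M r_i + e_i)`, so hypothesis (A)
applies to `H_i` and to `H_i + w` for `nrm r_i w ≤ C₁ e_i` if `C_A = C_U + C₁ + 1`; this gives `Sc` (with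
`F_i r_i² = η² e_i`) and `One` gives `w_i`. SEQ gives the limit `H'` with `nrm r_i (H' - H_i) ≤ C e_i`; for
`r ≤ r₀` take `i` with `r_(i+1) < r ≤ r_i`; the bound of `nrm r H'` is again UL. -/
def S_ITER : Prop := S_NRM → S_LC → S_SEQ → S_UL → ∀ (N m n : ℕ) (U : Set (E N)) (μ : Measure (E N))
  (T : E N → Submodule ℝ (E N)) (π : Submodule ℝ (E N)) (τ : OrthonormalBasis (Fin m) ℝ π)
  (ν : OrthonormalBasis (Fin n) ℝ πᗮ) (x₀ : E N) (B θ : ℝ) (Bd : Set (E N)),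
  Wd m U μ T π τ x₀ B θ Bd → ∀ (d : ℕ) (σ C₁ : ℝ), 1 ≤ d → (d : ℝ) < σ → σ < d + 1 → 0 < C₁ →
  One U μ τ ν x₀ d C₁ →
  ∃ C_A η ρ₁ : ℝ, 0 ≤ C_A ∧ 0 < η ∧ η ≤ 1 ∧ 0 < ρ₁ ∧ ∀ (M : ℝ → ℝ) (P : Fin n → Pol m) (Λ r₀ : ℝ),
    0 < Λ → 0 < r₀ → r₀ < ρ₁ → (∀ r, 0 < r → r ≤ r₀ → 0 ≤ M r ∧
      ∀ z ∈ μ.support, z ∈ closedBall x₀ r → ∀ α, |hh ν x₀ (ut τ x₀ P) α z| ≤ M r) →
    M r₀ ≤ Λ * r₀ ^ σ → Λ * r₀ ^ (σ - 1) ≤ η →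
    (∀ r, 0 < r → r ≤ r₀ → ∀ H : Fin n → Pol m, Hrm d H →
      (∀ α, nrm r (H α) ≤ C_A * (M r + Λ * r ^ σ)) → ∀ z ∈ closedBall x₀ r, ∀ α,
        |Fo ν (ut τ x₀ fun β => P β + H β) α z| ≤ η ^ 2 * (Λ * r ^ (σ - 2)) ∧
        ‖fderiv ℝ (ut τ x₀ (fun β => P β + H β) α) z‖ ≤ η ∧
        N * ‖fderiv ℝ (fderiv ℝ (ut τ x₀ (fun β => P β + H β) α)) z‖ ≤ η / r) →
    ∃ (H' : Fin n → Pol m) (C : ℝ), 0 ≤ C ∧ Hrm d H' ∧ ∀ r, 0 < r → r ≤ r₀ →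
      (∀ z ∈ μ.support, z ∈ closedBall x₀ r → ∀ α,
        |hh ν x₀ (ut τ x₀ fun β => P β + H' β) α z| ≤ C * r ^ σ) ∧
      ∀ α, nrm r (H' α) ≤ C_A * (M r + C * r ^ σ)

/-- the conclusion of the induction at order `k`, up to a loss `β` -/
def Jet {π : Submodule ℝ (E N)} (μ : Measure (E N)) (τ : OrthonormalBasis (Fin m) ℝ π)
    (ν : OrthonormalBasis (Fin n) ℝ πᗮ) (x₀ : E N) (k : ℕ) (β : ℝ) : Prop :=
  ∃ P : Fin n → Pol m, (∀ α, (P α).totalDegree ≤ k) ∧ (∀ α s, s.degree ≤ 1 → (P α).coeff s = 0) ∧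
    (∃ C : ℝ, ∀ α x, ‖x‖ ≤ 1 → |Fc P α x| ≤ C * ‖x‖ ^ (k - 1)) ∧
    ∃ C ρ : ℝ, 0 ≤ C ∧ 0 < ρ ∧ ∀ r, 0 < r → r < ρ → ∀ z ∈ μ.support, z ∈ closedBall x₀ r → ∀ α,
      |hh ν x₀ (ut τ x₀ P) α z| ≤ C * r ^ ((k : ℝ) + 1 - β)

/-- **BASE.** Paper proof: ITER with `d = 1`, `σ = 2 - β`, `P = 0`; first `C_A, η, ρ₁` from ITER. Choose a small `ε` (such that
`m C_A 2 ε ≤ η` and `ε ≤ η`) and `ρ` from `Wd.flat`; `r₀ < min ρ ρ₁`, `Λ := ε r₀^(1-σ)`. For `M` take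
`M r := sup` of the heights (or any function with `|hh 0| ≤ M r ≤ ε r` and `M r = o(r)`; e.g.
`M r := sSup` over the support in the ball, or define `M r := inf {ε' r : ...}`; alternatively take `M r := ε r`, get `H'`, and
then use `Wd.flat` directly with UL: `nrm r (H') ≤ C (ε' r + C' r^σ)` for every `ε'`, hence `H'` has vanishing 1-jet, so
`H' = 0` as its degree is `≤ 1`). In (A): `P + H` is affine, so the second derivatives and `Fo` vanish (`ev_ff`), and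
`‖D H‖ ≤ m (1/r) nrm r H` (`ev_fderiv_le`). `Fc 0 = 0`. -/
def S_BASE : Prop := S_NRM → S_LC → S_SEQ → S_UL → S_ITER → ∀ (N m n : ℕ) (U : Set (E N))
  (μ : Measure (E N)) (T : E N → Submodule ℝ (E N)) (π : Submodule ℝ (E N))
  (τ : OrthonormalBasis (Fin m) ℝ π) (ν : OrthonormalBasis (Fin n) ℝ πᗮ) (x₀ : E N) (B θ : ℝ)
  (Bd : Set (E N)) (C₁ β : ℝ), Wd m U μ T π τ x₀ B θ Bd → 0 < C₁ → One U μ τ ν x₀ 1 C₁ →
  0 < β → β < 1 → Jet μ τ ν x₀ 1 β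

/-- **STEP.** Paper proof: let `P` be from `Jet k β` and `R` from FP, `Q := P + R` (degree `≤ k + 1`, vanishing 1-jet,
`|Fc Q| ≤ C ‖x‖^k`). ITER with `d = k + 1`, `σ = k + 2 - β'`, `M r := C_M r^(k+1-β)` (`|hh Q| ≤ |hh P| + nrm r R`,
`nrm r R ≤ C r^(k+1)`), `Λ := C_M r₀^(-1-β+β')` (`C_M > 0`), `r₀` small. In (A): `Λ r^σ ≤ C_M r^(k+1-β)`, so
`nrm r H ≤ 2 C_A C_M r^(k+1-β)`, `‖D H‖ ≤ C r^(k-β)`, `‖D² H‖ ≤ C r^(k-1-β)`, `‖D Q‖ ≤ C r`, `‖D² Q‖ ≤ C` (`nrm r Q ≤ C r²`,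
`ev_fderiv_le`, `ev_ff_le`), `|Fo Q| ≤ C r^k` (LINK; `‖crd z‖ ≤ r`), so with CROSS and `Lap H = 0` (`ev_lap`)
`|Fo (Q + H)| ≤ C (r^k + r^(k-1-β) (r + r^(k-β)) + r^(k-β)) ≤ C' (r^(k-β) + r^(2k-1-2β))`, which is
`≤ η² Λ r^(k-β')` for small `r₀` as `β' ≥ 2 β` and `k ≥ 1`. ITER gives `H'`; from `nrm r (H') ≤ C r^(k+1-β)` (all `r ≤ r₀`) the
coefficients of `H'` of degree `≤ k` vanish, so `nrm r (H') ≤ C r^(k+1)`; take `P' := Q + H'`; `|Fc P'| ≤ C ‖x‖^k` follows for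
small `‖x‖` from CROSS and LINK at `z = x₀ + ∑ x_i τ_i` (so `crd z = x`), and for `‖x‖` not small from a crude bound
(continuity, or CROSS again with bounded derivatives). -/
def S_STEP : Prop := S_NRM → S_LC → S_SEQ → S_UL → S_CROSS → S_LINK → S_INV → S_FP → S_ITER →
  ∀ (N m n : ℕ) (U : Set (E N))
  (μ : Measure (E N)) (T : E N → Submodule ℝ (E N)) (π : Submodule ℝ (E N))
  (τ : OrthonormalBasis (Fin m) ℝ π) (ν : OrthonormalBasis (Fin n) ℝ πᗮ) (x₀ : E N) (B θ : ℝ)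
  (Bd : Set (E N)) (k : ℕ) (C₁ β β' : ℝ), Wd m U μ T π τ x₀ B θ Bd → 1 ≤ k → 0 < C₁ →
  One U μ τ ν x₀ (k + 1) C₁ → 0 < β → 2 * β ≤ β' → β' < 1 → Jet μ τ ν x₀ k β → Jet μ τ ν x₀ (k + 1) β'

/-- **WD.** The hypotheses of the main theorem give `Wd`. Paper proof: `B = om m * Q`, `θ' = cst m θ`
(`Helper68V.lower_real`), `good` from `TH337.VF.lower`/`mono` (compare `Helper68V.lower_supp`, and `om` is the
`toReal` of the volume of the unit ball), `up`, `flat`, `bad` from `S_INIT`, `wb` from `S_WB`, `Q > 0` from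
`density m μ x₀ ≥ θ` for `x₀` in the support (upper semicontinuity, compare `lower_supp`), `density m μ x₀ < ⊤` from `mono`. -/
def S_WD : Prop := S_INIT → S_WB → ∀ (N m : ℕ) (U : Set (E N)) (μ : Measure (E N))
  (T : E N → Submodule ℝ (E N)) (θ : ℝ≥0∞) (x₀ : E N) (π : Submodule ℝ (E N))
  (τ : OrthonormalBasis (Fin m) ℝ π), 1 ≤ m → IsOpen U → Helper68V.Pub.IsStationaryVarifold m U μ T →
  θ ≠ 0 → θ ≠ ⊤ → (∀ᵐ x ∂(μ.restrict U), θ ≤ density m μ x) → x₀ ∈ U → x₀ ∈ μ.support →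
  FlatTangent m μ x₀ π (density m μ x₀).toReal →
  upperDens m μ {z | density m μ z ≠ density m μ x₀} x₀ = 0 →
  ∃ B θ' : ℝ, Wd m U μ T π τ x₀ B θ' {z | density m μ z ≠ density m μ x₀}

end Pool.Agent.Helper68X
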