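import Pool.Agent.Helper68X.Val
import Pool.Agent.Helper68X.Stm4

/-!
Kernel polynomials: the heights at the good points are given by a harmonic polynomial.
-/

set_option autoImplicit false

namespace Pool.Agent.Helper68X

open MeasureTheory Set Filter Topology Metric Pool.Agent.TH337.VF Pool.Agent.Helper68V
open scoped ENNReal RealInnerProductSpace ContDiff

variable {N m n : ℕ} {U : Set (E N)} {μ : Measure (E N)} {T : E N → Submodule ℝ (E N)}
  {π : Submodule ℝ (E N)} {ν : OrthonormalBasis (Fin n) ℝ πᗮ} {x₀ : E N} {u : Fin n → E N → ℝ}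
  {τ : OrthonormalBasis (Fin m) ℝ π} {r e F η : ℝ} {f : ℝ → ℝ}

lemma G_cd (hf : Ker f) : ContDiff ℝ ∞ (fun z : E N => f (‖z‖ ^ 2)) :=
  hf.smooth.comp (contDiff_norm_sq ℝ)

lemma G_zero (hf : Ker f) (z : E N) (hz : 1 ≤ ‖z‖) : f (‖z‖ ^ 2) = 0 :=
  hf.zero _ (one_le_pow₀ hz)

lemma cs_of {g : E N → ℝ} (hz : ∀ z, 1 ≤ ‖z‖ → g z = 0) : HasCompactSupport g := by
  apply HasCompactSupport.intro (isCompact_closedBall (0 : E N) 1)
  intro z hz'
  apply hz
  rw [mem_closedBall, dist_zero_right] at hz'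
  exact (not_le.1 hz').le

lemma G_lip (hf : Ker f) : ∃ L : ℝ, 0 ≤ L ∧ ∀ z z' : E N,
    |f (‖z‖ ^ 2) - f (‖z'‖ ^ 2)| ≤ L * ‖z - z'‖ := by
  obtain ⟨K, hK⟩ := (G_cd (N := N) hf).lipschitzWith_of_hasCompactSupport
    (cs_of fun z hz => G_zero hf z hz) (by simp)
  refine ⟨K, K.2, fun z z' => ?_⟩
  have := hK.dist_le_mul z z'
  rw [Real.dist_eq, dist_eq_norm] at this
  exact this

lemma bdd_of {g : E N → ℝ} (hg : ContDiff ℝ 2 g) (hz : ∀ z, 1 ≤ ‖z‖ → g z = 0) :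
    ∃ Z : ℝ, 0 ≤ Z ∧ (∀ a, |g a| ≤ Z) ∧ ∀ a, 16 * ‖fderiv ℝ (fderiv ℝ g) a‖ ≤ Z := by
  obtain ⟨C₁, h₁⟩ := (isCompact_closedBall (0 : E N) 1).exists_bound_of_continuousOn
    hg.continuous.continuousOn
  obtain ⟨C₂, h₂⟩ := (isCompact_closedBall (0 : E N) 1).exists_bound_of_continuousOn
    (cont_ff hg).continuousOn
  have h0 : (0 : E N) ∈ closedBall (0 : E N) 1 := mem_closedBall_self zero_le_one
  have hC : 0 ≤ max C₁ (16 * C₂) := ((norm_nonneg _).trans (h₁ 0 h0)).trans (le_max_left _ _)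
  refine ⟨max C₁ (16 * C₂), hC, fun a => ?_, fun a => ?_⟩
  · by_cases ha : a ∈ closedBall (0 : E N) 1
    · exact (h₁ a ha).trans (le_max_left _ _)
    · rw [mem_closedBall, dist_zero_right] at ha
      rw [hz a (not_le.1 ha).le, abs_zero]
      exact hC
  · by_cases ha : a ∈ closedBall (0 : E N) 1
    · have : ‖fderiv ℝ (fderiv ℝ g) a‖ ≤ C₂ := (le_abs_self _).trans (h₂ a ha)
      exact (mul_le_mul_of_nonneg_left this (by norm_num)).trans (le_max_right _ _)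
    · have h3 : g =ᶠ[𝓝 a] fun _ => 0 := by
        filter_upwards [isClosed_closedBall.isOpen_compl.mem_nhds ha] with z hz'
        apply hz
        have h4 : ¬ z ∈ closedBall (0 : E N) 1 := hz'
        rw [mem_closedBall, dist_zero_right] at h4
        exact (not_le.1 h4).le
      have h4 : fderiv ℝ (fderiv ℝ g) a = 0 := by
        rw [h3.fderiv.fderiv_eq]
        have h5 : fderiv ℝ (fun _ : E N => (0 : ℝ)) = fun _ => 0 := by
          funext y
          simp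
        rw [h5]
        simp
      rw [h4]
      have h6 : ‖(0 : E N →L[ℝ] E N →L[ℝ] ℝ)‖ ≤ 0 :=
        ContinuousLinearMap.opNorm_le_bound _ le_rfl (fun v => by simp)
      linarith

lemma sc_hasFDerivAt {G : Type*} [NormedAddCommGroup G] [NormedSpace ℝ G] {g : E N → G}
    (hg : Differentiable ℝ g) (s : ℝ) (y : E N) :
    HasFDerivAt (fun y => g (s⁻¹ • (x₀ - y))) ((-s⁻¹) • fderiv ℝ g (s⁻¹ • (x₀ - y))) y := by
  have h1 : HasFDerivAt (fun y : E N => s⁻¹ • (x₀ - y)) ((-s⁻¹) • ContinuousLinearMap.id ℝ (E N)) y := by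
    have := ((hasFDerivAt_id (𝕜 := ℝ) y).const_sub x₀).const_smul s⁻¹
    have e : (-s⁻¹) • ContinuousLinearMap.id ℝ (E N) = s⁻¹ • -ContinuousLinearMap.id ℝ (E N) := by
      ext v
      simp
    rw [e]
    exact this
  have h2 := (hg (s⁻¹ • (x₀ - y))).hasFDerivAt.comp y h1
  have e : (fderiv ℝ g (s⁻¹ • (x₀ - y))) ∘L ((-s⁻¹) • ContinuousLinearMap.id ℝ (E N)) =
      (-s⁻¹) • fderiv ℝ g (s⁻¹ • (x₀ - y)) := by
    rw [ContinuousLinearMap.comp_smul, ContinuousLinearMap.comp_id]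
  rw [e] at h2
  exact h2

lemma sc_ff {g : E N → ℝ} (hg : ContDiff ℝ 2 g) (s : ℝ) (y : E N) :
    fderiv ℝ (fderiv ℝ (fun y => g (s⁻¹ • (x₀ - y)))) y =
      (s⁻¹) ^ 2 • fderiv ℝ (fderiv ℝ g) (s⁻¹ • (x₀ - y)) := by
  have e : fderiv ℝ (fun y => g (s⁻¹ • (x₀ - y))) =
      fun y => (-s⁻¹) • fderiv ℝ g (s⁻¹ • (x₀ - y)) := by
    funext y
    exact (sc_hasFDerivAt (hg.differentiable two_ne_zero) s y).fderiv
  rw [e]
  have h1 : Differentiable ℝ (fderiv ℝ g) := fun z => cd_fderiv hg z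
  have h2 := (sc_hasFDerivAt (x₀ := x₀) h1 s y).const_smul (-s⁻¹)
  have h3 : fderiv ℝ (fun y => (-s⁻¹) • fderiv ℝ g (s⁻¹ • (x₀ - y))) y =
      (-s⁻¹) • ((-s⁻¹) • fderiv ℝ (fderiv ℝ g) (s⁻¹ • (x₀ - y))) := h2.fderiv
  rw [h3, smul_smul]
  congr 1
  ring

lemma pi_eq (v : E N) : π.starProjection v = ∑ j, ⟪(τ j : E N), v⟫ • (τ j : E N) := by
  have h2 : (π.orthogonalProjectionOnto v) = ∑ j, ⟪τ j, π.orthogonalProjectionOnto v⟫ • τ j :=
    (τ.sum_repr' _).symm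
  have h3 : π.starProjection v = (π.orthogonalProjectionOnto v : E N) := rfl
  rw [h3, h2, Submodule.coe_sum]
  refine Finset.sum_congr rfl fun j _ => ?_
  rw [Submodule.coe_smul]
  congr 1
  rw [Submodule.coe_inner, ← h3, ← proj_symm, ppi (τ j).2]

section poly

variable {S : Finset (Fin m →₀ ℕ)} {q : (Fin m →₀ ℕ) → ℝ}

/-- a sum of monomials -/
noncomputable def Wp (S : Finset (Fin m →₀ ℕ)) (q : (Fin m →₀ ℕ) → ℝ) : Pol m :=
  ∑ s ∈ S, MvPolynomial.monomial s (q s)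

lemma Wp_coeff (t : Fin m →₀ ℕ) : (Wp S q).coeff t = if t ∈ S then q t else 0 := by
  classical
  unfold Wp
  rw [MvPolynomial.coeff_sum]
  simp only [MvPolynomial.coeff_monomial]
  rw [Finset.sum_ite_eq']

lemma Wp_support {t : Fin m →₀ ℕ} (ht : t ∈ (Wp S q).support) : t ∈ S := by
  rw [MvPolynomial.mem_support_iff, Wp_coeff] at ht
  by_contra h
  rw [if_neg h] at ht
  exact ht rfl

lemma totalDegree_le_of {P : Pol m} {d : ℕ} (h : ∀ s ∈ P.support, s.degree ≤ d) :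
    P.totalDegree ≤ d := by
  unfold MvPolynomial.totalDegree
  exact Finset.sup_le fun s hs => h s hs

lemma nrm_le_sum {P : Pol m} (hP : P.support ⊆ S) {s : ℝ} (hs : 0 ≤ s) :
    nrm s P ≤ ∑ t ∈ S, |P.coeff t| * s ^ t.degree := by
  unfold nrm
  exact Finset.sum_le_sum_of_subset_of_nonneg hP fun _ _ _ => by positivity

lemma ev_Wp (z : E N) : ev (fun i => (τ i : E N)) x₀ (Wp S q) z =
    ∑ s ∈ S, q s * ∏ i, crd τ x₀ z i ^ s i := by
  rw [ev_eq]
  unfold Wp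
  rw [map_sum]
  refine Finset.sum_congr rfl fun s _ => ?_
  rw [MvPolynomial.eval_monomial, Finsupp.prod_fintype]
  intro i
  exact pow_zero _

end poly

lemma prod_div (x : Fin m → ℝ) (s : ℝ) (t : Fin m →₀ ℕ) :
    ∏ i, (x i / s) ^ t i = (s ^ t.degree)⁻¹ * ∏ i, x i ^ t i := by
  have h1 : s ^ t.degree = ∏ i, s ^ t i := by
    rw [Finset.prod_pow_eq_pow_sum]
    congr 1
    rw [Finsupp.degree_eq_sum]
  rw [h1, ← Finset.prod_inv_distrib, ← Finset.prod_mul_distrib]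
  refine Finset.prod_congr rfl fun i _ => ?_
  rw [div_pow]
  ring

end Pool.Agent.Helper68X
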