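import Pool.Agent.Helper68X.Kp

/-!
Kernel polynomials, continued.
-/

set_option autoImplicit false

namespace Pool.Agent.Helper68X

open MeasureTheory Set Filter Topology Metric Pool.Agent.TH337.VF Pool.Agent.Helper68V
open scoped ENNReal RealInnerProductSpace ContDiff

variable {N m n : ℕ} {U : Set (E N)} {μ : Measure (E N)} {T : E N → Submodule ℝ (E N)}
  {π : Submodule ℝ (E N)} {ν : OrthonormalBasis (Fin n) ℝ πᗮ} {x₀ : E N} {u : Fin n → E N → ℝ}
  {τ : OrthonormalBasis (Fin m) ℝ π} {r e F η : ℝ} {f : ℝ → ℝ}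

/-- the coefficients of the kernel polynomial -/
noncomputable def qf (m : ℕ) (μ : Measure (E N)) (x₀ : E N) (s r : ℝ) (h : E N → ℝ)
    (c : (Fin m →₀ ℕ) → E N → ℝ) (t : Fin m →₀ ℕ) : ℝ :=
  (s ^ m)⁻¹ * ((s ^ t.degree)⁻¹ * ∫ y in closedBall x₀ (r / 2), h y * c t (s⁻¹ • (x₀ - y)) ∂μ)

lemma le_two_infty : (2 : ℕ∞ω) ≤ ((⊤ : ℕ∞) : ℕ∞ω) := by
  show ((2 : ℕ∞) : ℕ∞ω) ≤ ((⊤ : ℕ∞) : ℕ∞ω)
  exact WithTop.coe_le_coe.2 le_top

lemma norm_smul_bil (c : ℝ) (L : E N →L[ℝ] E N →L[ℝ] ℝ) : ‖c • L‖ ≤ |c| * ‖L‖ := by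
  apply ContinuousLinearMap.opNorm_le_bound _ (by positivity)
  intro v
  rw [smul_apply, norm_smul, Real.norm_eq_abs, mul_assoc]
  exact mul_le_mul_of_nonneg_left (L.le_opNorm v) (abs_nonneg _)

section

variable {M : ℝ}

lemma mass_half (hG : Glo m U μ T π) (hs : Sc U μ ν x₀ u r e F η)
    (hmass : μ.real (closedBall x₀ r) ≤ M * r ^ m) : μ.real (closedBall x₀ (r / 2)) ≤ M * r ^ m :=
  (measureReal_mono (closedBall_subset_closedBall (by linarith [hs.r0]))
    (fin_cb hG hs.sub).ne).trans hmass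

lemma int_bd (hG : Glo m U μ T π) (hs : Sc U μ ν x₀ u r e F η)
    (hmass : μ.real (closedBall x₀ r) ≤ M * r ^ m) {k : E N → ℝ} {K : ℝ}
    (hk : ∀ y, |k y| ≤ K) (α : Fin n) :
    |∫ y in closedBall x₀ (r / 2), hh ν x₀ u α y * k y ∂μ| ≤ e * K * (M * r ^ m) := by
  have hr := hs.r0
  have he := hs.e0
  have hK : 0 ≤ K := (abs_nonneg _).trans (hk 0)
  have hsubI : closedBall x₀ (r / 2) ⊆ closedBall x₀ r := closedBall_subset_closedBall (by linarith)
  have hfinI := fin_cb hG (hsubI.trans hs.sub)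
  have hfinm : IsFiniteMeasure (μ.restrict (closedBall x₀ (r / 2))) := ⟨by simpa using hfinI⟩
  have h1 : ‖∫ y in closedBall x₀ (r / 2), hh ν x₀ u α y * k y ∂μ‖ ≤
      e * K * (μ.restrict (closedBall x₀ (r / 2))).real univ := by
    apply norm_integral_le_of_norm_le_const
    filter_upwards [ae_facts hG (hsubI.trans hs.sub), ae_restrict_mem measurableSet_closedBall]
      with y hy hyI
    rw [Real.norm_eq_abs, abs_mul]
    exact mul_le_mul (hs.h y hy.2 (hsubI hyI) α) (hk y) (abs_nonneg _) he.le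
  rw [Real.norm_eq_abs, measureReal_restrict_apply_univ] at h1
  exact h1.trans (mul_le_mul_of_nonneg_left (mass_half hG hs hmass) (by positivity))

/-- (A2) -/
lemma kp_nrm (hG : Glo m U μ T π) (hs : Sc U μ ν x₀ u r e F η)
    (hmass : μ.real (closedBall x₀ r) ≤ M * r ^ m) {S : Finset (Fin m →₀ ℕ)}
    {c : (Fin m →₀ ℕ) → E N → ℝ} {Z : (Fin m →₀ ℕ) → ℝ} (hZ : ∀ t a, |c t a| ≤ Z t) (α : Fin n) :
    nrm (r / 4) (Wp S (qf m μ x₀ (r / 4) r (hh ν x₀ u α) c)) ≤ 4 ^ m * M * (∑ t ∈ S, Z t) * e := by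
  have hr := hs.r0
  have he := hs.e0
  refine (nrm_le_sum (S := S) (fun t ht => Wp_support ht) (by positivity)).trans ?_
  rw [Finset.mul_sum, Finset.sum_mul]
  refine Finset.sum_le_sum fun t ht => ?_
  rw [Wp_coeff, if_pos ht]
  unfold qf
  have h1 := int_bd hG hs hmass (k := fun y => c t ((r / 4)⁻¹ • (x₀ - y))) (fun y => hZ t _) α
  rw [abs_mul, abs_mul, abs_of_nonneg (by positivity : 0 ≤ ((r / 4) ^ m)⁻¹),
    abs_of_nonneg (by positivity : 0 ≤ ((r / 4) ^ t.degree)⁻¹)]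
  have h2 : ((r / 4) ^ m)⁻¹ * (((r / 4) ^ t.degree)⁻¹ *
      |∫ y in closedBall x₀ (r / 2), hh ν x₀ u α y * c t ((r / 4)⁻¹ • (x₀ - y)) ∂μ|) *
      (r / 4) ^ t.degree = ((r / 4) ^ m)⁻¹ *
      |∫ y in closedBall x₀ (r / 2), hh ν x₀ u α y * c t ((r / 4)⁻¹ • (x₀ - y)) ∂μ| := by
    field_simp
  rw [h2]
  calc ((r / 4) ^ m)⁻¹ * |∫ y in closedBall x₀ (r / 2),
        hh ν x₀ u α y * c t ((r / 4)⁻¹ • (x₀ - y)) ∂μ|
      ≤ ((r / 4) ^ m)⁻¹ * (e * Z t * (M * r ^ m)) :=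
        mul_le_mul_of_nonneg_left h1 (by positivity)
    _ = 4 ^ m * M * Z t * e := by
      rw [div_pow]
      field_simp

/-- (A3) -/
lemma kp_lap (hG : Glo m U μ T π) (hs : Sc U μ ν x₀ u r e F η)
    (hmass : μ.real (closedBall x₀ r) ≤ M * r ^ m) {S : Finset (Fin m →₀ ℕ)} {d : ℕ}
    (hS : ∀ s, s ∈ S ↔ s.degree ≤ d) {c : (Fin m →₀ ℕ) → E N → ℝ}
    (hc : ∀ s, ContDiff ℝ ∞ (c s)) (hc0 : ∀ s a, 1 ≤ ‖a‖ → c s a = 0)
    (hcl : ∀ (s : Fin m →₀ ℕ) a, ∑ i, (((s i : ℝ) + 1) * ((s i : ℝ) + 2)) *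
      c (s + Finsupp.single i 2) a = ∑ i, fderiv ℝ (fderiv ℝ (c s)) a (τ i) (τ i))
    {Z : (Fin m →₀ ℕ) → ℝ} (hZ0 : ∀ t, 0 ≤ Z t) (hZ : ∀ t a, |c t a| ≤ Z t)
    (hZ2 : ∀ t a, 16 * ‖fderiv ℝ (fderiv ℝ (c t)) a‖ ≤ Z t) (α : Fin n) :
    nrm (r / 4) (Lap (Wp S (qf m μ x₀ (r / 4) r (hh ν x₀ u α) c))) * (r / 4) ^ 2 ≤
      4 ^ m * M * CN N m n * (∑ t ∈ S, Z t) * (F * r ^ 2 + η * e) := by
  have hr := hs.r0
  have he := hs.e0
  have hF := hs.F0
  have hη := hs.η0
  set s : ℝ := r / 4 with hsdef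
  have hs0 : 0 < s := by positivity
  set W := Wp S (qf m μ x₀ s r (hh ν x₀ u α) c) with hW
  have hdeg : ∀ (t : Fin m →₀ ℕ) (i : Fin m), (t + Finsupp.single i 2).degree = t.degree + 2 := by
    intro t i
    rw [map_add, Finsupp.degree_single]
  have hsup : ∀ t ∈ (Lap W).support, t.degree + 2 ≤ d := by
    intro t ht
    rw [MvPolynomial.mem_support_iff, t_LC m W t] at ht
    obtain ⟨i, -, hi⟩ := Finset.exists_ne_zero_of_sum_ne_zero ht
    have h1 := right_ne_zero_of_mul hi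
    have h2 : t + Finsupp.single i 2 ∈ S := Wp_support (MvPolynomial.mem_support_iff.2 h1)
    rw [hS, hdeg] at h2
    exact h2
  have hsubS : (Lap W).support ⊆ S := fun t ht => (hS t).2 (by have := hsup t ht; omega)
  have hc2 : ∀ t, ContDiff ℝ 2 (c t) := fun t => (hc t).of_le le_two_infty
  have hCN := CN_nonneg N m n
  have hMr : 0 ≤ M * r ^ m := measureReal_nonneg.trans hmass
  have hM : 0 ≤ M := by
    by_contra h
    push Not at h
    have : M * r ^ m < 0 := mul_neg_of_neg_of_pos h (by positivity)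
    linarith
  refine (mul_le_mul_of_nonneg_right (nrm_le_sum hsubS hs0.le) (by positivity)).trans ?_
  rw [Finset.sum_mul, Finset.mul_sum, Finset.sum_mul]
  refine Finset.sum_le_sum fun t ht => ?_
  by_cases htd : t ∈ (Lap W).support
  · have htd2 := hsup t htd
    have hfinI : μ (closedBall x₀ (r / 2)) < ⊤ :=
      fin_cb hG ((closedBall_subset_closedBall (by linarith)).trans hs.sub)
    have e1 : (Lap W).coeff t = (s ^ m)⁻¹ * ((s ^ t.degree)⁻¹ *
        ∫ y in closedBall x₀ (r / 2), hh ν x₀ u α y * lap π (fun y => c t (s⁻¹ • (x₀ - y))) y ∂μ) := by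
      rw [t_LC m W t]
      have h1 : ∀ i, W.coeff (t + Finsupp.single i 2) =
          qf m μ x₀ s r (hh ν x₀ u α) c (t + Finsupp.single i 2) := by
        intro i
        rw [hW, Wp_coeff, if_pos]
        rw [hS, hdeg]
        exact htd2
      rw [Finset.sum_congr rfl fun i _ => by rw [h1 i]]
      unfold qf
      have h2 : ∀ i : Fin m, (((t i : ℝ) + 1) * ((t i : ℝ) + 2)) * ((s ^ m)⁻¹ *
          ((s ^ (t + Finsupp.single i 2).degree)⁻¹ * ∫ y in closedBall x₀ (r / 2),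
            hh ν x₀ u α y * c (t + Finsupp.single i 2) (s⁻¹ • (x₀ - y)) ∂μ)) =
          (s ^ m)⁻¹ * ((s ^ t.degree)⁻¹ * ∫ y in closedBall x₀ (r / 2), (s⁻¹) ^ 2 *
            ((((t i : ℝ) + 1) * ((t i : ℝ) + 2)) *
            (hh ν x₀ u α y * c (t + Finsupp.single i 2) (s⁻¹ • (x₀ - y)))) ∂μ) := by
        intro i
        rw [hdeg, integral_const_mul, integral_const_mul, pow_add]
        field_simp
      rw [Finset.sum_congr rfl fun i _ => h2 i, ← Finset.mul_sum, ← Finset.mul_sum,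
        ← integral_finsetSum]
      · congr 2
        apply integral_congr_ae
        filter_upwards with y
        have h3 : lap π (fun y => c t (s⁻¹ • (x₀ - y))) y = (s⁻¹) ^ 2 *
            ∑ i, fderiv ℝ (fderiv ℝ (c t)) (s⁻¹ • (x₀ - y)) (τ i) (τ i) := by
          unfold lap
          rw [sc_ff (hc2 t), trace_pi (τ := τ), Finset.mul_sum]
          refine Finset.sum_congr rfl fun i _ => ?_
          rw [smul_apply, smul_apply, smul_eq_mul]
        rw [h3, ← hcl, Finset.mul_sum, Finset.mul_sum]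
        refine Finset.sum_congr rfl fun i _ => ?_
        ring
      · intro i _
        have hcont : Continuous fun y => (s⁻¹) ^ 2 * ((((t i : ℝ) + 1) * ((t i : ℝ) + 2)) *
            (hh ν x₀ u α y * c (t + Finsupp.single i 2) (s⁻¹ • (x₀ - y)))) := by
          have h4 : Continuous fun y : E N => s⁻¹ • (x₀ - y) := by fun_prop
          exact continuous_const.mul (continuous_const.mul ((hh_cd hs.gf α).continuous.mul
            ((hc _).continuous.comp h4)))
        exact integrableOn_cb hfinI hcont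
    have e2 := almost_harm hG hs (ζ := fun y => c t (s⁻¹ • (x₀ - y))) (Z := Z t)
      (by
        have h4 : ContDiff ℝ 2 fun y : E N => s⁻¹ • (x₀ - y) :=
          (contDiff_const.sub contDiff_id).const_smul s⁻¹
        exact (hc2 t).comp h4) (hZ0 t)
      (by
        intro z hz
        apply hc0
        rw [norm_smul, norm_inv, Real.norm_of_nonneg hs0.le, ← div_eq_inv_mul, one_le_div hs0,
          norm_sub_rev]
        rw [mem_closedBall, dist_eq_norm, not_le] at hz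
        rw [hsdef]
        linarith)
      (fun z => hZ t _)
      (by
        intro z
        rw [sc_ff (hc2 t)]
        refine (norm_smul_bil _ _).trans ?_
        rw [abs_of_nonneg (by positivity : 0 ≤ s⁻¹ ^ 2)]
        have h5 := hZ2 t (s⁻¹ • (x₀ - z))
        rw [le_div_iff₀ (by positivity)]
        have h6 : s⁻¹ ^ 2 * r ^ 2 = 16 := by
          rw [hsdef]
          field_simp
          norm_num
        calc s⁻¹ ^ 2 * ‖fderiv ℝ (fderiv ℝ (c t)) (s⁻¹ • (x₀ - z))‖ * r ^ 2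
            = (s⁻¹ ^ 2 * r ^ 2) * ‖fderiv ℝ (fderiv ℝ (c t)) (s⁻¹ • (x₀ - z))‖ := by ring
          _ ≤ Z t := by rw [h6]; exact h5) α
    rw [e1, abs_mul, abs_mul, abs_of_nonneg (by positivity : 0 ≤ (s ^ m)⁻¹),
      abs_of_nonneg (by positivity : 0 ≤ (s ^ t.degree)⁻¹)]
    set I := |∫ y in closedBall x₀ (r / 2), hh ν x₀ u α y *
      lap π (fun y => c t (s⁻¹ • (x₀ - y))) y ∂μ| with hI
    have hI0 : 0 ≤ I := abs_nonneg _
    have e3 : (s ^ m)⁻¹ * ((s ^ t.degree)⁻¹ * I) * s ^ t.degree * s ^ 2 =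
        (s ^ m)⁻¹ * (I * s ^ 2) := by
      field_simp
    have e4 : I * s ^ 2 ≤ I * r ^ 2 := by
      apply mul_le_mul_of_nonneg_left _ hI0
      apply pow_le_pow_left₀ hs0.le
      rw [hsdef]
      linarith
    have e5 : CN N m n * Z t * (F * r ^ 2 + η * e) * μ.real (closedBall x₀ r) ≤
        CN N m n * Z t * (F * r ^ 2 + η * e) * (M * r ^ m) := by
      apply mul_le_mul_of_nonneg_left hmass
      have := hZ0 t
      positivity
    rw [e3]
    calc (s ^ m)⁻¹ * (I * s ^ 2) ≤ (s ^ m)⁻¹ * (CN N m n * Z t * (F * r ^ 2 + η * e) *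
          (M * r ^ m)) := mul_le_mul_of_nonneg_left (e4.trans (e2.trans e5)) (by positivity)
      _ = _ := by
        rw [hsdef, div_pow]
        field_simp
  · rw [MvPolynomial.notMem_support_iff.1 htd, abs_zero, zero_mul, zero_mul]
    have := hZ0 t
    positivity

end

end Pool.Agent.Helper68X
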