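import Pool.Agent.Helper68X.Kp2

/-!
Kernel polynomials: values at the good points, and the harmonic polynomial.
-/

set_option autoImplicit false

namespace Pool.Agent.Helper68X

open MeasureTheory Set Filter Topology Metric Pool.Agent.TH337.VF Pool.Agent.Helper68V
open scoped ENNReal RealInnerProductSpace ContDiff

variable {N m n : ℕ} {U : Set (E N)} {μ : Measure (E N)} {T : E N → Submodule ℝ (E N)}
  {π : Submodule ℝ (E N)} {ν : OrthonormalBasis (Fin n) ℝ πᗮ} {x₀ : E N} {u : Fin n → E N → ℝ}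
  {τ : OrthonormalBasis (Fin m) ℝ π} {r e F η : ℝ} {f : ℝ → ℝ} {M : ℝ}

/-- (A1) -/
lemma kp_val (hD : S_DEN) (hG : Glo m U μ T π) (hs : Sc U μ ν x₀ u r e F η) (hf : Ker f)
    (hmass : μ.real (closedBall x₀ r) ≤ M * r ^ m) {S : Finset (Fin m →₀ ℕ)} {d : ℕ}
    {c : (Fin m →₀ ℕ) → E N → ℝ} (hc : ∀ s, ContDiff ℝ ∞ (c s)) {Ck : ℝ} (hCk : 0 ≤ Ck)
    (hexp : ∀ (a : E N) (x : Fin m → ℝ), ‖x‖ ≤ 1 →
      |f (‖a + ∑ i, x i • (τ i : E N)‖ ^ 2) - ∑ s ∈ S, c s a * ∏ i, x i ^ s i| ≤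
        Ck * ‖x‖ ^ (d + 1)) {L : ℝ} (hL0 : 0 ≤ L)
    (hL : ∀ z z' : E N, |f (‖z‖ ^ 2) - f (‖z'‖ ^ 2)| ≤ L * ‖z - z'‖)
    {a : E N} (ha : a ∈ closedBall x₀ (r / 4)) {B ε ϖ : ℝ} (hB : 0 ≤ B)
    (low : ∀ t, 0 < t → t ≤ r / 4 → B * t ^ m ≤ μ.real (ball a t))
    (up : ∀ t, 0 < t → t ≤ r / 4 → μ.real (ball a t) ≤ (B + ε) * t ^ m)
    (hpi : ‖πᗮ.starProjection (a - x₀)‖ ≤ ϖ * r) (α : Fin n) :
    |cf m f * B * hh ν x₀ u α a -
      ev (fun i => (τ i : E N)) x₀ (Wp S (qf m μ x₀ (r / 4) r (hh ν x₀ u α) c)) a| ≤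
      cf m f * (ε * e + (B + ε) * ((1 + n) ^ 2 * (η * e + F * r ^ 2))) +
        4 ^ m * M * (4 * L * ϖ + Ck * 4 ^ (d + 1) * (‖a - x₀‖ / r) ^ (d + 1)) * e := by
  have hr := hs.r0
  have he := hs.e0
  set s : ℝ := r / 4 with hsdef
  have hs0 : 0 < s := by positivity
  have hsm : 0 < s ^ m := by positivity
  have hfinI : μ (closedBall x₀ (r / 2)) < ⊤ :=
    fin_cb hG ((closedBall_subset_closedBall (by linarith)).trans hs.sub)
  have hasub : closedBall a s ⊆ closedBall x₀ (r / 2) := by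
    intro y hy
    rw [mem_closedBall] at hy ha ⊢
    linarith [dist_triangle y a x₀]
  have ha2 : a ∈ closedBall x₀ (r / 2) := closedBall_subset_closedBall (by linarith) ha
  have hnear := near hD hG hs hf ha2 hs0 (by linarith) hB low up α
  have hhc : Continuous (hh ν x₀ u α) := (hh_cd hs.gf α).continuous
  -- the kernel in the form G
  have hfe : ∀ y, f (‖y - a‖ ^ 2 / s ^ 2) = f (‖s⁻¹ • (a - y)‖ ^ 2) := by
    intro y
    rw [norm_smul, norm_inv, Real.norm_of_nonneg hs0.le, mul_pow, norm_sub_rev, inv_pow,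
      div_eq_inv_mul]
  have e1 : ∫ y in closedBall a s, hh ν x₀ u α y * f (‖y - a‖ ^ 2 / s ^ 2) ∂μ =
      ∫ y in closedBall x₀ (r / 2), hh ν x₀ u α y * f (‖s⁻¹ • (a - y)‖ ^ 2) ∂μ := by
    simp only [hfe]
    symm
    apply setIntegral_eq_of_subset_of_forall_sdiff_eq_zero measurableSet_closedBall hasub
    intro y hy
    have h1 : ¬ y ∈ closedBall a s := hy.2
    rw [mem_closedBall, dist_eq_norm, not_le] at h1
    rw [G_zero hf, mul_zero]
    rw [norm_smul, norm_inv, Real.norm_of_nonneg hs0.le, ← div_eq_inv_mul, one_le_div hs0,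
      norm_sub_rev]
    exact h1.le
  rw [e1] at hnear
  -- the projected centre
  set x : Fin m → ℝ := fun i => crd τ x₀ a i / s with hx
  set a' : E N := x₀ + π.starProjection (a - x₀) with ha'
  have haa' : a - a' = πᗮ.starProjection (a - x₀) := by
    have := split (π := π) (a - x₀)
    rw [ha', ← sub_sub]
    nth_rewrite 1 [this]
    abel
  have hphi : ∀ y : E N, s⁻¹ • (a' - y) = s⁻¹ • (x₀ - y) + ∑ i, x i • (τ i : E N) := by
    intro y
    have h1 : a' - y = (x₀ - y) + ∑ i, crd τ x₀ a i • (τ i : E N) := by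
      rw [ha', pi_eq (τ := τ)]
      unfold crd
      abel
    rw [h1, smul_add, Finset.smul_sum]
    congr 1
    refine Finset.sum_congr rfl fun i _ => ?_
    rw [smul_smul, hx]
    congr 1
    show s⁻¹ * crd τ x₀ a i = crd τ x₀ a i / s
    rw [div_eq_inv_mul]
  have hxn : ‖x‖ ≤ 4 * (‖a - x₀‖ / r) := by
    rw [pi_norm_le_iff_of_nonneg (by positivity)]
    intro i
    rw [hx, Real.norm_eq_abs, abs_div, abs_of_pos hs0, div_le_iff₀ hs0]
    have h1 : |crd τ x₀ a i| ≤ ‖a - x₀‖ := by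
      refine (abs_real_inner_le_norm _ _).trans ?_
      rw [norm_tau, one_mul]
    have h2 : 4 * (‖a - x₀‖ / r) * s = ‖a - x₀‖ := by
      rw [hsdef]
      field_simp
    rw [h2]
    exact h1
  have hx1 : ‖x‖ ≤ 1 := by
    refine hxn.trans ?_
    rw [mem_closedBall, dist_eq_norm] at ha
    have : ‖a - x₀‖ / r ≤ 1 / 4 := by
      rw [div_le_iff₀ hr]
      linarith
    linarith
  -- integrability
  have hGc : ∀ b : E N, Continuous fun y : E N => f (‖s⁻¹ • (b - y)‖ ^ 2) := by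
    intro b
    have h1 : Continuous fun y : E N => ‖s⁻¹ • (b - y)‖ ^ 2 := by fun_prop
    exact hf.smooth.continuous.comp h1
  have hint : ∀ b : E N, IntegrableOn (fun y => hh ν x₀ u α y * f (‖s⁻¹ • (b - y)‖ ^ 2))
      (closedBall x₀ (r / 2)) μ := fun b => integrableOn_cb hfinI (hhc.mul (hGc b))
  have hcc : ∀ t, Continuous fun y : E N => c t (s⁻¹ • (x₀ - y)) := by
    intro t
    have h1 : Continuous fun y : E N => s⁻¹ • (x₀ - y) := by fun_prop
    exact (hc t).continuous.comp h1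
  have hintc : ∀ t, IntegrableOn (fun y => hh ν x₀ u α y * c t (s⁻¹ • (x₀ - y)))
      (closedBall x₀ (r / 2)) μ := fun t => integrableOn_cb hfinI (hhc.mul (hcc t))
  -- (3)
  have e3 : |(∫ y in closedBall x₀ (r / 2), hh ν x₀ u α y * f (‖s⁻¹ • (a - y)‖ ^ 2) ∂μ) -
      ∫ y in closedBall x₀ (r / 2), hh ν x₀ u α y * f (‖s⁻¹ • (a' - y)‖ ^ 2) ∂μ| ≤
      e * (L * (4 * ϖ)) * (M * r ^ m) := by
    rw [← integral_sub (hint a) (hint a')]
    have h1 : ∀ y, hh ν x₀ u α y * f (‖s⁻¹ • (a - y)‖ ^ 2) -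
        hh ν x₀ u α y * f (‖s⁻¹ • (a' - y)‖ ^ 2) = hh ν x₀ u α y *
        (f (‖s⁻¹ • (a - y)‖ ^ 2) - f (‖s⁻¹ • (a' - y)‖ ^ 2)) := fun y => by ring
    simp only [h1]
    apply int_bd hG hs hmass
    intro y
    refine (hL _ _).trans ?_
    apply mul_le_mul_of_nonneg_left _ hL0
    have h2 : s⁻¹ • (a - y) - s⁻¹ • (a' - y) = s⁻¹ • πᗮ.starProjection (a - x₀) := by
      rw [← smul_sub, ← haa']
      congr 1
      abel
    rw [h2, norm_smul, norm_inv, Real.norm_of_nonneg hs0.le, ← div_eq_inv_mul, div_le_iff₀ hs0]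
    refine hpi.trans (le_of_eq ?_)
    rw [hsdef]
    ring
  -- (4)
  have e4 : |(∫ y in closedBall x₀ (r / 2), hh ν x₀ u α y * f (‖s⁻¹ • (a' - y)‖ ^ 2) ∂μ) -
      ∫ y in closedBall x₀ (r / 2), hh ν x₀ u α y *
        (∑ t ∈ S, c t (s⁻¹ • (x₀ - y)) * ∏ i, x i ^ t i) ∂μ| ≤
      e * (Ck * ‖x‖ ^ (d + 1)) * (M * r ^ m) := by
    have hint2 : IntegrableOn (fun y => hh ν x₀ u α y *
        (∑ t ∈ S, c t (s⁻¹ • (x₀ - y)) * ∏ i, x i ^ t i)) (closedBall x₀ (r / 2)) μ :=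
      integrableOn_cb hfinI (hhc.mul (continuous_finsetSum _ fun t _ =>
        (hcc t).mul continuous_const))
    rw [← integral_sub (hint a') hint2]
    have h1 : ∀ y, hh ν x₀ u α y * f (‖s⁻¹ • (a' - y)‖ ^ 2) -
        hh ν x₀ u α y * (∑ t ∈ S, c t (s⁻¹ • (x₀ - y)) * ∏ i, x i ^ t i) = hh ν x₀ u α y *
        (f (‖s⁻¹ • (x₀ - y) + ∑ i, x i • (τ i : E N)‖ ^ 2) -
          ∑ t ∈ S, c t (s⁻¹ • (x₀ - y)) * ∏ i, x i ^ t i) := fun y => by
      rw [hphi]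
      ring
    simp only [h1]
    apply int_bd hG hs hmass
    intro y
    exact hexp _ _ hx1
  -- (5)
  have e5 : ∫ y in closedBall x₀ (r / 2), hh ν x₀ u α y *
        (∑ t ∈ S, c t (s⁻¹ • (x₀ - y)) * ∏ i, x i ^ t i) ∂μ = s ^ m *
      ev (fun i => (τ i : E N)) x₀ (Wp S (qf m μ x₀ s r (hh ν x₀ u α) c)) a := by
    rw [ev_Wp, Finset.mul_sum]
    have h1 : ∀ y, hh ν x₀ u α y * (∑ t ∈ S, c t (s⁻¹ • (x₀ - y)) * ∏ i, x i ^ t i) =
        ∑ t ∈ S, (∏ i, x i ^ t i) * (hh ν x₀ u α y * c t (s⁻¹ • (x₀ - y))) := by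
      intro y
      rw [Finset.mul_sum]
      refine Finset.sum_congr rfl fun t _ => ?_
      ring
    simp only [h1]
    rw [integral_finsetSum _ fun t _ => (hintc t).const_mul _]
    refine Finset.sum_congr rfl fun t _ => ?_
    rw [integral_const_mul, hx, prod_div]
    unfold qf
    field_simp
  rw [e5] at e4
  have hxd : ‖x‖ ^ (d + 1) ≤ 4 ^ (d + 1) * (‖a - x₀‖ / r) ^ (d + 1) := by
    rw [← mul_pow]
    exact pow_le_pow_left₀ (norm_nonneg _) hxn _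
  have hMr : 0 ≤ M * r ^ m := measureReal_nonneg.trans hmass
  have e6 : e * (Ck * ‖x‖ ^ (d + 1)) * (M * r ^ m) ≤
      e * (Ck * (4 ^ (d + 1) * (‖a - x₀‖ / r) ^ (d + 1))) * (M * r ^ m) := by
    gcongr
  set w : ℝ := ev (fun i => (τ i : E N)) x₀ (Wp S (qf m μ x₀ s r (hh ν x₀ u α) c)) a with hw
  set I₂ := ∫ y in closedBall x₀ (r / 2), hh ν x₀ u α y * f (‖s⁻¹ • (a - y)‖ ^ 2) ∂μ with hI₂
  set I₃ := ∫ y in closedBall x₀ (r / 2), hh ν x₀ u α y * f (‖s⁻¹ • (a' - y)‖ ^ 2) ∂μ with hI₃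
  have e7 : |(cf m f * B * hh ν x₀ u α a - w)| * s ^ m ≤
      (cf m f * (ε * e + (B + ε) * ((1 + n) ^ 2 * (η * e + F * r ^ 2))) +
        4 ^ m * M * (4 * L * ϖ + Ck * 4 ^ (d + 1) * (‖a - x₀‖ / r) ^ (d + 1)) * e) * s ^ m := by
    have h1 : |(cf m f * B * hh ν x₀ u α a - w)| * s ^ m =
        |(cf m f * B * hh ν x₀ u α a * s ^ m - I₂) + ((I₂ - I₃) + (I₃ - s ^ m * w))| := by
      rw [← abs_of_pos hsm, ← abs_mul]
      congr 1
      rw [abs_of_pos hsm]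
      ring
    rw [h1]
    refine (abs_add_le _ _).trans ((add_le_add hnear ((abs_add_le _ _).trans
      (add_le_add e3 (e4.trans e6)))).trans (le_of_eq ?_))
    have h2 : r ^ m = 4 ^ m * s ^ m := by
      rw [← mul_pow]
      congr 1
      rw [hsdef]
      ring
    rw [h2]
    ring
  exact le_of_mul_le_mul_right e7 hsm

/-- **the harmonic polynomial** -/
theorem step1 (hD : S_DEN) (hN : S_NRM) (hHP : S_HP) (hKT : S_KT2) (hG : Glo m U μ T π) (hf : Ker f)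
    (ν : OrthonormalBasis (Fin n) ℝ πᗮ) (τ : OrthonormalBasis (Fin m) ℝ π) (x₀ : E N)
    (d : ℕ) (M B : ℝ) (hM : 0 ≤ M) (hB : 0 < B) :
    ∃ C₁ : ℝ, 0 < C₁ ∧ ∀ (r e F η ε ϖ : ℝ) (u : Fin n → E N → ℝ), Sc U μ ν x₀ u r e F η →
      μ.real (closedBall x₀ r) ≤ M * r ^ m → 0 ≤ ε → ε ≤ 1 → 0 ≤ ϖ → F * r ^ 2 ≤ η * e →
      ∃ w : Fin n → Pol m, Hrm d w ∧ (∀ α, nrm r (w α) ≤ C₁ * e) ∧ ∀ a ∈ closedBall x₀ (r / 4),
        ‖πᗮ.starProjection (a - x₀)‖ ≤ ϖ * r →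
        (∀ t, 0 < t → t ≤ r / 4 → B * t ^ m ≤ μ.real (ball a t)) →
        (∀ t, 0 < t → t ≤ r / 4 → μ.real (ball a t) ≤ (B + ε) * t ^ m) → ∀ α,
        |hh ν x₀ u α a - ev (fun i => (τ i : E N)) x₀ (w α) a| ≤
          C₁ * ((‖a - x₀‖ / r) ^ (d + 1) + ε + η + ϖ) * e := by
  obtain ⟨S, c, Ck, hCk, hS, hc, hc0, hcl, hexp⟩ := hKT N m d (fun i => (τ i : E N))
    (fun z => f (‖z‖ ^ 2)) (G_cd hf) (G_zero hf)
  obtain ⟨L, hL0, hL⟩ := G_lip (N := N) hf
  choose Z hZ0 hZ hZ2 using fun t => bdd_of ((hc t).of_le le_two_infty) (hc0 t)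
  obtain ⟨Ch, hCh, hhp⟩ := hHP m d
  have hcf := hD.pos m f hG.hm hf
  set cB : ℝ := cf m f * B with hcB
  have hcB0 : 0 < cB := by positivity
  set sZ : ℝ := ∑ t ∈ S, Z t with hsZ
  have hsZ0 : 0 ≤ sZ := Finset.sum_nonneg fun t _ => hZ0 t
  have hCN := CN_nonneg N m n
  set K₁ : ℝ := 4 ^ m * M * sZ with hK₁
  set K₂ : ℝ := Ch * (4 ^ m * M * CN N m n * sZ) * 2 with hK₂
  set K₃ : ℝ := cf m f * (1 + (B + 1) * ((1 + n) ^ 2 * 2)) + 4 ^ m * M * (4 * L + Ck * 4 ^ (d + 1)) +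
    K₂ with hK₃
  have hK₁0 : 0 ≤ K₁ := by positivity
  have hK₂0 : 0 ≤ K₂ := by positivity
  have hK₃0 : 0 ≤ K₃ := by positivity
  set C₁ : ℝ := cB⁻¹ * (4 ^ d * (K₁ + K₂) + K₃) + 1 with hC₁
  have hC₁0 : 0 < C₁ := by positivity
  refine ⟨C₁, hC₁0, ?_⟩
  intro r e F η ε ϖ u hs hmass hε hε1 hpi hFe
  have hr := hs.r0
  have he := hs.e0
  have hF := hs.F0
  have hη := hs.η0
  have hη1 := hs.η1
  set s : ℝ := r / 4 with hsdef
  have hs0 : 0 < s := by positivity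
  set W : Fin n → Pol m := fun α => Wp S (qf m μ x₀ s r (hh ν x₀ u α) c) with hW
  have hWd : ∀ α, (W α).totalDegree ≤ d := fun α =>
    totalDegree_le_of fun t ht => (hS t).1 (Wp_support ht)
  have hWn : ∀ α, nrm s (W α) ≤ K₁ * e := fun α => kp_nrm hG hs hmass hZ α
  have hWl : ∀ α, nrm s (Lap (W α)) * s ^ 2 ≤ 4 ^ m * M * CN N m n * sZ * (F * r ^ 2 + η * e) :=
    fun α => kp_lap hG hs hmass hS hc hc0 hcl hZ0 hZ hZ2 α
  choose W' hW'd hW'l hW'n using fun α => hhp s hs0 (W α) (hWd α)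
  have hdiff : ∀ α, nrm s (W α - W' α) ≤ K₂ * (η * e) := by
    intro α
    refine (hW'n α).trans ?_
    have h1 := mul_le_mul_of_nonneg_left (hWl α) hCh
    have h2 : F * r ^ 2 + η * e ≤ 2 * (η * e) := by linarith
    have h3 : 4 ^ m * M * CN N m n * sZ * (F * r ^ 2 + η * e) ≤
        4 ^ m * M * CN N m n * sZ * (2 * (η * e)) :=
      mul_le_mul_of_nonneg_left h2 (by positivity)
    have h4 := mul_le_mul_of_nonneg_left h3 hCh
    calc Ch * s ^ 2 * nrm s (Lap (W α)) = Ch * (nrm s (Lap (W α)) * s ^ 2) := by ring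
      _ ≤ Ch * (4 ^ m * M * CN N m n * sZ * (2 * (η * e))) := h1.trans h4
      _ = K₂ * (η * e) := by rw [hK₂]; ring
  have hW's : ∀ α, nrm s (W' α) ≤ (K₁ + K₂) * e := by
    intro α
    have h1 : W' α = W α + (-1 : ℝ) • (W α - W' α) := by
      rw [smul_sub, neg_smul, neg_smul, one_smul, one_smul]
      abel
    have h2 := hN.add m s (W α) ((-1 : ℝ) • (W α - W' α)) hs0.le
    rw [← h1, hN.smul, abs_neg, abs_one, one_mul] at h2
    have h3 : K₂ * (η * e) ≤ K₂ * e := by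
      apply mul_le_mul_of_nonneg_left _ hK₂0
      nlinarith
    linarith [hWn α, hdiff α]
  refine ⟨fun α => cB⁻¹ • W' α, fun α => ⟨?_, ?_⟩, fun α => ?_, ?_⟩
  · exact (MvPolynomial.totalDegree_smul_le _ _).trans (hW'd α)
  · have h1 : Lap (cB⁻¹ • W' α) = cB⁻¹ • Lap (W' α) := by
      unfold Lap
      rw [Finset.smul_sum]
      refine Finset.sum_congr rfl fun i _ => ?_
      rw [Derivation.map_smul, Derivation.map_smul]
    rw [h1, hW'l α, smul_zero]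
  · rw [hN.smul, abs_of_nonneg (by positivity)]
    have h1 := hN.grow m d s r (W' α) hs0 (by rw [hsdef]; linarith) (hW'd α)
    have h2 : r / s = 4 := by
      rw [hsdef]
      field_simp
    rw [h2] at h1
    calc cB⁻¹ * nrm r (W' α) ≤ cB⁻¹ * (4 ^ d * ((K₁ + K₂) * e)) := by
          apply mul_le_mul_of_nonneg_left _ (by positivity)
          exact h1.trans (mul_le_mul_of_nonneg_left (hW's α) (by positivity))
      _ ≤ C₁ * e := by
          rw [hC₁]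
          have : 0 ≤ cB⁻¹ * K₃ * e := by positivity
          nlinarith
  · intro a ha hpa low up α
    have h1 := kp_val hD hG hs hf hmass (τ := τ) (x₀ := x₀) (S := S) (d := d) hc hCk hexp hL0 hL ha
      hB.le low up hpa α
    have h2 : |ev (fun i => (τ i : E N)) x₀ (W α - W' α) a| ≤ K₂ * (η * e) :=
      (ev_le hN ha _).trans (hdiff α)
    rw [ev_sub] at h2
    rw [ev_smul]
    set X : ℝ := (‖a - x₀‖ / r) ^ (d + 1) with hX
    have hX0 : 0 ≤ X := by positivity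
    have h3 : |cB * hh ν x₀ u α a - ev (fun i => (τ i : E N)) x₀ (W' α) a| ≤
        K₃ * (X + ε + η + ϖ) * e := by
      have h4 : cB * hh ν x₀ u α a - ev (fun i => (τ i : E N)) x₀ (W' α) a =
          (cB * hh ν x₀ u α a - ev (fun i => (τ i : E N)) x₀ (W α) a) +
          (ev (fun i => (τ i : E N)) x₀ (W α) a - ev (fun i => (τ i : E N)) x₀ (W' α) a) := by ring
      rw [h4]
      refine (abs_add_le _ _).trans ((add_le_add h1 h2).trans ?_)
      have h5 : (B + ε) * ((1 + n) ^ 2 * (η * e + F * r ^ 2)) ≤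
          (B + 1) * ((1 + n) ^ 2 * (2 * (η * e))) := by
        apply mul_le_mul (by linarith) _ (by positivity) (by positivity)
        apply mul_le_mul_of_nonneg_left (by linarith) (by positivity)
      have h6 : cf m f * (ε * e + (B + ε) * ((1 + n) ^ 2 * (η * e + F * r ^ 2))) ≤
          cf m f * (ε * e + (B + 1) * ((1 + n) ^ 2 * (2 * (η * e)))) :=
        mul_le_mul_of_nonneg_left (by linarith) hcf.le
      have p1 : 0 ≤ cf m f * e := by positivity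
      have p2 : 0 ≤ cf m f * ((B + 1) * ((1 + n) ^ 2 * 2)) * e := by positivity
      have p3 : 0 ≤ 4 ^ m * M * (4 * L) * e := by positivity
      have p4 : 0 ≤ 4 ^ m * M * (Ck * 4 ^ (d + 1)) * e := by positivity
      have p5 : 0 ≤ K₂ * e := by positivity
      have h7 : K₃ * (X + ε + η + ϖ) * e = cf m f * e * (X + ε + η + ϖ) +
          cf m f * ((B + 1) * ((1 + n) ^ 2 * 2)) * e * (X + ε + η + ϖ) +
          4 ^ m * M * (4 * L) * e * (X + ε + η + ϖ) +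
          4 ^ m * M * (Ck * 4 ^ (d + 1)) * e * (X + ε + η + ϖ) + K₂ * e * (X + ε + η + ϖ) := by
        rw [hK₃]
        ring
      rw [h7]
      have q1 : cf m f * e * ε ≤ cf m f * e * (X + ε + η + ϖ) :=
        mul_le_mul_of_nonneg_left (by linarith) p1
      have q2 : cf m f * ((B + 1) * ((1 + n) ^ 2 * 2)) * e * η ≤
          cf m f * ((B + 1) * ((1 + n) ^ 2 * 2)) * e * (X + ε + η + ϖ) :=
        mul_le_mul_of_nonneg_left (by linarith) p2
      have q3 : 4 ^ m * M * (4 * L) * e * ϖ ≤ 4 ^ m * M * (4 * L) * e * (X + ε + η + ϖ) :=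
        mul_le_mul_of_nonneg_left (by linarith) p3
      have q4 : 4 ^ m * M * (Ck * 4 ^ (d + 1)) * e * X ≤
          4 ^ m * M * (Ck * 4 ^ (d + 1)) * e * (X + ε + η + ϖ) :=
        mul_le_mul_of_nonneg_left (by linarith) p4
      have q5 : K₂ * e * η ≤ K₂ * e * (X + ε + η + ϖ) :=
        mul_le_mul_of_nonneg_left (by linarith) p5
      have h8 : cf m f * (ε * e + (B + 1) * ((1 + n) ^ 2 * (2 * (η * e)))) =
          cf m f * e * ε + cf m f * ((B + 1) * ((1 + n) ^ 2 * 2)) * e * η := by ring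
      have h9 : 4 ^ m * M * (4 * L * ϖ + Ck * 4 ^ (d + 1) * X) * e =
          4 ^ m * M * (4 * L) * e * ϖ + 4 ^ m * M * (Ck * 4 ^ (d + 1)) * e * X := by ring
      rw [h9]
      rw [h8] at h6
      linarith
    have h10 : hh ν x₀ u α a - cB⁻¹ * ev (fun i => (τ i : E N)) x₀ (W' α) a =
        cB⁻¹ * (cB * hh ν x₀ u α a - ev (fun i => (τ i : E N)) x₀ (W' α) a) := by
      field_simp
    rw [h10, abs_mul, abs_of_nonneg (by positivity : 0 ≤ cB⁻¹)]
    have hY : 0 ≤ (X + ε + η + ϖ) * e := by positivity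
    calc cB⁻¹ * |cB * hh ν x₀ u α a - ev (fun i => (τ i : E N)) x₀ (W' α) a|
        ≤ cB⁻¹ * (K₃ * (X + ε + η + ϖ) * e) := mul_le_mul_of_nonneg_left h3 (by positivity)
      _ = (cB⁻¹ * K₃) * ((X + ε + η + ϖ) * e) := by ring
      _ ≤ C₁ * ((X + ε + η + ϖ) * e) := by
          apply mul_le_mul_of_nonneg_right _ hY
          rw [hC₁]
          have : 0 ≤ cB⁻¹ * (4 ^ d * (K₁ + K₂)) := by positivity
          linarith
      _ = _ := by ring

end Pool.Agent.Helper68X
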