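import Pool.Agent.Helper68X.Stm3

/-!
Project JET (helper68), piece LINK: the minimal surface operator of a polynomial graph in coordinates.
-/

set_option autoImplicit false

namespace Pool.Agent.Helper68X

open MeasureTheory Set Filter Topology Metric Pool.Agent.TH337.VF Pool.Agent.Helper68V
open scoped ENNReal RealInnerProductSpace ContDiff

theorem t_LINK : S_LINK := by
  classical
  intro N m n π τ ν x₀ P α z
  set x := crd τ x₀ z with hx
  set A := Ao ν (ut τ x₀ P) z with hA
  have hv : Vert π A := Ao_vert (ut_gf P) z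
  set G : Matrix (Fin m) (Fin m) ℝ := 1 + gmat P x with hG
  set t : Fin m → E N := fun i => (τ i : E N) + A (τ i : E N) with ht
  have hττ : ∀ i j, ⟪(τ i : E N), (τ j : E N)⟫ = if i = j then (1 : ℝ) else 0 := by
    intro i j
    have := orthonormal_iff_ite.1 τ.orthonormal i j
    rwa [Submodule.coe_inner] at this
  have hνν : ∀ i j, ⟪(ν i : E N), (ν j : E N)⟫ = if i = j then (1 : ℝ) else 0 := by
    intro i j
    have := orthonormal_iff_ite.1 ν.orthonormal i j
    rwa [Submodule.coe_inner] at this
  have hfd : ∀ β i, fderiv ℝ (ut τ x₀ P β) z (τ i : E N) =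
      MvPolynomial.eval x (MvPolynomial.pderiv i (P β)) := by
    intro β i
    have h : fderiv ℝ (ut τ x₀ P β) z (τ i : E N) =
        ∑ j, ev (fun i => (τ i : E N)) x₀ (MvPolynomial.pderiv j (P β)) z *
          ⟪(τ j : E N), (τ i : E N)⟫ := ev_fderiv (P β) z _
    rw [h, Finset.sum_eq_single i]
    · rw [hττ, if_pos rfl, mul_one]
      rfl
    · intro j _ hj
      rw [hττ, if_neg hj, mul_zero]
    · intro h
      exact absurd (Finset.mem_univ i) h
  have hAt : ∀ i, A (τ i : E N) =
      ∑ β, MvPolynomial.eval x (MvPolynomial.pderiv i (P β)) • (ν β : E N) := by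
    intro i
    rw [hA, Ao_apply]
    exact Finset.sum_congr rfl fun β _ => by rw [hfd]
  have hτA : ∀ i j, ⟪(τ i : E N), A (τ j : E N)⟫ = 0 := fun i j => (hv.val _) _ (τ i).2
  have hτt : ∀ i j, ⟪(τ i : E N), t j⟫ = if i = j then (1 : ℝ) else 0 := by
    intro i j
    rw [ht, inner_add_right, hτA, add_zero, hττ]
  have hAA : ∀ i j, ⟪A (τ i : E N), A (τ j : E N)⟫ = gmat P x i j := by
    intro i j
    rw [hAt, hAt, sum_inner]
    unfold gmat
    refine Finset.sum_congr rfl fun β _ => ?_
    rw [inner_sum, Finset.sum_eq_single β]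
    · rw [real_inner_smul_left, real_inner_smul_right, hνν, if_pos rfl, mul_one]
    · intro γ _ hγ
      rw [real_inner_smul_left, real_inner_smul_right, hνν, if_neg (Ne.symm hγ), mul_zero, mul_zero]
    · intro h
      exact absurd (Finset.mem_univ β) h
  have htt : ∀ i j, ⟪t i, t j⟫ = G i j := by
    intro i j
    have h1 : ⟪t i, t j⟫ = ⟪(τ i : E N), t j⟫ + ⟪A (τ i : E N), t j⟫ := by
      rw [ht]
      exact inner_add_left _ _ _
    rw [h1, hτt, hG, Matrix.add_apply, Matrix.one_apply]
    congr 1
    rw [ht]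
    change ⟪A (τ i : E N), (τ j : E N) + A (τ j : E N)⟫ = _
    rw [inner_add_right, hAA, real_inner_comm, hτA, zero_add]
  -- the Gram matrix is invertible
  have hpos : G.PosDef := by
    have h1 : (gmat P x).PosSemidef := by
      have h2 : gmat P x = (Matrix.of fun (β : Fin n) (i : Fin m) =>
          MvPolynomial.eval x (MvPolynomial.pderiv i (P β))).conjTranspose *
          (Matrix.of fun (β : Fin n) (i : Fin m) =>
          MvPolynomial.eval x (MvPolynomial.pderiv i (P β))) := by
        ext i j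
        rw [Matrix.mul_apply]
        unfold gmat
        refine Finset.sum_congr rfl fun β _ => ?_
        rw [Matrix.conjTranspose_apply, Matrix.of_apply, Matrix.of_apply, star_trivial]
      rw [h2]
      exact Matrix.posSemidef_conjTranspose_mul_self _
    exact Matrix.PosDef.one.add_posSemidef h1
  have hdet : IsUnit G.det := isUnit_iff_ne_zero.2 hpos.det_pos.ne'
  have hGG : G * G⁻¹ = 1 := Matrix.mul_nonsing_inv G hdet
  -- the projection
  have hproj : ∀ v : E N, (gp π A).starProjection v = ∑ i, (∑ j, G⁻¹ i j * ⟪t j, v⟫) • t i := by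
    intro v
    apply Submodule.eq_starProjection_of_mem_orthogonal
    · refine Submodule.sum_mem _ fun i _ => Submodule.smul_mem _ _ ?_
      exact mem_gp.2 ⟨_, (τ i).2, rfl⟩
    · rw [Submodule.mem_orthogonal]
      intro w hw
      obtain ⟨a, ha, rfl⟩ := mem_gp.1 hw
      have ha' : a = ∑ i, ⟪(τ i : E N), a⟫ • (τ i : E N) := by
        have h1 := τ.sum_repr' ⟨a, ha⟩
        have h2 := congrArg (fun y : π => (y : E N)) h1
        simp only [Submodule.coe_sum, Submodule.coe_smul] at h2
        exact h2.symm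
      have hw' : a + A a = ∑ i, ⟪(τ i : E N), a⟫ • t i := by
        conv_lhs => rw [ha']
        rw [map_sum, ← Finset.sum_add_distrib]
        refine Finset.sum_congr rfl fun i _ => ?_
        rw [map_smul, ← smul_add]
      rw [hw', sum_inner]
      apply Finset.sum_eq_zero
      intro l _
      rw [real_inner_smul_left]
      have key : ⟪t l, v - ∑ i, (∑ j, G⁻¹ i j * ⟪t j, v⟫) • t i⟫ = 0 := by
        rw [inner_sub_right, inner_sum]
        have h3 : ∑ i, ⟪t l, (∑ j, G⁻¹ i j * ⟪t j, v⟫) • t i⟫ =
            ∑ j, (∑ i, G l i * G⁻¹ i j) * ⟪t j, v⟫ := by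
          simp_rw [real_inner_smul_right, htt, Finset.sum_mul]
          rw [Finset.sum_comm]
          refine Finset.sum_congr rfl fun j _ => Finset.sum_congr rfl fun i _ => ?_
          ring
        rw [h3]
        have h4 : ∀ j, ∑ i, G l i * G⁻¹ i j = if l = j then (1 : ℝ) else 0 := by
          intro j
          rw [← Matrix.mul_apply, hGG, Matrix.one_apply]
        simp_rw [h4]
        simp
      rw [key, mul_zero]
  -- the second derivative
  have hB : ∀ i j, fderiv ℝ (fderiv ℝ (ut τ x₀ P α)) z (t j) (t i) = hmat (P α) x j i := by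
    intro i j
    have h : fderiv ℝ (fderiv ℝ (ut τ x₀ P α)) z (t j) (t i) =
        ∑ k, (∑ l, ev (fun i => (τ i : E N)) x₀ (MvPolynomial.pderiv l
          (MvPolynomial.pderiv k (P α))) z * ⟪(τ l : E N), t j⟫) * ⟪(τ k : E N), t i⟫ :=
      ev_ff (P α) z _ _
    rw [h, Finset.sum_eq_single i, Finset.sum_eq_single j]
    · rw [hτt, hτt, if_pos rfl, if_pos rfl, mul_one, mul_one]
      rfl
    · intro l _ hl
      rw [hτt, if_neg hl, mul_zero]
    · intro h
      exact absurd (Finset.mem_univ j) h
    · intro k _ hk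
      rw [hτt k i, if_neg hk, mul_zero]
    · intro h
      exact absurd (Finset.mem_univ i) h
  unfold Fo lap
  rw [← hA]
  set B := fderiv ℝ (fderiv ℝ (ut τ x₀ P α)) z with hBdef
  have h5 : ∀ k, B (bs N k) ((gp π A).starProjection (bs N k)) =
      ∑ i, ∑ j, G⁻¹ i j * (⟪t j, bs N k⟫ * B (bs N k) (t i)) := by
    intro k
    rw [hproj, map_sum]
    refine Finset.sum_congr rfl fun i _ => ?_
    rw [map_smul, smul_eq_mul, Finset.sum_mul]
    refine Finset.sum_congr rfl fun j _ => ?_
    ring
  simp_rw [h5]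
  rw [Finset.sum_comm]
  have h6 : ∀ i, ∑ k, ∑ j, G⁻¹ i j * (⟪t j, bs N k⟫ * B (bs N k) (t i)) =
      ∑ j, G⁻¹ i j * hmat (P α) x j i := by
    intro i
    rw [Finset.sum_comm]
    refine Finset.sum_congr rfl fun j _ => ?_
    rw [← Finset.mul_sum]
    congr 1
    rw [← hB i j]
    conv_rhs => rw [← (bs N).sum_repr' (t j), map_sum, sum_apply]
    refine Finset.sum_congr rfl fun k _ => ?_
    rw [map_smul, smul_apply, smul_eq_mul, real_inner_comm]
  simp_rw [h6]
  unfold Fc
  rw [Matrix.trace]
  refine Finset.sum_congr rfl fun i _ => ?_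
  rw [Matrix.diag_apply, Matrix.mul_apply]

end Pool.Agent.Helper68X
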