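import Pool.Agent.Helper68V.L
import Pool.Agent.Helper68V.P2

/-!
Linear algebra: graph planes.
-/

set_option autoImplicit false

namespace Pool.Agent.Helper68X

open MeasureTheory Set Filter Topology Metric Pool.Agent.TH337.VF Pool.Agent.Helper68V
open scoped ENNReal RealInnerProductSpace ContDiff

variable {N : ℕ}

/-- the graph of `A` over `π` -/
noncomputable def gp (π : Submodule ℝ (E N)) (A : E N →L[ℝ] E N) : Submodule ℝ (E N) :=
  π.map ((ContinuousLinearMap.id ℝ (E N) + A : E N →L[ℝ] E N) : E N →ₗ[ℝ] E N)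

/-- `A` maps `π` to `π^⊥` and is zero on `π^⊥` -/
structure Vert (π : Submodule ℝ (E N)) (A : E N →L[ℝ] E N) : Prop where
  dep : ∀ v, A v = A (π.starProjection v)
  val : ∀ v, A v ∈ πᗮ

variable {π : Submodule ℝ (E N)} {A B : E N →L[ℝ] E N}

lemma mem_gp {v : E N} : v ∈ gp π A ↔ ∃ a ∈ π, a + A a = v := by
  unfold gp
  rw [Submodule.mem_map]
  rfl

lemma ppi {a : E N} (ha : a ∈ π) : π.starProjection a = a := Submodule.starProjection_eq_self_iff.2 ha

lemma ppo {a : E N} (ha : a ∈ πᗮ) : π.starProjection a = 0 := by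
  rw [Submodule.starProjection_apply_eq_zero_iff]
  exact ha

lemma pqi {a : E N} (ha : a ∈ π) : πᗮ.starProjection a = 0 := by
  rw [Submodule.starProjection_orthogonal_apply_eq_zero]
  exact ha

lemma pqo {a : E N} (ha : a ∈ πᗮ) : πᗮ.starProjection a = a := Submodule.starProjection_eq_self_iff.2 ha

lemma split (s : E N) : s = π.starProjection s + πᗮ.starProjection s :=
  (Submodule.starProjection_add_starProjection_orthogonal (K := π) s).symm

lemma norm_split (s : E N) : ‖s‖ ^ 2 = ‖π.starProjection s‖ ^ 2 + ‖πᗮ.starProjection s‖ ^ 2 :=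
  Submodule.norm_sq_eq_add_norm_sq_starProjection s π

lemma norm_pi_le (s : E N) : ‖π.starProjection s‖ ≤ ‖s‖ := by
  have h := norm_split (π := π) s
  have := sq_nonneg ‖πᗮ.starProjection s‖
  exact le_of_sq_le_sq (by linarith) (norm_nonneg _)

lemma finrank_gp (hA : Vert π A) : Module.finrank ℝ (gp π A) = Module.finrank ℝ π := by
  unfold gp
  apply LinearEquiv.finrank_eq
  refine (Submodule.equivMapOfInjective _ ?_ π).symm
  intro a b hab
  have h1 : a + A a = b + A b := hab
  have h2 : π.starProjection a = π.starProjection b := by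
    have := congrArg (fun v => π.starProjection v) h1
    simp only [map_add, ppo (hA.val _), add_zero] at this
    exact this
  have h3 : A a = A b := by rw [hA.dep a, hA.dep b, h2]
  rw [h3] at h1
  exact add_right_cancel h1

/-- the vertical distance controls the distance from the graph plane -/
lemma gp_ge (hA : Vert π A) (v : E N) :
    ‖v - (gp π A).starProjection v‖ ≤ ‖πᗮ.starProjection v - A v‖ := by
  set T := gp π A with hT
  set s := v - T.starProjection v with hs
  set L : E N →L[ℝ] E N := πᗮ.starProjection - A with hL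
  have hLT : ∀ w ∈ T, L w = 0 := by
    intro w hw
    obtain ⟨a, ha, rfl⟩ := mem_gp.1 hw
    simp only [hL, sub_apply, map_add, pqi ha, pqo (hA.val a)]
    rw [hA.dep (A a), ppo (hA.val a), map_zero]
    abel
  have h1 : L v = L s := by
    rw [hs, map_sub, hLT _ (Submodule.starProjection_apply_mem T v), sub_zero]
  have hperp : ∀ t ∈ T, ⟪s, t⟫ = 0 := by
    intro t ht
    rw [hs, inner_sub_left, proj_symm, ppi ht, sub_self]
  set a := π.starProjection s with ha
  set b := πᗮ.starProjection s with hb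
  have hab : s = a + b := split s
  have ham : a ∈ π := Submodule.starProjection_apply_mem _ _
  have hbm : b ∈ πᗮ := Submodule.starProjection_apply_mem _ _
  have h2 : ⟪a, b⟫ = 0 := hbm a ham
  have h3 := hperp _ (mem_gp.2 ⟨a, ham, rfl⟩)
  have h4 : ⟪a, A a⟫ = 0 := (hA.val a) a ham
  have h5 : ⟪b, A a⟫ = -‖a‖ ^ 2 := by
    rw [hab, inner_add_left, inner_add_right, inner_add_right, h4, real_inner_comm a b, h2,
      real_inner_self_eq_norm_sq] at h3
    linarith
  have h6 : L s = b - A a := by
    simp only [hL, sub_apply]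
    rw [hA.dep s]
  have h7 : ‖s‖ ^ 2 = ‖a‖ ^ 2 + ‖b‖ ^ 2 := norm_split s
  have h8 : ⟪b, L s⟫ = ‖s‖ ^ 2 := by
    rw [h6, inner_sub_right, h5, real_inner_self_eq_norm_sq, h7]
    ring
  have h9 : ‖s‖ ^ 2 ≤ ‖b‖ * ‖L s‖ := by
    rw [← h8]
    exact real_inner_le_norm _ _
  have h10 : ‖b‖ ≤ ‖s‖ := by
    have := sq_nonneg ‖a‖
    exact le_of_sq_le_sq (by linarith) (norm_nonneg _)
  have h0 : πᗮ.starProjection v - A v = L v := rfl
  rw [h0, h1]
  rcases (norm_nonneg s).eq_or_lt with h | h
  · rw [← h]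
    exact norm_nonneg _
  · have h11 : ‖s‖ * ‖s‖ ≤ ‖s‖ * ‖L s‖ := by
      calc ‖s‖ * ‖s‖ = ‖s‖ ^ 2 := by ring
        _ ≤ ‖b‖ * ‖L s‖ := h9
        _ ≤ ‖s‖ * ‖L s‖ := mul_le_mul_of_nonneg_right h10 (norm_nonneg _)
    exact le_of_mul_le_mul_left h11 h

/-- the distance of a point of a subspace -/
lemma dist_le_of_mem (T : Submodule ℝ (E N)) (v : E N) {w : E N} (hw : w ∈ T) :
    ‖v - T.starProjection v‖ ≤ ‖v - w‖ := by
  have h1 : v - w = (v - T.starProjection v) + (T.starProjection v - w) := by abel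
  have h2 : ⟪v - T.starProjection v, T.starProjection v - w⟫ = 0 := by
    have hm : T.starProjection v - w ∈ T := T.sub_mem (Submodule.starProjection_apply_mem _ _) hw
    rw [inner_sub_left, proj_symm, ppi hm, sub_self]
  have h3 : ‖v - w‖ ^ 2 = ‖v - T.starProjection v‖ ^ 2 + ‖T.starProjection v - w‖ ^ 2 := by
    rw [h1, ← real_inner_self_eq_norm_sq, inner_add_left, inner_add_right, inner_add_right, h2,
      real_inner_comm (v - T.starProjection v) (T.starProjection v - w), h2,
      real_inner_self_eq_norm_sq, real_inner_self_eq_norm_sq]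
    ring
  have := sq_nonneg ‖T.starProjection v - w‖
  exact le_of_sq_le_sq (by linarith) (norm_nonneg _)

lemma gp_near (A B : E N →L[ℝ] E N) (hA : Vert π A) {v : E N} (hv : v ∈ gp π A) :
    ‖v - (gp π B).starProjection v‖ ≤ ‖A - B‖ * ‖v‖ := by
  obtain ⟨a, ha, rfl⟩ := mem_gp.1 hv
  refine (dist_le_of_mem (gp π B) (a + A a) (mem_gp.2 ⟨a, ha, rfl⟩)).trans ?_
  have h1 : a + A a - (a + B a) = (A - B) a := by
    simp only [sub_apply]
    abel
  rw [h1]
  refine ((A - B).le_opNorm a).trans ?_
  apply mul_le_mul_of_nonneg_left _ (norm_nonneg _)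
  have h2 : π.starProjection (a + A a) = a := by rw [map_add, ppi ha, ppo (hA.val a), add_zero]
  calc ‖a‖ = ‖π.starProjection (a + A a)‖ := by rw [h2]
    _ ≤ ‖a + A a‖ := norm_pi_le _

lemma norm_bs (i : Fin N) : ‖bs N i‖ = 1 := (bs N).orthonormal.1 i

lemma norm_proj_bs (S : Submodule ℝ (E N)) (i : Fin N) : ‖S.starProjection (bs N i)‖ ≤ 1 := by
  refine (norm_pi_le _).trans ?_
  rw [norm_bs]

lemma defect_gp (hA : Vert π A) : defect (gp π A) (gp π B) ≤ N * ‖A - B‖ ^ 2 := by
  unfold defect
  calc ∑ i, ‖(gp π A).starProjection (bs N i) -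
        (gp π B).starProjection ((gp π A).starProjection (bs N i))‖ ^ 2
      ≤ ∑ _i : Fin N, ‖A - B‖ ^ 2 := by
        refine Finset.sum_le_sum fun i _ => ?_
        apply pow_le_pow_left₀ (norm_nonneg _)
        refine (gp_near A B hA (Submodule.starProjection_apply_mem _ _)).trans ?_
        have := norm_proj_bs (gp π A) i
        nlinarith [norm_nonneg (A - B)]
    _ = N * ‖A - B‖ ^ 2 := by
        rw [Finset.sum_const, Finset.card_univ, Fintype.card_fin, nsmul_eq_mul]

/-- Hilbert–Schmidt distance of projections of the same rank -/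
lemma hs_eq (S T : Submodule ℝ (E N)) (hd : Module.finrank ℝ S = Module.finrank ℝ T) :
    ∑ i, ‖S.starProjection (bs N i) - T.starProjection (bs N i)‖ ^ 2 = 2 * defect S T := by
  have h1 : ∀ i, ‖S.starProjection (bs N i) - T.starProjection (bs N i)‖ ^ 2 =
      ⟪bs N i, S.starProjection (bs N i)⟫ + ⟪bs N i, T.starProjection (bs N i)⟫ -
        2 * ⟪bs N i, (T.starProjection ∘L S.starProjection) (bs N i)⟫ := by
    intro i
    rw [← real_inner_self_eq_norm_sq, inner_sub_left, inner_sub_right, inner_sub_right,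
      real_inner_self_eq_norm_sq, real_inner_self_eq_norm_sq, proj_sq, proj_sq,
      real_inner_comm (S.starProjection (bs N i)) (T.starProjection (bs N i))]
    have h2 : ⟪S.starProjection (bs N i), T.starProjection (bs N i)⟫ =
        ⟪bs N i, (T.starProjection ∘L S.starProjection) (bs N i)⟫ := by
      rw [ContinuousLinearMap.comp_apply, ← proj_symm T, real_inner_comm]
    rw [h2]
    ring
  rw [Finset.sum_congr rfl fun i _ => h1 i, Finset.sum_sub_distrib, Finset.sum_add_distrib,
    ← Finset.mul_sum, ← trc_eq, ← trc_eq, ← trc_eq, trc_starProjection, trc_starProjection,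
    defect_eq, trc_starProjection, hd]
  ring

/-- the difference of traces of a bilinear map -/
lemma trace_diff {F : Type*} [NormedAddCommGroup F] [NormedSpace ℝ F] (S T : Submodule ℝ (E N))
    (hd : Module.finrank ℝ S = Module.finrank ℝ T) (B : E N →L[ℝ] E N →L[ℝ] F) :
    ‖∑ i, B (bs N i) (S.starProjection (bs N i)) - ∑ i, B (bs N i) (T.starProjection (bs N i))‖ ≤
      N * ‖B‖ * Real.sqrt (2 * defect S T) := by
  have h0 : 0 ≤ 2 * defect S T := by
    have := defect_nonneg S T
    linarith
  have h1 : ∀ i, ‖S.starProjection (bs N i) - T.starProjection (bs N i)‖ ≤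
      Real.sqrt (2 * defect S T) := by
    intro i
    apply Real.le_sqrt_of_sq_le
    rw [← hs_eq S T hd]
    exact Finset.single_le_sum (f := fun i => ‖S.starProjection (bs N i) -
      T.starProjection (bs N i)‖ ^ 2) (fun _ _ => by positivity) (Finset.mem_univ i)
  rw [← Finset.sum_sub_distrib]
  calc ‖∑ i, (B (bs N i) (S.starProjection (bs N i)) - B (bs N i) (T.starProjection (bs N i)))‖
      ≤ ∑ i, ‖B (bs N i) (S.starProjection (bs N i)) - B (bs N i) (T.starProjection (bs N i))‖ :=
        norm_sum_le _ _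
    _ ≤ ∑ _i : Fin N, ‖B‖ * Real.sqrt (2 * defect S T) := by
        refine Finset.sum_le_sum fun i _ => ?_
        rw [← map_sub]
        refine ((B (bs N i)).le_opNorm _).trans ?_
        have h2 := B.le_opNorm (bs N i)
        rw [norm_bs, mul_one] at h2
        exact mul_le_mul h2 (h1 i) (norm_nonneg _) ((norm_nonneg _).trans h2)
    _ = N * ‖B‖ * Real.sqrt (2 * defect S T) := by
        rw [Finset.sum_const, Finset.card_univ, Fintype.card_fin, nsmul_eq_mul]
        ring

end Pool.Agent.Helper68X
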