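import Pool.Agent.Helper68X.Val

/-!
The supremum over all points of the support.
-/

set_option autoImplicit false

namespace Pool.Agent.Helper68X

open MeasureTheory Set Filter Topology Metric Pool.Agent.TH337.VF Pool.Agent.Helper68V
open scoped ENNReal RealInnerProductSpace ContDiff

variable {N m n : ℕ} {U : Set (E N)} {μ : Measure (E N)} {T : E N → Submodule ℝ (E N)}
  {π : Submodule ℝ (E N)} {ν : OrthonormalBasis (Fin n) ℝ πᗮ} {x₀ : E N} {u : Fin n → E N → ℝ}
  {r e F η : ℝ} {f : ℝ → ℝ}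

lemma Ker.le_zero (hf : Ker f) {t : ℝ} (ht : 0 ≤ t) : f t ≤ f 0 := by
  have h1 : Antitone f := antitone_of_deriv_nonpos (hf.smooth.differentiable (by simp)) hf.anti
  exact h1 ht

/-- constant -/
noncomputable def CS (m n : ℕ) (f : ℝ → ℝ) (B M : ℝ) : ℝ :=
  2 ^ m * f 0 / (cf m f * B) * (n * M + (n + n ^ 2) * M + n)

lemma sup_est (hD : S_DEN) (hG : Glo m U μ T π) (hs : Sc U μ ν x₀ u r e F η) (hf : Ker f) {b : E N}
    (hb : b ∈ closedBall x₀ (r / 2)) {B M eg : ℝ} (hB : 0 < B) (hM : 0 ≤ M) (heg : 0 ≤ eg)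
    {Bd : Set (E N)} (hgood : ∀ z ∈ μ.support, z ∈ closedBall x₀ r → z ∉ Bd →
      ∀ α, |hh ν x₀ u α z| ≤ eg) (hbad : μ.real (closedBall x₀ r ∩ Bd) ≤ η ^ 2 * r ^ m)
    (hmass : μ.real (closedBall x₀ r) ≤ M * r ^ m)
    (low : ∀ t, 0 < t → t ≤ r / 2 → B * t ^ m ≤ μ.real (ball b t)) (α : Fin n) :
    (hh ν x₀ u α b) ^ 2 ≤ CS m n f B M * (eg + η * e + F * r ^ 2 / η) ^ 2 := by
  have hr := hs.r0
  have he := hs.e0
  have hF := hs.F0
  have hη := hs.η0
  have hη1 := hs.η1
  have hR2 : 0 < r ^ 2 := by positivity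
  have hsubI : closedBall b (r / 2) ⊆ closedBall x₀ r := by
    intro y hy
    rw [mem_closedBall] at hy hb ⊢
    linarith [dist_triangle y b x₀]
  have hIU : closedBall b (r / 2) ⊆ U := hsubI.trans hs.sub
  have hfinI := fin_cb hG hIU
  have hfinr := fin_cb hG hs.sub
  have hfinm : IsFiniteMeasure (μ.restrict (closedBall x₀ r)) := ⟨by simpa using hfinr⟩
  have hfinm' : IsFiniteMeasure (μ.restrict (closedBall b (r / 2))) := ⟨by simpa using hfinI⟩
  have hhc : ∀ α, ContDiff ℝ 2 (hh ν x₀ u α) := fun α => hh_cd hs.gf α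
  have hmpos : (1 : ℝ) ≤ m := by exact_mod_cast hG.hm
  have hcf := hD.pos m f hG.hm hf
  have hnn := hD.nonneg f hf
  have hf0 := hf.pos
  set K : ℝ := 2 * n * e * F + n ^ 2 * e ^ 2 * (η / r) ^ 2 with hK
  have hK0 : 0 ≤ K := by positivity
  set X : ℝ := eg + η * e + F * r ^ 2 / η with hX
  have hX1 : eg ^ 2 ≤ X ^ 2 := by
    apply pow_le_pow_left₀ heg
    have : 0 ≤ F * r ^ 2 / η := by positivity
    have : 0 ≤ η * e := by positivity
    linarith
  have hX2 : (η * e) ^ 2 + (F * r ^ 2 / η) ^ 2 ≤ X ^ 2 := by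
    have h1 : 0 ≤ F * r ^ 2 / η := by positivity
    have h2 : 0 ≤ η * e := by positivity
    rw [hX]
    nlinarith [mul_nonneg h1 h2, mul_nonneg heg h1, mul_nonneg heg h2, sq_nonneg eg]
  have hKr : K * r ^ 2 ≤ (n + n ^ 2) * X ^ 2 := by
    have h1 : K * r ^ 2 = n * (2 * (η * e) * (F * r ^ 2 / η)) + n ^ 2 * (η * e) ^ 2 := by
      rw [hK]
      field_simp
    have h2 : 2 * (η * e) * (F * r ^ 2 / η) ≤ X ^ 2 := by
      nlinarith [sq_nonneg (η * e - F * r ^ 2 / η)]
    have h3 : (η * e) ^ 2 ≤ X ^ 2 := by nlinarith [sq_nonneg (F * r ^ 2 / η)]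
    rw [h1]
    have hn0 : (0 : ℝ) ≤ n := Nat.cast_nonneg n
    have h4 := mul_le_mul_of_nonneg_left h2 hn0
    have h5 := mul_le_mul_of_nonneg_left h3 (by positivity : (0:ℝ) ≤ (n:ℝ) ^ 2)
    linarith
  have hzc : ContDiff ℝ 2 (fun _ : E N => (0:ℝ)) := contDiff_const
  set g : E N → ℝ := tf (fun _ => 0) (hh ν x₀ u) 0 2 (K / (2 * m)) b with hg
  have hgc : ContDiff ℝ 2 g := tf_cd hzc hhc _ _ _ _
  have hgy : ∀ y, g y = (∑ β, hh ν x₀ u β y * hh ν x₀ u β y) + K / (2 * m) * ‖y - b‖ ^ 2 := by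
    intro y
    simp only [hg, tf]
    ring
  have hsum0 : ∀ y, 0 ≤ ∑ β, hh ν x₀ u β y * hh ν x₀ u β y := fun y =>
    Finset.sum_nonneg fun α _ => mul_self_nonneg _
  have hg0 : ∀ y, 0 ≤ g y := by
    intro y
    rw [hgy]
    have := hsum0 y
    positivity
  have hmv := MV hD hG.hm hf hG.stat hG.dim hgc hIU (by positivity : 0 < r / 2) (B := B) (g := g)
      (a := b) (R := r / 2) (Eventually.of_forall fun z _ => hg0 z)
      (by
        have h1 : ∀ᵐ z ∂μ, z ∈ closedBall b (r / 2) → Module.finrank ℝ (T z) = Module.finrank ℝ π ∧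
          z ∈ μ.support := (ae_restrict_iff' measurableSet_closedBall).1 (ae_facts hG hIU)
        filter_upwards [h1] with z hz hza
        obtain ⟨hzd, hzs⟩ := hz hza
        have hzr := hsubI hza
        rw [hg, tf_lap hzc hhc, lap_const]
        have hJ := JJ_nonneg (T z) (hh ν x₀ u) z
        have e2 := sum_h hs hzd hzr hzs
        have hq0 := Real.sqrt_nonneg (2 * JJ (T z) (hh ν x₀ u) z)
        have hq2 : Real.sqrt (2 * JJ (T z) (hh ν x₀ u) z) ^ 2 = 2 * JJ (T z) (hh ν x₀ u) z :=
          Real.sq_sqrt (by positivity)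
        set J := JJ (T z) (hh ν x₀ u) z with hJd
        set q := Real.sqrt (2 * J) with hq
        have e4 : -(n * e * (F + η / r * q)) ≤
            ∑ α, hh ν x₀ u α z * lap (T z) (hh ν x₀ u α) z :=
          (neg_le_neg e2).trans (neg_abs_le _)
        have e7 : K / (2 * m) * (2 * (Module.finrank ℝ (T z) : ℝ)) = K := by
          rw [hzd, hG.dimπ]
          field_simp
        rw [e7, hK]
        nlinarith [sq_nonneg (q - n * e * (η / r))]) hB.le low
  set W : Set (E N) := toMeasurable μ (closedBall x₀ r ∩ Bd) with hW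
  have hWm : MeasurableSet W := measurableSet_toMeasurable _ _
  have hμW : μ.real W ≤ η ^ 2 * r ^ m := by
    rw [hW, measureReal_def, measure_toMeasurable]
    exact hbad
  have hfW : μ W < ⊤ := by
    rw [hW, measure_toMeasurable]
    exact (measure_mono inter_subset_left).trans_lt hfinr
  have hle : ∫ y in closedBall b (r / 2), g y * f (‖y - b‖ ^ 2 / (r / 2) ^ 2) ∂μ ≤
      ∫ y in closedBall b (r / 2), f 0 * ((n * eg ^ 2 + K * r ^ 2) +
        W.indicator (fun _ => n * e ^ 2) y) ∂μ := by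
    have hfc : Continuous fun y : E N => f (‖y - b‖ ^ 2 / (r / 2) ^ 2) := by
      have h1 : Continuous fun y : E N => ‖y - b‖ ^ 2 / (r / 2) ^ 2 := by fun_prop
      exact hf.smooth.continuous.comp h1
    apply integral_mono_ae (integrableOn_cb hfinI (hgc.continuous.mul hfc))
    · apply Integrable.const_mul
      exact (integrable_const _).add ((integrable_const _).indicator hWm)
    · filter_upwards [ae_facts hG hIU, ae_restrict_mem measurableSet_closedBall] with y hy hya
      obtain ⟨-, hys⟩ := hy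
      have hyr := hsubI hya
      have h1 : f (‖y - b‖ ^ 2 / (r / 2) ^ 2) ≤ f 0 := hf.le_zero (by positivity)
      have h2 : g y ≤ (n * eg ^ 2 + K * r ^ 2) + W.indicator (fun _ => n * e ^ 2) y := by
        rw [hgy]
        have h5 : ‖y - b‖ ^ 2 ≤ r ^ 2 := by
          rw [mem_closedBall, dist_eq_norm] at hya
          exact pow_le_pow_left₀ (norm_nonneg _) (by linarith) 2
        have h8 : K / (2 * m) * ‖y - b‖ ^ 2 ≤ K * r ^ 2 := by
          have h9 : K / (2 * m) ≤ K := div_le_self hK0 (by linarith)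
          exact mul_le_mul h9 h5 (by positivity) hK0
        have h10 : ∑ β, hh ν x₀ u β y * hh ν x₀ u β y ≤
            n * eg ^ 2 + W.indicator (fun _ => n * e ^ 2) y := by
          by_cases hyB : y ∈ Bd
          · have hyW : y ∈ W := subset_toMeasurable μ _ ⟨hyr, hyB⟩
            rw [indicator_of_mem hyW]
            have : ∑ β, hh ν x₀ u β y * hh ν x₀ u β y ≤ n * e ^ 2 := by
              calc ∑ β, hh ν x₀ u β y * hh ν x₀ u β y ≤ ∑ _α : Fin n, e ^ 2 := by
                    refine Finset.sum_le_sum fun β _ => ?_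
                    have := hs.h y hys hyr β
                    rw [← sq, ← sq_abs]
                    exact pow_le_pow_left₀ (abs_nonneg _) this 2
                _ = n * e ^ 2 := by
                  rw [Finset.sum_const, Finset.card_univ, Fintype.card_fin, nsmul_eq_mul]
            have : 0 ≤ (n : ℝ) * eg ^ 2 := by positivity
            linarith
          · have h11 : ∑ β, hh ν x₀ u β y * hh ν x₀ u β y ≤ n * eg ^ 2 := by
              calc ∑ β, hh ν x₀ u β y * hh ν x₀ u β y ≤ ∑ _α : Fin n, eg ^ 2 := by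
                    refine Finset.sum_le_sum fun β _ => ?_
                    have := hgood y hys hyr hyB β
                    rw [← sq, ← sq_abs]
                    exact pow_le_pow_left₀ (abs_nonneg _) this 2
                _ = n * eg ^ 2 := by
                  rw [Finset.sum_const, Finset.card_univ, Fintype.card_fin, nsmul_eq_mul]
            have h12 : 0 ≤ W.indicator (fun _ => (n : ℝ) * e ^ 2) y :=
              indicator_nonneg (fun _ _ => by positivity) y
            linarith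
        linarith
      calc g y * f (‖y - b‖ ^ 2 / (r / 2) ^ 2) ≤ g y * f 0 :=
            mul_le_mul_of_nonneg_left h1 (hg0 y)
        _ ≤ ((n * eg ^ 2 + K * r ^ 2) + W.indicator (fun _ => n * e ^ 2) y) * f 0 :=
            mul_le_mul_of_nonneg_right h2 hf0.le
        _ = _ := mul_comm _ _
  rw [integral_const_mul, integral_add (integrable_const _) ((integrable_const _).indicator hWm),
    setIntegral_indicator hWm, setIntegral_const, setIntegral_const, smul_eq_mul, smul_eq_mul] at hle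
  have h1 : μ.real (closedBall b (r / 2)) ≤ M * r ^ m :=
    (measureReal_mono hsubI hfinr.ne).trans hmass
  have h2 : μ.real (closedBall b (r / 2) ∩ W) ≤ η ^ 2 * r ^ m :=
    (measureReal_mono inter_subset_right hfW.ne).trans hμW
  have hrm : 0 < r ^ m := by positivity
  have h3 : μ.real (closedBall b (r / 2)) * (n * eg ^ 2 + K * r ^ 2) +
      μ.real (closedBall b (r / 2) ∩ W) * (n * e ^ 2) ≤
      (n * M + (n + n ^ 2) * M + n) * X ^ 2 * r ^ m := by
    have hn0 : (0 : ℝ) ≤ n := Nat.cast_nonneg n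
    have h4 : μ.real (closedBall b (r / 2)) * (n * eg ^ 2 + K * r ^ 2) ≤
        M * r ^ m * (n * X ^ 2 + (n + n ^ 2) * X ^ 2) := by
      apply mul_le_mul h1 _ (by positivity) (by positivity)
      have := mul_le_mul_of_nonneg_left hX1 hn0
      linarith
    have h5 : μ.real (closedBall b (r / 2) ∩ W) * (n * e ^ 2) ≤ n * X ^ 2 * r ^ m := by
      calc μ.real (closedBall b (r / 2) ∩ W) * (n * e ^ 2) ≤ η ^ 2 * r ^ m * (n * e ^ 2) :=
            mul_le_mul_of_nonneg_right h2 (by positivity)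
        _ = n * (η * e) ^ 2 * r ^ m := by ring
        _ ≤ n * X ^ 2 * r ^ m := by
            apply mul_le_mul_of_nonneg_right _ hrm.le
            apply mul_le_mul_of_nonneg_left _ hn0
            nlinarith [sq_nonneg (F * r ^ 2 / η)]
    calc _ ≤ M * r ^ m * (n * X ^ 2 + (n + n ^ 2) * X ^ 2) + n * X ^ 2 * r ^ m := add_le_add h4 h5
      _ = _ := by ring
  have h4 := hmv.trans (hle.trans (mul_le_mul_of_nonneg_left h3 hf0.le))
  have h5 : (hh ν x₀ u α b) ^ 2 ≤ g b := by
    rw [hgy, sub_self, norm_zero]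
    have h6 : hh ν x₀ u α b * hh ν x₀ u α b ≤ ∑ β, hh ν x₀ u β b * hh ν x₀ u β b :=
      Finset.single_le_sum (f := fun β => hh ν x₀ u β b * hh ν x₀ u β b)
        (fun _ _ => mul_self_nonneg _) (Finset.mem_univ α)
    nlinarith
  have hcB : 0 < cf m f * B := by positivity
  have h6 : cf m f * B * g b * (r / 2) ^ m = (cf m f * B / 2 ^ m) * g b * r ^ m := by
    rw [div_pow]
    ring
  rw [h6] at h4
  have h7 : cf m f * B / 2 ^ m * g b ≤ f 0 * ((n * M + (n + n ^ 2) * M + n) * X ^ 2) := by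
    apply le_of_mul_le_mul_right _ hrm
    linarith
  refine h5.trans ?_
  have h8 : CS m n f B M * X ^ 2 = (2 ^ m / (cf m f * B)) *
      (f 0 * ((n * M + (n + n ^ 2) * M + n) * X ^ 2)) := by
    unfold CS
    ring
  rw [h8]
  have h9 : g b = (2 ^ m / (cf m f * B)) * (cf m f * B / 2 ^ m * g b) := by
    field_simp
  rw [h9]
  exact mul_le_mul_of_nonneg_left h7 (by positivity)

end Pool.Agent.Helper68X
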