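import Pool.Agent.Helper68X.Kp3
import Pool.Agent.Helper68X.Sup

/-!
One step of the iteration.
-/

set_option autoImplicit false

namespace Pool.Agent.Helper68X

open MeasureTheory Set Filter Topology Metric Pool.Agent.TH337.VF Pool.Agent.Helper68V
open scoped ENNReal RealInnerProductSpace ContDiff

variable {N m n : ℕ} {U : Set (E N)} {μ : Measure (E N)} {T : E N → Submodule ℝ (E N)}
  {π : Submodule ℝ (E N)} {x₀ : E N} {τ : OrthonormalBasis (Fin m) ℝ π}

lemma ut_add_fun (P w : Fin n → Pol m) (α : Fin n) : ut τ x₀ (fun β => P β + w β) α =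
    fun z => ut τ x₀ P α z + ev (fun i => (τ i : E N)) x₀ (w α) z := by
  funext z
  exact ev_add _ _ _

lemma ut_add_fderiv (P w : Fin n → Pol m) (α : Fin n) (z : E N) :
    fderiv ℝ (ut τ x₀ (fun β => P β + w β) α) z =
      fderiv ℝ (ut τ x₀ P α) z + fderiv ℝ (ev (fun i => (τ i : E N)) x₀ (w α)) z := by
  rw [ut_add_fun]
  exact fderiv_add ((ev_cd (P α) 2).differentiable two_ne_zero z)
    ((ev_cd (w α) 2).differentiable two_ne_zero z)

lemma ut_add_ff (P w : Fin n → Pol m) (α : Fin n) (z : E N) :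
    fderiv ℝ (fderiv ℝ (ut τ x₀ (fun β => P β + w β) α)) z =
      fderiv ℝ (fderiv ℝ (ut τ x₀ P α)) z +
        fderiv ℝ (fderiv ℝ (ev (fun i => (τ i : E N)) x₀ (w α))) z := by
  have e : fderiv ℝ (ut τ x₀ (fun β => P β + w β) α) = fun z =>
      fderiv ℝ (ut τ x₀ P α) z + fderiv ℝ (ev (fun i => (τ i : E N)) x₀ (w α)) z := by
    funext z
    exact ut_add_fderiv P w α z
  rw [e]
  exact fderiv_add (cd_fderiv (ev_cd (P α) 2) z) (cd_fderiv (ev_cd (w α) 2) z)

/-- the mass of a closed ball -/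
lemma Wd.mass {B θ : ℝ} {Bd : Set (E N)} (hW : Wd m U μ T π τ x₀ B θ Bd) :
    ∃ ρ : ℝ, 0 < ρ ∧ ∀ r, 0 < r → r < ρ → μ.real (closedBall x₀ r) ≤ ((B + 1) * 2 ^ m) * r ^ m := by
  obtain ⟨ρ₁, hρ₁, h₁⟩ := hW.up 1 one_pos
  obtain ⟨R, hR, hRU⟩ := hW.nbd
  refine ⟨min (ρ₁ / 2) (R / 2), by positivity, fun r hr hrρ => ?_⟩
  have h1 : r < ρ₁ / 2 := hrρ.trans_le (min_le_left _ _)
  have h2 : r < R / 2 := hrρ.trans_le (min_le_right _ _)
  have h3 := h₁ (2 * r) (by positivity) (by linarith) x₀ (mem_closedBall_self (by positivity))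
    (2 * r) (by positivity) le_rfl
  have h4 : μ.real (closedBall x₀ r) ≤ μ.real (ball x₀ (2 * r)) := by
    refine measureReal_mono (closedBall_subset_ball (by linarith)) ?_
    apply ne_of_lt
    refine (measure_mono (ball_subset_closedBall.trans (closedBall_subset_closedBall ?_))).trans_lt
      (fin_cb hW.glo hRU)
    linarith
  refine h4.trans (h3.trans (le_of_eq ?_))
  rw [mul_pow]
  ring

/-- **one step** -/
theorem one_thm (hD : S_DEN) (hN : S_NRM) (hHP : S_HP) (hKT : S_KT2) {B θ : ℝ} {Bd : Set (E N)}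
    (hW : Wd m U μ T π τ x₀ B θ Bd) (ν : OrthonormalBasis (Fin n) ℝ πᗮ) (d : ℕ) :
    ∃ C₁ : ℝ, 0 < C₁ ∧ One U μ τ ν x₀ d C₁ := by
  obtain ⟨f, hf⟩ := hD.ex
  have hG := hW.glo
  have hB := hW.B0
  have hθ := hW.θ0
  set M : ℝ := (B + 1) * 2 ^ m with hM
  have hM0 : 0 ≤ M := by positivity
  obtain ⟨K, hK0, hK⟩ := step1 hD hN hHP hKT hG hf ν τ x₀ d M B hM0 hB
  have hcf := hD.pos m f hG.hm hf
  have hf0 := hf.pos
  have hCS : 0 ≤ CS m n f θ M := by
    unfold CS
    positivity
  set C₁ : ℝ := K + Real.sqrt (CS m n f θ M) * (5 * K + 2) with hC₁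
  have hsq := Real.sqrt_nonneg (CS m n f θ M)
  have hKC : K ≤ C₁ := by
    rw [hC₁]
    have : 0 ≤ Real.sqrt (CS m n f θ M) * (5 * K + 2) := by positivity
    linarith
  have hC₁0 : 0 < C₁ := hK0.trans_le hKC
  refine ⟨C₁, hC₁0, ?_⟩
  intro κ hκ hκ8
  set C₂ : ℝ := 1 + K + m * d * K + N * m ^ 2 * d ^ 2 * K with hC₂
  have hC₂1 : 1 ≤ C₂ := by
    rw [hC₂]
    have h1 : 0 ≤ (m : ℝ) * d * K := by positivity
    have h2 : 0 ≤ (N : ℝ) * m ^ 2 * d ^ 2 * K := by positivity
    linarith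
  have hC₂0 : 0 < C₂ := by linarith
  set η' : ℝ := κ ^ (d + 1) with hη'
  have hκ1 : κ ≤ 1 := by linarith
  have hη'0 : 0 < η' := by positivity
  have hη'1 : η' ≤ 1 := pow_le_one₀ hκ.le hκ1
  set η : ℝ := κ * η' / C₂ with hη
  have hη0 : 0 < η := by positivity
  have hηη' : C₂ * η = κ * η' := by
    rw [hη]
    field_simp
  have hηle : C₂ * η ≤ η' := by
    rw [hηη']
    nlinarith
  have hηle2 : η ≤ η' := by nlinarith
  have hη1 : η ≤ 1 := hηle2.trans hη'1
  obtain ⟨R, hR, hRU⟩ := hW.nbd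
  obtain ⟨ρm, hρm, hmass⟩ := hW.mass
  obtain ⟨ρu, hρu, hup⟩ := hW.up η' hη'0
  obtain ⟨ρf, hρf, hflat⟩ := hW.flat η' hη'0
  obtain ⟨ρb, hρb, hbad⟩ := hW.bad (η' ^ 2) (by positivity)
  refine ⟨η, min (min ρm ρu) (min ρf ρb), hη0, hη1, by positivity, ?_⟩
  intro r hr hrρ P e F hs hFe hFw
  have hr1 : r < ρm := hrρ.trans_le ((min_le_left _ _).trans (min_le_left _ _))
  have hr2 : r < ρu := hrρ.trans_le ((min_le_left _ _).trans (min_le_right _ _))
  have hr3 : r < ρf := hrρ.trans_le ((min_le_right _ _).trans (min_le_left _ _))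
  have hr4 : r < ρb := hrρ.trans_le ((min_le_right _ _).trans (min_le_right _ _))
  have he := hs.e0
  have hF := hs.F0
  have hFe' : F * r ^ 2 ≤ η * e := by
    refine hFe.trans ?_
    have : η ^ 2 ≤ η := by nlinarith
    exact mul_le_mul_of_nonneg_right this he.le
  obtain ⟨w, hwH, hwn, hwv⟩ := hK r e F η η' η' (ut τ x₀ P) hs (hmass r hr hr1) hη'0.le hη'1 hη'0.le hFe'
  refine ⟨w, hwH, fun α => (hwn α).trans (mul_le_mul_of_nonneg_right hKC he.le), ?_⟩
  set r' : ℝ := κ * r with hr'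
  have hr'0 : 0 < r' := by positivity
  have hr'r : r' ≤ r := by
    rw [hr']
    nlinarith
  have hr'8 : r' ≤ r / 8 := by
    rw [hr']
    nlinarith
  have hsub' : closedBall x₀ r' ⊆ closedBall x₀ r := closedBall_subset_closedBall hr'r
  set eg : ℝ := 4 * K * η' * e with heg
  set e' : ℝ := (1 + K) * e with he'
  have her : e / r ≤ η := by
    rw [div_le_iff₀ hr]
    exact hs.er
  -- the data at the scale r'
  have hs' : Sc U μ ν x₀ (ut τ x₀ fun β => P β + w β) r' e' F η' := by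
    refine ⟨hr'0, by positivity, hF, hη'0, hη'1, ?_, ?_, hsub'.trans hs.sub, ut_gf _, ?_, ?_, ?_, ?_⟩
    · have h1 : (1 + K) ≤ C₂ := by
        rw [hC₂]
        have h1 : 0 ≤ (m : ℝ) * d * K := by positivity
        have h2 : 0 ≤ (N : ℝ) * m ^ 2 * d ^ 2 * K := by positivity
        linarith
      calc e' ≤ C₂ * (η * r) := mul_le_mul h1 hs.er he.le hC₂0.le
        _ = (C₂ * η) * r := by ring
        _ = η' * r' := by rw [hηη', hr']; ring
    · calc F * r' ≤ F * r := mul_le_mul_of_nonneg_left hr'r hF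
        _ ≤ η := hs.Fr
        _ ≤ η' := hηle2
    · intro z hz hzr α
      rw [hh_ut_add]
      have h1 := hs.h z hz (hsub' hzr) α
      have h2 : |ev (fun i => (τ i : E N)) x₀ (w α) z| ≤ K * e :=
        (ev_le hN (hsub' hzr) _).trans (hwn α)
      refine (abs_sub _ _).trans ?_
      rw [he']
      linarith
    · intro z hz α
      exact hFw w hwH (fun α => (hwn α).trans (mul_le_mul_of_nonneg_right hKC he.le)) z (hsub' hz) α
    · intro z hz α
      rw [ut_add_fderiv]
      refine (norm_add_le _ _).trans ?_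
      have h1 := hs.d1 z (hsub' hz) α
      have h2 := ev_fderiv_le (τ := τ) hN hr (hsub' hz) (hwH α).1
      have h3 : (m : ℝ) * (d / r * nrm r (w α)) ≤ m * d * K * η := by
        calc (m : ℝ) * (d / r * nrm r (w α)) ≤ m * (d / r * (K * e)) := by
              have := hwn α
              gcongr
          _ = m * d * K * (e / r) := by ring
          _ ≤ m * d * K * η := mul_le_mul_of_nonneg_left her (by positivity)
      have h4 : η + m * d * K * η ≤ C₂ * η := by
        rw [hC₂]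
        have : 0 ≤ (K + N * m ^ 2 * d ^ 2 * K) * η := by positivity
        nlinarith
      linarith
    · intro z hz α
      rw [ut_add_ff]
      have h1 := hs.d2 z (hsub' hz) α
      have h2 := ev_ff_le (τ := τ) hN hr (hsub' hz) (hwH α).1
      have h3 : (N : ℝ) * (m ^ 2 * ((d / r) ^ 2 * nrm r (w α))) ≤ N * m ^ 2 * d ^ 2 * K * (η / r) := by
        calc (N : ℝ) * (m ^ 2 * ((d / r) ^ 2 * nrm r (w α)))
            ≤ N * (m ^ 2 * ((d / r) ^ 2 * (K * e))) := by
              have := hwn α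
              gcongr
          _ = N * m ^ 2 * d ^ 2 * K * ((e / r) / r) := by
              field_simp
          _ ≤ N * m ^ 2 * d ^ 2 * K * (η / r) := by
              apply mul_le_mul_of_nonneg_left _ (by positivity)
              exact div_le_div_of_nonneg_right her hr.le
      have h4 : ‖fderiv ℝ (fderiv ℝ (ut τ x₀ P α)) z +
          fderiv ℝ (fderiv ℝ (ev (fun i => (τ i : E N)) x₀ (w α))) z‖ ≤
          ‖fderiv ℝ (fderiv ℝ (ut τ x₀ P α)) z‖ +
          ‖fderiv ℝ (fderiv ℝ (ev (fun i => (τ i : E N)) x₀ (w α))) z‖ :=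
        ContinuousLinearMap.opNorm_add_le _ _
      have h5 : (N : ℝ) * ‖fderiv ℝ (fderiv ℝ (ut τ x₀ P α)) z +
          fderiv ℝ (fderiv ℝ (ev (fun i => (τ i : E N)) x₀ (w α))) z‖ ≤
          η / r + N * m ^ 2 * d ^ 2 * K * (η / r) := by
        calc _ ≤ (N : ℝ) * (‖fderiv ℝ (fderiv ℝ (ut τ x₀ P α)) z‖ +
              ‖fderiv ℝ (fderiv ℝ (ev (fun i => (τ i : E N)) x₀ (w α))) z‖) :=
              mul_le_mul_of_nonneg_left h4 (Nat.cast_nonneg _)
          _ ≤ _ := by
              rw [mul_add]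
              refine add_le_add h1 (le_trans ?_ h3)
              exact mul_le_mul_of_nonneg_left h2 (Nat.cast_nonneg _)
      have h6 : η / r + N * m ^ 2 * d ^ 2 * K * (η / r) ≤ C₂ * (η / r) := by
        rw [hC₂]
        have : 0 ≤ (K + m * d * K) * (η / r) := by positivity
        nlinarith
      have h7 : C₂ * (η / r) ≤ η' / r' := by
        have h8 : C₂ * (η / r) = κ * η' / r := by
          rw [← hηη']
          ring
        have h9 : η' / r' = η' / κ / r := by
          rw [hr']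
          field_simp
        rw [h8, h9]
        apply div_le_div_of_nonneg_right _ hr.le
        rw [le_div_iff₀ hκ]
        nlinarith [mul_nonneg hκ.le hη'0.le]
      linarith
  -- the good points
  have hgood : ∀ z ∈ μ.support, z ∈ closedBall x₀ r' → z ∉ Bd →
      ∀ α, |hh ν x₀ (ut τ x₀ fun β => P β + w β) α z| ≤ eg := by
    intro z hz hzr hzB α
    rw [hh_ut_add]
    have hz4 : z ∈ closedBall x₀ (r / 4) := closedBall_subset_closedBall (by linarith) hzr
    have hballU : ∀ t, t ≤ r / 4 → closedBall z t ⊆ U := by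
      intro t ht y hy
      apply hs.sub
      rw [mem_closedBall] at hy hz4 ⊢
      linarith [dist_triangle y z x₀]
    have h1 := hwv z hz4 (hflat r hr hr3 z hz (by
        rw [mem_closedBall] at hz4
        linarith))
      (fun t ht ht4 => hW.good z hzB t ht (hballU t ht4))
      (fun t ht ht4 => hup r hr hr2 z (hsub' hzr) t ht (by linarith)) α
    refine h1.trans ?_
    have h2 : ‖z - x₀‖ / r ≤ κ := by
      rw [div_le_iff₀ hr]
      rw [mem_closedBall, dist_eq_norm] at hzr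
      exact hzr
    have h3 : (‖z - x₀‖ / r) ^ (d + 1) ≤ η' := pow_le_pow_left₀ (by positivity) h2 _
    rw [heg]
    have h4 : (‖z - x₀‖ / r) ^ (d + 1) + η' + η + η' ≤ 4 * η' := by linarith
    calc K * ((‖z - x₀‖ / r) ^ (d + 1) + η' + η + η') * e ≤ K * (4 * η') * e := by gcongr
      _ = 4 * K * η' * e := by ring
  intro b hb hbr α
  have hbr' : b ∈ closedBall x₀ (r' / 2) := hbr
  have hfin := sup_est hD hG hs' hf hbr' hθ hM0 (by positivity : 0 ≤ eg) hgood
    (hbad r' hr'0 (by linarith)) (hmass r' hr'0 (by linarith))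
    (fun t ht ht2 => hW.low b hb t ht (by
      intro y hy
      apply hs.sub
      rw [mem_closedBall] at hy hbr' ⊢
      linarith [dist_triangle y b x₀])) α
  set X : ℝ := eg + η' * e' + F * r' ^ 2 / η' with hX
  have hXle : X ≤ (5 * K + 2) * (η' * e) := by
    have h1 : F * r' ^ 2 / η' ≤ η' * e := by
      rw [div_le_iff₀ hη'0]
      have h2 : F * r' ^ 2 ≤ F * r ^ 2 :=
        mul_le_mul_of_nonneg_left (pow_le_pow_left₀ hr'0.le hr'r 2) hF
      have h3 : η ^ 2 ≤ η' ^ 2 := pow_le_pow_left₀ hη0.le hηle2 2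
      have h4 : η ^ 2 * e ≤ η' ^ 2 * e := mul_le_mul_of_nonneg_right h3 he.le
      calc F * r' ^ 2 ≤ η' ^ 2 * e := h2.trans (hFe.trans h4)
        _ = η' * e * η' := by ring
    rw [hX, heg, he']
    nlinarith
  have hX0 : 0 ≤ X := by positivity
  have h1 : |hh ν x₀ (ut τ x₀ fun β => P β + w β) α b| ≤ Real.sqrt (CS m n f θ M) * X := by
    apply abs_le_of_sq_le_sq _ (by positivity)
    rw [mul_pow, Real.sq_sqrt hCS]
    exact hfin
  refine h1.trans ?_
  calc Real.sqrt (CS m n f θ M) * X ≤ Real.sqrt (CS m n f θ M) * ((5 * K + 2) * (η' * e)) :=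
        mul_le_mul_of_nonneg_left hXle hsq
    _ = (Real.sqrt (CS m n f θ M) * (5 * K + 2)) * (η' * e) := by ring
    _ ≤ C₁ * (η' * e) := by
        apply mul_le_mul_of_nonneg_right _ (by positivity)
        rw [hC₁]
        linarith
    _ = C₁ * κ ^ (d + 1) * e := by rw [hη']; ring

end Pool.Agent.Helper68X
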