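import Pool.Agent.Helper68X.One

/-!
# Project JET: piece UL
-/

set_option autoImplicit false

namespace Pool.Agent.Helper68X

open MeasureTheory Set Filter Topology Metric Pool.Agent.TH337.VF Pool.Agent.Helper68V
open scoped ENNReal RealInnerProductSpace ContDiff

/-- **Piece UL** -/
theorem t_UL : S_UL := by
  intro hN N m U μ T π τ x₀ B θ Bd hW d
  obtain ⟨C, ρ, hC, hρ, hwb⟩ := hW.wb d
  obtain ⟨ρm, hρm, hmass⟩ := hW.mass
  obtain ⟨R, hR, hRU⟩ := hW.nbd
  have hB := hW.B0
  set M : ℝ := (B + 1) * 2 ^ m with hM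
  have hM0 : 0 < M := by positivity
  refine ⟨Real.sqrt (C * M), min (min ρ ρm) R, by positivity, by positivity, ?_⟩
  intro r hr hrρ P b hP hb hPb
  have hr1 : r < ρ := hrρ.trans_le ((min_le_left _ _).trans (min_le_left _ _))
  have hr2 : r < ρm := hrρ.trans_le ((min_le_left _ _).trans (min_le_right _ _))
  have hr3 : r < R := hrρ.trans_le (min_le_right _ _)
  have h1 := hwb r hr hr1 P hP
  have hrU : closedBall x₀ r ⊆ U := (closedBall_subset_closedBall hr3.le).trans hRU
  have hfin := fin_cb hW.glo hrU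
  have hsub : ball x₀ (r / 2) ⊆ closedBall x₀ r :=
    ball_subset_closedBall.trans (closedBall_subset_closedBall (by linarith))
  have hfinb : μ (ball x₀ (r / 2)) < ⊤ := (measure_mono hsub).trans_lt hfin
  have hfinm : IsFiniteMeasure (μ.restrict (ball x₀ (r / 2))) := ⟨by simpa using hfinb⟩
  have h2 : ∫ z in ball x₀ (r / 2), ev (fun i => (τ i : E N)) x₀ P z ^ 2 ∂μ ≤
      b ^ 2 * (M * r ^ m) := by
    have h3 : ‖∫ z in ball x₀ (r / 2), ev (fun i => (τ i : E N)) x₀ P z ^ 2 ∂μ‖ ≤
        b ^ 2 * (μ.restrict (ball x₀ (r / 2))).real univ := by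
      apply norm_integral_le_of_norm_le_const
      filter_upwards [ae_restrict_mem measurableSet_ball,
        ae_restrict_of_ae (Measure.support_mem_ae (μ := μ))] with z hz hzs
      rw [norm_pow, Real.norm_eq_abs]
      exact pow_le_pow_left₀ (abs_nonneg _) (hPb z hzs (hsub hz)) 2
    rw [measureReal_restrict_apply_univ] at h3
    refine (le_abs_self _).trans (h3.trans ?_)
    apply mul_le_mul_of_nonneg_left _ (by positivity)
    exact (measureReal_mono hsub hfin.ne).trans (hmass r hr hr2)
  have hrm : 0 < r ^ m := by positivity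
  have h4 : nrm r P ^ 2 ≤ C * M * b ^ 2 := by
    apply le_of_mul_le_mul_right _ hrm
    refine h1.trans ((mul_le_mul_of_nonneg_left h2 hC.le).trans (le_of_eq ?_))
    ring
  have h5 : |nrm r P| ≤ Real.sqrt (C * M) * b := by
    apply abs_le_of_sq_le_sq _ (by positivity)
    rw [mul_pow, Real.sq_sqrt (by positivity)]
    exact h4
  exact (le_abs_self _).trans h5

end Pool.Agent.Helper68X
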