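import Pool.Agent.Helper68X.One
import Pool.Agent.Helper68X.UL
import Pool.Agent.Helper68X.CROSS
import Pool.Agent.Helper68X.LINK

/-!
The Taylor series: truncation, uniqueness, tilt.
-/

set_option autoImplicit false

namespace Pool.Agent.Helper68X

open MeasureTheory Set Filter Topology Metric Pool.Agent.TH337.VF Pool.Agent.Helper68V
open scoped ENNReal RealInnerProductSpace ContDiff

variable {N m n : ℕ} {U : Set (E N)} {μ : Measure (E N)} {T : E N → Submodule ℝ (E N)}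
  {π : Submodule ℝ (E N)} {x₀ : E N} {τ : OrthonormalBasis (Fin m) ℝ π}
  {ν : OrthonormalBasis (Fin n) ℝ πᗮ} {B θ : ℝ} {Bd : Set (E N)}

/-- coefficients vanish -/
lemma coeff_zero_of_nrm (hN : S_NRM) {D : Pol m} {k : ℕ} {C ρ : ℝ} (hρ : 0 < ρ)
    (h : ∀ r, 0 < r → r < ρ → nrm r D ≤ C * r ^ (k + 1)) (s : Fin m →₀ ℕ) (hs : s.degree ≤ k) :
    D.coeff s = 0 := by
  by_contra hne
  have hc : 0 < |D.coeff s| := abs_pos.2 hne
  set K : ℝ := |C| + 1 with hK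
  have hK0 : 0 < K := by positivity
  set r : ℝ := min (min (ρ / 2) 1) (|D.coeff s| / (2 * K)) with hr
  have hr0 : 0 < r := by positivity
  have hr1 : r ≤ 1 := (min_le_left _ _).trans (min_le_right _ _)
  have hrρ : r < ρ := ((min_le_left _ _).trans (min_le_left _ _)).trans_lt (by linarith)
  have hr2 : r ≤ |D.coeff s| / (2 * K) := min_le_right _ _
  have h1 := (hN.coeff m r D s hr0.le).trans (h r hr0 hrρ)
  have h2 : C * r ^ (k + 1) ≤ K * (r * r ^ s.degree) := by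
    have h3 : r ^ (k + 1) ≤ r ^ (s.degree + 1) := pow_le_pow_of_le_one hr0.le hr1 (by omega)
    have h4 : C ≤ K := by
      rw [hK]
      linarith [le_abs_self C]
    calc C * r ^ (k + 1) ≤ K * r ^ (k + 1) := mul_le_mul_of_nonneg_right h4 (by positivity)
      _ ≤ K * r ^ (s.degree + 1) := mul_le_mul_of_nonneg_left h3 hK0.le
      _ = _ := by rw [pow_succ]; ring
  have h3 : |D.coeff s| ≤ K * r := by
    apply le_of_mul_le_mul_right _ (by positivity : 0 < r ^ s.degree)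
    calc |D.coeff s| * r ^ s.degree ≤ K * (r * r ^ s.degree) := h1.trans h2
      _ = _ := by ring
  have h4 : K * r ≤ |D.coeff s| / 2 := by
    calc K * r ≤ K * (|D.coeff s| / (2 * K)) := mul_le_mul_of_nonneg_left hr2 hK0.le
      _ = |D.coeff s| / 2 := by field_simp
  linarith

/-- **uniqueness** -/
lemma uq (hN : S_NRM) (hW : Wd m U μ T π τ x₀ B θ Bd) {D : Pol m} {k : ℕ} {C ρ : ℝ} (hρ : 0 < ρ)
    (h : ∀ r, 0 < r → r < ρ → ∀ z ∈ μ.support, z ∈ closedBall x₀ r →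
      |ev (fun i => (τ i : E N)) x₀ D z| ≤ C * r ^ (k + 1)) (s : Fin m →₀ ℕ) (hs : s.degree ≤ k) :
    D.coeff s = 0 := by
  obtain ⟨C', ρ', hC', hρ', hUL⟩ := t_UL hN N m U μ T π τ x₀ B θ Bd hW D.totalDegree
  apply coeff_zero_of_nrm hN (lt_min hρ hρ') (C := C' * |C|) _ s hs
  intro r hr hrρ
  rw [mul_assoc]
  apply hUL r hr (hrρ.trans_le (min_le_right _ _)) D _ le_rfl (by positivity)
  intro z hz hzr
  refine (h r hr (hrρ.trans_le (min_le_left _ _)) z hz hzr).trans ?_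
  exact mul_le_mul_of_nonneg_right (le_abs_self C) (by positivity)

/-- polynomials of high order -/
lemma nrm_ord {P : Pol m} {j : ℕ} (hP : ∀ s ∈ P.support, j ≤ s.degree) {r : ℝ} (hr : 0 ≤ r)
    (hr1 : r ≤ 1) : nrm r P ≤ nrm 1 P * r ^ j := by
  unfold nrm
  rw [Finset.sum_mul]
  refine Finset.sum_le_sum fun s hs => ?_
  rw [one_pow, mul_one]
  exact mul_le_mul_of_nonneg_left (pow_le_pow_of_le_one hr hr1 (hP s hs)) (abs_nonneg _)

lemma ev_d1 (hN : S_NRM) {P : Pol m} {j d : ℕ} (hP : ∀ s ∈ P.support, j + 1 ≤ s.degree)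
    (hd : P.totalDegree ≤ d) {r : ℝ} {z : E N} (hr : 0 < r) (hr1 : r ≤ 1) (hz : z ∈ closedBall x₀ r) :
    ‖fderiv ℝ (ev (fun i => (τ i : E N)) x₀ P) z‖ ≤ m * d * nrm 1 P * r ^ j := by
  refine (ev_fderiv_le hN hr hz hd).trans ?_
  have h1 := nrm_ord hP hr.le hr1
  calc (m : ℝ) * (d / r * nrm r P) ≤ m * (d / r * (nrm 1 P * r ^ (j + 1))) := by gcongr
    _ = _ := by
      rw [pow_succ]
      field_simp

lemma ev_d2 (hN : S_NRM) {P : Pol m} {j d : ℕ} (hP : ∀ s ∈ P.support, j + 2 ≤ s.degree)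
    (hd : P.totalDegree ≤ d) {r : ℝ} {z : E N} (hr : 0 < r) (hr1 : r ≤ 1) (hz : z ∈ closedBall x₀ r) :
    ‖fderiv ℝ (fderiv ℝ (ev (fun i => (τ i : E N)) x₀ P)) z‖ ≤ m ^ 2 * d ^ 2 * nrm 1 P * r ^ j := by
  refine (ev_ff_le hN hr hz hd).trans ?_
  have h1 := nrm_ord hP hr.le hr1
  calc (m : ℝ) ^ 2 * ((d / r) ^ 2 * nrm r P) ≤ m ^ 2 * ((d / r) ^ 2 * (nrm 1 P * r ^ (j + 2))) := by
        gcongr
    _ = _ := by
      rw [pow_add]
      field_simp

/-- the data of an expansion of order `K` -/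
def Exp (μ : Measure (E N)) (τ : OrthonormalBasis (Fin m) ℝ π) (ν : OrthonormalBasis (Fin n) ℝ πᗮ)
    (x₀ : E N) (K : ℕ) (P : Fin n → Pol m) : Prop :=
  (∀ α, (P α).totalDegree ≤ K) ∧ (∀ α s, s.degree ≤ 1 → (P α).coeff s = 0) ∧
    ∃ C ρ : ℝ, 0 < C ∧ 0 < ρ ∧ ρ ≤ 1 ∧ ∀ r, 0 < r → r < ρ →
      (∀ z ∈ μ.support, z ∈ closedBall x₀ r → ∀ α, |hh ν x₀ (ut τ x₀ P) α z| ≤ C * r ^ (K + 1)) ∧
      ∀ z ∈ closedBall x₀ r, ∀ α, |Fo ν (ut τ x₀ P) α z| ≤ C * r ^ (K - 1)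

lemma crd_norm_le {r : ℝ} (hr : 0 ≤ r) {z : E N} (hz : z ∈ closedBall x₀ r) : ‖crd τ x₀ z‖ ≤ r := by
  rw [pi_norm_le_iff_of_nonneg hr]
  intro i
  exact crd_le hz i

lemma Lap_neg (P : Pol m) : Lap (-P) = -Lap P := by
  unfold Lap
  rw [← Finset.sum_neg_distrib]
  refine Finset.sum_congr rfl fun i _ => ?_
  rw [map_neg, map_neg]

/-- **truncation** -/
lemma cut (hN : S_NRM) {K : ℕ} (hK : 1 ≤ K)
    (hJ : Jet (n := n) μ τ ν x₀ (K + 1) (1 / 2)) : ∃ P : Fin n → Pol m, Exp μ τ ν x₀ K P := by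
  obtain ⟨P, hPd, hP1, ⟨C₀, hC₀⟩, C, ρ, hC, hρ, hh'⟩ := hJ
  set R : Fin n → Pol m := fun α => MvPolynomial.homogeneousComponent (K + 1) (P α) with hR
  set Q : Fin n → Pol m := fun α => P α + -R α with hQ
  have hRc : ∀ α s, (R α).coeff s = if s.degree = K + 1 then (P α).coeff s else 0 := fun α s =>
    MvPolynomial.coeff_homogeneousComponent _ _ s
  have hQc : ∀ α s, (Q α).coeff s = if s.degree = K + 1 then 0 else (P α).coeff s := by
    intro α s
    rw [hQ, MvPolynomial.coeff_add, MvPolynomial.coeff_neg, hRc]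
    split_ifs <;> ring
  have hRs : ∀ α, ∀ s ∈ (-R α).support, K + 1 ≤ s.degree := by
    intro α s hs
    rw [MvPolynomial.support_neg, MvPolynomial.mem_support_iff, hRc] at hs
    by_contra hc
    rw [if_neg (by omega)] at hs
    exact hs rfl
  have hPs : ∀ α, ∀ s ∈ (P α).support, 2 ≤ s.degree := by
    intro α s hs
    rw [MvPolynomial.mem_support_iff] at hs
    by_contra hc
    exact hs (hP1 α s (by omega))
  have hPdeg : ∀ α, ∀ s ∈ (P α).support, s.degree ≤ K + 1 := by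
    intro α s hs
    exact (MvPolynomial.le_totalDegree hs).trans (hPd α)
  have hRd : ∀ α, (-R α).totalDegree ≤ K + 1 := by
    intro α
    apply totalDegree_le_of
    intro s hs
    rw [MvPolynomial.support_neg, MvPolynomial.mem_support_iff, hRc] at hs
    by_contra hc
    rw [if_neg (by omega)] at hs
    exact hs rfl
  have hQd : ∀ α, (Q α).totalDegree ≤ K := by
    intro α
    apply totalDegree_le_of
    intro s hs
    rw [MvPolynomial.mem_support_iff, hQc] at hs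
    by_cases h : s.degree = K + 1
    · rw [if_pos h] at hs
      exact absurd rfl hs
    · rw [if_neg h] at hs
      have := hPdeg α s (MvPolynomial.mem_support_iff.2 hs)
      omega
  refine ⟨Q, hQd, ?_, ?_⟩
  · intro α s hs
    rw [hQc]
    split_ifs
    · rfl
    · exact hP1 α s hs
  -- constants
  set nR : ℝ := ∑ α, nrm 1 (-R α) with hnR
  set nP : ℝ := ∑ α, nrm 1 (P α) with hnP
  have hnR0 : ∀ α, 0 ≤ nrm 1 (-R α) := fun α => hN.nonneg m 1 _ zero_le_one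
  have hnP0 : ∀ α, 0 ≤ nrm 1 (P α) := fun α => hN.nonneg m 1 _ zero_le_one
  have hnRle : ∀ α, nrm 1 (-R α) ≤ nR := fun α =>
    Finset.single_le_sum (fun β _ => hnR0 β) (Finset.mem_univ α)
  have hnPle : ∀ α, nrm 1 (P α) ≤ nP := fun α =>
    Finset.single_le_sum (fun β _ => hnP0 β) (Finset.mem_univ α)
  have hnR00 : 0 ≤ nR := Finset.sum_nonneg fun α _ => hnR0 α
  have hnP00 : 0 ≤ nP := Finset.sum_nonneg fun α _ => hnP0 α
  set A₁ : ℝ := m * ((K + 1 : ℕ) : ℝ) * nP with hA₁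
  set A₂ : ℝ := m ^ 2 * ((K + 1 : ℕ) : ℝ) ^ 2 * nP with hA₂
  set B₁ : ℝ := m * ((K + 1 : ℕ) : ℝ) * nR with hB₁
  set B₂ : ℝ := m ^ 2 * ((K + 1 : ℕ) : ℝ) ^ 2 * nR with hB₂
  have hA₁0 : 0 ≤ A₁ := by positivity
  have hA₂0 : 0 ≤ A₂ := by positivity
  have hB₁0 : 0 ≤ B₁ := by positivity
  have hB₂0 : 0 ≤ B₂ := by positivity
  refine ⟨C + nR + |C₀| + N * B₂ + 2 * N ^ 2 * n * (B₂ * (A₁ + B₁) + A₂ * B₁) + 1,
    min ρ 1, by positivity, lt_min hρ one_pos, min_le_right _ _, ?_⟩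
  intro r hr hrρ
  have hr1 : r ≤ 1 := (hrρ.trans_le (min_le_right _ _)).le
  have hrρ' : r < ρ := hrρ.trans_le (min_le_left _ _)
  set Z : ℝ := 2 * N ^ 2 * n * (B₂ * (A₁ + B₁) + A₂ * B₁) with hZ
  have hZ0 : 0 ≤ Z := by positivity
  have hNB : 0 ≤ (N : ℝ) * B₂ := by positivity
  constructor
  · intro z hz hzr α
    have h1 := hh' r hr hrρ' z hz hzr α
    rw [hQ, hh_ut_add]
    refine (abs_sub _ _).trans ?_
    have h2 : |ev (fun i => (τ i : E N)) x₀ (-R α) z| ≤ nR * r ^ (K + 1) :=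
      (ev_le hN hzr _).trans ((nrm_ord (hRs α) hr.le hr1).trans
        (mul_le_mul_of_nonneg_right (hnRle α) (by positivity)))
    have h3 : r ^ (((K + 1 : ℕ) : ℝ) + 1 - 1 / 2) ≤ r ^ (K + 1) := by
      rw [← Real.rpow_natCast r (K + 1)]
      apply Real.rpow_le_rpow_of_exponent_ge hr hr1
      push_cast
      linarith
    have h4 := mul_le_mul_of_nonneg_left h3 hC
    have h5 : 0 ≤ (|C₀| + N * B₂ + Z + 1) * r ^ (K + 1) := by positivity
    calc |hh ν x₀ (ut τ x₀ P) α z| + |ev (fun i => (τ i : E N)) x₀ (-R α) z|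
        ≤ C * r ^ (K + 1) + nR * r ^ (K + 1) := add_le_add (h1.trans h4) h2
      _ ≤ (C + nR + |C₀| + N * B₂ + Z + 1) * r ^ (K + 1) := by nlinarith
  · intro z hz α
    have hu : GF π (ut τ x₀ P) := ut_gf P
    have hv : GF π (ut τ x₀ fun β => -R β) := ut_gf _
    have c1 : ∀ β, ‖fderiv ℝ (ut τ x₀ P β) z‖ ≤ A₁ := by
      intro β
      refine (ev_d1 (j := 1) (τ := τ) hN (hPs β) (hPd β) hr hr1 hz).trans ?_
      rw [pow_one]
      calc (m : ℝ) * ((K + 1 : ℕ) : ℝ) * nrm 1 (P β) * r ≤ m * ((K + 1 : ℕ) : ℝ) * nP * 1 := by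
            have := hnPle β
            gcongr
        _ = A₁ := by rw [mul_one]
    have c2 : ∀ β, ‖fderiv ℝ (fderiv ℝ (ut τ x₀ P β)) z‖ ≤ A₂ := by
      intro β
      refine (ev_d2 (j := 0) (τ := τ) hN (hPs β) (hPd β) hr hr1 hz).trans ?_
      rw [pow_zero, mul_one]
      have := hnPle β
      rw [hA₂]
      gcongr
    have c3 : ∀ β, ‖fderiv ℝ (ut τ x₀ (fun β => -R β) β) z‖ ≤ B₁ * r ^ K := by
      intro β
      refine (ev_d1 (j := K) (τ := τ) hN (hRs β) (hRd β) hr hr1 hz).trans ?_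
      have := hnRle β
      rw [hB₁]
      gcongr
    have c4 : ∀ β, ‖fderiv ℝ (fderiv ℝ (ut τ x₀ (fun β => -R β) β)) z‖ ≤ B₂ * r ^ (K - 1) := by
      intro β
      refine (ev_d2 (j := K - 1) (τ := τ) hN (fun s hs => ?_) (hRd β) hr hr1 hz).trans ?_
      · have := hRs β s hs
        omega
      · have := hnRle β
        rw [hB₂]
        gcongr
    have hcr := t_CROSS N n π ν (ut τ x₀ P) (ut τ x₀ fun β => -R β) z A₁ A₂ (B₁ * r ^ K)
      (B₂ * r ^ (K - 1)) hu hv c1 c2 c3 c4 α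
    have he : (fun β y => ut τ x₀ P β y + ut τ x₀ (fun β => -R β) β y) = ut τ x₀ Q := by
      funext β y
      rw [hQ]
      exact (ev_add (P β) (-R β) y).symm
    rw [he] at hcr
    have hl : |lap π (ut τ x₀ (fun β => -R β) α) z| ≤ N * (B₂ * r ^ (K - 1)) :=
      (abs_lap_le _ _ _).trans (mul_le_mul_of_nonneg_left (c4 α) (Nat.cast_nonneg _))
    have hFP : |Fo ν (ut τ x₀ P) α z| ≤ |C₀| * r ^ (K - 1) := by
      rw [t_LINK N m n π τ ν x₀ P α z]
      have hx := crd_norm_le (τ := τ) hr.le hz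
      refine (hC₀ α _ (hx.trans hr1)).trans ?_
      rw [Nat.add_sub_cancel]
      calc C₀ * ‖crd τ x₀ z‖ ^ K ≤ |C₀| * r ^ K := by
            have := le_abs_self C₀
            gcongr
        _ ≤ |C₀| * r ^ (K - 1) := by
            apply mul_le_mul_of_nonneg_left _ (abs_nonneg _)
            exact pow_le_pow_of_le_one hr.le hr1 (Nat.sub_le _ _)
    have hrk : r ^ K ≤ r ^ (K - 1) := pow_le_pow_of_le_one hr.le hr1 (Nat.sub_le _ _)
    have hrk1 : r ^ K ≤ 1 := pow_le_one₀ hr.le hr1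
    have hrk0 : 0 ≤ r ^ (K - 1) := by positivity
    have hcr2 : 2 * (N : ℝ) ^ 2 * n * (B₂ * r ^ (K - 1) * (A₁ + B₁ * r ^ K) + A₂ * (B₁ * r ^ K)) ≤
        Z * r ^ (K - 1) := by
      rw [hZ, mul_assoc (2 * (N : ℝ) ^ 2 * n)]
      apply mul_le_mul_of_nonneg_left _ (by positivity)
      have q1 : B₂ * r ^ (K - 1) * (A₁ + B₁ * r ^ K) ≤ B₂ * r ^ (K - 1) * (A₁ + B₁ * 1) := by
        gcongr
      have q2 : A₂ * (B₁ * r ^ K) ≤ A₂ * (B₁ * r ^ (K - 1)) := by gcongr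
      calc _ ≤ B₂ * r ^ (K - 1) * (A₁ + B₁ * 1) + A₂ * (B₁ * r ^ (K - 1)) := add_le_add q1 q2
        _ = _ := by ring
    have h9 : Fo ν (ut τ x₀ Q) α z = (Fo ν (ut τ x₀ Q) α z - Fo ν (ut τ x₀ P) α z -
        lap π (ut τ x₀ (fun β => -R β) α) z) + (Fo ν (ut τ x₀ P) α z +
        lap π (ut τ x₀ (fun β => -R β) α) z) := by ring
    rw [h9]
    refine (abs_add_le _ _).trans ((add_le_add (hcr.trans hcr2)
      ((abs_add_le _ _).trans (add_le_add hFP hl))).trans ?_)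
    have h5 : 0 ≤ (C + nR + 1) * r ^ (K - 1) := by positivity
    nlinarith

end Pool.Agent.Helper68X
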