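import Pool.Agent.Helper68X.Ser

/-!
The Taylor series.
-/

set_option autoImplicit false

namespace Pool.Agent.Helper68X

open MeasureTheory Set Filter Topology Metric Pool.Agent.TH337.VF Pool.Agent.Helper68V
open scoped ENNReal RealInnerProductSpace ContDiff

variable {N m n : ℕ} {U : Set (E N)} {μ : Measure (E N)} {T : E N → Submodule ℝ (E N)}
  {π : Submodule ℝ (E N)} {x₀ : E N} {τ : OrthonormalBasis (Fin m) ℝ π}
  {ν : OrthonormalBasis (Fin n) ℝ πᗮ} {B θ : ℝ} {Bd : Set (E N)}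

/-- the partial sum of a series of polynomials -/
noncomputable def psum (Q : ℕ → Fin n → Pol m) (K : ℕ) (α : Fin n) : Pol m :=
  ∑ j ∈ Finset.range (K + 1), Q j α

lemma psum_coeff {Q : ℕ → Fin n → Pol m} (hQ : ∀ j α, (Q j α).IsHomogeneous j) (K : ℕ) (α : Fin n)
    (s : Fin m →₀ ℕ) : (psum Q K α).coeff s = if s.degree ≤ K then (Q s.degree α).coeff s else 0 := by
  unfold psum
  rw [MvPolynomial.coeff_sum]
  have h1 : ∀ j ∈ Finset.range (K + 1), (Q j α).coeff s =
      if j = s.degree then (Q s.degree α).coeff s else 0 := by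
    intro j _
    by_cases h : j = s.degree
    · rw [if_pos h, h]
    · rw [if_neg h]
      exact (hQ j α).coeff_eq_zero (Ne.symm h)
  rw [Finset.sum_congr rfl h1, Finset.sum_ite_eq']
  simp only [Finset.mem_range, Nat.lt_succ_iff]

/-- **existence of the series** -/
lemma series (hN : S_NRM) (hW : Wd m U μ T π τ x₀ B θ Bd)
    (hE : ∀ K, 1 ≤ K → ∃ P : Fin n → Pol m, Exp μ τ ν x₀ K P) :
    ∃ Q : ℕ → Fin n → Pol m, (∀ j α, (Q j α).IsHomogeneous j) ∧ (∀ j, j ≤ 1 → ∀ α, Q j α = 0) ∧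
      ∀ K, 1 ≤ K → Exp μ τ ν x₀ K (psum Q K) := by
  choose! P hP using hE
  have huq : ∀ K L, 1 ≤ K → K ≤ L → ∀ α s, s.degree ≤ K → (P K α).coeff s = (P L α).coeff s := by
    intro K L hK hKL α s hs
    obtain ⟨-, -, C₁, ρ₁, hC₁, hρ₁, hρ₁1, h₁⟩ := hP K hK
    obtain ⟨-, -, C₂, ρ₂, hC₂, hρ₂, hρ₂1, h₂⟩ := hP L (hK.trans hKL)
    have h3 := uq hN hW (D := P K α - P L α) (k := K) (C := C₂ + C₁) (lt_min hρ₁ hρ₂)
      (by
        intro r hr hrρ z hz hzr
        have hr1 := hrρ.trans_le (min_le_left _ _)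
        have hr2 := hrρ.trans_le (min_le_right _ _)
        have e1 := (h₁ r hr hr1).1 z hz hzr α
        have e2 := (h₂ r hr hr2).1 z hz hzr α
        have e3 : ev (fun i => (τ i : E N)) x₀ (P K α - P L α) z =
            hh ν x₀ (ut τ x₀ (P L)) α z - hh ν x₀ (ut τ x₀ (P K)) α z := by
          rw [ev_sub]
          unfold hh ut
          ring
        rw [e3]
        refine (abs_sub _ _).trans ?_
        have e4 : r ^ (L + 1) ≤ r ^ (K + 1) :=
          pow_le_pow_of_le_one hr.le (by linarith) (by omega)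
        have e5 := mul_le_mul_of_nonneg_left e4 hC₂.le
        linarith) s hs
    rw [MvPolynomial.coeff_sub] at h3
    linarith
  set Q : ℕ → Fin n → Pol m := fun j α =>
    MvPolynomial.homogeneousComponent j (P (max j 1) α) with hQ
  have hQh : ∀ j α, (Q j α).IsHomogeneous j := fun j α =>
    MvPolynomial.homogeneousComponent_isHomogeneous _ _
  have hQc : ∀ j α s, (Q j α).coeff s = if s.degree = j then (P (max j 1) α).coeff s else 0 :=
    fun j α s => MvPolynomial.coeff_homogeneousComponent _ _ s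
  refine ⟨Q, hQh, ?_, ?_⟩
  · intro j hj α
    ext s
    rw [hQc, MvPolynomial.coeff_zero]
    by_cases h : s.degree = j
    · rw [if_pos h]
      exact (hP (max j 1) (le_max_right _ _)).2.1 α s (by omega)
    · rw [if_neg h]
  · intro K hK
    have h1 : psum Q K = P K := by
      funext α
      ext s
      rw [psum_coeff hQh]
      by_cases h : s.degree ≤ K
      · rw [if_pos h, hQc, if_pos rfl]
        by_cases h0 : s.degree ≤ 1
        · rw [(hP _ (le_max_right _ _)).2.1 α s h0, (hP K hK).2.1 α s h0]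
        · exact huq _ _ (le_max_right _ _) (max_le h hK) α s (le_max_left _ _)
      · rw [if_neg h]
        by_contra hc
        have h2 : s ∈ (P K α).support := MvPolynomial.mem_support_iff.2 (Ne.symm hc)
        exact h ((MvPolynomial.le_totalDegree h2).trans ((hP K hK).1 α))
    rw [h1]
    exact hP K hK

/-- **uniqueness of the series** -/
lemma series_unique (hN : S_NRM) (hW : Wd m U μ T π τ x₀ B θ Bd) {Q Q' : ℕ → Fin n → Pol m}
    (hQ : ∀ j α, (Q j α).IsHomogeneous j) (hQ' : ∀ j α, (Q' j α).IsHomogeneous j)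
    (h : ∀ K, 1 ≤ K → ∃ C ρ : ℝ, 0 < ρ ∧ ∀ r, 0 < r → r < ρ → ∀ z ∈ μ.support,
      z ∈ closedBall x₀ r → ∀ α, |hh ν x₀ (ut τ x₀ (psum Q K)) α z| ≤ C * r ^ (K + 1))
    (h' : ∀ K, 1 ≤ K → ∃ C ρ : ℝ, 0 < ρ ∧ ∀ r, 0 < r → r < ρ → ∀ z ∈ μ.support,
      z ∈ closedBall x₀ r → ∀ α, |hh ν x₀ (ut τ x₀ (psum Q' K)) α z| ≤ C * r ^ (K + 1)) :
    Q' = Q := by
  funext j α
  ext s
  by_cases hs : s.degree = j
  · obtain ⟨C₁, ρ₁, hρ₁, h₁⟩ := h (max j 1) (le_max_right _ _)
    obtain ⟨C₂, ρ₂, hρ₂, h₂⟩ := h' (max j 1) (le_max_right _ _)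
    have h3 := uq hN hW (D := psum Q (max j 1) α - psum Q' (max j 1) α) (k := max j 1)
      (C := C₂ + C₁) (lt_min hρ₁ hρ₂)
      (by
        intro r hr hrρ z hz hzr
        have e1 := h₁ r hr (hrρ.trans_le (min_le_left _ _)) z hz hzr α
        have e2 := h₂ r hr (hrρ.trans_le (min_le_right _ _)) z hz hzr α
        have e3 : ev (fun i => (τ i : E N)) x₀ (psum Q (max j 1) α - psum Q' (max j 1) α) z =
            hh ν x₀ (ut τ x₀ (psum Q' (max j 1))) α z -
              hh ν x₀ (ut τ x₀ (psum Q (max j 1))) α z := by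
          rw [ev_sub]
          unfold hh ut
          ring
        rw [e3]
        refine (abs_sub _ _).trans ?_
        linarith) s (hs.le.trans (le_max_left _ _))
    rw [MvPolynomial.coeff_sub, psum_coeff hQ, psum_coeff hQ',
      if_pos (hs.le.trans (le_max_left _ _)), if_pos (hs.le.trans (le_max_left _ _)), hs] at h3
    linarith
  · rw [(hQ j α).coeff_eq_zero hs, (hQ' j α).coeff_eq_zero hs]

/-- passing to the limit in the radius -/
lemma lim_r {X C d ρ : ℝ} {k : ℕ} (hd : d < ρ) (h : ∀ r, d < r → r < ρ → X ≤ C * r ^ k) :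
    X ≤ C * d ^ k := by
  have h1 : Tendsto (fun r : ℝ => C * r ^ k) (𝓝[>] d) (𝓝 (C * d ^ k)) :=
    tendsto_nhdsWithin_of_tendsto_nhds (tendsto_const_nhds.mul (tendsto_id.pow k))
  exact ge_of_tendsto h1 (by
    filter_upwards [Ioo_mem_nhdsGT hd] with r hr
    exact h r hr.1 hr.2)

/-- **the tilt** -/
lemma tilt_exp (hN : S_NRM) (hW : Wd m U μ T π τ x₀ B θ Bd) {K : ℕ} (hK : 1 ≤ K)
    {P : Fin n → Pol m} (hP : Exp μ τ ν x₀ K P) : ∃ C ρ : ℝ, 0 < ρ ∧ ∀ r, 0 < r → r < ρ →
      ∫⁻ z in ball x₀ r, ENNReal.ofReal (‖(T z).starProjection -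
        (gp π (Ao ν (ut τ x₀ P) z)).starProjection‖ ^ 2) ∂μ ≤ ENNReal.ofReal (C * r ^ (m + 2 * K)) := by
  obtain ⟨hPd, hP1, C, ρ, hC, hρ, hρ1, hh'⟩ := hP
  obtain ⟨ρm, hρm, hmass⟩ := hW.mass
  obtain ⟨R₀, hR₀, hRU⟩ := hW.nbd
  have hG := hW.glo
  have hB := hW.B0
  have hPs : ∀ α, ∀ s ∈ (P α).support, 2 ≤ s.degree := by
    intro α s hs
    rw [MvPolynomial.mem_support_iff] at hs
    by_contra hc
    exact hs (hP1 α s (by omega))
  set nP : ℝ := ∑ α, nrm 1 (P α) with hnP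
  have hnP0 : ∀ α, 0 ≤ nrm 1 (P α) := fun α => hN.nonneg m 1 _ zero_le_one
  have hnPle : ∀ α, nrm 1 (P α) ≤ nP := fun α =>
    Finset.single_le_sum (fun β _ => hnP0 β) (Finset.mem_univ α)
  have hnP00 : 0 ≤ nP := Finset.sum_nonneg fun α _ => hnP0 α
  set A : ℝ := m * K * nP + N * (m ^ 2 * K ^ 2 * nP) + C + 1 with hA
  have hA0 : 0 < A := by positivity
  set M : ℝ := (B + 1) * 2 ^ m with hM
  set C₀' : ℝ := 16 * (n * (m + 4) + n ^ 2 + n) with hC₀'
  refine ⟨2 * (C₀' * (2 * C) ^ 2 * M * 2 ^ (m + 2 * K)), min (min (ρ / 2) (ρm / 2))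
    (min (R₀ / 2) (1 / (2 * A))), by positivity, ?_⟩
  intro r hr hrρ
  set R : ℝ := 2 * r with hR
  have hR0 : 0 < R := by positivity
  have h1 : R < ρ := by
    have : r < ρ / 2 := hrρ.trans_le ((min_le_left _ _).trans (min_le_left _ _))
    rw [hR]
    linarith
  have h2 : R < ρm := by
    have : r < ρm / 2 := hrρ.trans_le ((min_le_left _ _).trans (min_le_right _ _))
    rw [hR]
    linarith
  have h3 : R < R₀ := by
    have : r < R₀ / 2 := hrρ.trans_le ((min_le_right _ _).trans (min_le_left _ _))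
    rw [hR]
    linarith
  have h4 : A * R ≤ 1 := by
    have h5 : r < 1 / (2 * A) := hrρ.trans_le ((min_le_right _ _).trans (min_le_right _ _))
    have h6 : r * (2 * A) < 1 := by rwa [lt_div_iff₀ (by positivity)] at h5
    rw [hR]
    linarith
  have hR1 : R ≤ 1 := h1.le.trans hρ1
  have hCA : C ≤ A := by
    rw [hA]
    have h5 : 0 ≤ (m : ℝ) * K * nP := by positivity
    have h6 : 0 ≤ (N : ℝ) * (m ^ 2 * K ^ 2 * nP) := by positivity
    linarith
  have hRU' : closedBall x₀ R ⊆ U := (closedBall_subset_closedBall h3.le).trans hRU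
  have hCR : C * R ≤ 1 := (mul_le_mul_of_nonneg_right hCA hR0.le).trans h4
  have hs : Sc U μ ν x₀ (ut τ x₀ P) R (C * R ^ (K + 1)) (C * R ^ (K - 1)) 1 := by
    refine ⟨hR0, by positivity, by positivity, one_pos, le_rfl, ?_, ?_, hRU', ut_gf _,
      (hh' R hR0 h1).1, (hh' R hR0 h1).2, ?_, ?_⟩
    · calc C * R ^ (K + 1) = (C * R) * R ^ K := by rw [pow_succ]; ring
        _ ≤ 1 * R ^ 1 := by
            apply mul_le_mul hCR _ (by positivity) zero_le_one
            exact pow_le_pow_of_le_one hR0.le hR1 hK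
        _ = 1 * R := by rw [pow_one]
    · calc C * R ^ (K - 1) * R = (C * R) * R ^ (K - 1) := by ring
        _ ≤ 1 * 1 := mul_le_mul hCR (pow_le_one₀ hR0.le hR1) (by positivity) zero_le_one
        _ = 1 := one_mul _
    · intro z hz α
      refine (ev_d1 (j := 1) (τ := τ) hN (hPs α) (hPd α) hR0 hR1 hz).trans ?_
      rw [pow_one]
      calc (m : ℝ) * K * nrm 1 (P α) * R ≤ A * R := by
            apply mul_le_mul_of_nonneg_right _ hR0.le
            have := hnPle α
            have h5 : (m : ℝ) * K * nrm 1 (P α) ≤ m * K * nP := by gcongr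
            have h6 : 0 ≤ (N : ℝ) * (m ^ 2 * K ^ 2 * nP) := by positivity
            rw [hA]
            linarith
        _ ≤ 1 := h4
    · intro z hz α
      have h5 := ev_d2 (j := 0) (τ := τ) hN (hPs α) (hPd α) hR0 hR1 hz
      rw [pow_zero, mul_one] at h5
      have h6 : (N : ℝ) * ‖fderiv ℝ (fderiv ℝ (ut τ x₀ P α)) z‖ ≤ N * (m ^ 2 * K ^ 2 * nP) := by
        apply mul_le_mul_of_nonneg_left _ (Nat.cast_nonneg _)
        refine h5.trans ?_
        have := hnPle α
        gcongr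
      refine h6.trans ?_
      rw [le_div_iff₀ hR0]
      refine le_trans ?_ h4
      apply mul_le_mul_of_nonneg_right _ hR0.le
      have h7 : 0 ≤ (m : ℝ) * K * nP := by positivity
      rw [hA]
      linarith
  have hcac := cacc hG hs
  have hmR := hmass R hR0 h2
  have hRr : R / 2 = r := by
    rw [hR]
    ring
  rw [hRr] at hcac
  have hsum : C * R ^ (K + 1) / R + C * R ^ (K - 1) * R = 2 * C * R ^ K := by
    obtain ⟨k, rfl⟩ : ∃ k, K = k + 1 := ⟨K - 1, by omega⟩
    simp only [Nat.add_sub_cancel]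
    rw [pow_succ R (k + 1), pow_succ R k]
    field_simp
    ring
  rw [hsum] at hcac
  have hbound : ∫ z in closedBall x₀ r, JJ (T z) (hh ν x₀ (ut τ x₀ P)) z ∂μ ≤
      C₀' * (2 * C) ^ 2 * M * 2 ^ (m + 2 * K) * r ^ (m + 2 * K) := by
    refine hcac.trans ?_
    calc 16 * (n * (m + 4) + n ^ 2 + n) * (2 * C * R ^ K) ^ 2 * μ.real (closedBall x₀ R)
        ≤ C₀' * (2 * C * R ^ K) ^ 2 * (M * R ^ m) :=
          mul_le_mul_of_nonneg_left hmR (by positivity)
      _ = _ := by
        rw [hR]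
        ring
  have hrU : closedBall x₀ r ⊆ U := (closedBall_subset_closedBall (by rw [hR]; linarith)).trans hRU'
  have hhcs : ∀ α, ContDiff ℝ 2 (hh ν x₀ (ut τ x₀ P) α) := fun α => hh_cd (ut_gf P) α
  have hJi : IntegrableOn (fun z => JJ (T z) (hh ν x₀ (ut τ x₀ P)) z) (closedBall x₀ r) μ := by
    have := int_JJ hG.stat hhcs (fin_cb hG hrU) (k := fun _ => (1:ℝ)) continuous_const
    simpa using this
  calc ∫⁻ z in ball x₀ r, ENNReal.ofReal (‖(T z).starProjection -
        (gp π (Ao ν (ut τ x₀ P) z)).starProjection‖ ^ 2) ∂μ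
      ≤ ∫⁻ z in closedBall x₀ r, ENNReal.ofReal (‖(T z).starProjection -
        (gp π (Ao ν (ut τ x₀ P) z)).starProjection‖ ^ 2) ∂μ :=
        lintegral_mono_set ball_subset_closedBall
    _ ≤ ∫⁻ z in closedBall x₀ r, ENNReal.ofReal (2 * JJ (T z) (hh ν x₀ (ut τ x₀ P)) z) ∂μ := by
        apply lintegral_mono_ae
        filter_upwards [ae_facts hG hrU] with z hz
        apply ENNReal.ofReal_le_ofReal
        have e1 := norm_sub_le_defect (T z) (gp π (Ao ν (ut τ x₀ P) z))
          (by rw [hz.1, finrank_gp (Ao_vert (ut_gf P) z)])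
        have e2 := defect_JJ (ν := ν) (x₀ := x₀) (ut_gf (τ := τ) (x₀ := x₀) P) (T z) z
        linarith
    _ = ENNReal.ofReal (∫ z in closedBall x₀ r, 2 * JJ (T z) (hh ν x₀ (ut τ x₀ P)) z ∂μ) := by
        rw [ofReal_integral_eq_lintegral_ofReal (hJi.const_mul 2)]
        filter_upwards with z
        have := JJ_nonneg (T z) (hh ν x₀ (ut τ x₀ P)) z
        show 0 ≤ 2 * JJ (T z) (hh ν x₀ (ut τ x₀ P)) z
        positivity
    _ ≤ _ := by
        apply ENNReal.ofReal_le_ofReal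
        rw [integral_const_mul]
        linarith

end Pool.Agent.Helper68X
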