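import Pool.Agent.Helper68X.Stm5

/-!
From the Taylor series to a smooth graph.
-/

set_option autoImplicit false

namespace Pool.Agent.Helper68X

open MeasureTheory Set Filter Topology Metric Pool.Agent.TH337.VF Pool.Agent.Helper68V
open scoped ENNReal RealInnerProductSpace ContDiff

variable {N m n : ℕ} {U : Set (E N)} {μ : Measure (E N)} {T : E N → Submodule ℝ (E N)}
  {π : Submodule ℝ (E N)} {x₀ : E N} {τ : OrthonormalBasis (Fin m) ℝ π}
  {ν : OrthonormalBasis (Fin n) ℝ πᗮ} {B θ : ℝ} {Bd : Set (E N)}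

/-- expansion data for general functions -/
def ExpS (μ : Measure (E N)) (ν : OrthonormalBasis (Fin n) ℝ πᗮ) (x₀ : E N) (K : ℕ)
    (u : Fin n → E N → ℝ) : Prop :=
  ∃ C ρ : ℝ, 0 < C ∧ 0 < ρ ∧ ρ ≤ 1 ∧ ∀ r, 0 < r → r < ρ →
    (∀ z ∈ μ.support, z ∈ closedBall x₀ r → ∀ α, |hh ν x₀ u α z| ≤ C * r ^ (K + 1)) ∧
    ∀ z ∈ closedBall x₀ r, ∀ α, |Fo ν u α z| ≤ C * r ^ (K - 1)

/-- bounds of the first two derivatives -/
def Bd2 (x₀ : E N) (u : Fin n → E N → ℝ) : Prop :=
  ∃ A ρ : ℝ, 0 ≤ A ∧ 0 < ρ ∧ ∀ r, 0 < r → r < ρ → ∀ z ∈ closedBall x₀ r, ∀ α,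
    ‖fderiv ℝ (u α) z‖ ≤ A * r ∧ ‖fderiv ℝ (fderiv ℝ (u α)) z‖ ≤ A

/-- **the tilt** -/
lemma tilt_gen (hW : Wd m U μ T π τ x₀ B θ Bd) {K : ℕ} (hK : 1 ≤ K)
    {u : Fin n → E N → ℝ} (hu : GF π u) (hb : Bd2 x₀ u) (hE : ExpS μ ν x₀ K u) :
    ∃ C ρ : ℝ, 0 < ρ ∧ ∀ r, 0 < r → r < ρ →
      ∫⁻ z in ball x₀ r, ENNReal.ofReal (‖(T z).starProjection -
        (gp π (Ao ν u z)).starProjection‖ ^ 2) ∂μ ≤ ENNReal.ofReal (C * r ^ (m + 2 * K)) := by
  obtain ⟨C, ρ, hC, hρ, hρ1, hh'⟩ := hE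
  obtain ⟨A₀, ρ₀, hA₀, hρ₀, hb⟩ := hb
  obtain ⟨ρm, hρm, hmass⟩ := hW.mass
  obtain ⟨R₀, hR₀, hRU⟩ := hW.nbd
  have hG := hW.glo
  have hB := hW.B0
  set A : ℝ := A₀ + N * A₀ + C + 1 with hA
  have hA0 : 0 < A := by positivity
  set M : ℝ := (B + 1) * 2 ^ m with hM
  set C₀' : ℝ := 16 * (n * (m + 4) + n ^ 2 + n) with hC₀'
  refine ⟨2 * (C₀' * (2 * C) ^ 2 * M * 2 ^ (m + 2 * K)), min (min (min (ρ / 2) (ρ₀ / 2)) (ρm / 2))
    (min (R₀ / 2) (1 / (2 * A))), by positivity, ?_⟩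
  intro r hr hrρ
  set R : ℝ := 2 * r with hR
  have hR0 : 0 < R := by positivity
  have h1 : R < ρ := by
    have : r < ρ / 2 := hrρ.trans_le ((min_le_left _ _).trans ((min_le_left _ _).trans
      (min_le_left _ _)))
    rw [hR]
    linarith
  have h0 : R < ρ₀ := by
    have : r < ρ₀ / 2 := hrρ.trans_le ((min_le_left _ _).trans ((min_le_left _ _).trans
      (min_le_right _ _)))
    rw [hR]
    linarith
  have h2 : R < ρm := by
    have : r < ρm / 2 := hrρ.trans_le ((min_le_left _ _).trans (min_le_right _ _))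
    rw [hR]
    linarith
  have h3 : R < R₀ := by
    have : r < R₀ / 2 := hrρ.trans_le ((min_le_right _ _).trans (min_le_left _ _))
    rw [hR]
    linarith
  have h4 : A * R ≤ 1 := by
    have h5 : r < 1 / (2 * A) := hrρ.trans_le ((min_le_right _ _).trans (min_le_right _ _))
    have h6 : r * (2 * A) < 1 := by rwa [lt_div_iff₀ (by positivity)] at h5
    rw [hR]
    linarith
  have hR1 : R ≤ 1 := h1.le.trans hρ1
  have hNA : 0 ≤ (N : ℝ) * A₀ := by positivity
  have hCA : C ≤ A := by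
    rw [hA]
    linarith
  have hRU' : closedBall x₀ R ⊆ U := (closedBall_subset_closedBall h3.le).trans hRU
  have hCR : C * R ≤ 1 := (mul_le_mul_of_nonneg_right hCA hR0.le).trans h4
  have hs : Sc U μ ν x₀ u R (C * R ^ (K + 1)) (C * R ^ (K - 1)) 1 := by
    refine ⟨hR0, by positivity, by positivity, one_pos, le_rfl, ?_, ?_, hRU', hu,
      (hh' R hR0 h1).1, (hh' R hR0 h1).2, ?_, ?_⟩
    · calc C * R ^ (K + 1) = (C * R) * R ^ K := by rw [pow_succ]; ring
        _ ≤ 1 * R ^ 1 := by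
            apply mul_le_mul hCR _ (by positivity) zero_le_one
            exact pow_le_pow_of_le_one hR0.le hR1 hK
        _ = 1 * R := by rw [pow_one]
    · calc C * R ^ (K - 1) * R = (C * R) * R ^ (K - 1) := by ring
        _ ≤ 1 * 1 := mul_le_mul hCR (pow_le_one₀ hR0.le hR1) (by positivity) zero_le_one
        _ = 1 := one_mul _
    · intro z hz α
      refine ((hb R hR0 h0 z hz α).1).trans (le_trans ?_ h4)
      apply mul_le_mul_of_nonneg_right _ hR0.le
      rw [hA]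
      linarith
    · intro z hz α
      have h6 : (N : ℝ) * ‖fderiv ℝ (fderiv ℝ (u α)) z‖ ≤ N * A₀ :=
        mul_le_mul_of_nonneg_left (hb R hR0 h0 z hz α).2 (Nat.cast_nonneg _)
      refine h6.trans ?_
      rw [le_div_iff₀ hR0]
      refine le_trans ?_ h4
      apply mul_le_mul_of_nonneg_right _ hR0.le
      rw [hA]
      linarith
  have hcac := cacc hG hs
  have hmR := hmass R hR0 h2
  have hRr : R / 2 = r := by
    rw [hR]
    ring
  rw [hRr] at hcac
  have hsum : C * R ^ (K + 1) / R + C * R ^ (K - 1) * R = 2 * C * R ^ K := by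
    obtain ⟨k, rfl⟩ : ∃ k, K = k + 1 := ⟨K - 1, by omega⟩
    simp only [Nat.add_sub_cancel]
    rw [pow_succ R (k + 1), pow_succ R k]
    field_simp
    ring
  rw [hsum] at hcac
  have hbound : ∫ z in closedBall x₀ r, JJ (T z) (hh ν x₀ u) z ∂μ ≤
      C₀' * (2 * C) ^ 2 * M * 2 ^ (m + 2 * K) * r ^ (m + 2 * K) := by
    refine hcac.trans ?_
    calc 16 * (n * (m + 4) + n ^ 2 + n) * (2 * C * R ^ K) ^ 2 * μ.real (closedBall x₀ R)
        ≤ C₀' * (2 * C * R ^ K) ^ 2 * (M * R ^ m) :=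
          mul_le_mul_of_nonneg_left hmR (by positivity)
      _ = _ := by
        rw [hR]
        ring
  have hrU : closedBall x₀ r ⊆ U := (closedBall_subset_closedBall (by rw [hR]; linarith)).trans hRU'
  have hhcs : ∀ α, ContDiff ℝ 2 (hh ν x₀ u α) := fun α => hh_cd hu α
  have hJi : IntegrableOn (fun z => JJ (T z) (hh ν x₀ u) z) (closedBall x₀ r) μ := by
    have := int_JJ hG.stat hhcs (fin_cb hG hrU) (k := fun _ => (1:ℝ)) continuous_const
    simpa using this
  calc ∫⁻ z in ball x₀ r, ENNReal.ofReal (‖(T z).starProjection -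
        (gp π (Ao ν u z)).starProjection‖ ^ 2) ∂μ
      ≤ ∫⁻ z in closedBall x₀ r, ENNReal.ofReal (‖(T z).starProjection -
        (gp π (Ao ν u z)).starProjection‖ ^ 2) ∂μ :=
        lintegral_mono_set ball_subset_closedBall
    _ ≤ ∫⁻ z in closedBall x₀ r, ENNReal.ofReal (2 * JJ (T z) (hh ν x₀ u) z) ∂μ := by
        apply lintegral_mono_ae
        filter_upwards [ae_facts hG hrU] with z hz
        apply ENNReal.ofReal_le_ofReal
        have e1 := norm_sub_le_defect (T z) (gp π (Ao ν u z))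
          (by rw [hz.1, finrank_gp (Ao_vert hu z)])
        have e2 := defect_JJ (ν := ν) (x₀ := x₀) hu (T z) z
        linarith
    _ = ENNReal.ofReal (∫ z in closedBall x₀ r, 2 * JJ (T z) (hh ν x₀ u) z ∂μ) := by
        rw [ofReal_integral_eq_lintegral_ofReal (hJi.const_mul 2)]
        filter_upwards with z
        have := JJ_nonneg (T z) (hh ν x₀ u) z
        show 0 ≤ 2 * JJ (T z) (hh ν x₀ u) z
        positivity
    _ ≤ _ := by
        apply ENNReal.ofReal_le_ofReal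
        rw [integral_const_mul]
        linarith

/-- the vertical map with components `u` -/
noncomputable def vmap (ν : OrthonormalBasis (Fin n) ℝ πᗮ) (x₀ : E N) (u : Fin n → E N → ℝ)
    (z : E N) : E N := πᗮ.starProjection x₀ + ∑ α, u α z • (ν α : E N)

lemma vm_fd {u : Fin n → E N → ℝ} (hu : GF π u) (z : E N) : fderiv ℝ (vmap ν x₀ u) z = Ao ν u z := by
  have h1 : ∀ α, HasFDerivAt (fun z => u α z • (ν α : E N))
      ((fderiv ℝ (u α) z).smulRight (ν α : E N)) z := fun α =>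
    (((hu.cd α).differentiable two_ne_zero z).hasFDerivAt).smul_const _
  have h2 := (HasFDerivAt.fun_sum (u := Finset.univ) fun α _ => h1 α).const_add
    (πᗮ.starProjection x₀)
  exact h2.fderiv

lemma vm_ff {u : Fin n → E N → ℝ} (hu : GF π u) (z a b : E N) :
    fderiv ℝ (fderiv ℝ (vmap ν x₀ u)) z a b =
      ∑ α, fderiv ℝ (fderiv ℝ (u α)) z a b • (ν α : E N) := by
  have e0 : fderiv ℝ (vmap ν x₀ u) = fun z => Ao ν u z := by
    funext z
    exact vm_fd hu z
  have hd : ∀ α, DifferentiableAt ℝ (fderiv ℝ (u α)) z := fun α => cd_fderiv (hu.cd α) z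
  have h0 : ∀ α, HasFDerivAt (fun z => (fderiv ℝ (u α) z).smulRight (ν α : E N))
      ((ContinuousLinearMap.smulRightL ℝ (E N) (E N)).flip (ν α : E N) ∘L
        (fderiv ℝ (fderiv ℝ (u α)) z)) z := by
    intro α
    exact ((ContinuousLinearMap.smulRightL ℝ (E N) (E N)).flip (ν α : E N)).hasFDerivAt.comp z
      (hd α).hasFDerivAt
  have h2 := HasFDerivAt.fun_sum (u := Finset.univ) fun α _ => h0 α
  have h3 : fderiv ℝ (fun z => Ao ν u z) z =
      ∑ α, ((ContinuousLinearMap.smulRightL ℝ (E N) (E N)).flip (ν α : E N) ∘L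
        (fderiv ℝ (fderiv ℝ (u α)) z)) := h2.fderiv
  rw [e0, h3, sum_apply, sum_apply]
  rfl

lemma vm_second {u : Fin n → E N → ℝ} (hu : GF π u) (hm : Module.finrank ℝ π = m) (z : E N)
    (t : Fin m → E N) (ht : Orthonormal ℝ t)
    (htp : ∀ i, t i ∈ Helper68V.Pub.tangentPlane π (vmap ν x₀ u) z) :
    ∑ i, Helper68V.Pub.secondDerivative (vmap ν x₀ u) z (t i) (t i) =
      ∑ α, Fo ν u α z • (ν α : E N) := by
  set S := gp π (Ao ν u z) with hS
  have htS : ∀ i, t i ∈ S := by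
    intro i
    have h1 : t i ∈ gp π (fderiv ℝ (vmap ν x₀ u) z) := htp i
    rw [vm_fd hu] at h1
    exact h1
  have hfr : Module.finrank ℝ S = m := by
    rw [hS, finrank_gp (Ao_vert hu z), hm]
  have hto : Orthonormal ℝ (fun i => (⟨t i, htS i⟩ : S)) := by
    rw [← S.subtypeₗᵢ.orthonormal_comp_iff]
    exact ht
  have hspan : ⊤ ≤ Submodule.span ℝ (Set.range fun i => (⟨t i, htS i⟩ : S)) := by
    rw [hto.linearIndependent.span_eq_top_of_card_eq_finrank' (by rw [hfr, Fintype.card_fin])]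
  set bt : OrthonormalBasis (Fin m) ℝ S := OrthonormalBasis.mk hto hspan with hbt
  have hbti : ∀ i, ((bt i : S) : E N) = t i := by
    intro i
    rw [hbt, OrthonormalBasis.coe_mk]
  have h1 : ∀ α, Fo ν u α z = ∑ i, fderiv ℝ (fderiv ℝ (u α)) z (t i) (t i) := by
    intro α
    unfold Fo lap
    rw [← hS, trace_pi (τ := bt)]
    refine Finset.sum_congr rfl fun i _ => ?_
    rw [hbti]
  unfold Helper68V.Pub.secondDerivative
  rw [Finset.sum_congr rfl fun i _ => vm_ff hu z (t i) (t i), Finset.sum_comm]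
  refine Finset.sum_congr rfl fun α _ => ?_
  rw [h1, Finset.sum_smul]

/-- `V = (μ, T)` has infinite order of contact at `x₀` with a smooth graph over the plane `π` which is minimal to
infinite order at `x₀`: there is a smooth map `u`, a function of the projection to `π` only and with values orthogonal
to `π`, such that the graph `{z | z = π z + u z}` passes through `x₀`, is tangent to `π` there, and for every `K`
the vertical distance of the points `z` of the support of `μ` to the graph is `O(|z - x₀|^K)`, for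
orthonormal bases `t₁, …, tₘ` of the tangent planes of the graph `|∑ D²u(z)(tᵢ, tᵢ)| = O(|z - x₀|^K)`, and the
integral over the ball of radius `r` about `x₀` of the squared distance of `T z` to the tangent plane of the graph
is `O(r^K)`. -/
def InfiniteContact (m : ℕ) (μ : Measure (EuclideanSpace ℝ (Fin N)))
    (T : EuclideanSpace ℝ (Fin N) → Submodule ℝ (EuclideanSpace ℝ (Fin N)))
    (π : Submodule ℝ (EuclideanSpace ℝ (Fin N))) (x₀ : EuclideanSpace ℝ (Fin N)) : Prop :=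
  ∃ u : EuclideanSpace ℝ (Fin N) → EuclideanSpace ℝ (Fin N), ContDiff ℝ ∞ u ∧
    (∀ z, u z = u (π.starProjection z)) ∧ (∀ z, u z ∈ πᗮ) ∧
    x₀ = π.starProjection x₀ + u x₀ ∧ fderiv ℝ u x₀ = 0 ∧ ∀ K : ℕ, ∃ C ρ : ℝ, 0 < ρ ∧
      (∀ z ∈ μ.support, dist z x₀ < ρ → ‖z - (π.starProjection z + u z)‖ ≤ C * dist z x₀ ^ K) ∧
      (∀ z, dist z x₀ < ρ → ∀ t : Fin m → EuclideanSpace ℝ (Fin N), Orthonormal ℝ t →
        (∀ i, t i ∈ Helper68V.Pub.tangentPlane π u z) →
        ‖∑ i, Helper68V.Pub.secondDerivative u z (t i) (t i)‖ ≤ C * dist z x₀ ^ K) ∧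
      ∀ r, 0 < r → r < ρ →
        ∫⁻ z in ball x₀ r, Helper68V.Pub.tilt π u z (T z) ∂μ ≤ ENNReal.ofReal (C * r ^ K)

end Pool.Agent.Helper68X
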