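import Pool.Agent.Helper68X.Ser2

/-!
The Taylor series of a stationary varifold: the definitions of the final theorem and the passage from the
internal versions.
-/

set_option autoImplicit false

namespace Pool.Agent.Helper68X

open MeasureTheory Set Filter Topology Metric Pool.Agent.TH337.VF Pool.Agent.Helper68V
open scoped ENNReal RealInnerProductSpace ContDiff

variable {N m n : ℕ}

/-- The vertical displacement of the graph of a tuple of polynomials: with orthonormal bases `τ` of the plane `π` and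
`ν` of its orthogonal complement, `z ↦ ∑_α P_α(⟨τ_1, z - x₀⟩, …, ⟨τ_m, z - x₀⟩) ν_α`. -/
noncomputable def polyMap {π : Submodule ℝ (E N)} (τ : OrthonormalBasis (Fin m) ℝ π)
    (ν : OrthonormalBasis (Fin n) ℝ πᗮ) (x₀ : E N) (P : Fin n → MvPolynomial (Fin m) ℝ) (z : E N) :
    E N :=
  ∑ α, MvPolynomial.eval (fun i => ⟪(τ i : E N), z - x₀⟫) (P α) • (ν α : E N)

/-- The partial sum of order `K` of a series of tuples of polynomials. -/
noncomputable def partialSum (Q : ℕ → Fin n → MvPolynomial (Fin m) ℝ) (K : ℕ) (α : Fin n) :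
    MvPolynomial (Fin m) ℝ :=
  ∑ j ∈ Finset.range (K + 1), Q j α

/-- `Q = ∑_j Q_j` (with `Q_j` homogeneous of degree `j`) is the Taylor series at `x₀` of the support of `μ` over the plane
`π`: for every `K ≥ 1` the points `z` of the support satisfy
`|π^⊥(z - x₀) - ∑_{j ≤ K} Q_j(π(z - x₀))| = O(|z - x₀|^(K+1))`. -/
def IsTaylorSeries {π : Submodule ℝ (E N)} (μ : Measure (E N)) (τ : OrthonormalBasis (Fin m) ℝ π)
    (ν : OrthonormalBasis (Fin n) ℝ πᗮ) (x₀ : E N) (Q : ℕ → Fin n → MvPolynomial (Fin m) ℝ) : Prop :=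
  (∀ j α, (Q j α).IsHomogeneous j) ∧ ∀ K, 1 ≤ K → ∃ C ρ : ℝ, 0 < ρ ∧ ∀ z ∈ μ.support, dist z x₀ < ρ →
    ‖πᗮ.starProjection (z - x₀) - polyMap τ ν x₀ (partialSum Q K) z‖ ≤ C * dist z x₀ ^ (K + 1)

/-- The graph of `u` over `π` is minimal at `x₀` up to order `k`: for orthonormal vectors `t₁, …, tₘ` in its tangent
plane above `z`, `|∑ D²u(z)(tᵢ, tᵢ)| = O(|z - x₀|^k)`. -/
def MinimalUpTo (m k : ℕ) (π : Submodule ℝ (E N)) (u : E N → E N) (x₀ : E N) : Prop :=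
  ∃ C ρ : ℝ, 0 < ρ ∧ ∀ z, dist z x₀ < ρ → ∀ t : Fin m → E N, Orthonormal ℝ t →
    (∀ i, t i ∈ Helper68V.Pub.tangentPlane π u z) →
    ‖∑ i, Helper68V.Pub.secondDerivative u z (t i) (t i)‖ ≤ C * dist z x₀ ^ k

/-- Decay of the tilt: the integral over the ball of radius `r` about `x₀` of the squared distance of `T z` to the tangent
plane of the graph of `u` is `O(r^(m + 2 k))`. -/
def TiltUpTo (m k : ℕ) (μ : Measure (E N)) (T : E N → Submodule ℝ (E N)) (π : Submodule ℝ (E N))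
    (u : E N → E N) (x₀ : E N) : Prop :=
  ∃ C ρ : ℝ, 0 < ρ ∧ ∀ r, 0 < r → r < ρ →
    ∫⁻ z in ball x₀ r, Helper68V.Pub.tilt π u z (T z) ∂μ ≤ ENNReal.ofReal (C * r ^ (m + 2 * k))

section

variable {U : Set (E N)} {μ : Measure (E N)} {T : E N → Submodule ℝ (E N)}
  {π : Submodule ℝ (E N)} {x₀ : E N} {τ : OrthonormalBasis (Fin m) ℝ π}
  {ν : OrthonormalBasis (Fin n) ℝ πᗮ} {B θ : ℝ} {Bd : Set (E N)}

lemma norm_comb_le (c : Fin n → ℝ) : ‖∑ α, c α • (ν α : E N)‖ ≤ ∑ α, |c α| := by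
  refine (norm_sum_le _ _).trans (Finset.sum_le_sum fun α _ => ?_)
  have h : ‖(ν α : E N)‖ = 1 := ν.orthonormal.1 α
  rw [norm_smul, h, mul_one, Real.norm_eq_abs]

lemma le_norm_comb (c : Fin n → ℝ) (α : Fin n) : |c α| ≤ ‖∑ α, c α • (ν α : E N)‖ := by
  apply abs_le_of_sq_le_sq _ (norm_nonneg _)
  rw [norm_comb]
  exact Finset.single_le_sum (f := fun α => c α ^ 2) (fun _ _ => by positivity) (Finset.mem_univ α)

lemma vert_eq (P : Fin n → Pol m) (z : E N) : πᗮ.starProjection (z - x₀) - polyMap τ ν x₀ P z =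
    ∑ α, hh ν x₀ (ut τ x₀ P) α z • (ν α : E N) := by
  rw [perp_eq (ν := ν)]
  unfold polyMap
  rw [← Finset.sum_sub_distrib]
  refine Finset.sum_congr rfl fun α _ => ?_
  rw [← sub_smul]
  rfl

lemma pm_fd (P : Fin n → Pol m) (z : E N) :
    fderiv ℝ (polyMap τ ν x₀ P) z = Ao ν (ut τ x₀ P) z := by
  have h1 : ∀ α, HasFDerivAt (fun z => ut τ x₀ P α z • (ν α : E N))
      ((fderiv ℝ (ut τ x₀ P α) z).smulRight (ν α : E N)) z := fun α =>
    (((ev_cd (P α) 2).differentiable two_ne_zero z).hasFDerivAt).smul_const _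
  have h2 := HasFDerivAt.fun_sum (u := Finset.univ) fun α _ => h1 α
  exact h2.fderiv

lemma pm_ff (P : Fin n → Pol m) (z a b : E N) :
    fderiv ℝ (fderiv ℝ (polyMap τ ν x₀ P)) z a b =
      ∑ α, fderiv ℝ (fderiv ℝ (ut τ x₀ P α)) z a b • (ν α : E N) := by
  have e0 : fderiv ℝ (polyMap τ ν x₀ P) = fun z => Ao ν (ut τ x₀ P) z := by
    funext z
    exact pm_fd P z
  have hd : ∀ α, DifferentiableAt ℝ (fderiv ℝ (ut τ x₀ P α)) z := fun α =>
    cd_fderiv (ev_cd (P α) 2) z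
  have h0 : ∀ α, HasFDerivAt (fun z => (fderiv ℝ (ut τ x₀ P α) z).smulRight (ν α : E N))
      ((ContinuousLinearMap.smulRightL ℝ (E N) (E N)).flip (ν α : E N) ∘L
        (fderiv ℝ (fderiv ℝ (ut τ x₀ P α)) z)) z := by
    intro α
    exact ((ContinuousLinearMap.smulRightL ℝ (E N) (E N)).flip (ν α : E N)).hasFDerivAt.comp z
      (hd α).hasFDerivAt
  have h2 := HasFDerivAt.fun_sum (u := Finset.univ) fun α _ => h0 α
  have h3 : fderiv ℝ (fun z => Ao ν (ut τ x₀ P) z) z =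
      ∑ α, ((ContinuousLinearMap.smulRightL ℝ (E N) (E N)).flip (ν α : E N) ∘L
        (fderiv ℝ (fderiv ℝ (ut τ x₀ P α)) z)) := h2.fderiv
  rw [e0, h3, sum_apply, sum_apply]
  rfl

lemma second_sum (P : Fin n → Pol m) (hm : Module.finrank ℝ π = m) (z : E N) (t : Fin m → E N)
    (ht : Orthonormal ℝ t)
    (htp : ∀ i, t i ∈ Helper68V.Pub.tangentPlane π (polyMap τ ν x₀ P) z) :
    ∑ i, Helper68V.Pub.secondDerivative (polyMap τ ν x₀ P) z (t i) (t i) =
      ∑ α, Fo ν (ut τ x₀ P) α z • (ν α : E N) := by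
  set S := gp π (Ao ν (ut τ x₀ P) z) with hS
  have htS : ∀ i, t i ∈ S := by
    intro i
    have h1 : t i ∈ gp π (fderiv ℝ (polyMap τ ν x₀ P) z) := htp i
    rw [pm_fd] at h1
    exact h1
  have hfr : Module.finrank ℝ S = m := by
    rw [hS, finrank_gp (Ao_vert (ut_gf P) z), hm]
  have hto : Orthonormal ℝ (fun i => (⟨t i, htS i⟩ : S)) := by
    rw [← S.subtypeₗᵢ.orthonormal_comp_iff]
    exact ht
  have hspan : ⊤ ≤ Submodule.span ℝ (Set.range fun i => (⟨t i, htS i⟩ : S)) := by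
    rw [hto.linearIndependent.span_eq_top_of_card_eq_finrank' (by rw [hfr, Fintype.card_fin])]
  set bt : OrthonormalBasis (Fin m) ℝ S := OrthonormalBasis.mk hto hspan with hbt
  have hbti : ∀ i, ((bt i : S) : E N) = t i := by
    intro i
    rw [hbt, OrthonormalBasis.coe_mk]
  have h1 : ∀ α, Fo ν (ut τ x₀ P) α z =
      ∑ i, fderiv ℝ (fderiv ℝ (ut τ x₀ P α)) z (t i) (t i) := by
    intro α
    unfold Fo lap
    rw [← hS, trace_pi (τ := bt)]
    refine Finset.sum_congr rfl fun i _ => ?_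
    rw [hbti]
  unfold Helper68V.Pub.secondDerivative
  rw [Finset.sum_congr rfl fun i _ => pm_ff P z (t i) (t i), Finset.sum_comm]
  refine Finset.sum_congr rfl fun α _ => ?_
  rw [h1, Finset.sum_smul]

/-- **from the internal version** -/
theorem final (hN : S_NRM) (hW : Wd m U μ T π τ x₀ B θ Bd)
    (hE : ∀ K, 1 ≤ K → ∃ P : Fin n → Pol m, Exp μ τ ν x₀ K P) :
    ∃ Q : ℕ → Fin n → MvPolynomial (Fin m) ℝ, IsTaylorSeries μ τ ν x₀ Q ∧
      (∀ Q', IsTaylorSeries μ τ ν x₀ Q' → Q' = Q) ∧ (∀ α, Q 0 α = 0) ∧ (∀ α, Q 1 α = 0) ∧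
      ∀ K, 1 ≤ K → MinimalUpTo m (K - 1) π (polyMap τ ν x₀ (partialSum Q K)) x₀ ∧
        TiltUpTo m K μ T π (polyMap τ ν x₀ (partialSum Q K)) x₀ := by
  obtain ⟨Q, hQh, hQ0, hQ⟩ := series hN hW hE
  have hT : IsTaylorSeries μ τ ν x₀ Q := by
    refine ⟨hQh, fun K hK => ?_⟩
    obtain ⟨-, -, C, ρ, hC, hρ, hρ1, h⟩ := hQ K hK
    refine ⟨n * C, ρ, hρ, fun z hz hzρ => ?_⟩
    apply lim_r hzρ
    intro r hr hrρ
    have hr0 : 0 < r := dist_nonneg.trans_lt hr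
    have h1 := (h r hr0 hrρ).1 z hz (mem_closedBall.2 hr.le)
    have h2 : partialSum Q K = psum Q K := rfl
    rw [h2, vert_eq]
    refine (norm_comb_le _).trans ?_
    calc ∑ α, |hh ν x₀ (ut τ x₀ (psum Q K)) α z| ≤ ∑ _α : Fin n, C * r ^ (K + 1) :=
          Finset.sum_le_sum fun α _ => h1 α
      _ = n * C * r ^ (K + 1) := by
        rw [Finset.sum_const, Finset.card_univ, Fintype.card_fin, nsmul_eq_mul]
        ring
  have hconv : ∀ Q' : ℕ → Fin n → Pol m, IsTaylorSeries μ τ ν x₀ Q' → ∀ K, 1 ≤ K →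
      ∃ C ρ : ℝ, 0 < ρ ∧ ∀ r, 0 < r → r < ρ → ∀ z ∈ μ.support, z ∈ closedBall x₀ r → ∀ α,
        |hh ν x₀ (ut τ x₀ (psum Q' K)) α z| ≤ C * r ^ (K + 1) := by
    intro Q' hQ' K hK
    obtain ⟨C, ρ, hρ, h⟩ := hQ'.2 K hK
    refine ⟨|C|, ρ, hρ, fun r hr hrρ z hz hzr α => ?_⟩
    have hd : dist z x₀ ≤ r := mem_closedBall.1 hzr
    have h1 := h z hz (hd.trans_lt hrρ)
    have h2 : partialSum Q' K = psum Q' K := rfl
    rw [h2, vert_eq] at h1
    refine (le_norm_comb (ν := ν) (fun α => hh ν x₀ (ut τ x₀ (psum Q' K)) α z) α).trans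
      (h1.trans ?_)
    have h3 : dist z x₀ ^ (K + 1) ≤ r ^ (K + 1) := pow_le_pow_left₀ dist_nonneg hd _
    calc C * dist z x₀ ^ (K + 1) ≤ |C| * dist z x₀ ^ (K + 1) :=
          mul_le_mul_of_nonneg_right (le_abs_self C) (by positivity)
      _ ≤ |C| * r ^ (K + 1) := mul_le_mul_of_nonneg_left h3 (abs_nonneg _)
  refine ⟨Q, hT, ?_, hQ0 0 (by norm_num), hQ0 1 le_rfl, fun K hK => ⟨?_, ?_⟩⟩
  · intro Q' hQ'
    exact series_unique hN hW hQh hQ'.1 (hconv Q hT) (hconv Q' hQ')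
  · obtain ⟨-, -, C, ρ, hC, hρ, hρ1, h⟩ := hQ K hK
    refine ⟨n * C, ρ, hρ, fun z hzρ t ht htp => ?_⟩
    apply lim_r hzρ
    intro r hr hrρ
    have hr0 : 0 < r := dist_nonneg.trans_lt hr
    have h1 := (h r hr0 hrρ).2 z (mem_closedBall.2 hr.le)
    rw [second_sum (partialSum Q K) hW.glo.dimπ z t ht htp]
    refine (norm_comb_le _).trans ?_
    calc ∑ α, |Fo ν (ut τ x₀ (psum Q K)) α z| ≤ ∑ _α : Fin n, C * r ^ (K - 1) :=
          Finset.sum_le_sum fun α _ => h1 α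
      _ = n * C * r ^ (K - 1) := by
        rw [Finset.sum_const, Finset.card_univ, Fintype.card_fin, nsmul_eq_mul]
        ring
  · obtain ⟨C, ρ, hρ, h⟩ := tilt_exp hN hW hK (hQ K hK)
    refine ⟨C, ρ, hρ, fun r hr hrρ => ?_⟩
    refine le_trans (le_of_eq ?_) (h r hr hrρ)
    apply lintegral_congr
    intro z
    have e : Helper68V.Pub.tangentPlane π (polyMap τ ν x₀ (partialSum Q K)) z =
        gp π (Ao ν (ut τ x₀ (psum Q K)) z) := by
      have h1 : Helper68V.Pub.tangentPlane π (polyMap τ ν x₀ (partialSum Q K)) z =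
          gp π (fderiv ℝ (polyMap τ ν x₀ (partialSum Q K)) z) := rfl
      rw [h1, pm_fd]
      rfl
    exact congrArg (fun S : Submodule ℝ (EuclideanSpace ℝ (Fin N)) =>
      ENNReal.ofReal (‖(T z).starProjection - S.starProjection‖ ^ 2)) e

end

end Pool.Agent.Helper68X
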