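import Mathlib
import Pool.Agent.Helper68X.TDef

/-!
Project JET (helper68), MP_8daebb_an: last pieces (Borel lemma, the almost everywhere version).
-/

set_option autoImplicit false

namespace Pool.Agent.Helper68X

open MeasureTheory Set Filter Topology Metric Pool.Agent.TH337.VF Pool.Agent.Helper68V
open scoped ENNReal RealInnerProductSpace ContDiff

/-- **BOR.** Borel's lemma: a smooth function of the horizontal variable with given Taylor series at `x₀`, with the
estimates of the remainder and of its first two derivatives. Paper proof: let `χ` be a smooth function on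
`EuclideanSpace ℝ (Fin m)`, `χ = 1` near `0`, `χ = 0` for `‖y‖ ≥ 1`, `G_j(y) = χ(y) Q_j(y)` and
`g_j(x) = χ(λ_j x) Q_j(x) = λ_j^(-j) G_j(λ_j x)`; then `‖D^k g_j‖ ≤ λ_j^(k - j) sup ‖D^k G_j‖ ≤ 2^(-j)` for `k ≤ j - 1` if
`λ_j ≥ 1` is large (finitely many conditions), so `u₀ = ∑ g_j` is smooth (`contDiff_tsum`) and may be differentiated
termwise twice (`fderiv_tsum`). For `k ≤ 2 ≤ j` one has `‖D^k G_j(y)‖ ≤ c_j ‖y‖^(j-k)` and `G_j = 0` off the unit ball, so
`‖D^k g_j(x)‖ ≤ c_j ‖x‖^(j-k)` and `= 0` for `λ_j ‖x‖ ≥ 1`, which is `≤ c_j λ_j⁻¹ ‖x‖^(K+1-k) ≤ 2^(-j) ‖x‖^(K+1-k)` for `j ≥ K + 2`;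
near `0` the terms `j ≤ K + 1` are the polynomials themselves. Finally `u z = u₀ (crd z)` (a linear map of norm `≤ 1`
composed with a translation). -/
def S_BOR : Prop := ∀ (N m : ℕ) (π : Submodule ℝ (E N)) (τ : OrthonormalBasis (Fin m) ℝ π) (x₀ : E N)
  (Q : ℕ → Pol m), (∀ j, (Q j).IsHomogeneous j) → ∃ u : E N → ℝ, ContDiff ℝ ∞ u ∧
    (∀ z, u z = u (x₀ + π.starProjection (z - x₀))) ∧ ∀ K : ℕ, ∃ C ρ : ℝ, 0 ≤ C ∧ 0 < ρ ∧ ∀ z, dist z x₀ < ρ →
      |u z - ev (fun i => (τ i : E N)) x₀ (∑ j ∈ Finset.range (K + 1), Q j) z| ≤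
        C * dist z x₀ ^ (K + 1) ∧
      ‖fderiv ℝ u z - fderiv ℝ (ev (fun i => (τ i : E N)) x₀ (∑ j ∈ Finset.range (K + 1), Q j)) z‖ ≤
        C * dist z x₀ ^ K ∧
      ‖fderiv ℝ (fderiv ℝ u) z -
        fderiv ℝ (fderiv ℝ (ev (fun i => (τ i : E N)) x₀ (∑ j ∈ Finset.range (K + 1), Q j))) z‖ ≤
        C * dist z x₀ ^ (K - 1)

/-- **AE.** For a stationary varifold with integral densities almost every point is a point of density zero of the set
where the density is different. Paper proof: `{density ≥ q}` is relatively closed in `U` (`TH337.VF.lower`: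
if `x₀ ∈ U` is a limit of points of density `≥ q` then `q ω_m R^m ≤ μ (ball x₀ R)` for all small `R`), so
`M_k = U ∩ {density = k} = U ∩ {density ≥ k} \ ⋃_j {density ≥ k + 1/(j+1)}` is measurable; apply
`Helper68V.ae_upperDens_zero` to `M_k` (and `x ∈ U`, the complement of `U` does not matter near `x`), for all `k : ℕ`. -/
def S_AE : Prop := ∀ (N m : ℕ) (U : Set (E N)) (μ : Measure (E N)) (T : E N → Submodule ℝ (E N)),
  1 ≤ m → IsOpen U → Helper68V.Pub.IsStationaryVarifold m U μ T →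
  (∀ᵐ x ∂(μ.restrict U), ∃ k : ℕ, 1 ≤ k ∧ density m μ x = k) →
  ∀ᵐ x ∂(μ.restrict U), upperDens m μ {z | density m μ z ≠ density m μ x} x = 0

end Pool.Agent.Helper68X
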