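import Pool.Agent.Helper68X.Har

/-!
Values at the good points, and the supremum over all points of the support.
-/

set_option autoImplicit false

namespace Pool.Agent.Helper68X

open MeasureTheory Set Filter Topology Metric Pool.Agent.TH337.VF Pool.Agent.Helper68V
open scoped ENNReal RealInnerProductSpace ContDiff

variable {N m n : ℕ} {U : Set (E N)} {μ : Measure (E N)} {T : E N → Submodule ℝ (E N)}
  {π : Submodule ℝ (E N)} {ν : OrthonormalBasis (Fin n) ℝ πᗮ} {x₀ : E N} {u : Fin n → E N → ℝ}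
  {r e F η : ℝ} {f : ℝ → ℝ}

/-- the test function of the mean value inequality -/
noncomputable def tf (h₀ : E N → ℝ) (h : Fin n → E N → ℝ) (c lam k : ℝ) (a : E N) (y : E N) : ℝ :=
  (c + h₀ y) + (lam / 2 * (∑ β, h β y * h β y) + k * ‖y - a‖ ^ 2)

lemma tf_cd {h₀ : E N → ℝ} {h : Fin n → E N → ℝ} (hh₀ : ContDiff ℝ 2 h₀)
    (hh' : ∀ α, ContDiff ℝ 2 (h α)) (c lam k : ℝ) (a : E N) : ContDiff ℝ 2 (tf h₀ h c lam k a) :=
  (contDiff_const.add hh₀).add
    ((contDiff_const.mul (ContDiff.sum fun α _ => (hh' α).mul (hh' α))).add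
      (contDiff_const.mul (sq_contDiff2 a)))

lemma tf_lap {h₀ : E N → ℝ} {h : Fin n → E N → ℝ} (hh₀ : ContDiff ℝ 2 h₀)
    (hh' : ∀ α, ContDiff ℝ 2 (h α)) (c lam k : ℝ) (a : E N) (S : Submodule ℝ (E N)) (z : E N) :
    lap S (tf h₀ h c lam k a) z = lap S h₀ z + (lam * (JJ S h z + ∑ α, h α z * lap S (h α) z) +
      k * (2 * Module.finrank ℝ S)) := by
  have hs : ContDiff ℝ 2 (fun y => ∑ β, h β y * h β y) :=
    ContDiff.sum fun α _ => (hh' α).mul (hh' α)
  unfold tf
  rw [lap_add (contDiff_const.add hh₀) ((contDiff_const.mul hs).add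
      (contDiff_const.mul (sq_contDiff2 a))), lap_add contDiff_const hh₀, lap_const,
    lap_add (contDiff_const.mul hs) (contDiff_const.mul (sq_contDiff2 a)), lap_smul hs,
    lap_smul (sq_contDiff2 a), lap_sqs hh', lap_sq]
  ring

/-- **the value at a good point** -/
lemma near (hD : S_DEN) (hG : Glo m U μ T π) (hs : Sc U μ ν x₀ u r e F η) (hf : Ker f) {a : E N}
    (ha : a ∈ closedBall x₀ (r / 2)) {s : ℝ} (hs0 : 0 < s) (hsr : s ≤ r / 2) {B ε : ℝ} (hB : 0 ≤ B)
    (low : ∀ t, 0 < t → t ≤ s → B * t ^ m ≤ μ.real (ball a t))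
    (up : ∀ t, 0 < t → t ≤ s → μ.real (ball a t) ≤ (B + ε) * t ^ m) (α : Fin n) :
    |cf m f * B * hh ν x₀ u α a * s ^ m -
      ∫ y in closedBall a s, hh ν x₀ u α y * f (‖y - a‖ ^ 2 / s ^ 2) ∂μ| ≤
      cf m f * s ^ m * (ε * e + (B + ε) * ((1 + n) ^ 2 * (η * e + F * r ^ 2))) := by
  have hr := hs.r0
  have he := hs.e0
  have hF := hs.F0
  have hη := hs.η0
  have hη1 := hs.η1
  have hR2 : 0 < r ^ 2 := by positivity
  have hsubI : closedBall a s ⊆ closedBall x₀ r := by
    intro y hy
    rw [mem_closedBall] at hy ha ⊢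
    linarith [dist_triangle y a x₀]
  have hIU : closedBall a s ⊆ U := hsubI.trans hs.sub
  have hfinI := fin_cb hG hIU
  have hfinm : IsFiniteMeasure (μ.restrict (closedBall a s)) := ⟨by simpa using hfinI⟩
  have hhc : ∀ α, ContDiff ℝ 2 (hh ν x₀ u α) := fun α => hh_cd hs.gf α
  have hmpos : (1 : ℝ) ≤ m := by exact_mod_cast hG.hm
  have hcf := hD.pos m f hG.hm hf
  have hnn := hD.nonneg f hf
  set b : ℝ := 1 + n * η with hb
  have hb0 : 0 ≤ b := by positivity
  set K : ℝ := b * F + b ^ 2 * (η * e) / (2 * r ^ 2) with hK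
  have hK0 : 0 ≤ K := by positivity
  set G₀ : ℝ := (1 + n) ^ 2 * (η * e + F * r ^ 2) with hG₀
  have hfc : Continuous fun y : E N => f (‖y - a‖ ^ 2 / s ^ 2) := by
    have h1 : Continuous fun y : E N => ‖y - a‖ ^ 2 / s ^ 2 := by fun_prop
    exact hf.smooth.continuous.comp h1
  have hintf : IntegrableOn (fun y : E N => f (‖y - a‖ ^ 2 / s ^ 2)) (closedBall a s) μ :=
    integrableOn_cb hfinI hfc
  have hup : ∫ y in closedBall a s, f (‖y - a‖ ^ 2 / s ^ 2) ∂μ ≤ cf m f * (B + ε) * s ^ m := by
    apply hD.upper N m f (μ.restrict (closedBall a s)) a s (B + ε) hG.hm hf hfinm hs0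
    intro t ht hts
    have h4 : (μ.restrict (closedBall a s)).real (ball a t) = μ.real (ball a t) := by
      rw [measureReal_restrict_apply measurableSet_ball]
      congr 1
      exact inter_eq_left.2 (ball_subset_closedBall.trans (closedBall_subset_closedBall hts))
    rw [h4]
    exact up t ht hts
  -- the one-sided inequality
  have key : ∀ σ : ℝ, |σ| = 1 → σ * (cf m f * B * hh ν x₀ u α a * s ^ m -
      ∫ y in closedBall a s, hh ν x₀ u α y * f (‖y - a‖ ^ 2 / s ^ 2) ∂μ) ≤
      cf m f * s ^ m * (ε * e + (B + ε) * G₀) := by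
    intro σ hσ
    have hσc : ContDiff ℝ 2 (fun y => σ * hh ν x₀ u α y) := contDiff_const.mul (hhc α)
    set g : E N → ℝ := tf (fun y => σ * hh ν x₀ u α y) (hh ν x₀ u) e (η / e) (K / (2 * m)) a with hg
    have hgc : ContDiff ℝ 2 g := tf_cd hσc hhc _ _ _ _
    have hbound : ∀ y ∈ μ.support, y ∈ closedBall a s → 0 ≤ e + σ * hh ν x₀ u α y ∧
        0 ≤ g y - (e + σ * hh ν x₀ u α y) ∧ g y - (e + σ * hh ν x₀ u α y) ≤ G₀ := by
      intro y hys hya
      have h1 : |σ * hh ν x₀ u α y| ≤ e := by
        rw [abs_mul, hσ, one_mul]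
        exact hs.h y hys (hsubI hya) α
      have h2 : 0 ≤ ∑ β, hh ν x₀ u β y * hh ν x₀ u β y :=
        Finset.sum_nonneg fun α _ => mul_self_nonneg _
      have h3 : ∑ β, hh ν x₀ u β y * hh ν x₀ u β y ≤ n * e ^ 2 := by
        calc ∑ β, hh ν x₀ u β y * hh ν x₀ u β y ≤ ∑ _α : Fin n, e ^ 2 := by
              refine Finset.sum_le_sum fun β _ => ?_
              have := hs.h y hys (hsubI hya) β
              rw [← sq, ← sq_abs]
              exact pow_le_pow_left₀ (abs_nonneg _) this 2
          _ = n * e ^ 2 := by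
            rw [Finset.sum_const, Finset.card_univ, Fintype.card_fin, nsmul_eq_mul]
      have h4 : g y - (e + σ * hh ν x₀ u α y) = η / e / 2 * (∑ β, hh ν x₀ u β y * hh ν x₀ u β y) +
          K / (2 * m) * ‖y - a‖ ^ 2 := by
        simp only [hg, tf]
        ring
      have h5 : ‖y - a‖ ^ 2 ≤ r ^ 2 := by
        rw [mem_closedBall, dist_eq_norm] at hya
        exact pow_le_pow_left₀ (norm_nonneg _) (by linarith) 2
      refine ⟨by linarith [neg_abs_le (σ * hh ν x₀ u α y)], ?_, ?_⟩
      · rw [h4]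
        positivity
      · rw [h4]
        have h6 : η / e / 2 * (∑ β, hh ν x₀ u β y * hh ν x₀ u β y) ≤ η / e / 2 * (n * e ^ 2) :=
          mul_le_mul_of_nonneg_left h3 (by positivity)
        have h7 : η / e / 2 * (n * e ^ 2) = n * (η * e) / 2 := by
          field_simp
        have h8 : K / (2 * m) * ‖y - a‖ ^ 2 ≤ K * r ^ 2 := by
          have h9 : K / (2 * m) ≤ K := div_le_self hK0 (by linarith)
          exact mul_le_mul h9 h5 (by positivity) hK0
        have h9 : K * r ^ 2 = b * (F * r ^ 2) + b ^ 2 * (η * e) / 2 := by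
          rw [hK]
          field_simp
        have hn0 : (0 : ℝ) ≤ n := Nat.cast_nonneg n
        have h10 : b ≤ 1 + n := by
          rw [hb]
          nlinarith
        have h11 : b ^ 2 ≤ (1 + n) ^ 2 := pow_le_pow_left₀ hb0 h10 2
        have h12 : b ≤ (1 + n) ^ 2 := by nlinarith
        have h13 : (n : ℝ) ≤ (1 + n) ^ 2 := by nlinarith
        have p1 : 0 ≤ η * e := by positivity
        have p2 : 0 ≤ F * r ^ 2 := by positivity
        have h14 := mul_le_mul_of_nonneg_right h11 p1
        have h15 := mul_le_mul_of_nonneg_right h12 p2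
        have h16 := mul_le_mul_of_nonneg_right h13 p1
        rw [hG₀]
        linarith
    have hmv := MV hD hG.hm hf hG.stat hG.dim hgc hIU hs0 (B := B) (g := g) (a := a) (R := s)
      (by
        filter_upwards [Measure.support_mem_ae (μ := μ)] with z hz hza
        have := hbound z hz hza
        linarith [this.1, this.2.1])
      (by
        have h1 : ∀ᵐ z ∂μ, z ∈ closedBall a s → Module.finrank ℝ (T z) = Module.finrank ℝ π ∧
          z ∈ μ.support := (ae_restrict_iff' measurableSet_closedBall).1 (ae_facts hG hIU)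
        filter_upwards [h1] with z hz hza
        obtain ⟨hzd, hzs⟩ := hz hza
        have hzr := hsubI hza
        rw [hg, tf_lap hσc hhc, lap_smul (hhc α)]
        have hJ := JJ_nonneg (T z) (hh ν x₀ u) z
        have e1 := hs.lap hzd hzr α
        have e2 := sum_h hs hzd hzr hzs
        have hq0 := Real.sqrt_nonneg (2 * JJ (T z) (hh ν x₀ u) z)
        have hq2 : Real.sqrt (2 * JJ (T z) (hh ν x₀ u) z) ^ 2 = 2 * JJ (T z) (hh ν x₀ u) z :=
          Real.sq_sqrt (by positivity)
        set J := JJ (T z) (hh ν x₀ u) z with hJd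
        set q := Real.sqrt (2 * J) with hq
        have e3 : -(F + η / r * q) ≤ σ * lap (T z) (hh ν x₀ u α) z := by
          have h2 : |σ * lap (T z) (hh ν x₀ u α) z| ≤ F + η / r * q := by
            rw [abs_mul, hσ, one_mul]
            exact e1
          exact (neg_le_neg h2).trans (neg_abs_le _)
        have e4 : -(n * e * (F + η / r * q)) ≤
            ∑ α, hh ν x₀ u α z * lap (T z) (hh ν x₀ u α) z :=
          (neg_le_neg e2).trans (neg_abs_le _)
        have e5 : η / e * (-(n * e * (F + η / r * q))) ≤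
            η / e * ∑ α, hh ν x₀ u α z * lap (T z) (hh ν x₀ u α) z :=
          mul_le_mul_of_nonneg_left e4 (by positivity)
        have e6 : η / e * (-(n * e * (F + η / r * q))) = -(n * η * (F + η / r * q)) := by
          field_simp
        have e7 : K / (2 * m) * (2 * (Module.finrank ℝ (T z) : ℝ)) = K := by
          rw [hzd, hG.dimπ]
          field_simp
        have e8 : 0 ≤ η * ((q - b * e / r) ^ 2 / (2 * e)) := by positivity
        have e9 : η * ((q - b * e / r) ^ 2 / (2 * e)) =
            η / e * (q ^ 2 / 2) - b * (η / r * q) + b ^ 2 * (η * e) / (2 * r ^ 2) := by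
          field_simp
          ring
        rw [hq2] at e9
        rw [e7, mul_add, hK]
        rw [e6] at e5
        have e10 : b * F + b * (η / r * q) = (F + η / r * q) + n * η * (F + η / r * q) := by
          rw [hb]
          ring
        linarith) hB low
    have hga : e + σ * hh ν x₀ u α a ≤ g a := by
      simp only [hg, tf]
      have h2 : 0 ≤ ∑ β, hh ν x₀ u β a * hh ν x₀ u β a :=
        Finset.sum_nonneg fun α _ => mul_self_nonneg _
      have : 0 ≤ η / e / 2 * (∑ β, hh ν x₀ u β a * hh ν x₀ u β a) +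
          K / (2 * m) * ‖a - a‖ ^ 2 := by positivity
      linarith
    have hinth : IntegrableOn (fun y : E N => hh ν x₀ u α y * f (‖y - a‖ ^ 2 / s ^ 2))
        (closedBall a s) μ := integrableOn_cb hfinI ((hhc α).continuous.mul hfc)
    have hle : ∫ y in closedBall a s, g y * f (‖y - a‖ ^ 2 / s ^ 2) ∂μ ≤
        ∫ y in closedBall a s, ((e + G₀) * f (‖y - a‖ ^ 2 / s ^ 2) +
          σ * (hh ν x₀ u α y * f (‖y - a‖ ^ 2 / s ^ 2))) ∂μ := by
      apply integral_mono_ae (integrableOn_cb hfinI (hgc.continuous.mul hfc))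
        ((hintf.const_mul _).add (hinth.const_mul _))
      filter_upwards [ae_facts hG hIU, ae_restrict_mem measurableSet_closedBall] with y hy hya
      have h1 := (hbound y hy.2 hya).2.2
      have h2 := mul_le_mul_of_nonneg_right h1 (hnn (‖y - a‖ ^ 2 / s ^ 2))
      show g y * f (‖y - a‖ ^ 2 / s ^ 2) ≤ (e + G₀) * f (‖y - a‖ ^ 2 / s ^ 2) +
          σ * (hh ν x₀ u α y * f (‖y - a‖ ^ 2 / s ^ 2))
      nlinarith
    rw [integral_add (hintf.const_mul _) (hinth.const_mul _), integral_const_mul,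
      integral_const_mul] at hle
    have hG₀0 : 0 ≤ G₀ := by positivity
    have h5 : (e + G₀) * ∫ y in closedBall a s, f (‖y - a‖ ^ 2 / s ^ 2) ∂μ ≤
        (e + G₀) * (cf m f * (B + ε) * s ^ m) := mul_le_mul_of_nonneg_left hup (by positivity)
    have h6 : cf m f * B * (e + σ * hh ν x₀ u α a) * s ^ m ≤ cf m f * B * g a * s ^ m := by
      have : 0 ≤ cf m f * B := by positivity
      have hsm : 0 ≤ s ^ m := by positivity
      exact mul_le_mul_of_nonneg_right (mul_le_mul_of_nonneg_left hga this) hsm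
    have h7 : cf m f * B * (e + σ * hh ν x₀ u α a) * s ^ m =
        cf m f * B * e * s ^ m + σ * (cf m f * B * hh ν x₀ u α a * s ^ m) := by ring
    have h8 : (e + G₀) * (cf m f * (B + ε) * s ^ m) - cf m f * B * e * s ^ m =
        cf m f * s ^ m * (ε * e + (B + ε) * G₀) := by ring
    rw [mul_sub]
    linarith
  rw [abs_le]
  constructor
  · have := key (-1) (by norm_num)
    linarith
  · have := key 1 (by norm_num)
    linarith

end Pool.Agent.Helper68X
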