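import Pool.Agent.Helper68X.Lin
import Pool.Agent.Helper68X.Stm

/-!
Weighted monotonicity with a general kernel, and the mean value inequality.
-/

set_option autoImplicit false

namespace Pool.Agent.Helper68X

open MeasureTheory Set Filter Topology Metric Pool.Agent.TH337.VF Pool.Agent.Helper68V
open scoped ENNReal RealInnerProductSpace ContDiff

variable {N : ℕ}

/-- a weight with an antiderivative -/
structure KH (f f' : ℝ → ℝ) (H : ℝ → ℝ → ℝ) : Prop where
  wt : Wt f f'
  hder : ∀ r, 0 < r → ∀ s, HasDerivAt (H r) ((1 / 2) * f (s / r ^ 2)) s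
  hnonpos : ∀ r, 0 < r → ∀ s, 0 ≤ s → H r s ≤ 0
  cd : ∀ r, 0 < r → ContDiff ℝ 2 (H r)
  hzero : ∀ r, 0 < r → ∀ s, r ^ 2 ≤ s → H r s = 0

/-- the weighted test -/
lemma test_w {m : ℕ} {U : Set (E N)} {μ : Measure (E N)} {T : E N → Submodule ℝ (E N)}
    {f f' : ℝ → ℝ} {H : ℝ → ℝ → ℝ} (hK : KH f f' H) (hS : Stat m U μ fun x => (T x).starProjection)
    (hT : ∀ᵐ x ∂(μ.restrict U), Module.finrank ℝ (T x) = m) {g : E N → ℝ} (hg : ContDiff ℝ 2 g)
    {a : E N} {R r : ℝ} (hR : closedBall a R ⊆ U) (hr : 0 < r) (hrR : r ≤ R)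
    (hg0 : ∀ᵐ z ∂μ, z ∈ closedBall a R → 0 ≤ g z)
    (hsub : ∀ᵐ z ∂μ, z ∈ closedBall a R → 0 ≤ lap (T z) g z) :
    ∫ y, g y * (m * f (‖y - a‖ ^ 2 / r ^ 2) +
      2 * (‖y - a‖ ^ 2 / r ^ 2) * f' (‖y - a‖ ^ 2 / r ^ 2)) ∂(μ.restrict (closedBall a R)) ≤ 0 := by
  have hf := hK.wt
  have hr2 : 0 < r ^ 2 := by positivity
  set k : ℝ → ℝ := fun s => f (s / r ^ 2) with hk
  set k' : ℝ → ℝ := fun s => f' (s / r ^ 2) / r ^ 2 with hk'
  have hkd : ∀ s, HasDerivAt k (k' s) s := by
    intro s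
    have h1 : HasDerivAt (fun s : ℝ => s / r ^ 2) (1 / r ^ 2) s := (hasDerivAt_id s).div_const _
    have h2 := (hf.der (s / r ^ 2)).comp s h1
    have e : k' s = f' (s / r ^ 2) * (1 / r ^ 2) := by
      simp only [hk']
      ring
    rw [e]
    exact h2
  have hkc : ContDiff ℝ 1 k := hf.contDiff.comp (contDiff_id.div_const _)
  have hradc : ContDiff ℝ 1 (rad k a) := (hkc.comp (contDiff_sq a)).smul (contDiff_id.sub contDiff_const)
  have hsq2 : ContDiff ℝ 2 (fun y : E N => ‖y - a‖ ^ 2) :=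
    (contDiff_id.sub contDiff_const).norm_sq ℝ
  set Ψ : E N → ℝ := fun y => H r (‖y - a‖ ^ 2) with hΨ
  have hΨc : ContDiff ℝ 2 Ψ := (hK.cd r hr).comp hsq2
  have hg1 : ContDiff ℝ 1 g := hg.of_le (by norm_num)
  set X : E N → E N := fun y => g y • rad k a y + (-Ψ y) • grd g y with hX
  have hXc : ContDiff ℝ 1 X :=
    (hg1.smul hradc).add ((hΨc.of_le (by norm_num)).neg.smul (grd_contDiff hg))
  have hfar : ∀ y, y ∉ closedBall a r → 1 ≤ ‖y - a‖ ^ 2 / r ^ 2 := by
    intro y hy
    have h1 : r < ‖y - a‖ := by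
      rw [mem_closedBall, dist_eq_norm] at hy
      exact not_le.1 hy
    rw [one_le_div hr2]
    exact pow_le_pow_left₀ hr.le h1.le 2
  have hzero : ∀ y, y ∉ closedBall a r → X y = 0 := by
    intro y hy
    have h2 := hfar y hy
    have h3 : Ψ y = 0 := by
      rw [one_le_div hr2] at h2
      exact hK.hzero r hr _ h2
    simp [hX, rad, hk, hf.zero _ h2, h3]
  have hsubX : tsupport X ⊆ closedBall a r := by
    apply closure_minimal _ isClosed_closedBall
    intro y hy
    by_contra hc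
    exact hy (hzero y hc)
  have hcs : HasCompactSupport X := HasCompactSupport.intro (isCompact_closedBall a r) hzero
  have hbR : closedBall a r ⊆ closedBall a R := closedBall_subset_closedBall hrR
  have hstat := hS.stat X hXc hcs (hsubX.trans (hbR.trans hR))
  have hint := (integrable_trc hS hXc hcs (hsubX.trans (hbR.trans hR))).restrict (s := closedBall a R)
  have h3 : ∫ y, trc ((T y).starProjection ∘L fderiv ℝ X y) ∂μ =
      ∫ y, trc ((T y).starProjection ∘L fderiv ℝ X y) ∂(μ.restrict (closedBall a R)) := by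
    symm
    apply setIntegral_eq_integral_of_forall_compl_eq_zero
    intro y hy
    have hy' : y ∉ tsupport X := fun h => hy (hbR (hsubX h))
    rw [fderiv_zero_of_notMem hy', ContinuousLinearMap.comp_zero, trc_zero]
  rw [h3] at hstat
  have : IsFiniteMeasure (μ.restrict (closedBall a R)) :=
    ⟨by simpa using hS.fin _ hR (isCompact_closedBall a R)⟩
  have hdim : ∀ᵐ x ∂(μ.restrict (closedBall a R)), Module.finrank ℝ (T x) = m :=
    ae_restrict_of_ae_restrict_of_subset hR hT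
  rw [← hstat]
  -- integrability of the left side
  have hcontF : Continuous fun y : E N => g y * (m * f (‖y - a‖ ^ 2 / r ^ 2) +
      2 * (‖y - a‖ ^ 2 / r ^ 2) * f' (‖y - a‖ ^ 2 / r ^ 2)) := by
    have h1 : Continuous fun y : E N => ‖y - a‖ ^ 2 / r ^ 2 := by fun_prop
    exact hg.continuous.mul ((continuous_const.mul (hf.contf.comp h1)).add
      ((continuous_const.mul h1).mul (hf.cont.comp h1)))
  have hintF : Integrable (fun y : E N => g y * (m * f (‖y - a‖ ^ 2 / r ^ 2) +
      2 * (‖y - a‖ ^ 2 / r ^ 2) * f' (‖y - a‖ ^ 2 / r ^ 2))) (μ.restrict (closedBall a R)) := by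
    have hc : HasCompactSupport (fun y : E N => g y * (m * f (‖y - a‖ ^ 2 / r ^ 2) +
      2 * (‖y - a‖ ^ 2 / r ^ 2) * f' (‖y - a‖ ^ 2 / r ^ 2))) := by
      apply HasCompactSupport.intro (isCompact_closedBall a r)
      intro y hy
      have h2 := hfar y hy
      simp [hf.zero _ h2, hf.zero' _ h2]
    exact hcontF.integrable_of_hasCompactSupport hc
  apply integral_mono_ae hintF hint
  filter_upwards [hdim, ae_restrict_mem measurableSet_closedBall, ae_restrict_of_ae hg0,
    ae_restrict_of_ae hsub] with y hy hyR hg0y hsuby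
  -- compute the trace
  set P := (T y).starProjection with hP
  have hd1 : Differentiable ℝ (fun y => g y • rad k a y) := (hg1.smul hradc).differentiable one_ne_zero
  have hd2 : Differentiable ℝ (fun y => (-Ψ y) • grd g y) :=
    ((hΨc.of_le (by norm_num)).neg.smul (grd_contDiff hg)).differentiable one_ne_zero
  have hXd : fderiv ℝ X y = fderiv ℝ (fun y => g y • rad k a y) y +
      fderiv ℝ (fun y => (-Ψ y) • grd g y) y := fderiv_add (hd1 y) (hd2 y)
  have e1 : trc (P ∘L fderiv ℝ (fun y => g y • rad k a y) y) =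
      g y * (k (‖y - a‖ ^ 2) * m + 2 * k' (‖y - a‖ ^ 2) * ⟪y - a, P (y - a)⟫) +
        k (‖y - a‖ ^ 2) * fderiv ℝ g y (P (y - a)) := by
    rw [trc_smul_field (hg1.differentiable one_ne_zero) (hradc.differentiable one_ne_zero),
      trc_rad hkd, hP, trc_starProjection, hy]
    congr 1
    unfold rad
    rw [map_smul, map_smul, smul_eq_mul]
  have e2 : trc (P ∘L fderiv ℝ (fun y => (-Ψ y) • grd g y) y) =
      (-Ψ y) * lap (T y) g y - k (‖y - a‖ ^ 2) * fderiv ℝ g y (P (y - a)) := by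
    rw [trc_smul_grd (hΨc.of_le (by norm_num)).neg hg, sub_eq_add_neg]
    congr 1
    have h4' := HasDerivAt.comp_hasFDerivAt (f := fun y : E N => ‖y - a‖ ^ 2) y
      (hK.hder r hr (‖y - a‖ ^ 2)) (hasFDerivAt_sq a y)
    have h4 : HasFDerivAt (fun y => -Ψ y) (-(((1 / 2) * f (‖y - a‖ ^ 2 / r ^ 2)) •
        ((2:ℝ) • innerSL ℝ (y - a)))) y := h4'.neg
    rw [h4.fderiv]
    have h5 : fderiv ℝ g y (P (y - a)) = ⟪y - a, P (grd g y)⟫ := by
      rw [← inner_grd, hP, ← proj_symm, real_inner_comm]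
    rw [h5]
    simp only [neg_apply, smul_apply, innerSL_apply_apply, smul_eq_mul, hk]
    ring
  rw [hXd, ContinuousLinearMap.comp_add, trc_add, e1, e2]
  have h6 : 0 ≤ (-Ψ y) * lap (T y) g y :=
    mul_nonneg (by have := hK.hnonpos r hr (‖y - a‖ ^ 2) (by positivity); simp only [hΨ]; linarith)
      (hsuby hyR)
  have h7 := inner_le_of_norm (hS.nrm y) (y - a)
  have h8 : f' (‖y - a‖ ^ 2 / r ^ 2) ≤ 0 := hf.nonpos _ (by positivity)
  have h9 : k' (‖y - a‖ ^ 2) ≤ 0 := div_nonpos_of_nonpos_of_nonneg h8 hr2.le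
  have h10 : k' (‖y - a‖ ^ 2) * ‖y - a‖ ^ 2 ≤ k' (‖y - a‖ ^ 2) * ⟪y - a, P (y - a)⟫ :=
    mul_le_mul_of_nonpos_left h7 h9
  have h11 : 2 * (‖y - a‖ ^ 2 / r ^ 2) * f' (‖y - a‖ ^ 2 / r ^ 2) =
      2 * (k' (‖y - a‖ ^ 2) * ‖y - a‖ ^ 2) := by
    simp only [hk']
    field_simp
  rw [h11]
  have h12 := hg0y hyR
  have h13 : m * f (‖y - a‖ ^ 2 / r ^ 2) + 2 * (k' (‖y - a‖ ^ 2) * ‖y - a‖ ^ 2) ≤
      k (‖y - a‖ ^ 2) * m + 2 * k' (‖y - a‖ ^ 2) * ⟪y - a, P (y - a)⟫ := by
    simp only [hk]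
    linarith
  have h14 := mul_le_mul_of_nonneg_left h13 h12
  linarith

lemma weighted_w {m : ℕ} {U : Set (E N)} {μ : Measure (E N)} {T : E N → Submodule ℝ (E N)}
    {f f' : ℝ → ℝ} {H : ℝ → ℝ → ℝ} (hK : KH f f' H) (hS : Stat m U μ fun x => (T x).starProjection)
    (hT : ∀ᵐ x ∂(μ.restrict U), Module.finrank ℝ (T x) = m) {g : E N → ℝ} (hg : ContDiff ℝ 2 g)
    {a : E N} {R r : ℝ} (hR : closedBall a R ⊆ U) (hr : 0 < r) (hrR : r ≤ R)
    (hg0 : ∀ᵐ z ∂μ, z ∈ closedBall a R → 0 ≤ g z)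
    (hsub : ∀ᵐ z ∂μ, z ∈ closedBall a R → 0 ≤ lap (T z) g z) :
    (∫ y in closedBall a R, g y * f (‖y - a‖ ^ 2 / r ^ 2) ∂μ) / r ^ m ≤
      (∫ y in closedBall a R, g y * f (‖y - a‖ ^ 2 / R ^ 2) ∂μ) / R ^ m := by
  have hfin : IsFiniteMeasure (μ.restrict (closedBall a R)) :=
    ⟨by simpa using hS.fin _ hR (isCompact_closedBall a R)⟩
  have hgi : Integrable g (μ.restrict (closedBall a R)) :=
    integrableOn_cb (hS.fin _ hR (isCompact_closedBall a R)) hg.continuous
  set ν : Measure (E N) := (μ.restrict (closedBall a R)).withDensity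
    fun y => ENNReal.ofReal (g y) with hν
  have hνfin : IsFiniteMeasure ν := isFiniteMeasure_withDensity_ofReal hgi.2
  have hconv : ∀ F : E N → ℝ, ∫ y, F y ∂ν = ∫ y in closedBall a R, g y * F y ∂μ := by
    intro F
    rw [hν, integral_withDensity_eq_integral_toReal_smul
      (hg.continuous.measurable.ennreal_ofReal) (Eventually.of_forall fun y => ENNReal.ofReal_lt_top)]
    apply integral_congr_ae
    filter_upwards [ae_restrict_mem measurableSet_closedBall, ae_restrict_of_ae hg0] with y hy hy0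
    show (ENNReal.ofReal (g y)).toReal • F y = g y * F y
    rw [ENNReal.toReal_ofReal (hy0 hy), smul_eq_mul]
  have hIe : ∀ x, I f ν a x = ∫ y in closedBall a R, g y * f (‖y - a‖ ^ 2 / x ^ 2) ∂μ :=
    fun x => hconv _
  rw [← hIe, ← hIe]
  apply mono_of_ineq hK.wt ν hr hrR
  intro x hx hxR
  have h1 := test_w hK hS hT hg hR hx hxR hg0 hsub
  rw [← hconv] at h1
  have h2 := (hasDerivAt_I hK.wt ν a hx).1
  have h3 := integrable_wt hK.wt ν a x
  have h4 : ∫ y, (m * f (‖y - a‖ ^ 2 / x ^ 2) + 2 * (‖y - a‖ ^ 2 / x ^ 2) *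
      f' (‖y - a‖ ^ 2 / x ^ 2)) ∂ν =
      m * I f ν a x - x *
      ∫ y, f' (‖y - a‖ ^ 2 / x ^ 2) * (-2 * ‖y - a‖ ^ 2 / x ^ 3) ∂ν := by
    rw [I, ← integral_const_mul, ← integral_const_mul, ← integral_sub (h3.const_mul _)
      (h2.const_mul _)]
    apply integral_congr_ae
    filter_upwards with y
    field_simp
    ring
  rw [h4] at h1
  linarith


/-! ### the kernel -/

lemma Ker.deriv_zero {f : ℝ → ℝ} (h : Ker f) {u : ℝ} (hu : 1 ≤ u) : deriv f u = 0 := by
  have h1 : HasDerivAt f (deriv f u) u := ((h.smooth.differentiable (by simp)) u).hasDerivAt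
  have h2 : HasDerivWithinAt f (deriv f u) (Ici u) u := h1.hasDerivWithinAt
  have h3 : HasDerivWithinAt f 0 (Ici u) u := by
    have h4 : HasDerivWithinAt (fun _ : ℝ => (0:ℝ)) 0 (Ici u) u := hasDerivWithinAt_const _ _ _
    apply h4.congr
    · intro x hx
      exact h.zero x (hu.trans hx)
    · exact h.zero u hu
  exact (uniqueDiffWithinAt_Ici u).eq_deriv _ h2 h3

lemma Ker.wt {f : ℝ → ℝ} (h : Ker f) : Wt f (deriv f) where
  der u := ((h.smooth.differentiable (by simp)) u).hasDerivAt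
  cont := h.smooth.continuous_deriv (by simp)
  nonpos u _ := h.anti u
  zero := h.zero
  zero' u hu := h.deriv_zero hu

/-- the antiderivative of the kernel -/
noncomputable def HH (f : ℝ → ℝ) (r s : ℝ) : ℝ := (1 / 2) * ∫ τ in (r ^ 2)..s, f (τ / r ^ 2)

lemma Ker.kh {f : ℝ → ℝ} (h : Ker f) (hnn : ∀ u, 0 ≤ f u) : KH f (deriv f) (HH f) := by
  have hc : ∀ r : ℝ, Continuous fun τ : ℝ => f (τ / r ^ 2) := fun r =>
    h.smooth.continuous.comp (continuous_id.div_const _)
  have hd : ∀ r s : ℝ, HasDerivAt (HH f r) ((1 / 2) * f (s / r ^ 2)) s := by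
    intro r s
    exact (intervalIntegral.integral_hasDerivAt_right ((hc r).intervalIntegrable _ _)
      ((hc r).stronglyMeasurableAtFilter _ _) (hc r).continuousAt).const_mul (1 / 2)
  refine ⟨h.wt, fun r _ s => hd r s, ?_, ?_, ?_⟩
  · intro r hr s hs
    unfold HH
    rcases le_total s (r ^ 2) with h1 | h1
    · rw [intervalIntegral.integral_symm]
      have := intervalIntegral.integral_nonneg (μ := volume) (f := fun τ => f (τ / r ^ 2)) h1 (fun u _ => hnn _)
      linarith
    · have h2 : ∫ τ in (r ^ 2)..s, f (τ / r ^ 2) = 0 := by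
        rw [intervalIntegral.integral_congr (g := fun _ => (0:ℝ))]
        · simp
        · intro τ hτ
          rw [uIcc_of_le h1] at hτ
          show f (τ / r ^ 2) = 0
          apply h.zero
          rw [one_le_div (by positivity)]
          exact hτ.1
      rw [h2]
      simp
  · intro r hr
    have e : deriv (HH f r) = fun s => (1 / 2) * f (s / r ^ 2) := by
      funext s
      exact (hd r s).deriv
    have h1 : ContDiff ℝ 1 (deriv (HH f r)) := by
      rw [e]
      exact contDiff_const.mul ((h.smooth.of_le (by simp)).comp (contDiff_id.div_const _))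
    have h2 : Differentiable ℝ (HH f r) := fun s => (hd r s).differentiableAt
    rw [show (2 : WithTop ℕ∞) = 1 + 1 by norm_num, contDiff_succ_iff_deriv]
    exact ⟨h2, by simp, h1⟩
  · intro r hr s hs
    unfold HH
    have h2 : ∫ τ in (r ^ 2)..s, f (τ / r ^ 2) = 0 := by
      rw [intervalIntegral.integral_congr (g := fun _ => (0:ℝ))]
      · simp
      · intro τ hτ
        rw [uIcc_of_le hs] at hτ
        show f (τ / r ^ 2) = 0
        apply h.zero
        rw [one_le_div (by positivity)]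
        exact hτ.1
    rw [h2]
    simp

/-- **mean value inequality** -/
theorem MV (hD : S_DEN) {m : ℕ} (hm : 1 ≤ m) {U : Set (E N)} {μ : Measure (E N)}
    {T : E N → Submodule ℝ (E N)} {f : ℝ → ℝ} (hf : Ker f)
    (hS : Stat m U μ fun x => (T x).starProjection)
    (hT : ∀ᵐ x ∂(μ.restrict U), Module.finrank ℝ (T x) = m) {g : E N → ℝ} (hg : ContDiff ℝ 2 g)
    {a : E N} {R : ℝ} (hR : closedBall a R ⊆ U) (hR0 : 0 < R)
    (hg0 : ∀ᵐ z ∂μ, z ∈ closedBall a R → 0 ≤ g z)
    (hsub : ∀ᵐ z ∂μ, z ∈ closedBall a R → 0 ≤ lap (T z) g z) {B : ℝ} (hB : 0 ≤ B)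
    (hdens : ∀ s, 0 < s → s ≤ R → B * s ^ m ≤ μ.real (ball a s)) :
    cf m f * B * g a * R ^ m ≤ ∫ y in closedBall a R, g y * f (‖y - a‖ ^ 2 / R ^ 2) ∂μ := by
  have hfin : IsFiniteMeasure (μ.restrict (closedBall a R)) :=
    ⟨by simpa using hS.fin _ hR (isCompact_closedBall a R)⟩
  have hnn := hD.nonneg f hf
  have hKH := hf.kh hnn
  have hcf := hD.pos m f hm hf
  have hfc : Continuous f := hf.smooth.continuous
  have hcontw : ∀ x : ℝ, Continuous fun y : E N => g y * f (‖y - a‖ ^ 2 / x ^ 2) := by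
    intro x
    have h1 : Continuous fun y : E N => ‖y - a‖ ^ 2 / x ^ 2 := by fun_prop
    exact hg.continuous.mul (hfc.comp h1)
  have hintw : ∀ x : ℝ, IntegrableOn (fun y : E N => g y * f (‖y - a‖ ^ 2 / x ^ 2))
      (closedBall a R) μ := fun x =>
    integrableOn_cb (hS.fin _ hR (isCompact_closedBall a R)) (hcontw x)
  have hintf : ∀ x : ℝ, IntegrableOn (fun y : E N => f (‖y - a‖ ^ 2 / x ^ 2))
      (closedBall a R) μ := fun x => by
    have h1 : Continuous fun y : E N => ‖y - a‖ ^ 2 / x ^ 2 := by fun_prop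
    exact integrableOn_cb (hS.fin _ hR (isCompact_closedBall a R)) (hfc.comp h1)
  -- it suffices to lose δ
  have key : ∀ δ : ℝ, 0 < δ → cf m f * B * (g a - δ) * R ^ m ≤
      ∫ y in closedBall a R, g y * f (‖y - a‖ ^ 2 / R ^ 2) ∂μ := by
    intro δ hδ
    have h1 : ∀ᶠ y in 𝓝 a, g a - δ < g y :=
      hg.continuous.continuousAt.eventually_const_lt (by linarith)
    obtain ⟨s₀, hs₀, hs₀'⟩ := Metric.eventually_nhds_iff_ball.1 h1
    set s : ℝ := min s₀ R with hs
    have hs0 : 0 < s := lt_min hs₀ hR0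
    have hsR : s ≤ R := min_le_right _ _
    have h2 := weighted_w hKH hS hT hg hR hs0 hsR hg0 hsub
    have h3 : cf m f * B * s ^ m ≤ ∫ y in closedBall a R, f (‖y - a‖ ^ 2 / s ^ 2) ∂μ := by
      apply hD.lower N m f (μ.restrict (closedBall a R)) a s B hm hf hfin hs0
      intro t ht hts
      have h4 : (μ.restrict (closedBall a R)).real (ball a t) = μ.real (ball a t) := by
        rw [measureReal_restrict_apply measurableSet_ball]
        congr 1
        exact inter_eq_left.2 (ball_subset_closedBall.trans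
          (closedBall_subset_closedBall (hts.trans hsR)))
      rw [h4]
      exact hdens t ht (hts.trans hsR)
    have h5 : ∫ y in closedBall a R, (g a - δ) * f (‖y - a‖ ^ 2 / s ^ 2) ∂μ ≤
        ∫ y in closedBall a R, g y * f (‖y - a‖ ^ 2 / s ^ 2) ∂μ := by
      apply setIntegral_mono_on ((hintf s).const_mul _) (hintw s) measurableSet_closedBall
      intro y _
      by_cases hy : y ∈ ball a s
      · have h6 : g a - δ < g y := hs₀' y (ball_subset_ball (min_le_left _ _) hy)
        exact mul_le_mul_of_nonneg_right h6.le (hnn _)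
      · have h7 : f (‖y - a‖ ^ 2 / s ^ 2) = 0 := by
          apply hf.zero
          rw [mem_ball, dist_eq_norm, not_lt] at hy
          rw [one_le_div (by positivity)]
          exact pow_le_pow_left₀ hs0.le hy 2
        rw [h7, mul_zero, mul_zero]
    rw [integral_const_mul] at h5
    rcases le_total (g a - δ) 0 with h8 | h8
    · have h9 : cf m f * B * (g a - δ) * R ^ m ≤ 0 := by
        have : 0 ≤ cf m f * B * R ^ m := by positivity
        nlinarith
      refine h9.trans ?_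
      apply integral_nonneg_of_ae
      filter_upwards [ae_restrict_mem measurableSet_closedBall, ae_restrict_of_ae hg0] with y hy hy0
      exact mul_nonneg (hy0 hy) (hnn _)
    · have h9 : (g a - δ) * (cf m f * B * s ^ m) ≤
          ∫ y in closedBall a R, g y * f (‖y - a‖ ^ 2 / s ^ 2) ∂μ :=
        (mul_le_mul_of_nonneg_left h3 h8).trans h5
      have h10 : (g a - δ) * (cf m f * B * s ^ m) / s ^ m ≤
          (∫ y in closedBall a R, g y * f (‖y - a‖ ^ 2 / R ^ 2) ∂μ) / R ^ m :=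
        (div_le_div_of_nonneg_right h9 (by positivity)).trans h2
      rw [le_div_iff₀ (by positivity)] at h10
      refine le_trans (le_of_eq ?_) h10
      field_simp
  have hlim : Tendsto (fun δ : ℝ => cf m f * B * (g a - δ) * R ^ m) (𝓝[>] 0)
      (𝓝 (cf m f * B * (g a - 0) * R ^ m)) := by
    apply tendsto_nhdsWithin_of_tendsto_nhds
    exact ((tendsto_const_nhds.sub tendsto_id).const_mul _).mul_const _
  rw [sub_zero] at hlim
  exact le_of_tendsto hlim (by
    filter_upwards [self_mem_nhdsWithin] with δ hδ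
    exact key δ hδ)

end Pool.Agent.Helper68X
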